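import Mathlib

/-!
# Project MS (MP_a16d94_pr): definitions

Finitely presented groups `G` with `dim H_1(G'; Q) = ∞` have speed exponent 1.
-/

set_option autoImplicit false

namespace Pool.Agent.Helper13.MS

/-- the word length of `g` with respect to `S`: the least length of a product of elements of `S` which equals `g` -/
noncomputable def wordLength {G : Type} [Group G] (S : Set G) (g : G) : ℕ :=
  sInf {m | ∃ l : List G, l.length = m ∧ (∀ x ∈ l, x ∈ S) ∧ l.prod = g}

/-- the expected word length of `X_n = s (ω 1) * ... * s (ω n)`, the `ω i` independent and uniform in the finite set `Ω` -/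
noncomputable def expectedLength {G : Type} [Group G] {Ω : Type} [Fintype Ω] (s : Ω → G) (n : ℕ) : ℝ :=
  (∑ w : Fin n → Ω, (wordLength (Set.range s) (List.ofFn fun i => s (w i)).prod : ℝ)) / (Fintype.card Ω : ℝ) ^ n

/-- the Markov operator of the right random walk with steps `s ω`, `ω` uniform -/
noncomputable def Qop {G Ω : Type} [Group G] [Fintype Ω] (s : Ω → G) (f : G → ℝ) : G → ℝ :=
  fun g => (∑ ω, f (g * s ω)) / (Fintype.card Ω : ℝ)

/-! ## Entropy -/

/-- nonnegative, of total mass one -/
def IsLaw {A : Type} (p : AddMonoidAlgebra ℝ A) : Prop :=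
  (∀ x, 0 ≤ p.coeff x) ∧ (p.coeff.sum fun _ a => a) = 1

/-- Shannon entropy -/
noncomputable def entropy {A : Type} (p : AddMonoidAlgebra ℝ A) : ℝ :=
  p.coeff.sum fun _ a => Real.negMulLog a

/-- a fair choice between `0` and `v` -/
noncomputable def coin {A : Type} [AddCommGroup A] (v : A) : AddMonoidAlgebra ℝ A :=
  AddMonoidAlgebra.single 0 (1 / 2) + AddMonoidAlgebra.single v (1 / 2)

/-- the law of the sum of a random sub-multiset of `S` -/
noncomputable def law {A : Type} [AddCommGroup A] (S : Multiset A) : AddMonoidAlgebra ℝ A :=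
  (S.map coin).prod

/-- the law of `f i`, `i` uniform in the finite type `ι` -/
noncomputable def unif {ι A : Type} [Fintype ι] (f : ι → A) : AddMonoidAlgebra ℝ A :=
  ∑ i, AddMonoidAlgebra.single (f i) (1 / (Fintype.card ι : ℝ))

/-- an entropy-like function of finite multisets in a commutative group -/
structure HFun (V : Type) [CommGroup V] where
  h : Multiset V → ℝ
  zero : h 0 = 0
  mono : ∀ S T, h S ≤ h (S + T)
  one : ∀ v S, h (v ::ₘ S) ≤ h S + Real.log 2
  sub : ∀ S T U, h (S + T + U) + h S ≤ h (S + T) + h (S + U)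
  inv : ∀ (v : V) S, h (S.map fun w => v * w) = h S

/-- the entropy of the random subset sum of a multiset of units of a field -/
noncomputable def hK {K : Type} [Field K] (S : Multiset Kˣ) : ℝ :=
  entropy (law (S.map fun v : Kˣ => (v : K)))

/-- the points `x ^ (L i) * y ^ (L j)`, `i, j < N` -/
def grid {V : Type} [CommGroup V] (x y : V) (L N : ℕ) : Multiset V :=
  (Finset.univ : Finset (Fin N × Fin N)).val.map fun p => x ^ (L * (p.1 : ℕ)) * y ^ (L * (p.2 : ℕ))

/-- `x` and `y` span a free plane: the monomials of a grid of size `N` and mesh `L`, `L ^ 2 ≥ C log N`, have distinct subset sums -/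
def FreePlane {K : Type} [Field K] (x y : K) : Prop :=
  ∃ C : ℝ, 0 < C ∧ ∀ N L : ℕ, 2 ≤ N → 1 ≤ L → C * Real.log N ≤ (L : ℝ) ^ 2 →
    ∀ F : Fin N → Fin N → ℤ, (∀ j k, |F j k| ≤ 1) →
      ∑ j, ∑ k, (F j k : K) * (x ^ (L * (j : ℕ)) * y ^ (L * (k : ℕ))) = 0 → ∀ j k, F j k = 0

/-! ## The macro step -/

open Classical in
/-- first block of a macro step: read two letters `a, b`; record the position before them if they are `α, β` -/
noncomputable def Bop {V Ω : Type} [CommGroup V] [Fintype Ω] (s : Ω → V) (α β : Ω) (F : Multiset V → V → ℝ) :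
    Multiset V → V → ℝ :=
  fun S v => (∑ a, ∑ b, F (if a = α ∧ b = β then v ::ₘ S else S) (v * s a * s b)) / (Fintype.card Ω : ℝ) ^ 2

/-- a macro step: `m` blocks of two letters, the first one is a recording block -/
noncomputable def Aop {V Ω : Type} [CommGroup V] [Fintype Ω] (s : Ω → V) (α β : Ω) (m : ℕ) (F : Multiset V → V → ℝ) :
    Multiset V → V → ℝ :=
  Bop s α β fun S => (Qop s)^[2 * m - 2] (F S)

/-! ## Twisted homomorphisms -/

/-- a character `χ` and a `χ`-equivariant homomorphism `φ` on the derived group -/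
structure Twisted (G : Type) [Group G] (K : Type) [Field K] where
  χ : G →* Kˣ
  φ : G → K
  φ_mul : ∀ a ∈ commutator G, ∀ b ∈ commutator G, φ (a * b) = φ a + φ b
  φ_conj : ∀ g : G, ∀ a ∈ commutator G, φ (g * a * g⁻¹) = (χ g : K) * φ a

/-- `G` contains no free subgroup of rank two -/
def NoFree (G : Type) [Group G] : Prop :=
  ¬ ∃ f : FreeGroup (Fin 2) →* G, Function.Injective f

end Pool.Agent.Helper13.MS
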