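import Pool.Agent.Helper13.MS.Defs

/-!
# MS-EA: laws (basic facts)
-/

set_option autoImplicit false

namespace Pool.Agent.Helper13.MS

variable {A : Type} [AddCommGroup A]

private theorem tot_add (p q : AddMonoidAlgebra ℝ A) :
    ((p + q).coeff.sum fun _ a => a) = (p.coeff.sum fun _ a => a) + (q.coeff.sum fun _ a => a) := by
  rw [AddMonoidAlgebra.coeff_add]
  exact Finsupp.sum_add_index' (fun _ => rfl) (fun _ _ _ => rfl)

private theorem tot_single (a : A) (r : ℝ) :
    ((AddMonoidAlgebra.single a r).coeff.sum fun _ a => a) = r := by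
  rw [AddMonoidAlgebra.coeff_single]
  exact Finsupp.sum_single_index rfl

private theorem tot_mul (p q : AddMonoidAlgebra ℝ A) :
    ((p * q).coeff.sum fun _ a => a) = (p.coeff.sum fun _ a => a) * (q.coeff.sum fun _ a => a) := by
  induction p using AddMonoidAlgebra.induction_linear with
  | zero => simp
  | add x y hx hy => rw [add_mul, tot_add, hx, hy, tot_add, add_mul]
  | single m r =>
    induction q using AddMonoidAlgebra.induction_linear with
    | zero => simp
    | add x y hx hy => rw [mul_add, tot_add, hx, hy, tot_add, mul_add]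
    | single n s => rw [AddMonoidAlgebra.single_mul_single, tot_single, tot_single, tot_single]

private theorem nonneg_single (a : A) {r : ℝ} (hr : 0 ≤ r) (x : A) :
    0 ≤ (AddMonoidAlgebra.single a r).coeff x := by
  classical
  rw [AddMonoidAlgebra.coeff_single, Finsupp.single_apply]
  split_ifs
  · exact hr
  · exact le_refl _

theorem isLaw_single (a : A) : IsLaw (AddMonoidAlgebra.single a (1 : ℝ)) :=
  ⟨nonneg_single a zero_le_one, tot_single a 1⟩

theorem isLaw_one : IsLaw (1 : AddMonoidAlgebra ℝ A) := isLaw_single 0

theorem isLaw_coin (v : A) : IsLaw (coin v) := by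
  constructor
  · intro x
    rw [coin, AddMonoidAlgebra.coeff_add, Finsupp.add_apply]
    exact add_nonneg (nonneg_single _ (by norm_num) x) (nonneg_single _ (by norm_num) x)
  · rw [coin, tot_add, tot_single, tot_single]
    norm_num

theorem isLaw_mul {p q : AddMonoidAlgebra ℝ A} (hp : IsLaw p) (hq : IsLaw q) : IsLaw (p * q) := by
  constructor
  · intro x
    rw [AddMonoidAlgebra.coeff_mul_apply_left]
    exact Finset.sum_nonneg fun y _ => mul_nonneg (hp.1 _) (hq.1 _)
  · rw [tot_mul, hp.2, hq.2, mul_one]

theorem law_zero : law (0 : Multiset A) = 1 := by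
  rw [law, Multiset.map_zero, Multiset.prod_zero]

theorem law_add (S T : Multiset A) : law (S + T) = law S * law T := by
  rw [law, law, law, Multiset.map_add, Multiset.prod_add]

theorem law_cons (v : A) (S : Multiset A) : law (v ::ₘ S) = coin v * law S := by
  rw [law, law, Multiset.map_cons, Multiset.prod_cons]

theorem isLaw_law (S : Multiset A) : IsLaw (law S) := by
  induction S using Multiset.induction with
  | empty =>
    rw [law_zero]
    exact isLaw_one
  | cons v S ih =>
    rw [law_cons]
    exact isLaw_mul (isLaw_coin v) ih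

theorem isLaw_unif {ι : Type} [Fintype ι] [Nonempty ι] (f : ι → A) : IsLaw (unif f) := by
  constructor
  · intro x
    rw [unif, AddMonoidAlgebra.coeff_sum, Finsupp.finsetSum_apply]
    exact Finset.sum_nonneg fun i _ => nonneg_single _ (by positivity) x
  · have key : ∀ (s : Finset ι) (r : ℝ),
        ((∑ i ∈ s, AddMonoidAlgebra.single (f i) r).coeff.sum fun _ a => a) = s.card * r := by
      intro s r
      classical
      induction s using Finset.induction_on with
      | empty => simp
      | insert a s ha ih =>
        rw [Finset.sum_insert ha, tot_add, ih, tot_single, Finset.card_insert_of_notMem ha]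
        push_cast
        ring
    rw [unif, key, Finset.card_univ]
    have h1 : (Fintype.card ι : ℝ) ≠ 0 := by
      exact_mod_cast Fintype.card_ne_zero
    field_simp

theorem entropy_one : entropy (1 : AddMonoidAlgebra ℝ A) = 0 := by
  rw [entropy, AddMonoidAlgebra.one_def, AddMonoidAlgebra.coeff_single,
    Finsupp.sum_single_index Real.negMulLog_zero, Real.negMulLog_one]

/-- the value of a product of laws as a sum over the support of the first factor -/
theorem coeff_mul_eq_sum (p q : AddMonoidAlgebra ℝ A) (x : A) :
    (p * q).coeff x = ∑ y ∈ p.coeff.support, p.coeff y * q.coeff (x - y) := by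
  rw [AddMonoidAlgebra.coeff_mul_apply_left]
  refine Finset.sum_congr rfl fun y _ => ?_
  show p.coeff y * q.coeff (-y + x) = p.coeff y * q.coeff (x - y)
  rw [neg_add_eq_sub]

/-- on any finite set containing the support, the entropy is the sum of `negMulLog` -/
theorem entropy_eq_sum (p : AddMonoidAlgebra ℝ A) (T : Finset A) (hT : p.coeff.support ⊆ T) :
    entropy p = ∑ x ∈ T, Real.negMulLog (p.coeff x) := by
  rw [entropy]
  exact Finsupp.sum_of_support_subset _ hT _ fun _ _ => Real.negMulLog_zero

theorem sum_eq_one {p : AddMonoidAlgebra ℝ A} (hp : IsLaw p) (T : Finset A) (hT : p.coeff.support ⊆ T) :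
    ∑ x ∈ T, p.coeff x = 1 := by
  rw [← hp.2]
  exact (Finsupp.sum_of_support_subset _ hT (fun _ a => a) fun _ _ => rfl).symm

theorem unif_bool {ι : Type} [Fintype ι] [Nonempty ι] (f : ι → A) (v : A) :
    unif (fun p : ι × Bool => f p.1 + if p.2 then v else 0) = coin v * unif f := by
  have h1 : (1 / (Fintype.card (ι × Bool) : ℝ)) = 1 / 2 * (1 / (Fintype.card ι : ℝ)) := by
    rw [Fintype.card_prod, Fintype.card_bool]
    push_cast
    field_simp
  rw [unif, h1, Fintype.sum_prod_type, unif, Finset.mul_sum]
  refine Finset.sum_congr rfl fun i _ => ?_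
  rw [Fintype.sum_bool, coin, add_mul, AddMonoidAlgebra.single_mul_single,
    AddMonoidAlgebra.single_mul_single]
  simp only [if_true, Bool.false_eq_true, if_false, add_zero, zero_add]
  rw [add_comm, add_comm v]

end Pool.Agent.Helper13.MS
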