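import Pool.Agent.Helper13.MS.EA

/-!
# MS-EB: convolution does not decrease entropy; a coin adds at most `log 2`

(1) `(p * q)(x) = ∑ y, p y * q (x - y)`; `negMulLog` is concave (`Real.concaveOn_negMulLog`), so
`negMulLog ((p * q) x) ≥ ∑ y, p y * negMulLog (q (x - y))` (Jensen, `ConcaveOn.le_map_sum`); sum over `x` in a large finite set.
(2) With `m = (a + b) / 2`, `a = q x`, `b = q (x - v)`: `- m log m ≤ - (a/2) log (a/2) - (b/2) log (b/2)` since `m ≥ a/2, b/2`, and
`∑ x, (- (a/2) log (a/2) - (b/2) log (b/2)) = entropy q + log 2`.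
-/

set_option autoImplicit false

namespace Pool.Agent.Helper13.MS

variable {A : Type} [AddCommGroup A]

open Classical in
private theorem shift_sum88 (F : A → ℝ) (y : A) (T : Finset A) :
    ∑ x ∈ T, F (x - y) = ∑ z ∈ T.image (fun x => x - y), F z := by
  rw [Finset.sum_image]
  intro a _ b _ hab
  exact sub_left_injective hab

open Classical in
private theorem shift_ent88 (q : AddMonoidAlgebra ℝ A) (y : A) (T : Finset A)
    (hT : ∀ z ∈ q.coeff.support, y + z ∈ T) :
    ∑ x ∈ T, Real.negMulLog (q.coeff (x - y)) = entropy q := by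
  rw [shift_sum88 (fun z => Real.negMulLog (q.coeff z)) y T]
  refine (entropy_eq_sum q _ fun z hz => ?_).symm
  exact Finset.mem_image.2 ⟨y + z, hT z hz, by abel⟩

open Classical in
private theorem shift_one88 {q : AddMonoidAlgebra ℝ A} (hq : IsLaw q) (y : A) (T : Finset A)
    (hT : ∀ z ∈ q.coeff.support, y + z ∈ T) :
    ∑ x ∈ T, q.coeff (x - y) = 1 := by
  rw [shift_sum88 (fun z => q.coeff z) y T]
  refine sum_eq_one hq _ fun z hz => ?_
  exact Finset.mem_image.2 ⟨y + z, hT z hz, by abel⟩

theorem entropy_le_mul {p q : AddMonoidAlgebra ℝ A} (hp : IsLaw p) (hq : IsLaw q) : entropy q ≤ entropy (p * q) := by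
  classical
  obtain ⟨T, hT⟩ : ∃ T : Finset A, T = (p.coeff.support ×ˢ q.coeff.support).image (fun yz => yz.1 + yz.2) := ⟨_, rfl⟩
  have hTm : ∀ y ∈ p.coeff.support, ∀ z ∈ q.coeff.support, y + z ∈ T := by
    intro y hy z hz
    rw [hT]
    exact Finset.mem_image.2 ⟨(y, z), Finset.mem_product.2 ⟨hy, hz⟩, rfl⟩
  have hsup : (p * q).coeff.support ⊆ T := by
    intro x hx
    rw [Finsupp.mem_support_iff, coeff_mul_eq_sum] at hx
    obtain ⟨y, hy, hxy⟩ := Finset.exists_ne_zero_of_sum_ne_zero hx
    have h1 : q.coeff (x - y) ≠ 0 := right_ne_zero_of_mul hxy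
    have h2 := hTm y hy (x - y) (Finsupp.mem_support_iff.2 h1)
    rwa [add_sub_cancel] at h2
  rw [entropy_eq_sum (p * q) T hsup]
  have h1 : ∀ x ∈ T, ∑ y ∈ p.coeff.support, p.coeff y * Real.negMulLog (q.coeff (x - y)) ≤
      Real.negMulLog ((p * q).coeff x) := by
    intro x _
    rw [coeff_mul_eq_sum]
    have h2 := Real.concaveOn_negMulLog.le_map_sum (t := p.coeff.support) (w := fun y => p.coeff y)
      (p := fun y => q.coeff (x - y)) (fun y _ => hp.1 y) (sum_eq_one hp _ subset_rfl)
      (fun y _ => hq.1 _)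
    simpa only [smul_eq_mul] using h2
  refine le_trans ?_ (Finset.sum_le_sum h1)
  rw [Finset.sum_comm]
  have h3 : ∀ y ∈ p.coeff.support, ∑ x ∈ T, p.coeff y * Real.negMulLog (q.coeff (x - y)) =
      p.coeff y * entropy q := by
    intro y hy
    rw [← Finset.mul_sum, shift_ent88 q y T (hTm y hy)]
  rw [Finset.sum_congr rfl h3, ← Finset.sum_mul, sum_eq_one hp _ subset_rfl, one_mul]

private theorem coin_coeff88 (v : A) (q : AddMonoidAlgebra ℝ A) (x : A) :
    (coin v * q).coeff x = (q.coeff x + q.coeff (x - v)) / 2 := by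
  have key : ∀ (g : A) (r : ℝ), (AddMonoidAlgebra.single g r * q).coeff x = r * q.coeff (x - g) := by
    intro g r
    rcases eq_or_ne r 0 with h0 | h0
    · rw [h0, AddMonoidAlgebra.single_zero, zero_mul, zero_mul]
      rfl
    · rw [coeff_mul_eq_sum, AddMonoidAlgebra.coeff_single, Finsupp.support_single_ne_zero g h0,
        Finset.sum_singleton, Finsupp.single_eq_same]
  rw [coin, add_mul, AddMonoidAlgebra.coeff_add, Finsupp.add_apply, key, key, sub_zero]
  ring

private theorem half88 {a : ℝ} (ha : 0 ≤ a) :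
    Real.negMulLog (a / 2) = Real.negMulLog a / 2 + a / 2 * Real.log 2 := by
  rcases ha.eq_or_lt with h | h
  · rw [← h]
    simp
  · rw [Real.negMulLog, Real.negMulLog, Real.log_div h.ne' two_ne_zero]
    ring

private theorem sub88 {a b : ℝ} (ha : 0 ≤ a) (hb : 0 ≤ b) :
    Real.negMulLog (a + b) ≤ Real.negMulLog a + Real.negMulLog b := by
  have key : ∀ {c d : ℝ}, 0 ≤ c → 0 ≤ d → c * Real.log c ≤ c * Real.log (c + d) := by
    intro c d hc hd
    rcases hc.eq_or_lt with h | h
    · rw [← h]
      simp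
    · exact mul_le_mul_of_nonneg_left (Real.log_le_log h (by linarith)) hc
  have h1 := key ha hb
  have h2 := key hb ha
  rw [add_comm b a] at h2
  rw [Real.negMulLog, Real.negMulLog, Real.negMulLog]
  linarith

theorem entropy_coin_mul_le (v : A) {q : AddMonoidAlgebra ℝ A} (hq : IsLaw q) :
    entropy (coin v * q) ≤ entropy q + Real.log 2 := by
  classical
  obtain ⟨T, hT⟩ : ∃ T : Finset A, T = q.coeff.support ∪ q.coeff.support.image (fun z => v + z) := ⟨_, rfl⟩
  have hT0 : q.coeff.support ⊆ T := by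
    rw [hT]
    exact Finset.subset_union_left
  have hTv : ∀ z ∈ q.coeff.support, v + z ∈ T := by
    intro z hz
    rw [hT]
    exact Finset.mem_union_right _ (Finset.mem_image_of_mem _ hz)
  have hsup : (coin v * q).coeff.support ⊆ T := by
    intro x hx
    rw [Finsupp.mem_support_iff, coin_coeff88] at hx
    by_cases h0 : q.coeff x = 0
    · have h1 : q.coeff (x - v) ≠ 0 := by
        intro h1
        rw [h0, h1] at hx
        norm_num at hx
      have h2 := hTv (x - v) (Finsupp.mem_support_iff.2 h1)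
      rwa [add_sub_cancel] at h2
    · exact hT0 (Finsupp.mem_support_iff.2 h0)
  rw [entropy_eq_sum (coin v * q) T hsup]
  have h1 : ∀ x ∈ T, Real.negMulLog ((coin v * q).coeff x) ≤
      (Real.negMulLog (q.coeff x) / 2 + q.coeff x / 2 * Real.log 2) +
      (Real.negMulLog (q.coeff (x - v)) / 2 + q.coeff (x - v) / 2 * Real.log 2) := by
    intro x _
    rw [coin_coeff88, ← half88 (hq.1 x), ← half88 (hq.1 (x - v)), add_div]
    exact sub88 (div_nonneg (hq.1 _) zero_le_two) (div_nonneg (hq.1 _) zero_le_two)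
  refine (Finset.sum_le_sum h1).trans (le_of_eq ?_)
  rw [Finset.sum_add_distrib, Finset.sum_add_distrib, Finset.sum_add_distrib, ← Finset.sum_div,
    ← Finset.sum_div, ← Finset.sum_mul, ← Finset.sum_mul, ← Finset.sum_div, ← Finset.sum_div,
    ← entropy_eq_sum q T hT0, shift_ent88 q v T hTv, sum_eq_one hq T hT0, shift_one88 hq v T hTv]
  ring

end Pool.Agent.Helper13.MS
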