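import Pool.Agent.Helper13.MS.EA

/-!
# MS-EC: submodularity of the entropy of sums

Let `f = a * c`, `g = b * c`, `m = a * b * c` (convolutions).  Then
`H(abc) + H(c) - H(ac) - H(bc) = ∑_{x,y,z} a x b y c z log (f (x+z) g (y+z) / (m (x+y+z) c z))`, the sum over `x, y, z` in the supports of `a, b, c`
(there all four values are positive).  By `log t ≤ t - 1` it is at most `-1 + ∑_{x,y,z ∈ supports} a x b y f (x+z) g (y+z) / m (x+y+z)`,
and with `w = x + y + z` the last sum is at most `∑_w (∑_y b y f (w - y)) (∑_x a x g (w - x)) / m w = ∑_w m w * m w / m w = 1`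
(all terms are `≥ 0`, so the sum over `z` in the support of `c` may be enlarged to all pairs `(x, y)` for given `w`).
Useful: `H(ac) = - ∑_{x,z} a x c z log f (x+z)` etc.
-/

set_option autoImplicit false

namespace Pool.Agent.Helper13.MS

variable {A : Type} [AddCommGroup A]

private theorem E_mul (p q : AddMonoidAlgebra ℝ A) (φ : A → ℝ) :
    ((p * q).coeff.sum fun w r => r * φ w) =
      p.coeff.sum fun x r => q.coeff.sum fun y s => r * s * φ (x + y) := by
  induction p using AddMonoidAlgebra.induction_linear with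
  | zero => simp
  | add x y hx hy =>
    rw [add_mul, AddMonoidAlgebra.coeff_add, AddMonoidAlgebra.coeff_add,
      Finsupp.sum_add_index' (by simp) (by intros; ring), hx, hy, Finsupp.sum_add_index']
    · intro a
      simp
    · intro a r s
      rw [← Finsupp.sum_add]
      exact Finsupp.sum_congr fun _ _ => by ring
  | single m r =>
    induction q using AddMonoidAlgebra.induction_linear with
    | zero => simp
    | add x y hx hy =>
      rw [mul_add, AddMonoidAlgebra.coeff_add,
        Finsupp.sum_add_index' (by simp) (by intros; ring), hx, hy]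
      rw [AddMonoidAlgebra.coeff_single, Finsupp.sum_single_index (by simp),
        Finsupp.sum_single_index (by simp), Finsupp.sum_single_index (by simp),
        AddMonoidAlgebra.coeff_add, Finsupp.sum_add_index' (by simp) (by intros; ring)]
    | single n s =>
      rw [AddMonoidAlgebra.single_mul_single, AddMonoidAlgebra.coeff_single,
        AddMonoidAlgebra.coeff_single, AddMonoidAlgebra.coeff_single,
        Finsupp.sum_single_index (by simp), Finsupp.sum_single_index (by simp),
        Finsupp.sum_single_index (by simp)]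

private theorem E_mul' (p q : AddMonoidAlgebra ℝ A) (φ : A → ℝ) :
    ((p * q).coeff.sum fun w r => r * φ w) =
      ∑ x ∈ p.coeff.support, ∑ y ∈ q.coeff.support, p.coeff x * q.coeff y * φ (x + y) :=
  E_mul p q φ

private theorem ent_eq (p : AddMonoidAlgebra ℝ A) :
    entropy p = - (p.coeff.sum fun w r => r * Real.log (p.coeff w)) := by
  rw [entropy, Finsupp.sum, Finsupp.sum, ← Finset.sum_neg_distrib]
  exact Finset.sum_congr rfl fun x _ => by rw [Real.negMulLog]; ring

private theorem pos_mul {p q : AddMonoidAlgebra ℝ A} (hp : IsLaw p) (hq : IsLaw q) {x y : A}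
    (hx : 0 < p.coeff x) (hy : 0 < q.coeff y) : 0 < (p * q).coeff (x + y) := by
  rw [coeff_mul_eq_sum]
  refine Finset.sum_pos' (fun z _ => mul_nonneg (hp.1 _) (hq.1 _)) ⟨x, ?_, ?_⟩
  · rw [Finsupp.mem_support_iff]
    exact hx.ne'
  · rw [add_sub_cancel_left]
    exact mul_pos hx hy

private theorem pos_of_mem {p : AddMonoidAlgebra ℝ A} (hp : IsLaw p) {x : A} (hx : x ∈ p.coeff.support) :
    0 < p.coeff x :=
  lt_of_le_of_ne (hp.1 x) (Finsupp.mem_support_iff.mp hx).symm

theorem entropy_submodular {a b c : AddMonoidAlgebra ℝ A} (ha : IsLaw a) (hb : IsLaw b) (hc : IsLaw c) :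
    entropy (a * b * c) + entropy c ≤ entropy (a * c) + entropy (b * c) := by
  classical
  set Sa := a.coeff.support with hSa
  set Sb := b.coeff.support with hSb
  set Sc := c.coeff.support with hSc
  have sa : ∑ x ∈ Sa, a.coeff x = 1 := sum_eq_one ha Sa (Finset.Subset.refl _)
  have sb : ∑ x ∈ Sb, b.coeff x = 1 := sum_eq_one hb Sb (Finset.Subset.refl _)
  have hm : IsLaw (a * b * c) := isLaw_mul (isLaw_mul ha hb) hc
  have hf : IsLaw (a * c) := isLaw_mul ha hc
  have hg : IsLaw (b * c) := isLaw_mul hb hc
  -- the four entropies as triple sums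
  have Hc : entropy c = - ∑ x ∈ Sa, ∑ y ∈ Sb, ∑ z ∈ Sc,
      a.coeff x * b.coeff y * c.coeff z * Real.log (c.coeff z) := by
    rw [ent_eq, Finsupp.sum, ← hSc]
    congr 1
    have : ∀ x ∈ Sa, ∑ y ∈ Sb, ∑ z ∈ Sc, a.coeff x * b.coeff y * c.coeff z * Real.log (c.coeff z) =
        a.coeff x * ∑ z ∈ Sc, c.coeff z * Real.log (c.coeff z) := by
      intro x _
      have : ∀ y ∈ Sb, ∑ z ∈ Sc, a.coeff x * b.coeff y * c.coeff z * Real.log (c.coeff z) =
          b.coeff y * (a.coeff x * ∑ z ∈ Sc, c.coeff z * Real.log (c.coeff z)) := by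
        intro y _
        rw [Finset.mul_sum, Finset.mul_sum]
        exact Finset.sum_congr rfl fun z _ => by ring
      rw [Finset.sum_congr rfl this, ← Finset.sum_mul, sb, one_mul]
    rw [Finset.sum_congr rfl this, ← Finset.sum_mul, sa, one_mul]
  have Hf : entropy (a * c) = - ∑ x ∈ Sa, ∑ y ∈ Sb, ∑ z ∈ Sc,
      a.coeff x * b.coeff y * c.coeff z * Real.log ((a * c).coeff (x + z)) := by
    rw [ent_eq, E_mul' a c fun w => Real.log ((a * c).coeff w)]
    congr 1
    refine Finset.sum_congr rfl fun x _ => ?_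
    have : ∀ y ∈ Sb, ∑ z ∈ Sc, a.coeff x * b.coeff y * c.coeff z * Real.log ((a * c).coeff (x + z)) =
        b.coeff y * ∑ z ∈ Sc, a.coeff x * c.coeff z * Real.log ((a * c).coeff (x + z)) := by
      intro y _
      rw [Finset.mul_sum]
      exact Finset.sum_congr rfl fun z _ => by ring
    rw [Finset.sum_congr rfl this, ← Finset.sum_mul, sb, one_mul]
  have Hg : entropy (b * c) = - ∑ x ∈ Sa, ∑ y ∈ Sb, ∑ z ∈ Sc,
      a.coeff x * b.coeff y * c.coeff z * Real.log ((b * c).coeff (y + z)) := by
    rw [ent_eq, E_mul' b c fun w => Real.log ((b * c).coeff w)]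
    congr 1
    have : ∀ x ∈ Sa, ∑ y ∈ Sb, ∑ z ∈ Sc, a.coeff x * b.coeff y * c.coeff z *
        Real.log ((b * c).coeff (y + z)) =
        a.coeff x * ∑ y ∈ Sb, ∑ z ∈ Sc, b.coeff y * c.coeff z * Real.log ((b * c).coeff (y + z)) := by
      intro x _
      rw [Finset.mul_sum]
      refine Finset.sum_congr rfl fun y _ => ?_
      rw [Finset.mul_sum]
      exact Finset.sum_congr rfl fun z _ => by ring
    rw [Finset.sum_congr rfl this, ← Finset.sum_mul, sa, one_mul]
  have Hm : entropy (a * b * c) = - ∑ x ∈ Sa, ∑ y ∈ Sb, ∑ z ∈ Sc,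
      a.coeff x * b.coeff y * c.coeff z * Real.log ((a * b * c).coeff (x + y + z)) := by
    rw [ent_eq, mul_assoc, E_mul' a (b * c) fun w => Real.log ((a * (b * c)).coeff w)]
    congr 1
    refine Finset.sum_congr rfl fun x _ => ?_
    have h1 := E_mul' b c fun w => a.coeff x * Real.log ((a * (b * c)).coeff (x + w))
    rw [Finsupp.sum] at h1
    have h2 : ∑ y ∈ (b * c).coeff.support, a.coeff x * (b * c).coeff y *
        Real.log ((a * (b * c)).coeff (x + y)) = ∑ y ∈ (b * c).coeff.support, (b * c).coeff y *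
          (a.coeff x * Real.log ((a * (b * c)).coeff (x + y))) :=
      Finset.sum_congr rfl fun y _ => by ring
    rw [h2, h1]
    refine Finset.sum_congr rfl fun y _ => Finset.sum_congr rfl fun z _ => ?_
    rw [add_assoc]
    ring
  -- pointwise inequality
  have key : ∀ x ∈ Sa, ∀ y ∈ Sb, ∀ z ∈ Sc,
      a.coeff x * b.coeff y * c.coeff z * Real.log ((a * c).coeff (x + z)) +
        a.coeff x * b.coeff y * c.coeff z * Real.log ((b * c).coeff (y + z)) -
        a.coeff x * b.coeff y * c.coeff z * Real.log ((a * b * c).coeff (x + y + z)) -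
        a.coeff x * b.coeff y * c.coeff z * Real.log (c.coeff z) ≤
      a.coeff x * b.coeff y * ((a * c).coeff (x + z) * (b * c).coeff (y + z) /
        (a * b * c).coeff (x + y + z)) - a.coeff x * b.coeff y * c.coeff z := by
    intro x hx y hy z hz
    have pa : 0 < a.coeff x := pos_of_mem ha hx
    have pb : 0 < b.coeff y := pos_of_mem hb hy
    have pc : 0 < c.coeff z := pos_of_mem hc hz
    have pf : 0 < (a * c).coeff (x + z) := pos_mul ha hc pa pc
    have pg : 0 < (b * c).coeff (y + z) := pos_mul hb hc pb pc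
    have pm : 0 < (a * b * c).coeff (x + y + z) := pos_mul (isLaw_mul ha hb) hc (pos_mul ha hb pa pb) pc
    have h1 := Real.log_le_sub_one_of_pos (x := (a * c).coeff (x + z) * (b * c).coeff (y + z) /
      ((a * b * c).coeff (x + y + z) * c.coeff z)) (by positivity)
    rw [Real.log_div (by positivity) (by positivity), Real.log_mul pf.ne' pg.ne',
      Real.log_mul pm.ne' pc.ne'] at h1
    have h2 := mul_le_mul_of_nonneg_left h1 (show 0 ≤ a.coeff x * b.coeff y * c.coeff z by positivity)
    have h3 : a.coeff x * b.coeff y * c.coeff z * ((a * c).coeff (x + z) * (b * c).coeff (y + z) /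
      ((a * b * c).coeff (x + y + z) * c.coeff z) - 1) =
      a.coeff x * b.coeff y * ((a * c).coeff (x + z) * (b * c).coeff (y + z) /
        (a * b * c).coeff (x + y + z)) - a.coeff x * b.coeff y * c.coeff z := by
      field_simp
    rw [h3] at h2
    calc _ = a.coeff x * b.coeff y * c.coeff z * (Real.log ((a * c).coeff (x + z)) +
        Real.log ((b * c).coeff (y + z)) -
        (Real.log ((a * b * c).coeff (x + y + z)) + Real.log (c.coeff z))) := by ring
      _ ≤ _ := h2
  have key2 := Finset.sum_le_sum fun x hx => Finset.sum_le_sum fun y hy => Finset.sum_le_sum fun z hz =>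
    key x hx y hy z hz
  simp only [Finset.sum_sub_distrib, Finset.sum_add_distrib] at key2
  -- the last sum is at most one
  have hsum1 : ∑ x ∈ Sa, ∑ y ∈ Sb, ∑ z ∈ Sc, a.coeff x * b.coeff y * c.coeff z = 1 := by
    have h1 : ∀ x ∈ Sa, ∑ y ∈ Sb, ∑ z ∈ Sc, a.coeff x * b.coeff y * c.coeff z = a.coeff x := by
      intro x _
      have h2 : ∀ y ∈ Sb, ∑ z ∈ Sc, a.coeff x * b.coeff y * c.coeff z = b.coeff y * a.coeff x := by
        intro y _
        rw [← Finset.mul_sum, sum_eq_one hc Sc (Finset.Subset.refl _), mul_one, mul_comm]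
      rw [Finset.sum_congr rfl h2, ← Finset.sum_mul, sb, one_mul]
    rw [Finset.sum_congr rfl h1, sa]
  set Sm := (a * b * c).coeff.support with hSm
  have hlast : ∑ x ∈ Sa, ∑ y ∈ Sb, ∑ z ∈ Sc, a.coeff x * b.coeff y *
      ((a * c).coeff (x + z) * (b * c).coeff (y + z) / (a * b * c).coeff (x + y + z)) ≤ 1 := by
    have h1 : ∀ x ∈ Sa, ∀ y ∈ Sb, ∑ z ∈ Sc, a.coeff x * b.coeff y *
        ((a * c).coeff (x + z) * (b * c).coeff (y + z) / (a * b * c).coeff (x + y + z)) ≤
        ∑ w ∈ Sm, a.coeff x * b.coeff y *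
          ((a * c).coeff (w - y) * (b * c).coeff (w - x) / (a * b * c).coeff w) := by
      intro x hx y hy
      have h2 : ∑ z ∈ Sc, a.coeff x * b.coeff y *
          ((a * c).coeff (x + z) * (b * c).coeff (y + z) / (a * b * c).coeff (x + y + z)) =
          ∑ w ∈ Sc.image (fun z => x + y + z), a.coeff x * b.coeff y *
          ((a * c).coeff (w - y) * (b * c).coeff (w - x) / (a * b * c).coeff w) := by
        rw [Finset.sum_image (fun _ _ _ _ h => add_left_cancel h)]
        refine Finset.sum_congr rfl fun z _ => ?_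
        have e1 : x + y + z - y = x + z := by abel
        have e2 : x + y + z - x = y + z := by abel
        rw [e1, e2]
      rw [h2]
      refine Finset.sum_le_sum_of_subset_of_nonneg ?_ ?_
      · intro w hw
        obtain ⟨z, hz, rfl⟩ := Finset.mem_image.mp hw
        rw [hSm, Finsupp.mem_support_iff]
        exact (pos_mul (isLaw_mul ha hb) hc (pos_mul ha hb (pos_of_mem ha hx) (pos_of_mem hb hy))
          (pos_of_mem hc hz)).ne'
      · intro w _ _
        have := ha.1 x
        have := hb.1 y
        have := hf.1 (w - y)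
        have := hg.1 (w - x)
        have := hm.1 w
        positivity
    calc _ ≤ ∑ x ∈ Sa, ∑ y ∈ Sb, ∑ w ∈ Sm, a.coeff x * b.coeff y *
          ((a * c).coeff (w - y) * (b * c).coeff (w - x) / (a * b * c).coeff w) :=
          Finset.sum_le_sum fun x hx => Finset.sum_le_sum fun y hy => h1 x hx y hy
      _ = ∑ w ∈ Sm, ∑ x ∈ Sa, ∑ y ∈ Sb, a.coeff x * b.coeff y *
          ((a * c).coeff (w - y) * (b * c).coeff (w - x) / (a * b * c).coeff w) := by
          rw [Finset.sum_congr rfl fun x _ => Finset.sum_comm]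
          exact Finset.sum_comm
      _ = ∑ w ∈ Sm, (a * b * c).coeff w := by
          refine Finset.sum_congr rfl fun w hw => ?_
          have pm : 0 < (a * b * c).coeff w := pos_of_mem hm hw
          have e1 : ∑ y ∈ Sb, b.coeff y * (a * c).coeff (w - y) = (a * b * c).coeff w := by
            rw [← coeff_mul_eq_sum]
            congr 1
            rw [← mul_assoc, mul_comm b a]
          have e2 : ∑ x ∈ Sa, a.coeff x * (b * c).coeff (w - x) = (a * b * c).coeff w := by
            rw [← coeff_mul_eq_sum, mul_assoc]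
          have e3 : ∑ x ∈ Sa, ∑ y ∈ Sb, a.coeff x * b.coeff y *
              ((a * c).coeff (w - y) * (b * c).coeff (w - x) / (a * b * c).coeff w) =
              (∑ x ∈ Sa, a.coeff x * (b * c).coeff (w - x)) *
                (∑ y ∈ Sb, b.coeff y * (a * c).coeff (w - y)) / (a * b * c).coeff w := by
            rw [Finset.sum_mul_sum, Finset.sum_div]
            refine Finset.sum_congr rfl fun x _ => ?_
            rw [Finset.sum_div]
            exact Finset.sum_congr rfl fun y _ => by ring
          rw [e3, e1, e2]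
          field_simp
      _ = 1 := sum_eq_one hm Sm (Finset.Subset.refl _)
  rw [Hc, Hf, Hg, Hm]
  linarith [key2, hsum1, hlast]

end Pool.Agent.Helper13.MS
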