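import Pool.Agent.Helper13.MS.EA

/-!
# MS-ED: scaling invariance, distinct subset sums

(1) multiplication by `u ≠ 0` is an additive automorphism of `K`; it induces a ring automorphism of `AddMonoidAlgebra ℝ K` (`AddMonoidAlgebra.mapDomainRingHom`)
which sends `law S` to `law (u S)`; the entropy is invariant because the map is injective.
(2) `law (univ.val.map v) = ∑ T ∈ univ.powerset, single (∑ i ∈ T, v i) (1/2) ^ card ι` (`Finset.prod_add` or induction); by hypothesis `T ↦ ∑ i ∈ T, v i`
is injective (difference of two sums is a relation with coefficients in `{-1,0,1}`), so the entropy is `2 ^ n * negMulLog (2 ^ -n) = n log 2`.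
-/

set_option autoImplicit false

namespace Pool.Agent.Helper13.MS

private theorem law_scale {K : Type} [Field K] (u : K) (S : Multiset K) :
    law (S.map fun v => u * v) = AddMonoidAlgebra.mapDomain (AddMonoidHom.mulLeft u) (law S) := by
  induction S using Multiset.induction with
  | empty =>
    rw [Multiset.map_zero, law_zero, AddMonoidAlgebra.mapDomain_one]
  | cons v S ih =>
    rw [Multiset.map_cons, law_cons, law_cons, ih, AddMonoidAlgebra.mapDomain_mul, coin, coin,
      AddMonoidAlgebra.mapDomain_add, AddMonoidAlgebra.mapDomain_single,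
      AddMonoidAlgebra.mapDomain_single, map_zero]
    rfl

theorem entropy_law_scale {K : Type} [Field K] (u : K) (hu : u ≠ 0) (S : Multiset K) :
    entropy (law (S.map fun v => u * v)) = entropy (law S) := by
  rw [law_scale, entropy, entropy]
  exact Finsupp.sum_mapDomain_index_inj (h := fun _ a => Real.negMulLog a)
    (fun a b hab => mul_left_cancel₀ hu hab)

private theorem law_finset {ι K : Type} [Field K] (v : ι → K) (s : Finset ι) :
    law (s.val.map v) = ∑ T ∈ s.powerset, AddMonoidAlgebra.single (∑ i ∈ T, v i)
      ((1 / 2 : ℝ) ^ s.card) := by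
  classical
  induction s using Finset.induction_on with
  | empty =>
    rw [Finset.empty_val, Multiset.map_zero, law_zero, Finset.powerset_empty,
      Finset.sum_singleton, Finset.sum_empty, Finset.card_empty, pow_zero]
    rfl
  | insert a s ha ih =>
    rw [Finset.insert_val_of_notMem ha, Multiset.map_cons, law_cons, ih,
      Finset.sum_powerset_insert ha, coin, add_mul, Finset.mul_sum, Finset.mul_sum,
      Finset.card_insert_of_notMem ha]
    congr 1
    · refine Finset.sum_congr rfl fun T _ => ?_
      rw [AddMonoidAlgebra.single_mul_single, zero_add, pow_succ, mul_comm]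
    · refine Finset.sum_congr rfl fun T hT => ?_
      have haT : a ∉ T := fun h => ha (Finset.mem_powerset.1 hT h)
      rw [AddMonoidAlgebra.single_mul_single, Finset.sum_insert haT, pow_succ, mul_comm]

theorem card_mul_log_two_le {ι K : Type} [Fintype ι] [Field K] (v : ι → K)
    (h : ∀ F : ι → ℤ, (∀ i, |F i| ≤ 1) → ∑ i, (F i : K) * v i = 0 → ∀ i, F i = 0) :
    (Fintype.card ι : ℝ) * Real.log 2 ≤ entropy (law ((Finset.univ : Finset ι).val.map v)) := by
  classical
  have hinj : Function.Injective fun T : Finset ι => ∑ i ∈ T, v i := by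
    intro T T' hTT
    have h1 := h (fun i => (if i ∈ T then 1 else 0) - (if i ∈ T' then 1 else 0)) ?_ ?_
    · ext i
      have h2 := h1 i
      by_cases hi : i ∈ T <;> by_cases hi' : i ∈ T' <;> simp [hi, hi'] at h2 ⊢
    · intro i
      by_cases hi : i ∈ T <;> by_cases hi' : i ∈ T' <;> simp [hi, hi']
    · have h2 : ∀ T : Finset ι, ∑ i, (if i ∈ T then v i else 0) = ∑ i ∈ T, v i := by
        intro T
        rw [← Finset.sum_filter]
        congr 1
        ext i
        simp
      have h3 : ∀ i, (((if i ∈ T then 1 else 0) - (if i ∈ T' then 1 else 0) : ℤ) : K) * v i =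
          (if i ∈ T then v i else 0) - (if i ∈ T' then v i else 0) := by
        intro i
        by_cases hi : i ∈ T <;> by_cases hi' : i ∈ T' <;> simp [hi, hi']
      rw [Finset.sum_congr rfl fun i _ => h3 i, Finset.sum_sub_distrib, h2, h2]
      exact sub_eq_zero.2 hTT
  set f : Finset ι → K := fun T => ∑ i ∈ T, v i with hf
  set p := law ((Finset.univ : Finset ι).val.map v) with hp
  have hp' : p = ∑ T : Finset ι, AddMonoidAlgebra.single (f T) ((1 / 2 : ℝ) ^ Fintype.card ι) := by
    rw [hp, law_finset, Finset.powerset_univ, Finset.card_univ]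
  have hc : ∀ x, p.coeff x = ∑ T : Finset ι, if f T = x then ((1 / 2 : ℝ) ^ Fintype.card ι) else 0 := by
    intro x
    rw [hp', AddMonoidAlgebra.coeff_sum, Finsupp.finsetSum_apply]
    refine Finset.sum_congr rfl fun T _ => ?_
    rw [AddMonoidAlgebra.coeff_single, Finsupp.single_apply]
  have hc' : ∀ T, p.coeff (f T) = (1 / 2 : ℝ) ^ Fintype.card ι := by
    intro T
    rw [hc, Finset.sum_eq_single T]
    · rw [if_pos rfl]
    · intro T' _ hne
      rw [if_neg fun he => hne (hinj he)]
    · intro hT
      exact absurd (Finset.mem_univ T) hT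
  have hsupp : p.coeff.support ⊆ (Finset.univ : Finset (Finset ι)).image f := by
    intro x hx
    rw [Finsupp.mem_support_iff, hc] at hx
    obtain ⟨T, _, hT⟩ := Finset.exists_ne_zero_of_sum_ne_zero hx
    rw [Finset.mem_image]
    refine ⟨T, Finset.mem_univ T, ?_⟩
    by_contra hne
    rw [if_neg hne] at hT
    exact hT rfl
  rw [entropy_eq_sum p _ hsupp, Finset.sum_image fun a _ b _ hab => hinj hab,
    Finset.sum_congr rfl fun T _ => by rw [hc' T], Finset.sum_const, Finset.card_univ,
    Fintype.card_finset, nsmul_eq_mul, Real.negMulLog, Real.log_pow, one_div, Real.log_inv]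
  have h2 : (2 : ℝ) ^ Fintype.card ι * (2⁻¹ : ℝ) ^ Fintype.card ι = 1 := by
    rw [← mul_pow]
    norm_num
  push_cast
  apply le_of_eq
  linear_combination (-(Fintype.card ι : ℝ) * Real.log 2) * h2

end Pool.Agent.Helper13.MS
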