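import Pool.Agent.Helper13.MS.EA

/-!
# MS-EE: the Gibbs inequality against the weights `2 ^ -(r+1) D ^ -r`

Let `q g = 2 ^ -(ℓ g + 1) * D ^ -(ℓ g)`; for every finite set `B` of `G` one has `∑ g ∈ B, q g ≤ ∑_r 2 ^ -(r+1) ≤ 1` (group by `ℓ g = r`).
For `x` in the support of `p = unif f` let `q' x = ∑ g ∈ X '' {i : f i = x}, q g`; since `X i` determines `f i` the sets are disjoint, so `∑ x, q' x ≤ 1`.
`entropy p = - ∑ p x log p x ≤ - ∑ p x log q' x` (Gibbs: `log t ≤ t - 1`), and `- log q' (f i) ≤ - log q (X i) = (ℓ (X i) + 1) log 2 + ℓ (X i) log D`.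
-/

set_option autoImplicit false

namespace Pool.Agent.Helper13.MS

/-- the weight of an element of length `r` -/
private noncomputable def q56 (D r : ℕ) : ℝ := ((2 : ℝ) ^ (r + 1) * (D : ℝ) ^ r)⁻¹

private theorem q_pos56 {D : ℕ} (hD : 1 ≤ D) (r : ℕ) : 0 < q56 D r := by
  have h1 : (0 : ℝ) < D := by exact_mod_cast hD
  unfold q56
  positivity

private theorem log_q56 {D : ℕ} (hD : 1 ≤ D) (r : ℕ) :
    - Real.log (q56 D r) = ((r : ℝ) + 1) * Real.log 2 + (r : ℝ) * Real.log D := by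
  have h1 : (0 : ℝ) < D := by exact_mod_cast hD
  unfold q56
  rw [Real.log_inv, neg_neg, Real.log_mul (by positivity) (by positivity), Real.log_pow,
    Real.log_pow]
  push_cast
  ring

private theorem geom56 (R : ℕ) : ∑ r ∈ Finset.range R, ((2 : ℝ) ^ (r + 1))⁻¹ ≤ 1 := by
  have h1 : ∑ r ∈ Finset.range R, ((2 : ℝ) ^ (r + 1))⁻¹ = 1 - ((2 : ℝ) ^ R)⁻¹ := by
    induction R with
    | zero => simp
    | succ R ih =>
      rw [Finset.sum_range_succ, ih, pow_succ]
      have h2 : (2 : ℝ) ^ R ≠ 0 := by positivity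
      field_simp
      ring
  rw [h1]
  have h2 : 0 < ((2 : ℝ) ^ R)⁻¹ := by positivity
  linarith

/-- the sum of the weights is at most one -/
private theorem sum_q56 {G : Type} (ℓ : G → ℕ) (D : ℕ) (hD : 1 ≤ D)
    (hcard : ∀ (r : ℕ) (B : Finset G), (∀ g ∈ B, ℓ g = r) → B.card ≤ D ^ r) (B : Finset G) :
    ∑ g ∈ B, q56 D (ℓ g) ≤ 1 := by
  classical
  have hD0 : (0 : ℝ) < D := by exact_mod_cast hD
  have hmaps : ∀ g ∈ B, ℓ g ∈ Finset.range (B.sup ℓ + 1) := by
    intro g hg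
    rw [Finset.mem_range]
    have h1 : ℓ g ≤ B.sup ℓ := Finset.le_sup (f := ℓ) hg
    omega
  rw [← Finset.sum_fiberwise_of_maps_to hmaps]
  refine le_trans (Finset.sum_le_sum ?_) (geom56 (B.sup ℓ + 1))
  intro r _
  have h1 : ∑ g ∈ B with ℓ g = r, q56 D (ℓ g) = ∑ g ∈ B with ℓ g = r, q56 D r := by
    apply Finset.sum_congr rfl
    intro g hg
    rw [(Finset.mem_filter.1 hg).2]
  rw [h1, Finset.sum_const, nsmul_eq_mul]
  have h2 : ((B.filter fun g => ℓ g = r).card : ℝ) ≤ (D : ℝ) ^ r := by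
    exact_mod_cast hcard r _ fun g hg => (Finset.mem_filter.1 hg).2
  have h3 : 0 < q56 D r := q_pos56 hD r
  calc ((B.filter fun g => ℓ g = r).card : ℝ) * q56 D r ≤ (D : ℝ) ^ r * q56 D r :=
        mul_le_mul_of_nonneg_right h2 h3.le
    _ = ((2 : ℝ) ^ (r + 1))⁻¹ := by
        unfold q56
        have h4 : (D : ℝ) ^ r ≠ 0 := by positivity
        have h5 : (2 : ℝ) ^ (r + 1) ≠ 0 := by positivity
        field_simp

open Classical in
private theorem coeff_unif56 {ι A : Type} [Fintype ι] (f : ι → A) (x : A) :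
    (unif f).coeff x = ((Finset.univ.filter fun i => f i = x).card : ℝ) / (Fintype.card ι : ℝ) := by
  unfold unif
  rw [AddMonoidAlgebra.coeff_sum, Finsupp.finsetSum_apply]
  have h1 : ∀ i : ι, (AddMonoidAlgebra.single (f i) (1 / (Fintype.card ι : ℝ))).coeff x =
      if f i = x then (1 / (Fintype.card ι : ℝ)) else 0 := by
    intro i
    rw [AddMonoidAlgebra.coeff_single, Finsupp.single_apply]
  rw [Finset.sum_congr rfl fun i _ => h1 i, ← Finset.sum_filter, Finset.sum_const, nsmul_eq_mul]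
  ring

theorem gibbs {ι G A : Type} [Fintype ι] [Nonempty ι] [AddCommGroup A] (X : ι → G) (f : ι → A)
    (hf : ∀ i j, X i = X j → f i = f j) (ℓ : G → ℕ) (D : ℕ) (hD : 1 ≤ D)
    (hcard : ∀ (r : ℕ) (B : Finset G), (∀ g ∈ B, ℓ g = r) → B.card ≤ D ^ r) :
    entropy (unif f) ≤ (∑ i, (((ℓ (X i) : ℝ) + 1) * Real.log 2 + (ℓ (X i) : ℝ) * Real.log D)) / (Fintype.card ι : ℝ) := by
  classical
  set n : ℝ := (Fintype.card ι : ℝ) with hn
  have hn0 : 0 < n := by
    rw [hn]
    exact_mod_cast Fintype.card_pos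
  let T : Finset A := Finset.univ.image f
  let fib : A → Finset ι := fun x => Finset.univ.filter fun i => f i = x
  let Bx : A → Finset G := fun x => (fib x).image X
  let Q : A → ℝ := fun x => ∑ g ∈ Bx x, q56 D (ℓ g)
  have hcoef : ∀ x, (unif f).coeff x = ((fib x).card : ℝ) / n := fun x => coeff_unif56 f x
  have hsupp : (unif f).coeff.support ⊆ T := by
    intro x hx
    rw [Finsupp.mem_support_iff, hcoef] at hx
    have h1 : (fib x).card ≠ 0 := by
      intro h0
      apply hx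
      rw [h0, Nat.cast_zero, zero_div]
    obtain ⟨i, hi⟩ := Finset.card_pos.1 (Nat.pos_of_ne_zero h1)
    exact Finset.mem_image.2 ⟨i, Finset.mem_univ _, (Finset.mem_filter.1 hi).2⟩
  have hQi : ∀ i, q56 D (ℓ (X i)) ≤ Q (f i) := by
    intro i
    have h1 : X i ∈ Bx (f i) :=
      Finset.mem_image.2 ⟨i, Finset.mem_filter.2 ⟨Finset.mem_univ _, rfl⟩, rfl⟩
    exact Finset.single_le_sum (f := fun g => q56 D (ℓ g)) (fun g _ => (q_pos56 hD _).le) h1
  have hQsum : ∑ x ∈ T, Q x ≤ 1 := by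
    have h1 : ∑ x ∈ T, Q x = ∑ g ∈ T.biUnion Bx, q56 D (ℓ g) := by
      rw [Finset.sum_biUnion]
      intro x _ y _ hxy
      rw [Function.onFun, Finset.disjoint_left]
      intro g hg hg'
      obtain ⟨i, hi, rfl⟩ := Finset.mem_image.1 hg
      obtain ⟨i', hi', he⟩ := Finset.mem_image.1 hg'
      apply hxy
      rw [← (Finset.mem_filter.1 hi).2, ← (Finset.mem_filter.1 hi').2]
      exact (hf i' i he).symm
    rw [h1]
    exact sum_q56 ℓ D hD hcard _
  have hpsum : ∑ x ∈ T, (unif f).coeff x = 1 := sum_eq_one (isLaw_unif f) T hsupp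
  have hterm : ∀ x ∈ T, Real.negMulLog ((unif f).coeff x) ≤
      Q x - (unif f).coeff x - (unif f).coeff x * Real.log (Q x) := by
    intro x hx
    obtain ⟨i, -, hi⟩ := Finset.mem_image.1 hx
    have hQ : 0 < Q x := by
      rw [← hi]
      exact lt_of_lt_of_le (q_pos56 hD _) (hQi i)
    have hp : 0 < (unif f).coeff x := by
      rw [hcoef]
      apply div_pos _ hn0
      have h1 : 0 < (fib x).card := Finset.card_pos.2 ⟨i, Finset.mem_filter.2 ⟨Finset.mem_univ _, hi⟩⟩
      exact_mod_cast h1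
    have h1 : Real.log (Q x / (unif f).coeff x) ≤ Q x / (unif f).coeff x - 1 :=
      Real.log_le_sub_one_of_pos (div_pos hQ hp)
    rw [Real.log_div hQ.ne' hp.ne'] at h1
    have h2 := mul_le_mul_of_nonneg_left h1 hp.le
    have h3 : (unif f).coeff x * (Q x / (unif f).coeff x - 1) = Q x - (unif f).coeff x := by
      field_simp
    rw [h3] at h2
    unfold Real.negMulLog
    linarith
  have hlogsum : ∑ x ∈ T, (unif f).coeff x * Real.log (Q x) = (∑ i, Real.log (Q (f i))) / n := by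
    have h1 : ∑ i, Real.log (Q (f i)) = ∑ x ∈ T, (fib x).card • Real.log (Q x) :=
      Finset.sum_comp (fun x => Real.log (Q x)) f
    rw [h1, Finset.sum_div]
    apply Finset.sum_congr rfl
    intro x _
    rw [hcoef, nsmul_eq_mul]
    ring
  have hlast : -(∑ i, Real.log (Q (f i))) ≤
      ∑ i, (((ℓ (X i) : ℝ) + 1) * Real.log 2 + (ℓ (X i) : ℝ) * Real.log D) := by
    rw [← Finset.sum_neg_distrib]
    apply Finset.sum_le_sum
    intro i _
    rw [← log_q56 hD]
    exact neg_le_neg (Real.log_le_log (q_pos56 hD _) (hQi i))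
  rw [entropy_eq_sum (unif f) T hsupp]
  calc ∑ x ∈ T, Real.negMulLog ((unif f).coeff x)
      ≤ ∑ x ∈ T, (Q x - (unif f).coeff x - (unif f).coeff x * Real.log (Q x)) :=
        Finset.sum_le_sum hterm
    _ = (∑ x ∈ T, Q x) - 1 - (∑ i, Real.log (Q (f i))) / n := by
        rw [Finset.sum_sub_distrib, Finset.sum_sub_distrib, hpsum, hlogsum]
    _ ≤ -(∑ i, Real.log (Q (f i))) / n := by
        rw [neg_div]
        linarith
    _ ≤ _ := by
        exact div_le_div_of_nonneg_right hlast hn0.le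

end Pool.Agent.Helper13.MS
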