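import Pool.Agent.Helper13.MS.EB
import Pool.Agent.Helper13.MS.EC
import Pool.Agent.Helper13.MS.ED

/-!
# MS-EF: the subset sum entropy is an `HFun`; free planes have maximal entropy
-/

set_option autoImplicit false

namespace Pool.Agent.Helper13.MS

private theorem hK_eq92 {K : Type} [Field K] (S : Multiset Kˣ) :
    hK S = entropy (law (S.map fun v : Kˣ => (v : K))) := rfl

/-- `hK` as an `HFun` -/
noncomputable def hfun (K : Type) [Field K] : HFun Kˣ where
  h := hK
  zero := by
    rw [hK_eq92, Multiset.map_zero, law_zero, entropy_one]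
  mono := by
    intro S T
    rw [hK_eq92, hK_eq92, Multiset.map_add, law_add, mul_comm]
    exact entropy_le_mul (isLaw_law _) (isLaw_law _)
  one := by
    intro v S
    rw [hK_eq92, hK_eq92, Multiset.map_cons, law_cons]
    exact entropy_coin_mul_le _ (isLaw_law _)
  sub := by
    intro S T U
    rw [hK_eq92, hK_eq92, hK_eq92, hK_eq92, Multiset.map_add, Multiset.map_add, Multiset.map_add,
      law_add, law_add, law_add]
    have h1 := entropy_submodular (isLaw_law (T.map fun v : Kˣ => (v : K)))
      (isLaw_law (U.map fun v : Kˣ => (v : K))) (isLaw_law (S.map fun v : Kˣ => (v : K)))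
    have h2 : law (S.map fun v : Kˣ => (v : K)) * law (T.map fun v : Kˣ => (v : K)) *
        law (U.map fun v : Kˣ => (v : K)) = law (T.map fun v : Kˣ => (v : K)) *
        law (U.map fun v : Kˣ => (v : K)) * law (S.map fun v : Kˣ => (v : K)) := by
      rw [mul_assoc, mul_comm]
    rw [h2, mul_comm (law (S.map fun v : Kˣ => (v : K))) (law (T.map fun v : Kˣ => (v : K))),
      mul_comm (law (S.map fun v : Kˣ => (v : K))) (law (U.map fun v : Kˣ => (v : K)))]
    exact h1
  inv := by
    intro v S
    rw [hK_eq92, hK_eq92, Multiset.map_map]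
    have h1 := entropy_law_scale (v : K) v.ne_zero (S.map fun v : Kˣ => (v : K))
    rw [Multiset.map_map] at h1
    exact h1

theorem hK_grid {K : Type} [Field K] (x y : Kˣ) (h : FreePlane (x : K) (y : K)) :
    ∃ C : ℝ, 0 < C ∧ ∀ N L : ℕ, 2 ≤ N → 1 ≤ L → C * Real.log N ≤ (L : ℝ) ^ 2 →
      (N : ℝ) ^ 2 * Real.log 2 ≤ (hfun K).h (grid x y L N) := by
  obtain ⟨C, hC, H⟩ := h
  refine ⟨C, hC, fun N L hN hL hNL => ?_⟩
  have h1 := card_mul_log_two_le (ι := Fin N × Fin N)
    (fun p => (x : K) ^ (L * (p.1 : ℕ)) * (y : K) ^ (L * (p.2 : ℕ))) (by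
      intro F hF hs p
      have h2 := H N L hN hL hNL (fun j k => F (j, k)) (fun j k => hF (j, k)) (by
        rw [Fintype.sum_prod_type] at hs
        exact hs) p.1 p.2
      exact h2)
  have h3 : (Fintype.card (Fin N × Fin N) : ℝ) = (N : ℝ) ^ 2 := by
    rw [Fintype.card_prod, Fintype.card_fin]
    push_cast
    ring
  rw [h3] at h1
  refine h1.trans (le_of_eq ?_)
  show _ = entropy (law ((grid x y L N).map fun v : Kˣ => (v : K)))
  rw [grid, Multiset.map_map]
  congr 2

end Pool.Agent.Helper13.MS
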