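import Pool.Agent.Helper13.MS.Defs

/-!
# MS-FPA: Lemma K

`c ≠ 0` algebraic over `Q`, not a root of unity.  Let `F(T) = ∑ F j T^j` with coefficients in `{-1,0,1}`, `F ≠ 0`, `F (c^L) = 0`.
Case 1: `c` is not integral over `Z`: the leading coefficient of `F` is `±1`, so `c^L`, hence `c` (`L ≥ 1`) is integral: contradiction.
Case 2: `c` is integral over `Z`.  By Kronecker (`NumberField.Embeddings.pow_eq_one_of_norm_le_one` or `..._of_norm_eq_one`; there may also be a version for polynomials) some complex embedding `φ` of `Q(c)` has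
`‖φ c‖ > 1`; choose `L0` with `‖φ c‖ ^ L0 ≥ 2`.  A root `w` of a nonzero polynomial with coefficients in `{-1,0,1}` has `‖w‖ < 2`: `‖w‖^n ≤ ∑_{i<n} ‖w‖^i < ‖w‖^n` if `‖w‖ ≥ 2`.
(`Q(c)` = `IntermediateField.adjoin ℚ {c}` is a number field; the value of `F` at `c^L` is in `Q(c)`.)
-/

set_option autoImplicit false

namespace Pool.Agent.Helper13.MS

/-- The top index of a nonzero family. -/
theorem fpa_top {N : ℕ} (F : Fin N → ℤ) (h : ∃ j, F j ≠ 0) : ∃ J : Fin N, F J ≠ 0 ∧ ∀ j, J < j → F j = 0 := by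
  classical
  let S : Finset (Fin N) := Finset.univ.filter fun j => F j ≠ 0
  have hS : S.Nonempty := by
    obtain ⟨j, hj⟩ := h
    exact ⟨j, Finset.mem_filter.2 ⟨Finset.mem_univ _, hj⟩⟩
  refine ⟨S.max' hS, (Finset.mem_filter.1 (S.max'_mem hS)).2, fun j hj => ?_⟩
  by_contra hF
  exact absurd (S.le_max' j (Finset.mem_filter.2 ⟨Finset.mem_univ _, hF⟩)) (not_le.2 hj)

theorem fpa_int {k : Type} [Field k] (w : k) {N : ℕ} (F : Fin N → ℤ) (hF : ∀ j, |F j| ≤ 1)
    (h0 : ∑ j, (F j : k) * w ^ (j : ℕ) = 0) (h : ∃ j, F j ≠ 0) : IsIntegral ℤ w := by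
  obtain ⟨J, hJ, hJ2⟩ := fpa_top F h
  have hu : F J * F J = 1 := by
    have e1 := abs_le.1 (hF J)
    have e2 : F J = 1 ∨ F J = -1 := by omega
    rcases e2 with e | e <;> rw [e] <;> norm_num
  let P : Polynomial ℤ := ∑ j : Fin N, Polynomial.C (F J * F j) * Polynomial.X ^ (j : ℕ)
  have hdeg : P = Polynomial.X ^ (J : ℕ) + ∑ j ∈ Finset.univ.filter (fun j : Fin N => j < J), Polynomial.C (F J * F j) * Polynomial.X ^ (j : ℕ) := by
    have e1 : P = ∑ j ∈ Finset.univ.filter (fun j : Fin N => j < J), Polynomial.C (F J * F j) * Polynomial.X ^ (j : ℕ) +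
        ∑ j ∈ Finset.univ.filter (fun j : Fin N => ¬ j < J), Polynomial.C (F J * F j) * Polynomial.X ^ (j : ℕ) :=
      (Finset.sum_filter_add_sum_filter_not _ _ _).symm
    rw [e1, add_comm]
    congr 1
    rw [Finset.sum_eq_single J]
    · rw [hu, map_one, one_mul]
    · intro j hj hjJ
      have : J < j := lt_of_le_of_ne (not_lt.1 (Finset.mem_filter.1 hj).2) (Ne.symm hjJ)
      rw [hJ2 j this, mul_zero, map_zero, zero_mul]
    · intro hJn
      exact absurd (Finset.mem_filter.2 ⟨Finset.mem_univ J, lt_irrefl J⟩) hJn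
  have hmon : P.Monic := by
    rw [hdeg]
    refine Polynomial.monic_X_pow_add ?_
    refine lt_of_le_of_lt (Polynomial.degree_sum_le _ _) ?_
    rw [Finset.sup_lt_iff (WithBot.bot_lt_coe _)]
    intro j hj
    refine lt_of_le_of_lt (Polynomial.degree_C_mul_X_pow_le _ _) ?_
    exact_mod_cast (Finset.mem_filter.1 hj).2
  refine ⟨P, hmon, ?_⟩
  change Polynomial.eval₂ (algebraMap ℤ k) w (∑ j : Fin N, Polynomial.C (F J * F j) * Polynomial.X ^ (j : ℕ)) = 0
  rw [Polynomial.eval₂_finsetSum]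
  have e2 : ∀ j : Fin N, Polynomial.eval₂ (algebraMap ℤ k) w (Polynomial.C (F J * F j) * Polynomial.X ^ (j : ℕ)) =
      (F J : k) * ((F j : k) * w ^ (j : ℕ)) := by
    intro j
    rw [Polynomial.eval₂_mul, Polynomial.eval₂_C, Polynomial.eval₂_X_pow, map_mul, mul_assoc]
    rfl
  rw [Finset.sum_congr rfl fun j _ => e2 j, ← Finset.mul_sum, h0, mul_zero]

theorem fpa_norm (w : ℂ) (hw : 2 ≤ ‖w‖) {N : ℕ} (F : Fin N → ℤ) (hF : ∀ j, |F j| ≤ 1)
    (h0 : ∑ j, (F j : ℂ) * w ^ (j : ℕ) = 0) : ∀ j, F j = 0 := by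
  by_contra hcon
  push Not at hcon
  obtain ⟨J, hJ, hJ2⟩ := fpa_top F hcon
  have e1 : ∑ j, (F j : ℂ) * w ^ (j : ℕ) = ∑ j ∈ Finset.univ.filter (fun j : Fin N => j < J), (F j : ℂ) * w ^ (j : ℕ) +
      ∑ j ∈ Finset.univ.filter (fun j : Fin N => ¬ j < J), (F j : ℂ) * w ^ (j : ℕ) :=
    (Finset.sum_filter_add_sum_filter_not _ _ _).symm
  have e2 : ∑ j ∈ Finset.univ.filter (fun j : Fin N => ¬ j < J), (F j : ℂ) * w ^ (j : ℕ) = (F J : ℂ) * w ^ (J : ℕ) := by
    rw [Finset.sum_eq_single J]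
    · intro j hj hjJ
      have : J < j := lt_of_le_of_ne (not_lt.1 (Finset.mem_filter.1 hj).2) (Ne.symm hjJ)
      rw [hJ2 j this, Int.cast_zero, zero_mul]
    · intro hJn
      exact absurd (Finset.mem_filter.2 ⟨Finset.mem_univ J, lt_irrefl J⟩) hJn
  have e3 : (F J : ℂ) * w ^ (J : ℕ) = -∑ j ∈ Finset.univ.filter (fun j : Fin N => j < J), (F j : ℂ) * w ^ (j : ℕ) := by
    rw [h0, e2] at e1
    linear_combination -e1
  have e4 : ‖w‖ ^ (J : ℕ) ≤ ∑ i ∈ Finset.range J, ‖w‖ ^ i := by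
    have hn1 : ‖(F J : ℂ)‖ = 1 := by
      have e5 := abs_le.1 (hF J)
      have e6 : F J = 1 ∨ F J = -1 := by omega
      rcases e6 with e | e <;> rw [e] <;> simp
    calc ‖w‖ ^ (J : ℕ) = ‖(F J : ℂ) * w ^ (J : ℕ)‖ := by rw [norm_mul, hn1, one_mul, norm_pow]
      _ = ‖∑ j ∈ Finset.univ.filter (fun j : Fin N => j < J), (F j : ℂ) * w ^ (j : ℕ)‖ := by rw [e3, norm_neg]
      _ ≤ ∑ j ∈ Finset.univ.filter (fun j : Fin N => j < J), ‖(F j : ℂ) * w ^ (j : ℕ)‖ := norm_sum_le _ _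
      _ ≤ ∑ j ∈ Finset.univ.filter (fun j : Fin N => j < J), ‖w‖ ^ (j : ℕ) := by
        refine Finset.sum_le_sum fun j _ => ?_
        rw [norm_mul, norm_pow]
        have h3 : ‖(F j : ℂ)‖ ≤ 1 := by
          rw [Complex.norm_intCast]
          exact_mod_cast hF j
        exact mul_le_of_le_one_left (by positivity) h3
      _ ≤ ∑ i ∈ Finset.range J, ‖w‖ ^ i := by
        have h5 : ∑ i ∈ (Finset.univ.filter (fun j : Fin N => j < J)).map Fin.valEmbedding, ‖w‖ ^ i =
            ∑ j ∈ Finset.univ.filter (fun j : Fin N => j < J), ‖w‖ ^ (j : ℕ) := Finset.sum_map _ _ _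
        rw [← h5]
        refine Finset.sum_le_sum_of_subset_of_nonneg ?_ fun _ _ _ => by positivity
        intro i hi
        obtain ⟨j, hj, rfl⟩ := Finset.mem_map.1 hi
        exact Finset.mem_range.2 (Finset.mem_filter.1 hj).2
  have e5 : ∀ n : ℕ, ∑ i ∈ Finset.range n, ‖w‖ ^ i < ‖w‖ ^ n := by
    intro n
    induction n with
    | zero => simp
    | succ n ih =>
      rw [Finset.sum_range_succ, pow_succ]
      have : 0 < ‖w‖ ^ n := by positivity
      nlinarith
  exact absurd e4 (not_le.2 (e5 _))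

theorem lemmaK {k : Type} [Field k] [CharZero k] (c : k) (hc0 : c ≠ 0) (halg : IsAlgebraic ℚ c)
    (hroot : ∀ n : ℕ, 1 ≤ n → c ^ n ≠ 1) :
    ∃ L0 : ℕ, ∀ L : ℕ, L0 ≤ L → 1 ≤ L → ∀ (N : ℕ) (F : Fin N → ℤ), (∀ j, |F j| ≤ 1) →
      ∑ j, (F j : k) * c ^ (L * (j : ℕ)) = 0 → ∀ j, F j = 0 := by
  by_cases hint : IsIntegral ℤ c
  · let K0 := IntermediateField.adjoin ℚ ({c} : Set k)
    let c0 : K0 := ⟨c, IntermediateField.mem_adjoin_simple_self ℚ c⟩
    have hfd : FiniteDimensional ℚ K0 := IntermediateField.adjoin.finiteDimensional halg.isIntegral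
    have hnf : NumberField K0 := { to_charZero := inferInstance, to_finiteDimensional := hfd }
    have hc00 : c0 ≠ 0 := by
      intro h
      exact hc0 (congrArg Subtype.val h)
    have hi0 : IsIntegral ℤ c0 := by
      refine (isIntegral_algHom_iff ((algebraMap K0 k).toIntAlgHom) (algebraMap K0 k).injective).1 ?_
      exact hint
    have hex : ∃ φ : K0 →+* ℂ, 1 < ‖φ c0‖ := by
      by_contra hcon
      push Not at hcon
      obtain ⟨n, hn, h1⟩ := NumberField.Embeddings.pow_eq_one_of_norm_le_one K0 ℂ hc00 hi0 hcon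
      exact hroot n hn (by simpa [c0] using congrArg Subtype.val h1)
    obtain ⟨φ, hφ⟩ := hex
    obtain ⟨L0, hL0⟩ := pow_unbounded_of_one_lt 2 hφ
    refine ⟨L0, fun L hL _ N F hF h0 => ?_⟩
    refine fpa_norm (φ c0 ^ L) ?_ F hF ?_
    · rw [norm_pow]
      exact hL0.le.trans (pow_le_pow_right₀ hφ.le hL)
    · have e1 : ∑ j, (F j : K0) * c0 ^ (L * (j : ℕ)) = 0 := by
        refine (algebraMap K0 k).injective ?_
        rw [map_sum, map_zero, ← h0]
        refine Finset.sum_congr rfl fun j _ => ?_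
        rw [map_mul, map_intCast, map_pow]
        rfl
      have e2 := congrArg φ e1
      rw [map_sum, map_zero] at e2
      rw [← e2]
      refine Finset.sum_congr rfl fun j _ => ?_
      rw [map_mul, map_intCast, map_pow, pow_mul]
  · refine ⟨0, fun L _ hL N F hF h0 => ?_⟩
    by_contra hcon
    push Not at hcon
    refine hint (IsIntegral.of_pow (n := L) hL (fpa_int (c ^ L) F hF ?_ hcon))
    rw [← h0]
    refine Finset.sum_congr rfl fun j _ => ?_
    rw [pow_mul]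

end Pool.Agent.Helper13.MS
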