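import Pool.Agent.Helper13.MS.Defs

/-!
# MS-FPB1: a valuation subring

`A = ℚ[x⁻¹] ⊆ K` is isomorphic to a polynomial ring (`x⁻¹` is transcendental) and `(x⁻¹)` is a proper prime ideal; there is a valuation subring `V ⊇ A` of `K` with `x⁻¹` in its maximal ideal
(`LocalSubring.exists_le_valuationSubring` for the localisation of `A` at `(x⁻¹)`, `LocalSubring.ofPrime`; or another existence theorem in Mathlib, `ValuationSubring`).  `x⁻¹` in the maximal ideal means valuation `< 1`.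
-/

set_option autoImplicit false

namespace Pool.Agent.Helper13.MS

theorem exists_valuationSubring {K : Type} [Field K] [CharZero K] (x : K) (hx : Transcendental ℚ x) :
    ∃ V : ValuationSubring K, V.valuation x⁻¹ < 1 ∧ ∀ q : ℚ, (q : K) ∈ V := by
  have hx' : Transcendental ℚ x⁻¹ := by
    intro h1
    apply hx
    have h2 := h1.inv
    rwa [inv_inv] at h2
  obtain ⟨A, hA⟩ : ∃ A : Subring K, A = (Algebra.adjoin ℚ {x⁻¹}).toSubring := ⟨_, rfl⟩
  have hxA : x⁻¹ ∈ A := by
    rw [hA]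
    exact Algebra.subset_adjoin rfl
  obtain ⟨I, hI⟩ : ∃ I : Ideal A, I = Ideal.span {(⟨x⁻¹, hxA⟩ : A)} := ⟨_, rfl⟩
  have hne : I ≠ ⊤ := by
    intro h1
    have h2 : (1 : A) ∈ Ideal.span {(⟨x⁻¹, hxA⟩ : A)} := by
      rw [← hI, h1]
      exact Submodule.mem_top
    obtain ⟨a, ha⟩ := Ideal.mem_span_singleton'.1 h2
    have hAle : ∀ y ∈ A, y ∈ Algebra.adjoin ℚ {x⁻¹} := by
      intro y hy
      rw [hA] at hy
      exact hy
    have h3 : (a : K) ∈ Algebra.adjoin ℚ {x⁻¹} := hAle a a.2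
    rw [Algebra.adjoin_singleton_eq_range_aeval] at h3
    obtain ⟨p, hp⟩ := h3
    have h5 : (a : K) * x⁻¹ = 1 := congrArg Subtype.val ha
    have h6 : Polynomial.aeval x⁻¹ (p * Polynomial.X - 1) = 0 := by
      rw [map_sub, map_mul, Polynomial.aeval_X, map_one, sub_eq_zero, ← h5]
      exact congrArg (· * x⁻¹) hp
    have h7 : p * Polynomial.X - 1 = 0 := by
      by_contra hcon
      exact hx' ⟨_, hcon, h6⟩
    have h8 := congrArg (Polynomial.eval 0) h7
    simp at h8
  obtain ⟨V, hV1, hV2⟩ := Ideal.image_subset_nonunits_valuationSubring I hne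
  refine ⟨V, ?_, fun q => ?_⟩
  · apply hV2
    refine ⟨⟨x⁻¹, hxA⟩, ?_, rfl⟩
    rw [hI]
    exact Ideal.subset_span rfl
  · apply hV1
    rw [hA]
    have h1 := (Algebra.adjoin ℚ {x⁻¹}).algebraMap_mem q
    exact h1

end Pool.Agent.Helper13.MS
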