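import Pool.Agent.Helper13.MS.Defs

/-!
# MS-FPB2: two terms of equal value

Ultrametric inequality: if one `v (m i)` is strictly larger than all the others then `v (∑ c i m i) = v (m i) ≠ 0` (`Valuation.map_sum_eq_of_lt`-like; `Valuation.map_add_eq_of_lt_left`).
Choose `i` with `v (m i)` maximal.
-/

set_option autoImplicit false

namespace Pool.Agent.Helper13.MS

theorem exists_equal_value {K Γ ι : Type} [Field K] [LinearOrderedCommGroupWithZero Γ] (v : Valuation K Γ) (S : Finset ι)
    (hS : S.Nonempty) (c m : ι → K) (hc : ∀ i ∈ S, v (c i) = 1) (hm : ∀ i ∈ S, m i ≠ 0) (h0 : ∑ i ∈ S, c i * m i = 0) :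
    ∃ i ∈ S, ∃ j ∈ S, i ≠ j ∧ v (m i) = v (m j) := by
  classical
  obtain ⟨i, hi, hmax⟩ := S.exists_max_image (fun i => v (m i)) hS
  by_contra hcon
  push Not at hcon
  have h1 : v (∑ j ∈ S, c j * m j) = v (c i * m i) := by
    apply Valuation.map_sum_eq_of_lt v hi
    intro j hj
    rw [Finset.mem_sdiff, Finset.mem_singleton] at hj
    rw [map_mul, map_mul, hc i hi, hc j hj.1, one_mul, one_mul]
    exact lt_of_le_of_ne (hmax j hj.1) (hcon j hj.1 i hi hj.2)
  rw [h0, map_zero, map_mul, hc i hi, one_mul] at h1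
  exact hm i hi ((Valuation.zero_iff v).1 h1.symm)

end Pool.Agent.Helper13.MS
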