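import Pool.Agent.Helper13.MS.FPD0
import Pool.Agent.Helper13.MS.FPB1
import Pool.Agent.Helper13.MS.FPB2

/-!
# MS-FPB: a place

`V` from `exists_valuationSubring`; `ℚ ⊆ V`, so every nonzero rational has valuation 1.
A relation `P(x, y) = 0`, `P ≠ 0`, has two different monomials `x^a y^b`, `x^c y^d` of maximal (so equal) valuation (ultrametric inequality);
`v(y)^(b-d) = v(x)^(c-a)`; `b = d` is impossible (`v(x) > 1`), so with `m = b - d ≠ 0`, `l = a - c`: `v (x^l y^m) = 1`; put `y' = x^l y^m`, a unit of `V`, transcendental over `Q`.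
Residue `c` of `y'`: if `c` were transcendental over `Q` then `v (q(y')) = 1` for every nonzero polynomial `q` over `Q` (its value has residue `q(c) ≠ 0`).
`x` is algebraic over `Q(y')`: `x, y` are dependent, `y` is algebraic over `Q(x)`, so `y'` is algebraic over `Q(x)` and, being transcendental over `Q`, `x` is algebraic over `Q(y')`.
A relation `∑ q_i(y') x^i = 0` has two terms of equal valuation `v(x)^i = v(x)^j`, `i ≠ j`: contradiction with `v(x) > 1`.
`O = V.toSubring`, `k` its residue field (characteristic zero because `ℚ ⊆ V`).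
-/

set_option autoImplicit false

namespace Pool.Agent.Helper13.MS

private theorem indep_iff24 {K : Type} [Field K] [CharZero K] (x y : K) :
    AlgebraicIndependent ℚ ![x, y] ↔
      Transcendental ℚ x ∧ Transcendental (Algebra.adjoin ℚ {x}) y := by
  rw [AlgebraicIndependent.iff_transcendental_adjoin_image (1 : Fin 2)]
  have h1 : (![x, y] '' {(1 : Fin 2)}ᶜ) = {x} := by
    ext z
    constructor
    · rintro ⟨i, hi, rfl⟩
      have hi' : i = 0 := by
        fin_cases i
        · rfl
        · exact absurd rfl hi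
      rw [hi']
      rfl
    · intro hz
      rw [Set.mem_singleton_iff] at hz
      exact ⟨0, by simp, hz.symm⟩
  have : Unique {j : Fin 2 // j ≠ 1} :=
    { default := ⟨0, by decide⟩
      uniq := by
        rintro ⟨j, hj⟩
        apply Subtype.ext
        show j = 0
        omega }
  rw [algebraicIndependent_unique_type_iff, h1]
  have h2 : ((default : {j : Fin 2 // j ≠ 1}) : Fin 2) = 0 := by
    have h3 := (default : {j : Fin 2 // j ≠ 1}).2
    omega
  rw [h2]
  rfl

private theorem indep_iff24' {K : Type} [Field K] [CharZero K] (x y : K) :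
    AlgebraicIndependent ℚ ![x, y] ↔
      Transcendental ℚ y ∧ Transcendental (Algebra.adjoin ℚ {y}) x := by
  rw [AlgebraicIndependent.iff_transcendental_adjoin_image (0 : Fin 2)]
  have h1 : (![x, y] '' {(0 : Fin 2)}ᶜ) = {y} := by
    ext z
    constructor
    · rintro ⟨i, hi, rfl⟩
      have hi' : i = 1 := by
        fin_cases i
        · exact absurd rfl hi
        · rfl
      rw [hi']
      rfl
    · intro hz
      rw [Set.mem_singleton_iff] at hz
      exact ⟨1, by simp, hz.symm⟩
  have : Unique {j : Fin 2 // j ≠ 0} :=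
    { default := ⟨1, by decide⟩
      uniq := by
        rintro ⟨j, hj⟩
        apply Subtype.ext
        show j = 1
        omega }
  rw [algebraicIndependent_unique_type_iff, h1]
  have h2 : ((default : {j : Fin 2 // j ≠ 0}) : Fin 2) = 1 := by
    have h3 := (default : {j : Fin 2 // j ≠ 0}).2
    omega
  rw [h2]
  rfl

private theorem alg_zpow24 {K : Type} [Field K] {R : Type} [CommRing R] [IsDomain R] [Algebra R K]
    {x : K} (hx : IsAlgebraic R x) (l : ℤ) : IsAlgebraic R (x ^ l) := by
  rcases l with n | n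
  · rw [Int.ofNat_eq_natCast, zpow_natCast]
    exact hx.pow n
  · rw [zpow_negSucc]
    exact (hx.pow _).inv

/-- If `x ^ l y ^ m` is transcendental, then `x` is algebraic over it. -/
private theorem exch24 {K : Type} [Field K] [CharZero K] {x y : K} (l m : ℤ)
    (hdep : ¬ AlgebraicIndependent ℚ ![x, y]) (hx : Transcendental ℚ x)
    (hy : Transcendental ℚ (x ^ l * y ^ m)) :
    IsAlgebraic (Algebra.adjoin ℚ {x ^ l * y ^ m}) x := by
  have h1 : IsAlgebraic (Algebra.adjoin ℚ {x}) y := by
    by_contra hcon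
    exact hdep ((indep_iff24 x y).2 ⟨hx, hcon⟩)
  have h2 : IsAlgebraic (Algebra.adjoin ℚ {x}) x :=
    isAlgebraic_algebraMap (⟨x, Algebra.self_mem_adjoin_singleton ℚ x⟩ : Algebra.adjoin ℚ {x})
  have h3 : IsAlgebraic (Algebra.adjoin ℚ {x}) (x ^ l * y ^ m) :=
    (alg_zpow24 h2 l).mul (alg_zpow24 h1 m)
  by_contra hcon
  have h4 : AlgebraicIndependent ℚ ![x, x ^ l * y ^ m] := (indep_iff24' _ _).2 ⟨hy, hcon⟩
  exact ((indep_iff24 _ _).1 h4).2 h3

theorem exists_place {K : Type} [Field K] [CharZero K] (x y : K) (hdep : ¬ AlgebraicIndependent ℚ ![x, y])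
    (htr : ∀ a b : ℤ, (a ≠ 0 ∨ b ≠ 0) → Transcendental ℚ (x ^ a * y ^ b)) :
    ∃ (l m : ℤ) (k : Type) (_ : Field k) (_ : CharZero k) (P : Place x (x ^ l * y ^ m) k), m ≠ 0 ∧
      P.res ⟨_, P.hy⟩ ≠ 0 ∧ IsAlgebraic ℚ (P.res ⟨_, P.hy⟩) := by
  have hxt : Transcendental ℚ x := by
    have h1 := htr 1 0 (Or.inl one_ne_zero)
    rwa [zpow_one, zpow_zero, mul_one] at h1
  have hyt : Transcendental ℚ y := by
    have h1 := htr 0 1 (Or.inr one_ne_zero)
    rwa [zpow_one, zpow_zero, one_mul] at h1
  have hx0 : x ≠ 0 := by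
    rintro rfl
    exact hxt isAlgebraic_zero
  have hy0 : y ≠ 0 := by
    rintro rfl
    exact hyt isAlgebraic_zero
  obtain ⟨V, hV, hQ⟩ := exists_valuationSubring x hxt
  have hpos : ∀ z : K, z ≠ 0 → 0 < V.valuation z := fun z hz =>
    zero_lt_iff.2 ((V.valuation.ne_zero_iff).2 hz)
  have hvx : 1 < V.valuation x := by
    rw [map_inv₀] at hV
    by_contra hcon
    have h1 := (one_le_inv₀ (hpos x hx0)).2 (not_lt.1 hcon)
    exact absurd hV (not_lt.2 h1)
  have hvq : ∀ q : ℚ, q ≠ 0 → V.valuation (q : K) = 1 := by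
    intro q hq
    have hq' : (q : K) ≠ 0 := by exact_mod_cast hq
    apply le_antisymm
    · exact (V.valuation_le_one_iff _).2 (hQ q)
    · have h1 := (V.valuation_le_one_iff _).2 (hQ q⁻¹)
      rw [Rat.cast_inv, map_inv₀] at h1
      exact (inv_le_one₀ (hpos _ hq')).1 h1
  obtain ⟨P, hP0, hPr⟩ : ∃ P : MvPolynomial (Fin 2) ℚ, P ≠ 0 ∧ MvPolynomial.aeval ![x, y] P = 0 := by
    rw [algebraicIndependent_iff] at hdep
    push Not at hdep
    obtain ⟨P, h1, h2⟩ := hdep
    exact ⟨P, h2, h1⟩
  have hsum : ∑ d ∈ P.support, ((P.coeff d : ℚ) : K) * (x ^ d 0 * y ^ d 1) = 0 := by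
    rw [← hPr, MvPolynomial.aeval_def, MvPolynomial.eval₂_eq']
    refine Finset.sum_congr rfl fun d _ => ?_
    rw [Fin.prod_univ_two]
    rfl
  have hPn : P.support.Nonempty := by
    rw [Finset.nonempty_iff_ne_empty]
    intro h1
    exact hP0 (MvPolynomial.support_eq_empty.1 h1)
  obtain ⟨d, hd, d', hd', hne, hv⟩ := exists_equal_value V.valuation P.support hPn
    (fun d => ((P.coeff d : ℚ) : K)) (fun d => x ^ d 0 * y ^ d 1)
    (fun d hd => hvq _ (MvPolynomial.mem_support_iff.1 hd))
    (fun d _ => mul_ne_zero (pow_ne_zero _ hx0) (pow_ne_zero _ hy0)) hsum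
  obtain ⟨l, hl⟩ : ∃ l : ℤ, l = (d 0 : ℤ) - d' 0 := ⟨_, rfl⟩
  obtain ⟨m, hm⟩ : ∃ m : ℤ, m = (d 1 : ℤ) - d' 1 := ⟨_, rfl⟩
  have hvy : V.valuation (x ^ l * y ^ m) = 1 := by
    have h1 : x ^ l * y ^ m = (x ^ d 0 * y ^ d 1) / (x ^ d' 0 * y ^ d' 1) := by
      rw [hl, hm, zpow_sub₀ hx0, zpow_sub₀ hy0, zpow_natCast, zpow_natCast, zpow_natCast,
        zpow_natCast]
      field_simp
    have hv' : V.valuation (x ^ d 0 * y ^ d 1) = V.valuation (x ^ d' 0 * y ^ d' 1) := hv
    rw [h1, map_div₀, hv', div_self]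
    exact (V.valuation.ne_zero_iff).2 (mul_ne_zero (pow_ne_zero _ hx0) (pow_ne_zero _ hy0))
  have hm0 : m ≠ 0 := by
    intro hm0
    rw [hm0, zpow_zero, mul_one, map_zpow₀] at hvy
    have hl0 : l = 0 := by
      rcases lt_trichotomy l 0 with h1 | h1 | h1
      · exfalso
        have h2 := one_lt_zpow₀ hvx (n := -l) (by omega)
        rw [zpow_neg, hvy, inv_one] at h2
        exact lt_irrefl _ h2
      · exact h1
      · exfalso
        have h2 := one_lt_zpow₀ hvx h1
        rw [hvy] at h2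
        exact lt_irrefl _ h2
    apply hne
    ext i
    have h1 : i = 0 ∨ i = 1 := by omega
    rcases h1 with h1 | h1 <;> subst h1 <;> omega
  have hy't : Transcendental ℚ (x ^ l * y ^ m) := htr l m (Or.inr hm0)
  have halg := exch24 l m hdep hxt hy't
  obtain ⟨z, hz⟩ : ∃ z, z = x ^ l * y ^ m := ⟨_, rfl⟩
  have hzV : z ∈ V := by
    apply V.mem_of_valuation_le_one
    rw [hz, hvy]
  have hxV : x⁻¹ ∈ V := by
    apply V.mem_of_valuation_le_one
    exact hV.le
  rw [← hz] at hvy hy't halg
  let k := IsLocalRing.ResidueField V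
  let ι : ℚ →+* V := (Rat.castHom K).codRestrict V.toSubring hQ
  let ρ : V →+* k := IsLocalRing.residue V
  have hk : CharZero k := by
    apply charZero_of_injective_ringHom (f := ρ.comp ι)
    exact (ρ.comp ι).injective
  have hρ : ∀ a : V, ρ a ≠ 0 ↔ V.valuation (a : K) = 1 := by
    intro a
    have h1 : ρ a = 0 ↔ a ∈ IsLocalRing.maximalIdeal V := IsLocalRing.residue_eq_zero_iff a
    rw [Ne, h1, V.valuation_lt_one_iff]
    constructor
    · intro h2
      exact (V.valuation_lt_one_or_eq_one a).resolve_left h2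
    · intro h2 h3
      rw [h2] at h3
      exact lt_irrefl _ h3
  have hc0 : ρ ⟨z, hzV⟩ ≠ 0 := (hρ _).2 hvy
  have hcx : ρ ⟨x⁻¹, hxV⟩ = 0 := by
    by_contra hcon
    have h1 : V.valuation x⁻¹ = 1 := (hρ _).1 hcon
    rw [h1] at hV
    exact lt_irrefl _ hV
  have hcalg : IsAlgebraic ℚ (ρ ⟨z, hzV⟩) := by
    by_contra hcon
    have hval : ∀ q : Polynomial ℚ, q ≠ 0 → V.valuation (Polynomial.aeval z q) = 1 := by
      intro q hq
      have h1 : Polynomial.aeval z q = ((q.eval₂ ι ⟨z, hzV⟩ : V) : K) := by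
        have h2 := Polynomial.hom_eval₂ q ι V.subtype ⟨z, hzV⟩
        rw [Polynomial.aeval_def]
        have h3 : V.subtype.comp ι = algebraMap ℚ K := RingHom.ext_rat _ _
        rw [h3] at h2
        exact h2.symm
      rw [h1]
      apply (hρ _).1
      have h4 : ρ (q.eval₂ ι ⟨z, hzV⟩) = Polynomial.aeval (ρ ⟨z, hzV⟩) q := by
        rw [Polynomial.hom_eval₂, Polynomial.aeval_def]
        congr 1
        exact RingHom.ext_rat _ _
      rw [h4]
      intro h5
      exact hcon ⟨q, hq, h5⟩
    obtain ⟨p, hp, hpx⟩ := halg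
    rw [Polynomial.aeval_def, Polynomial.eval₂_eq_sum, Polynomial.sum_def] at hpx
    have hadj : ∀ w ∈ Algebra.adjoin ℚ {z}, ∃ q : Polynomial ℚ, Polynomial.aeval z q = w := by
      intro w hw
      rw [Algebra.adjoin_singleton_eq_range_aeval] at hw
      exact hw
    have hpn : p.support.Nonempty := by
      rw [Finset.nonempty_iff_ne_empty]
      intro h1
      exact hp (Polynomial.support_eq_empty.1 h1)
    obtain ⟨i, -, j, -, hij, hvij⟩ := exists_equal_value V.valuation p.support hpn
      (fun i => algebraMap (Algebra.adjoin ℚ {z}) K (p.coeff i)) (fun i => x ^ i)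
      (fun i hi => by
        obtain ⟨q, hq⟩ := hadj _ (p.coeff i).2
        have h2 : algebraMap (Algebra.adjoin ℚ {z}) K (p.coeff i) = Polynomial.aeval z q :=
          hq.symm
        rw [h2]
        apply hval
        rintro rfl
        apply Polynomial.mem_support_iff.1 hi
        apply Subtype.ext
        have h3 : ((p.coeff i : Algebra.adjoin ℚ {z}) : K) = Polynomial.aeval z (0 : Polynomial ℚ) :=
          hq.symm
        rw [h3, map_zero]
        rfl)
      (fun i _ => pow_ne_zero _ hx0) hpx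
    have hvij' : V.valuation x ^ i = V.valuation x ^ j := by
      rw [← map_pow, ← map_pow]
      exact hvij
    rcases lt_or_gt_of_ne hij with h1 | h1
    · exact absurd hvij' (pow_lt_pow_right₀ hvx h1).ne
    · exact absurd hvij' (pow_lt_pow_right₀ hvx h1).ne'
  let res : V.toSubring →+* k := ρ
  exact ⟨l, m, k, inferInstance, hk, ⟨V.toSubring, res, hxV, by rw [← hz]; exact hzV, hcx⟩, hm0,
    by
      subst hz
      exact hc0,
    by
      subst hz
      exact hcalg⟩

end Pool.Agent.Helper13.MS
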