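import Pool.Agent.Helper13.MS.FPD0
import Pool.Agent.Helper13.MS.FPA

/-!
# MS-FPC: two cases of the free plane theorem

`freePlane_of_indep`: the monomials `x^(L j) y^(L k)` are linearly independent over `Q` (`C = 1`).
`freePlane_of_place`: `c` = residue of `y`, not a root of unity.  `C = (L0 + 1)^2 / log 2` so that `L ≥ L0`.  If `F ≠ 0` let `J` be the largest `j` with `F j ≠ 0`; multiply the relation by
`x^(-L J)`: `∑_k F J k y^(L k) = - ∑_{j<J} (x⁻¹)^(L (J-j)) ∑_k F j k y^(L k)`; both sides are in `O` and the right side has residue `0` (`L ≥ 1`), so `∑_k F J k c^(L k) = 0` and `lemmaK`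
gives `F J = 0`, contradiction.
-/

set_option autoImplicit false

namespace Pool.Agent.Helper13.MS

theorem freePlane_of_indep {K : Type} [Field K] [CharZero K] (x y : K) (h : AlgebraicIndependent ℚ ![x, y]) : FreePlane x y := by
  classical
  refine ⟨1, one_pos, fun N L hN hL _ F _ hsum => ?_⟩
  let m : Fin N × Fin N → (Fin 2 →₀ ℕ) := fun q => Finsupp.single 0 (L * (q.1 : ℕ)) + Finsupp.single 1 (L * (q.2 : ℕ))
  have hm : Function.Injective m := by
    rintro ⟨j, k⟩ ⟨j', k'⟩ hq
    have h0 := DFunLike.congr_fun hq 0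
    have h1 := DFunLike.congr_fun hq 1
    simp only [m, Finsupp.add_apply, Finsupp.single_apply] at h0 h1
    simp at h0 h1
    have hL0 : L ≠ 0 := by omega
    rcases h0 with h0 | h0
    · rcases h1 with h1 | h1
      · exact Prod.ext (Fin.ext h0) (Fin.ext h1)
      · exact absurd h1 hL0
    · exact absurd h0 hL0
  let p : MvPolynomial (Fin 2) ℚ := ∑ q : Fin N × Fin N, MvPolynomial.monomial (m q) (F q.1 q.2 : ℚ)
  have hp : MvPolynomial.aeval ![x, y] p = 0 := by
    rw [map_sum, ← hsum, ← Finset.univ_product_univ, Finset.sum_product]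
    refine Finset.sum_congr rfl fun j _ => Finset.sum_congr rfl fun k _ => ?_
    rw [MvPolynomial.aeval_monomial]
    simp only [m]
    rw [Finsupp.prod_add_index' (by simp) (fun a b c => pow_add _ _ _), Finsupp.prod_single_index (by simp),
      Finsupp.prod_single_index (by simp)]
    simp
  have hp0 : p = 0 := by
    have := h
    rw [algebraicIndependent_iff] at this
    exact this p hp
  intro j k
  have hc : MvPolynomial.coeff (m (j, k)) p = (F j k : ℚ) := by
    simp only [p, MvPolynomial.coeff_sum, MvPolynomial.coeff_monomial]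
    rw [Finset.sum_eq_single (j, k)]
    · simp
    · intro q _ hq
      rw [if_neg]
      exact fun hh => hq (hm hh)
    · simp
  rw [hp0, MvPolynomial.coeff_zero] at hc
  exact_mod_cast hc.symm

private theorem top99 {K k : Type} [Field K] [Field k] (x y : K) (hx : x ≠ 0) (P : Place x y k)
    (N L : ℕ) (hL : 1 ≤ L) (F : Fin N → Fin N → ℤ)
    (hsum : ∑ j, ∑ i, (F j i : K) * (x ^ (L * (j : ℕ)) * y ^ (L * (i : ℕ))) = 0) (J : Fin N)
    (hJ : ∀ j : Fin N, (J : ℕ) < j → ∀ i, F j i = 0) :
    ∑ i, (F J i : k) * P.res ⟨y, P.hy⟩ ^ (L * (i : ℕ)) = 0 := by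
  classical
  let E : P.O := ∑ j : Fin N, if (j : ℕ) ≤ J then
    (⟨x⁻¹, P.hx⟩ : P.O) ^ (L * ((J : ℕ) - j)) * ∑ i, (F j i : P.O) * (⟨y, P.hy⟩ : P.O) ^ (L * (i : ℕ)) else 0
  have hE : (E : K) * x ^ (L * (J : ℕ)) = 0 := by
    rw [← hsum]
    simp only [E]
    push_cast
    rw [Finset.sum_mul]
    refine Finset.sum_congr rfl fun j _ => ?_
    by_cases hj : (j : ℕ) ≤ J
    · rw [if_pos hj]
      push_cast
      have h1 : x⁻¹ ^ (L * ((J : ℕ) - j)) * x ^ (L * (J : ℕ)) = x ^ (L * (j : ℕ)) := by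
        rw [inv_pow, inv_mul_eq_iff_eq_mul₀ (pow_ne_zero _ hx), ← pow_add]
        congr 1
        rw [← Nat.mul_add]
        congr 1
        omega
      rw [mul_right_comm, h1, Finset.mul_sum]
      refine Finset.sum_congr rfl fun i _ => ?_
      ring
    · rw [if_neg hj]
      push_cast
      rw [zero_mul]
      symm
      refine Finset.sum_eq_zero fun i _ => ?_
      rw [hJ j (by omega) i]
      simp
  have hE0 : E = 0 := by
    have : (E : K) = 0 := by
      rcases mul_eq_zero.1 hE with h | h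
      · exact h
      · exact absurd h (pow_ne_zero _ hx)
    exact_mod_cast this
  have hr : P.res E = ∑ i, (F J i : k) * P.res ⟨y, P.hy⟩ ^ (L * (i : ℕ)) := by
    simp only [E]
    rw [map_sum, Finset.sum_eq_single J]
    · rw [if_pos le_rfl, map_mul, map_pow, map_sum, Nat.sub_self, Nat.mul_zero, pow_zero, one_mul]
      refine Finset.sum_congr rfl fun i _ => ?_
      rw [map_mul, map_pow, map_intCast]
    · intro j _ hj
      by_cases hj' : (j : ℕ) ≤ J
      · rw [if_pos hj', map_mul, map_pow, P.hx0, zero_pow, zero_mul]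
        have : (j : ℕ) ≠ J := fun hh => hj (Fin.ext hh)
        exact Nat.mul_ne_zero (by omega) (by omega)
      · rw [if_neg hj', map_zero]
    · simp
  rw [← hr, hE0, map_zero]

theorem freePlane_of_place {K k : Type} [Field K] [CharZero K] [Field k] [CharZero k] (x y : K) (hx : x ≠ 0) (P : Place x y k)
    (hc0 : P.res ⟨y, P.hy⟩ ≠ 0) (halg : IsAlgebraic ℚ (P.res ⟨y, P.hy⟩)) (hroot : ∀ n : ℕ, 1 ≤ n → P.res ⟨y, P.hy⟩ ^ n ≠ 1) :
    FreePlane x y := by
  classical
  obtain ⟨L0, hL0⟩ := lemmaK _ hc0 halg hroot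
  have hlog : 0 < Real.log 2 := Real.log_pos (by norm_num)
  refine ⟨((L0 : ℝ) + 1) ^ 2 / Real.log 2, by positivity, fun N L hN hL hC F hF hsum => ?_⟩
  have hLL : L0 ≤ L := by
    have h1 : Real.log 2 ≤ Real.log N := Real.log_le_log (by norm_num) (by exact_mod_cast hN)
    have h2 : ((L0 : ℝ) + 1) ^ 2 ≤ (L : ℝ) ^ 2 := by
      refine le_trans ?_ hC
      rw [div_mul_eq_mul_div, le_div_iff₀ hlog]
      exact mul_le_mul_of_nonneg_left h1 (by positivity)
    have h3 : ((L0 : ℝ) + 1) ≤ L := by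
      refine le_of_sq_le_sq ?_ (by positivity)
      exact h2
    have h4 : L0 + 1 ≤ L := by exact_mod_cast h3
    omega
  by_contra hne
  push Not at hne
  obtain ⟨j0, k0, h0⟩ := hne
  obtain ⟨J, hJ, hmax⟩ := Finset.exists_max_image (Finset.univ.filter fun j : Fin N => ∃ i, F j i ≠ 0)
    (fun j => (j : ℕ)) ⟨j0, by simp only [Finset.mem_filter, Finset.mem_univ, true_and]; exact ⟨k0, h0⟩⟩
  have hJ' : ∀ j : Fin N, (J : ℕ) < j → ∀ i, F j i = 0 := by
    intro j hj i
    by_contra h
    have := hmax j (by simp only [Finset.mem_filter, Finset.mem_univ, true_and]; exact ⟨i, h⟩)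
    omega
  have h1 := top99 x y hx P N L hL F hsum J hJ'
  have h2 := hL0 L hLL hL N (F J) (fun i => hF J i) h1
  simp only [Finset.mem_filter, Finset.mem_univ, true_and] at hJ
  obtain ⟨i, hi⟩ := hJ
  exact hi (h2 i)

end Pool.Agent.Helper13.MS
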