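import Pool.Agent.Helper13.MS.Defs

/-!
# MS: definitions for the free plane theorem
-/

set_option autoImplicit false

namespace Pool.Agent.Helper13.MS

/-- a subring with a homomorphism to a field which contains `x⁻¹` (value `0`) and `y` -/
structure Place {K : Type} [Field K] (x y : K) (k : Type) [Field k] where
  O : Subring K
  res : O →+* k
  hx : x⁻¹ ∈ O
  hy : y ∈ O
  hx0 : res ⟨x⁻¹, hx⟩ = 0

/-- the value at `Y = u`, `X = z` of a polynomial in `X` whose coefficients are integer polynomials in `Y` -/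
noncomputable def ev2 {R : Type} [CommRing R] (Q : Polynomial (Polynomial ℤ)) (u z : R) : R :=
  Q.eval₂ ((Polynomial.aeval u : Polynomial ℤ →ₐ[ℤ] R) : Polynomial ℤ →+* R) z

/-- `p` is a relation between `y` (for `Y`) and `x` (for `X`) of minimal `X`-degree, not divisible by `Y - 1` -/
structure MinRel {K : Type} [Field K] (x y : K) (p : Polynomial (Polynomial ℤ)) : Prop where
  pos : 1 ≤ p.natDegree
  rel : ev2 p y x = 0
  min : ∀ Q : Polynomial (Polynomial ℤ), ev2 Q y x = 0 → Q.natDegree < p.natDegree → Q = 0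
  prim : ∃ i, (p.coeff i).eval 1 ≠ 0

theorem ev2_zero {R : Type} [CommRing R] (u z : R) : ev2 0 u z = 0 := by simp [ev2]

theorem ev2_add {R : Type} [CommRing R] (P Q : Polynomial (Polynomial ℤ)) (u z : R) : ev2 (P + Q) u z = ev2 P u z + ev2 Q u z := by
  simp [ev2, Polynomial.eval₂_add]

theorem ev2_mul {R : Type} [CommRing R] (P Q : Polynomial (Polynomial ℤ)) (u z : R) : ev2 (P * Q) u z = ev2 P u z * ev2 Q u z := by
  simp [ev2, Polynomial.eval₂_mul]

theorem ev2_C {R : Type} [CommRing R] (c : Polynomial ℤ) (u z : R) : ev2 (Polynomial.C c) u z = Polynomial.aeval u c := by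
  simp [ev2]

theorem ev2_eq_sum {R : Type} [CommRing R] (Q : Polynomial (Polynomial ℤ)) (u z : R) :
    ev2 Q u z = ∑ i ∈ Finset.range (Q.natDegree + 1), Polynomial.aeval u (Q.coeff i) * z ^ i := by
  simp [ev2, Polynomial.eval₂_eq_sum_range]

theorem ev2_map {R R' : Type} [CommRing R] [CommRing R'] (ψ : R →+* R') (Q : Polynomial (Polynomial ℤ)) (u z : R) :
    ψ (ev2 Q u z) = ev2 Q (ψ u) (ψ z) := by
  rw [ev2_eq_sum, ev2_eq_sum, map_sum]
  refine Finset.sum_congr rfl fun i _ => ?_
  rw [map_mul, map_pow]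
  congr 1
  rw [Polynomial.aeval_def, Polynomial.aeval_def, Polynomial.hom_eval₂]
  congr 1
  exact RingHom.ext_int _ _

end Pool.Agent.Helper13.MS
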