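import Pool.Agent.Helper13.MS.FPD0

/-!
# MS-FPE1a: the minimal relation

Among the nonzero `Q` with `ev2 Q y x = 0` (they exist: clear denominators in the algebraic relation between `x` and `y` over `Q`) take one of minimal degree; it is `≥ 1` since `y` is transcendental.
Divide by the highest power of `C (Y - 1)` which divides it (`ev2` of the quotient still vanishes as `y ≠ 1`; the degree in `X` does not change; for finiteness: the degree in `Y` of the leading
coefficient drops): then not all coefficients are divisible by `Y - 1`.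
-/

set_option autoImplicit false

namespace Pool.Agent.Helper13.MS

theorem ev2_of_mvPolynomial {R : Type} [CommRing R] (a b : R) (P : MvPolynomial (Fin 2) ℤ) :
    ev2 (MvPolynomial.aeval ![(Polynomial.X : Polynomial (Polynomial ℤ)), Polynomial.C Polynomial.X] P) b a =
      MvPolynomial.aeval ![a, b] P := by
  induction P using MvPolynomial.induction_on with
  | C c =>
    have h := map_intCast (Polynomial.eval₂RingHom ((Polynomial.aeval b : Polynomial ℤ →ₐ[ℤ] R) : Polynomial ℤ →+* R) a) c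
    rw [Polynomial.coe_eval₂RingHom] at h
    rw [MvPolynomial.aeval_C, MvPolynomial.aeval_C, ev2, eq_intCast, eq_intCast]
    exact h
  | add p q hp hq => rw [map_add, ev2_add, hp, hq, map_add]
  | mul_X p i hp =>
    rw [map_mul, ev2_mul, hp, map_mul]
    congr 1
    fin_cases i
    · simp [ev2]
    · simp [ev2]

theorem exists_minRel {K : Type} [Field K] [CharZero K] (x y : K) (hy : Transcendental ℚ y) (hdep : ¬ AlgebraicIndependent ℚ ![x, y]) :
    ∃ p : Polynomial (Polynomial ℤ), MinRel x y p := by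
  have hyZ : Transcendental ℤ y := hy.restrictScalars (algebraMap ℤ ℚ).injective_int
  have hdepZ : ¬ AlgebraicIndependent ℤ ![x, y] := by
    have halg : Algebra.IsAlgebraic ℤ ℚ := IsLocalization.isAlgebraic (R := ℤ) (S := ℚ) (nonZeroDivisors ℤ)
    exact fun h => hdep (h.extendScalars ℚ)
  have hex : ∃ Q : Polynomial (Polynomial ℤ), Q ≠ 0 ∧ ev2 Q y x = 0 := by
    rw [algebraicIndependent_iff] at hdepZ
    push Not at hdepZ
    obtain ⟨P, hP, hP0⟩ := hdepZ
    refine ⟨MvPolynomial.aeval ![(Polynomial.X : Polynomial (Polynomial ℤ)), Polynomial.C Polynomial.X] P, ?_, ?_⟩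
    · intro h
      apply hP0
      have h1 := ev2_of_mvPolynomial (MvPolynomial.X 0 : MvPolynomial (Fin 2) ℤ) (MvPolynomial.X 1) P
      rw [h, ev2_zero] at h1
      have h2 : (![MvPolynomial.X 0, MvPolynomial.X 1] : Fin 2 → MvPolynomial (Fin 2) ℤ) = MvPolynomial.X := by
        funext i
        fin_cases i <;> rfl
      rw [h2] at h1
      exact (h1.trans (MvPolynomial.aeval_X_left_apply P)).symm
    · rw [ev2_of_mvPolynomial, hP]
  classical
  have h1 : ∃ d : ℕ, ∃ Q : Polynomial (Polynomial ℤ), Q ≠ 0 ∧ ev2 Q y x = 0 ∧ Q.natDegree = d := by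
    obtain ⟨Q, hQ, hQ2⟩ := hex
    exact ⟨_, Q, hQ, hQ2, rfl⟩
  have h2 : ∃ e : ℕ, ∃ Q : Polynomial (Polynomial ℤ), Q ≠ 0 ∧ ev2 Q y x = 0 ∧ Q.natDegree = Nat.find h1 ∧
      Q.leadingCoeff.natDegree = e := by
    obtain ⟨Q, hQ, hQ2, hQ3⟩ := Nat.find_spec h1
    exact ⟨_, Q, hQ, hQ2, hQ3, rfl⟩
  obtain ⟨p, hp0, hp, hpd, hpe⟩ := Nat.find_spec h2
  refine ⟨p, ?_, hp, ?_, ?_⟩
  · by_contra hcon
    have hd0 : p.natDegree = 0 := by omega
    rw [Polynomial.eq_C_of_natDegree_eq_zero hd0, ev2_C] at hp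
    have h3 := transcendental_iff.mp hyZ _ hp
    apply hp0
    rw [Polynomial.eq_C_of_natDegree_eq_zero hd0, h3, Polynomial.C_0]
  · intro Q hQ hQd
    by_contra hQ0
    rw [hpd] at hQd
    exact Nat.find_min h1 hQd ⟨Q, hQ0, hQ, rfl⟩
  · by_contra hcon
    push Not at hcon
    have hdvd : Polynomial.C (Polynomial.X - Polynomial.C (1 : ℤ)) ∣ p := by
      rw [Polynomial.C_dvd_iff_dvd_coeff]
      intro i
      rw [Polynomial.dvd_iff_isRoot]
      exact hcon i
    obtain ⟨Q, hQ⟩ := hdvd
    have hX1 : (Polynomial.X - Polynomial.C (1 : ℤ)) ≠ 0 := Polynomial.X_sub_C_ne_zero 1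
    have hQ0 : Q ≠ 0 := by
      rintro rfl
      exact hp0 (by rw [hQ, mul_zero])
    have hQrel : ev2 Q y x = 0 := by
      rw [hQ, ev2_mul, ev2_C] at hp
      refine (mul_eq_zero.mp hp).resolve_left fun h => hX1 (transcendental_iff.mp hyZ _ h)
    have hQd : Q.natDegree = p.natDegree := by
      rw [hQ, Polynomial.natDegree_C_mul hX1]
    have hlc : p.leadingCoeff = (Polynomial.X - Polynomial.C (1 : ℤ)) * Q.leadingCoeff := by
      rw [hQ, Polynomial.leadingCoeff_mul, Polynomial.leadingCoeff_C]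
    have hlcd : p.leadingCoeff.natDegree = 1 + Q.leadingCoeff.natDegree := by
      rw [hlc, Polynomial.natDegree_mul hX1 (Polynomial.leadingCoeff_ne_zero.mpr hQ0), Polynomial.natDegree_X_sub_C]
    have hlt : Q.leadingCoeff.natDegree < Nat.find h2 := by
      rw [← hpe, hlcd]
      omega
    exact Nat.find_min h2 hlt ⟨Q, hQ0, hQrel, by rw [hQd, hpd], rfl⟩

end Pool.Agent.Helper13.MS
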