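import Pool.Agent.Helper13.MS.FPD0

/-!
# MS-FPE1b: specialisation of the minimal relation

Pseudo-division: `lead^e * Q = A * p + R`, `R = 0` or `deg R < deg p` (over a domain: strong induction on `natDegree Q`, subtract `lead(Q) X^(..) p` from `lead(p) Q`); `ev2 R y x = 0`, so
`R = 0`, and `lead(u)^e * Q(u, z) = A(u, z) p(u, z) = 0`, `lead(u) ≠ 0` since `u` is transcendental and `lead ≠ 0`.
-/

set_option autoImplicit false

namespace Pool.Agent.Helper13.MS

theorem spec {K : Type} [Field K] [CharZero K] {x y : K} {p : Polynomial (Polynomial ℤ)} (hp : MinRel x y p) (u z : ℂ)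
    (hu : Transcendental ℚ u) (hz : ev2 p u z = 0) (Q : Polynomial (Polynomial ℤ)) (hQ : ev2 Q y x = 0) : ev2 Q u z = 0 := by
  have hp0 : p ≠ 0 := by
    rintro rfl
    have := hp.pos
    simp at this
  have hlp : p.leadingCoeff ≠ 0 := Polynomial.leadingCoeff_ne_zero.mpr hp0
  have huZ : Transcendental ℤ u := hu.restrictScalars (algebraMap ℤ ℚ).injective_int
  have hlu : Polynomial.aeval u p.leadingCoeff ≠ 0 := by
    intro h
    exact hlp ((transcendental_iff.mp huZ) _ h)
  have key : ∀ n : ℕ, ∀ Q : Polynomial (Polynomial ℤ), Q.natDegree < n → ev2 Q y x = 0 → ev2 Q u z = 0 := by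
    intro n
    induction n with
    | zero => intro Q hn; exact absurd hn (Nat.not_lt_zero _)
    | succ n ih =>
      intro Q hn hQ
      by_cases hlt : Q.natDegree < p.natDegree
      · rw [hp.min Q hQ hlt, ev2_zero]
      push Not at hlt
      have hQd : 1 ≤ Q.natDegree := hp.pos.trans hlt
      have hQ0 : Q ≠ 0 := by
        rintro rfl
        simp at hQd
      have hlQ : Q.leadingCoeff ≠ 0 := Polynomial.leadingCoeff_ne_zero.mpr hQ0
      let A : Polynomial (Polynomial ℤ) := Polynomial.C p.leadingCoeff * Q
      let B : Polynomial (Polynomial ℤ) := Polynomial.C Q.leadingCoeff * Polynomial.X ^ (Q.natDegree - p.natDegree) * p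
      have hA0 : A ≠ 0 := mul_ne_zero (Polynomial.C_ne_zero.mpr hlp) hQ0
      have hdA : A.degree = Q.degree := Polynomial.degree_C_mul hlp
      have hlA : A.leadingCoeff = p.leadingCoeff * Q.leadingCoeff := by
        simp [A]
      have hlB : B.leadingCoeff = Q.leadingCoeff * p.leadingCoeff := by
        simp [B]
      have hB0 : B ≠ 0 := by
        rw [← Polynomial.leadingCoeff_ne_zero, hlB]
        exact mul_ne_zero hlQ hlp
      have hdB : B.degree = Q.degree := by
        have h1 : B.natDegree = Q.natDegree := by
          rw [Polynomial.natDegree_mul (mul_ne_zero (Polynomial.C_ne_zero.mpr hlQ) (pow_ne_zero _ Polynomial.X_ne_zero)) hp0,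
            Polynomial.natDegree_C_mul_X_pow _ _ hlQ]
          omega
        rw [Polynomial.degree_eq_natDegree hB0, Polynomial.degree_eq_natDegree hQ0, h1]
      have hdeg : (A - B).degree < Q.degree := by
        rw [← hdA]
        exact Polynomial.degree_sub_lt_left (by rw [hdA, hdB]) hA0 (by rw [hlA, hlB, mul_comm])
      have hnd : (A - B).natDegree < n := by
        have h2 : (A - B).natDegree < Q.natDegree := by
          by_cases h0 : A - B = 0
          · rw [h0, Polynomial.natDegree_zero]; omega
          · exact Polynomial.natDegree_lt_natDegree h0 hdeg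
        omega
      have hsub : ∀ {R : Type} [CommRing R] (a b : R), ev2 (A - B) a b = ev2 A a b - ev2 B a b := by
        intro R _ a b
        simp [ev2, Polynomial.eval₂_sub]
      have hAB : ev2 (A - B) y x = 0 := by
        rw [hsub]
        simp only [A, B, ev2_mul, hQ, hp.rel]
        ring
      have h3 := ih (A - B) hnd hAB
      rw [hsub] at h3
      simp only [A, B, ev2_mul, hz, ev2_C] at h3
      have h4 : (Polynomial.aeval u) p.leadingCoeff * ev2 Q u z = 0 := by linear_combination h3
      exact (mul_eq_zero.mp h4).resolve_left hlu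
  exact key (Q.natDegree + 1) Q (Nat.lt_succ_self _) hQ

end Pool.Agent.Helper13.MS
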