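import Pool.Agent.Helper13.MS.FPD0

/-!
# MS-FPE1c: the leading coefficient vanishes at 1

Multiply `p(y, x) = ∑ c_i(y) x^i = 0` by `x^-d`: `c_d(y) = - ∑_{i<d} c_i(y) (x⁻¹)^(d-i)`, an identity in `O`; take residues: `c_d(1) = 0` in `k`, and `k` has characteristic zero.
-/

set_option autoImplicit false

namespace Pool.Agent.Helper13.MS

private theorem hom_aeval24 {R R' : Type} [CommRing R] [CommRing R'] (ψ : R →+* R') (c : Polynomial ℤ)
    (u : R) : ψ (Polynomial.aeval u c) = Polynomial.aeval (ψ u) c := by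
  rw [Polynomial.aeval_def, Polynomial.aeval_def, Polynomial.hom_eval₂]
  congr 1
  exact RingHom.ext_int _ _

private theorem aeval_one24 {R : Type} [CommRing R] (c : Polynomial ℤ) :
    Polynomial.aeval (1 : R) c = ((c.eval 1 : ℤ) : R) := by
  rw [Polynomial.aeval_def]
  have h1 := Polynomial.eval₂_at_apply (p := c) (algebraMap ℤ R) 1
  rw [map_one] at h1
  rw [h1]
  rfl

theorem lead_eval_one {K k : Type} [Field K] [CharZero K] [Field k] [CharZero k] {x y : K} (hx : x ≠ 0) (P : Place x y k)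
    (h1 : P.res ⟨y, P.hy⟩ = 1) {p : Polynomial (Polynomial ℤ)} (hp : MinRel x y p) : p.leadingCoeff.eval 1 = 0 := by
  have h0 : ∑ i ∈ Finset.range (p.natDegree + 1), Polynomial.aeval (⟨y, P.hy⟩ : P.O) (p.coeff i) *
      (⟨x⁻¹, P.hx⟩ : P.O) ^ (p.natDegree - i) = 0 := by
    apply P.O.subtype_injective
    rw [map_sum, map_zero]
    have h2 : ∑ i ∈ Finset.range (p.natDegree + 1), Polynomial.aeval y (p.coeff i) *
        (x⁻¹) ^ (p.natDegree - i) = (x⁻¹) ^ p.natDegree * ev2 p y x := by
      rw [ev2_eq_sum, Finset.mul_sum]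
      refine Finset.sum_congr rfl fun i hi => ?_
      have hi' : i ≤ p.natDegree := Nat.lt_succ_iff.1 (Finset.mem_range.1 hi)
      have h3 : (x⁻¹) ^ p.natDegree = (x⁻¹) ^ (p.natDegree - i) * (x⁻¹) ^ i := by
        rw [← pow_add, Nat.sub_add_cancel hi']
      have h4 : (x⁻¹) ^ i * x ^ i = 1 := by
        rw [← mul_pow, inv_mul_cancel₀ hx, one_pow]
      rw [h3]
      linear_combination -(Polynomial.aeval y (p.coeff i) * (x⁻¹) ^ (p.natDegree - i)) * h4
    rw [hp.rel, mul_zero] at h2
    rw [← h2]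
    refine Finset.sum_congr rfl fun i _ => ?_
    rw [map_mul, map_pow, hom_aeval24]
    rfl
  have h5 := congrArg P.res h0
  rw [map_sum, map_zero, Finset.sum_range_succ, Finset.sum_eq_zero, zero_add, Nat.sub_self,
    pow_zero, mul_one, hom_aeval24, h1, aeval_one24] at h5
  · exact_mod_cast h5
  · intro i hi
    have hi' : p.natDegree - i ≠ 0 := by
      have := Finset.mem_range.1 hi
      omega
    rw [map_mul, map_pow, P.hx0, zero_pow hi', mul_zero]

end Pool.Agent.Helper13.MS
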