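import Pool.Agent.Helper13.MS.FPD0

/-!
# MS-FPE2: the roots tend to infinity

Suppose not: there is `R ≥ 1` and a sequence (or: for every `δ`) `u → 1` with `c_d(u) ≠ 0` and all roots of `p(u, X)` (a complex polynomial of degree `d`) of modulus `< R`.  By Vieta / `Polynomial` root
bounds `‖c_i(u)‖ ≤ ‖c_d(u)‖ * (d choose i) * R^(d-i)` (`Polynomial.coeff_le_of_roots_le` or `coeff_bdd_of_roots_le`), and `c_d(u) → c_d(1) = 0`, so `c_i(1) = lim c_i(u) = 0` for all `i`, contradiction to `hprim`.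
(So direct: take `i` with `c_i(1) ≠ 0`, `i < d`; choose `δ` such that `‖c_i(u)‖ ≥ ‖c_i(1)‖/2` and `‖c_d(u)‖ (d choose i) R^(d-i) < ‖c_i(1)‖/2` for `‖u - 1‖ < δ`.)
-/

set_option autoImplicit false

namespace Pool.Agent.Helper13.MS

theorem exists_large_root (p : Polynomial (Polynomial ℤ)) (h1 : p.leadingCoeff.eval 1 = 0)
    (hprim : ∃ i, (p.coeff i).eval 1 ≠ 0) (R : ℝ) :
    ∃ δ : ℝ, 0 < δ ∧ ∀ u : ℂ, ‖u - 1‖ < δ → Polynomial.aeval u p.leadingCoeff ≠ 0 → ∃ z : ℂ, ev2 p u z = 0 ∧ R ≤ ‖z‖ := by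
  obtain ⟨i, hi⟩ := hprim
  have hcast : ∀ c : Polynomial ℤ, Polynomial.aeval (1 : ℂ) c = ((c.eval 1 : ℤ) : ℂ) := by
    intro c
    have := Polynomial.aeval_algebraMap_apply ℂ (1 : ℤ) c
    simpa using this
  have hcont : Continuous fun u : ℂ => ‖Polynomial.aeval u (p.coeff i)‖ -
      ‖Polynomial.aeval u p.leadingCoeff‖ * (max R 1 ^ p.natDegree * (p.natDegree.choose (p.natDegree / 2) : ℝ)) :=
    ((p.coeff i).continuous_aeval.norm).sub ((p.leadingCoeff.continuous_aeval.norm).mul continuous_const)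
  have h0 : 0 < ‖Polynomial.aeval (1 : ℂ) (p.coeff i)‖ -
      ‖Polynomial.aeval (1 : ℂ) p.leadingCoeff‖ * (max R 1 ^ p.natDegree * (p.natDegree.choose (p.natDegree / 2) : ℝ)) := by
    rw [hcast, hcast, h1]
    simpa using hi
  obtain ⟨δ, hδ, hball⟩ := Metric.eventually_nhds_iff.mp (hcont.continuousAt.eventually (lt_mem_nhds h0))
  refine ⟨δ, hδ, fun u hu hlead => ?_⟩
  have hpos := hball (y := u) (by rwa [Complex.dist_eq])
  by_contra hcon
  push Not at hcon
  -- the polynomial `p(u, X)`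
  let f : Polynomial ℤ →+* ℂ := ((Polynomial.aeval u : Polynomial ℤ →ₐ[ℤ] ℂ) : Polynomial ℤ →+* ℂ)
  have hev : ∀ z, ev2 p u z = (p.map f).eval z := by
    intro z
    rw [ev2, Polynomial.eval_map]
  have hfl : f p.leadingCoeff ≠ 0 := hlead
  have hdeg : (p.map f).natDegree = p.natDegree := Polynomial.natDegree_map_of_leadingCoeff_ne_zero f hfl
  have hlc : (p.map f).leadingCoeff = f p.leadingCoeff := Polynomial.leadingCoeff_map_of_leadingCoeff_ne_zero f hfl
  have hq0 : p.map f ≠ 0 := by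
    intro h
    rw [← Polynomial.leadingCoeff_eq_zero, hlc] at h
    exact hfl h
  let q : Polynomial ℂ := Polynomial.C (f p.leadingCoeff)⁻¹ * p.map f
  have hqm : q.Monic := by
    rw [Polynomial.Monic, Polynomial.leadingCoeff_mul, Polynomial.leadingCoeff_C, hlc, inv_mul_cancel₀ hfl]
  have hqd : q.natDegree ≤ p.natDegree := by
    rw [Polynomial.natDegree_C_mul (inv_ne_zero hfl), hdeg]
  have hbd := Polynomial.coeff_bdd_of_roots_le (B := R) (d := p.natDegree) (RingHom.id ℂ) hqm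
    (IsAlgClosed.splits _) hqd (by
      intro z hz
      rw [Polynomial.map_id] at hz
      have hz2 : q.eval z = 0 := Polynomial.isRoot_of_mem_roots hz
      rw [Polynomial.eval_mul, Polynomial.eval_C, mul_eq_zero] at hz2
      rcases hz2 with h | h
      · exact absurd h (inv_ne_zero hfl)
      · exact (hcon z (by rw [hev, h])).le) i
  rw [Polynomial.map_id, Polynomial.coeff_C_mul, Polynomial.coeff_map, norm_mul, norm_inv,
    inv_mul_le_iff₀ (norm_pos_iff.mpr hfl)] at hbd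
  change ‖Polynomial.aeval u (p.coeff i)‖ ≤ ‖Polynomial.aeval u p.leadingCoeff‖ * _ at hbd
  linarith

end Pool.Agent.Helper13.MS
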