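import Pool.Agent.Helper13.MS.FPE1b

/-!
# MS-FPE3: embeddings

`K = ℚ(x, y)`.  `F = ℚ(y) = IntermediateField.adjoin ℚ {y}` maps to `ℂ` by `y ↦ u` (both transcendental: e.g. `RatFunc ℚ` or `IsFractionRing.lift`, or `AlgebraicIndependent`/`IsTranscendenceBasis` API);
`x` is algebraic over `F`, `K = F(x)`, and the image under `F → ℂ` of the minimal polynomial of `x` over `F` vanishes at `z`: `p(y, X)` has degree `natDegree p` over `F` and `x` is not a root of
a nonzero polynomial over `F` of smaller degree (clear denominators and use `MinRel.min`), so it is a constant times the minimal polynomial; so there is an extension `K → ℂ` with `x ↦ z`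
(`IntermediateField.adjoin` API / `IsAlgClosed.lift` / `algHomAdjoinIntegralEquiv`).  Finally `ℂ` is algebraically closed and `AlgebraicClosure K` is algebraic over `K`: `IsAlgClosed.lift`.

Alternative: the subring `R = ℤ[y, x]` of `K`: by `spec` there is a ring homomorphism `R → ℂ`; it is injective: if `Q(y, x) ≠ 0` then, `K` being algebraic over `ℚ(y)`, there are `S` and a nonzero
`q ∈ ℤ[Y]` with `S(y, x) Q(y, x) = q(y)`, so `S(u, z) Q(u, z) = q(u) ≠ 0`; extend to the fraction field `K` of `R`.
-/

set_option autoImplicit false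

namespace Pool.Agent.Helper13.MS

open Polynomial in
/-- the homomorphism `Q ↦ ev2 Q u z` -/
private noncomputable def evHom {R : Type} [CommRing R] (u z : R) : ℤ[X][X] →+* R :=
  Polynomial.eval₂RingHom ((Polynomial.aeval u : ℤ[X] →ₐ[ℤ] R) : ℤ[X] →+* R) z

private theorem evHom_apply {R : Type} [CommRing R] (u z : R) (Q : Polynomial (Polynomial ℤ)) :
    evHom u z Q = ev2 Q u z := rfl

private theorem ker_le48 {K : Type} [Field K] [CharZero K] {x y : K}
    {p : Polynomial (Polynomial ℤ)} (hp : MinRel x y p) (u z : ℂ)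
    (hu : Transcendental ℚ u) (hz : ev2 p u z = 0) (Q : Polynomial (Polynomial ℤ))
    (hQ : ev2 Q u z = 0) : ev2 Q y x = 0 := by
  by_contra hne
  letI : Algebra (Polynomial ℤ) K := ((Polynomial.aeval y : Polynomial ℤ →ₐ[ℤ] K) : Polynomial ℤ →+* K).toAlgebra
  have hmap : ∀ T : Polynomial ℤ, algebraMap (Polynomial ℤ) K T = Polynomial.aeval y T := fun T => rfl
  have hp0 : p ≠ 0 := by
    rintro rfl
    have := hp.pos
    simp at this
  have hx : IsAlgebraic (Polynomial ℤ) x := ⟨p, hp0, hp.rel⟩
  have hq : IsAlgebraic (Polynomial ℤ) (ev2 Q y x) := by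
    have h1 : ev2 Q y x = Polynomial.aeval x Q := rfl
    rw [h1, ← Subalgebra.mem_algebraicClosure]
    have h2 : Algebra.adjoin (Polynomial ℤ) {x} ≤ Subalgebra.algebraicClosure (Polynomial ℤ) K := by
      rw [Algebra.adjoin_le_iff]
      intro t ht
      rw [Set.mem_singleton_iff] at ht
      rw [ht]
      exact hx
    exact h2 (Polynomial.aeval_mem_adjoin_singleton _ _)
  obtain ⟨T, hT0, hT⟩ := hq.exists_nonzero_coeff_and_aeval_eq_zero
    (mem_nonZeroDivisors_of_ne_zero hne)
  -- the polynomial `T(Q)`
  have h1 : ev2 (T.comp Q) y x = 0 := by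
    have : ev2 (T.comp Q) y x = Polynomial.aeval x (T.comp Q) := rfl
    rw [this, Polynomial.aeval_comp]
    exact hT
  have h2 := spec hp u z hu hz _ h1
  have h3 : ev2 (T.comp Q) u z = Polynomial.aeval u (T.coeff 0) := by
    have e1 : ev2 (T.comp Q) u z = T.eval₂ ((Polynomial.aeval u : Polynomial ℤ →ₐ[ℤ] ℂ) : Polynomial ℤ →+* ℂ)
        (ev2 Q u z) := by
      refine (Polynomial.hom_eval₂ T Polynomial.C (Polynomial.eval₂RingHom
        ((Polynomial.aeval u : Polynomial ℤ →ₐ[ℤ] ℂ) : Polynomial ℤ →+* ℂ) z) Q).trans ?_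
      unfold ev2
      congr 1
      ext t
      · simp
      · simp
    rw [e1, hQ, Polynomial.eval₂_at_zero]
    rfl
  rw [h3] at h2
  refine hT0 ?_
  have hinj : Function.Injective (algebraMap ℤ ℚ) := by
    intro a b hab
    simpa using hab
  have h4 : Polynomial.aeval u ((T.coeff 0).map (algebraMap ℤ ℚ)) = 0 := by
    rw [Polynomial.aeval_map_algebraMap]
    exact h2
  have h5 := (transcendental_iff.1 hu) _ h4
  exact (Polynomial.map_eq_zero_iff hinj).1 h5

private theorem ext48 {R K C : Type} [CommRing R] [IsDomain R] [Field K] [Field C] (f : R →+* K)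
    (hf : Function.Injective f) (g : R →+* C) (hg : Function.Injective g)
    (h : ∀ S : Subfield K, (∀ r, f r ∈ S) → S = ⊤) : ∃ ψ : K →+* C, ∀ r, ψ (f r) = g r := by
  let F : FractionRing R →+* K := IsFractionRing.lift hf
  let G : FractionRing R →+* C := IsFractionRing.lift hg
  have hF : ∀ r : R, F (algebraMap R (FractionRing R) r) = f r :=
    fun r => IsFractionRing.lift_algebraMap hf r
  have hG : ∀ r : R, G (algebraMap R (FractionRing R) r) = g r :=
    fun r => IsFractionRing.lift_algebraMap hg r
  have hsurj : Function.Surjective F := by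
    have h1 := h F.fieldRange fun r => ⟨_, hF r⟩
    intro t
    have : t ∈ F.fieldRange := by
      rw [h1]
      exact Subfield.mem_top t
    exact this
  let e : FractionRing R ≃+* K := RingEquiv.ofBijective F ⟨F.injective, hsurj⟩
  have he : ∀ l, e l = F l := fun l => rfl
  refine ⟨G.comp (e.symm : K →+* FractionRing R), fun r => ?_⟩
  have : e.symm (f r) = algebraMap R (FractionRing R) r := by
    rw [RingEquiv.symm_apply_eq, he, hF]
  show G (e.symm (f r)) = g r
  rw [this, hG]

theorem exists_embedding {K : Type} [Field K] [CharZero K] (x y : K) (hgen : IntermediateField.adjoin ℚ {x, y} = ⊤)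
    (hy : Transcendental ℚ y) {p : Polynomial (Polynomial ℤ)} (hp : MinRel x y p) (u z : ℂ)
    (hu : Transcendental ℚ u) (hz : ev2 p u z = 0) :
    ∃ ψ : AlgebraicClosure K →+* ℂ, ψ (algebraMap K (AlgebraicClosure K) y) = u ∧ ψ (algebraMap K (AlgebraicClosure K) x) = z := by
  classical
  let φ : Polynomial (Polynomial ℤ) →+* K := evHom y x
  let χ : Polynomial (Polynomial ℤ) →+* ℂ := evHom u z
  have hφχ : ∀ Q, φ Q = 0 → χ Q = 0 := fun Q hQ => spec hp u z hu hz Q hQ
  have hχφ : ∀ Q, χ Q = 0 → φ Q = 0 := fun Q hQ => ker_le48 hp u z hu hz Q hQ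
  let I : Ideal (Polynomial (Polynomial ℤ)) := RingHom.ker φ
  let R := Polynomial (Polynomial ℤ) ⧸ I
  let f : R →+* K := Ideal.Quotient.lift I φ fun a ha => ha
  let g : R →+* ℂ := Ideal.Quotient.lift I χ fun a ha => hφχ a ha
  have hf : Function.Injective f := by
    rw [injective_iff_map_eq_zero]
    intro a ha
    obtain ⟨Q, rfl⟩ := Ideal.Quotient.mk_surjective a
    rw [Ideal.Quotient.eq_zero_iff_mem]
    exact ha
  have hg : Function.Injective g := by
    rw [injective_iff_map_eq_zero]
    intro a ha
    obtain ⟨Q, rfl⟩ := Ideal.Quotient.mk_surjective a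
    rw [Ideal.Quotient.eq_zero_iff_mem]
    exact hχφ Q ha
  have : IsDomain R := hf.isDomain f
  have hfx : f (Ideal.Quotient.mk I Polynomial.X) = x := by
    show φ Polynomial.X = x
    simp [φ, evHom]
  have hfy : f (Ideal.Quotient.mk I (Polynomial.C Polynomial.X)) = y := by
    show φ (Polynomial.C Polynomial.X) = y
    simp [φ, evHom]
  have hgx : g (Ideal.Quotient.mk I Polynomial.X) = z := by
    show χ Polynomial.X = z
    simp [χ, evHom]
  have hgy : g (Ideal.Quotient.mk I (Polynomial.C Polynomial.X)) = u := by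
    show χ (Polynomial.C Polynomial.X) = u
    simp [χ, evHom]
  have htop : ∀ S : Subfield K, (∀ r : R, f r ∈ S) → S = ⊤ := by
    intro S hS
    let S' : IntermediateField ℚ K := S.toIntermediateField fun q => by
      have : algebraMap ℚ K q = ((q : ℚ) : K) := by simp
      rw [this]
      exact SubfieldClass.ratCast_mem S q
    have h1 : IntermediateField.adjoin ℚ {x, y} ≤ S' := by
      rw [IntermediateField.adjoin_le_iff]
      intro t ht
      rcases ht with rfl | ht
      · have := hS (Ideal.Quotient.mk I Polynomial.X)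
        rw [hfx] at this
        exact this
      · rw [Set.mem_singleton_iff] at ht
        have := hS (Ideal.Quotient.mk I (Polynomial.C Polynomial.X))
        rw [hfy] at this
        rw [ht]
        exact this
    rw [hgen] at h1
    rw [eq_top_iff]
    intro t _
    exact h1 (IntermediateField.mem_top (x := t))
  obtain ⟨ψ₁, hψ₁⟩ := ext48 (R := R) (K := K) (C := ℂ) f hf g hg htop
  have hψy : ψ₁ y = u := by
    have := hψ₁ (Ideal.Quotient.mk I (Polynomial.C Polynomial.X))
    rwa [hfy, hgy] at this
  have hψx : ψ₁ x = z := by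
    have := hψ₁ (Ideal.Quotient.mk I Polynomial.X)
    rwa [hfx, hgx] at this
  letI : Algebra K ℂ := ψ₁.toAlgebra
  let ψ : AlgebraicClosure K →ₐ[K] ℂ := IsAlgClosed.lift
  refine ⟨ψ.toRingHom, ?_, ?_⟩
  · show ψ (algebraMap K (AlgebraicClosure K) y) = u
    rw [ψ.commutes]
    exact hψy
  · show ψ (algebraMap K (AlgebraicClosure K) x) = z
    rw [ψ.commutes]
    exact hψx

end Pool.Agent.Helper13.MS
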