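import Pool.Agent.Helper13.MS.FPE2
import Pool.Agent.Helper13.MS.FPE3

/-!
# MS-FPE4: coincidences only at roots of the leading coefficient

Replace `K` by `K' = IntermediateField.adjoin ℚ {x, y}` (`MinRel` passes to `K'` by injectivity of `K' → K`, `ev2_map`).  Let `ψ : AlgebraicClosure K' → ℂ` be the embedding for `(u, z)`; the image contains all
roots of unity of `ℂ` (`X^n - 1` splits), so `ζ = ψ ω`, `ζ' = ψ ω'`, `ω^n = ω'^n = 1`, and `p(ω y, ω' x) = 0` (`ψ` injective, `ev2_map`).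
For `R = 1, 2, 3, ...` choose a transcendental `u_R` with `‖u_R - 1‖ < min δ_R (1/R)` (`exists_large_root`; algebraic numbers are countable) and a root `z_R` of `p(u_R, ·)`, `‖z_R‖ ≥ R`, and the
embedding `ψ_R`.  `ψ_R ω` is an `n`-th root of unity: finitely many values for `(ψ_R ω, ψ_R ω')`, so some value `(ζ₁, ζ₁')` occurs for infinitely many `R`: `p(ζ₁ u_R, ζ₁' z_R) = 0`; divide by `z_R^d`
and let `R → ∞` : `c_d(ζ₁) ζ₁'^d = 0`, so `c_d(ζ₁) = 0`.  As `ψ_R (c_d(ω)) = c_d(ζ₁) = 0`: `c_d(ω) = 0`, and `c_d(ζ) = ψ (c_d(ω)) = 0`.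
-/

set_option autoImplicit false

namespace Pool.Agent.Helper13.MS

private theorem near_one34 (ε : ℝ) (hε : 0 < ε) : ∃ u : ℂ, Transcendental ℚ u ∧ ‖u - 1‖ < ε := by
  have h1 : Dense ({z : ℂ | IsAlgebraic ℚ z}ᶜ) :=
    Set.Countable.dense_compl ℝ (Algebraic.countable ℚ ℂ)
  obtain ⟨u, hu, hu2⟩ := h1.exists_dist_lt 1 hε
  refine ⟨u, hu, ?_⟩
  rwa [← dist_eq_norm, dist_comm]

private theorem lead_ne34 {u : ℂ} (hu : Transcendental ℚ u) {q : Polynomial ℤ} (hq : q ≠ 0) :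
    Polynomial.aeval u q ≠ 0 := by
  have h2 : Transcendental ℤ u := by
    have := hu.restrictScalars (R := ℤ) (by exact Int.cast_injective)
    exact this
  intro h
  exact h2 ⟨q, hq, h⟩

private theorem root_bdd34 (p : Polynomial (Polynomial ℤ)) (w : ℂ) (hw : Polynomial.aeval w p.leadingCoeff ≠ 0) :
    ∃ ε : ℝ, 0 < ε ∧ ∃ B : ℝ, ∀ u : ℂ, ‖u - 1‖ < ε → ∀ Z : ℂ, ev2 p (w * u) Z = 0 → ‖Z‖ ≤ B := by
  obtain ⟨S, hS⟩ : ∃ S : ℂ → ℝ, S = fun u => ∑ i ∈ Finset.range p.natDegree,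
    ‖Polynomial.aeval (w * u) (p.coeff i)‖ := ⟨_, rfl⟩
  obtain ⟨H, hH⟩ : ∃ H : ℂ → ℝ, H = fun u => ‖Polynomial.aeval (w * u) p.leadingCoeff‖ := ⟨_, rfl⟩
  have hcont : ∀ q : Polynomial ℤ, Continuous fun u : ℂ => ‖Polynomial.aeval (w * u) q‖ := by
    intro q
    exact (q.continuous_aeval.comp (continuous_const.mul continuous_id)).norm
  have hSc : Continuous S := by
    rw [hS]
    exact continuous_finsetSum _ fun i _ => hcont _
  have hHc : Continuous H := by
    rw [hH]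
    exact hcont _
  have hH1 : 0 < H 1 := by
    rw [hH]
    simpa using hw
  have e1 : ∀ᶠ u in nhds (1 : ℂ), H 1 / 2 < H u :=
    hHc.continuousAt.eventually (lt_mem_nhds (by linarith))
  have e2 : ∀ᶠ u in nhds (1 : ℂ), S u < S 1 + 1 :=
    hSc.continuousAt.eventually (gt_mem_nhds (by linarith))
  obtain ⟨ε, hε, h⟩ := Metric.eventually_nhds_iff.1 (e1.and e2)
  refine ⟨ε, hε, max 1 ((S 1 + 1) / (H 1 / 2)), ?_⟩
  intro u hu Z hZ
  obtain ⟨h1, h2⟩ := h (by rwa [dist_eq_norm])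
  by_contra hcon
  push Not at hcon
  have hZ1 : 1 < ‖Z‖ := (le_max_left _ _).trans_lt hcon
  have hZ2 : (S 1 + 1) / (H 1 / 2) < ‖Z‖ := (le_max_right _ _).trans_lt hcon
  rw [div_lt_iff₀ (by linarith)] at hZ2
  rw [ev2_eq_sum, Finset.sum_range_succ] at hZ
  have h3 : Polynomial.aeval (w * u) (p.coeff p.natDegree) * Z ^ p.natDegree =
      -∑ i ∈ Finset.range p.natDegree, Polynomial.aeval (w * u) (p.coeff i) * Z ^ i := by
    linear_combination hZ
  have h4 : H u * ‖Z‖ ^ p.natDegree ≤ ∑ i ∈ Finset.range p.natDegree,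
      ‖Polynomial.aeval (w * u) (p.coeff i)‖ * ‖Z‖ ^ i := by
    have h5 := congrArg norm h3
    rw [norm_mul, norm_pow, norm_neg] at h5
    rw [hH]
    show ‖Polynomial.aeval (w * u) (p.coeff p.natDegree)‖ * ‖Z‖ ^ p.natDegree ≤ _
    rw [h5]
    refine (norm_sum_le _ _).trans (le_of_eq (Finset.sum_congr rfl fun i _ => ?_))
    rw [norm_mul, norm_pow]
  have hHu : 0 < H u := by linarith
  rcases Nat.eq_zero_or_pos p.natDegree with h0 | h0
  · rw [h0] at h4
    simp only [pow_zero, mul_one, Finset.range_zero, Finset.sum_empty] at h4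
    linarith
  · have h6 : ∑ i ∈ Finset.range p.natDegree,
        ‖Polynomial.aeval (w * u) (p.coeff i)‖ * ‖Z‖ ^ i ≤ S u * ‖Z‖ ^ (p.natDegree - 1) := by
      rw [hS, Finset.sum_mul]
      refine Finset.sum_le_sum fun i hi => ?_
      rw [Finset.mem_range] at hi
      exact mul_le_mul_of_nonneg_left (pow_le_pow_right₀ hZ1.le (by omega)) (norm_nonneg _)
    have h7 : ‖Z‖ ^ p.natDegree = ‖Z‖ ^ (p.natDegree - 1) * ‖Z‖ := by
      rw [← pow_succ]
      congr 1
      omega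
    have h8 : 0 < ‖Z‖ ^ (p.natDegree - 1) := pow_pos (by linarith) _
    have h9 : H u * ‖Z‖ ≤ S u := by
      have h10 := h4.trans h6
      rw [h7] at h10
      have h11 : H u * ‖Z‖ * ‖Z‖ ^ (p.natDegree - 1) ≤ S u * ‖Z‖ ^ (p.natDegree - 1) := by
        linarith [h10]
      exact le_of_mul_le_mul_right h11 h8
    nlinarith

private theorem lead_root_gen34 {K : Type} [Field K] [CharZero K] (x y : K)
    (hgen : IntermediateField.adjoin ℚ {x, y} = ⊤) (hy : Transcendental ℚ y)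
    {p : Polynomial (Polynomial ℤ)} (hp : MinRel x y p) (h1 : p.leadingCoeff.eval 1 = 0)
    (u z ζ ζ' : ℂ) (hu : Transcendental ℚ u) (hz : ev2 p u z = 0)
    (n : ℕ) (hn : 1 ≤ n) (hζ : ζ ^ n = 1) (hζ' : ζ' ^ n = 1) (h : ev2 p (ζ * u) (ζ' * z) = 0) :
    Polynomial.aeval ζ p.leadingCoeff = 0 := by
  have : NeZero n := ⟨by omega⟩
  have hp0 : p ≠ 0 := by
    rintro rfl
    have := hp.pos
    rw [Polynomial.natDegree_zero] at this
    omega
  have hl0 : p.leadingCoeff ≠ 0 := Polynomial.leadingCoeff_ne_zero.2 hp0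
  obtain ⟨ψ, hψy, hψx⟩ := exists_embedding x y hgen hy hp u z hu hz
  have hevψ : ∀ (φ : AlgebraicClosure K →+* ℂ) (q : Polynomial ℤ) (a : AlgebraicClosure K),
      φ (Polynomial.aeval a q) = Polynomial.aeval (φ a) q := by
    intro φ q a
    have h2 := ev2_map φ (Polynomial.C q) a 0
    rwa [ev2_C, ev2_C] at h2
  obtain ⟨μ, hμ⟩ := HasEnoughRootsOfUnity.exists_primitiveRoot (AlgebraicClosure K) n
  have hψμ : IsPrimitiveRoot (ψ μ) n := hμ.map_of_injective ψ.injective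
  obtain ⟨i, -, hi⟩ := hψμ.eq_pow_of_pow_eq_one hζ
  obtain ⟨j, -, hj⟩ := hψμ.eq_pow_of_pow_eq_one hζ'
  have hrel : ev2 p (μ ^ i * algebraMap K (AlgebraicClosure K) y)
      (μ ^ j * algebraMap K (AlgebraicClosure K) x) = 0 := by
    apply ψ.injective
    rw [ev2_map, map_mul, map_mul, map_pow, map_pow, hψy, hψx, hi, hj, h, map_zero]
  choose δ hδ hδ2 using fun R : ℕ => exists_large_root p h1 hp.prim (R : ℝ)
  choose U hU hU2 using fun R : ℕ => near_one34 (min (δ R) (1 / ((R : ℝ) + 1)))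
    (lt_min (hδ R) (by positivity))
  choose Z hZ hZ2 using fun R : ℕ => hδ2 R (U R) ((hU2 R).trans_le (min_le_left _ _))
    (lead_ne34 (hU R) hl0)
  choose φ hφy hφx using fun R : ℕ => exists_embedding x y hgen hy hp (U R) (Z R) (hU R) (hZ R)
  have hfin : Finite {w : ℂ // w ^ n = 1} := by
    refine Set.Finite.to_subtype (s := {w : ℂ | w ^ n = 1}) ?_
    refine (Polynomial.nthRoots n (1 : ℂ)).toFinset.finite_toSet.subset ?_
    intro w hw
    rw [Finset.mem_coe, Multiset.mem_toFinset, Polynomial.mem_nthRoots (by omega)]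
    exact hw
  obtain ⟨w, hw⟩ := Finite.exists_infinite_fiber
    (fun R : ℕ => (⟨φ R μ, by rw [← map_pow, hμ.pow_eq_one, map_one]⟩ : {w : ℂ // w ^ n = 1}))
  have hinf : Set.Infinite {R : ℕ | φ R μ = (w : ℂ)} := by
    rw [Set.infinite_coe_iff] at hw
    refine hw.mono ?_
    intro R hR
    exact congrArg Subtype.val (hR : _ = w)
  have hlead : Polynomial.aeval ((w : ℂ) ^ i) p.leadingCoeff = 0 := by
    by_contra hcon
    obtain ⟨ε, hε, B, hB⟩ := root_bdd34 p _ hcon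
    obtain ⟨N, hN⟩ := exists_nat_gt (max B (1 / ε))
    obtain ⟨R, hR, hNR⟩ := hinf.exists_gt N
    have hNR' : (N : ℝ) < R := by exact_mod_cast hNR
    have hR1 : 1 / ε < R := (le_max_right _ _).trans_lt (hN.trans hNR')
    have hR2 : B < R := (le_max_left _ _).trans_lt (hN.trans hNR')
    have h2 : ‖U R - 1‖ < ε := by
      refine (hU2 R).trans_le ((min_le_right _ _).trans ?_)
      rw [div_le_iff₀ (by positivity)]
      rw [div_lt_iff₀ hε] at hR1
      nlinarith
    have h3 := hB (U R) h2 ((w : ℂ) ^ j * Z R) (by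
      have h4 := congrArg (φ R) hrel
      rw [ev2_map, map_mul, map_mul, map_pow, map_pow, hφy, hφx, map_zero] at h4
      have h5 : φ R μ = (w : ℂ) := hR
      rwa [h5] at h4)
    have h6 : ‖(w : ℂ)‖ = 1 := by
      have h7 : ‖(w : ℂ)‖ ^ n = 1 := by rw [← norm_pow, w.2, norm_one]
      exact (pow_eq_one_iff_of_nonneg (norm_nonneg _) (by omega)).1 h7
    rw [norm_mul, norm_pow, h6, one_pow, one_mul] at h3
    linarith [hZ2 R]
  obtain ⟨R, hR⟩ := hinf.nonempty
  have hR' : φ R μ = (w : ℂ) := hR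
  have h8 : Polynomial.aeval (μ ^ i) p.leadingCoeff = 0 := by
    apply (φ R).injective
    rw [hevψ, map_pow, hR', hlead, map_zero]
  rw [← hi, ← map_pow, ← hevψ, h8, map_zero]

private theorem minRel_sub34 {K : Type} [Field K] [CharZero K] (F : IntermediateField ℚ K) (x y : F)
    {p : Polynomial (Polynomial ℤ)} (hp : MinRel (x : K) (y : K) p) : MinRel x y p := by
  have hev : ∀ Q : Polynomial (Polynomial ℤ), ((ev2 Q y x : F) : K) = ev2 Q (y : K) (x : K) :=
    fun Q => ev2_map (algebraMap F K) Q y x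
  refine ⟨hp.pos, ?_, ?_, hp.prim⟩
  · apply (algebraMap F K).injective
    rw [map_zero]
    exact (hev p).trans hp.rel
  · intro Q hQ hd
    refine hp.min Q ?_ hd
    rw [← hev, hQ]
    rfl

private theorem gen_top34 {F : Type} [Field F] [CharZero F] (inst : Algebra ℚ F) (S : Set F)
    (h : @IntermediateField.adjoin ℚ _ F _ inst S = ⊤) : IntermediateField.adjoin ℚ S = ⊤ := by
  have h1 : inst = DivisionRing.toRatAlgebra := Subsingleton.elim _ _
  subst h1
  exact h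

theorem lead_root {K : Type} [Field K] [CharZero K] (x y : K) (hy : Transcendental ℚ y) {p : Polynomial (Polynomial ℤ)}
    (hp : MinRel x y p) (h1 : p.leadingCoeff.eval 1 = 0) (u z ζ ζ' : ℂ) (hu : Transcendental ℚ u) (hz : ev2 p u z = 0)
    (n : ℕ) (hn : 1 ≤ n) (hζ : ζ ^ n = 1) (hζ' : ζ' ^ n = 1) (h : ev2 p (ζ * u) (ζ' * z) = 0) :
    Polynomial.aeval ζ p.leadingCoeff = 0 := by
  have hxF : x ∈ IntermediateField.adjoin ℚ {x, y} :=
    IntermediateField.subset_adjoin ℚ {x, y} (Set.mem_insert _ _)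
  have hyF : y ∈ IntermediateField.adjoin ℚ {x, y} :=
    IntermediateField.subset_adjoin ℚ {x, y} (Set.mem_insert_of_mem _ (Set.mem_singleton _))
  obtain ⟨x', hx'⟩ : ∃ x' : IntermediateField.adjoin ℚ {x, y}, (x' : K) = x := ⟨⟨x, hxF⟩, rfl⟩
  obtain ⟨y', hy'⟩ : ∃ y' : IntermediateField.adjoin ℚ {x, y}, (y' : K) = y := ⟨⟨y, hyF⟩, rfl⟩
  have hgen : IntermediateField.adjoin ℚ {x', y'} = ⊤ := by
    apply gen_top34 (IntermediateField.adjoin ℚ {x, y}).algebra'
    apply IntermediateField.lift_injective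
    rw [IntermediateField.lift_adjoin, IntermediateField.lift_top, Set.image_pair, hx', hy']
  refine lead_root_gen34 x' y' hgen ?_ (minRel_sub34 _ x' y' (by rwa [hx', hy'])) h1 u z ζ ζ' hu hz n hn
    hζ hζ' h
  intro halg
  apply hy
  rw [← hy']
  exact halg.algebraMap (A := K)

end Pool.Agent.Helper13.MS
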