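import Mathlib

/-!
# MS-FPE5a: a good transcendental point on the circle

`∫ ‖F(e^{iθ})‖² dθ / 2π = ∑ (F k)² ≥ 1` (Parseval / orthogonality).  If `{θ : ‖F(e^{iθ})‖ ≥ 1}` had measure zero the integral would be `< 1`; so it has positive measure, is uncountable, and contains a
point with `e^{iθ}` transcendental (`Algebraic.countable`).  Alternative: if `‖F‖ ≤ 1` everywhere on the circle then `1 - ‖F‖² ≥ 0` has integral `≤ 0`, so `‖F‖ = 1` everywhere; otherwise `‖F‖ > 1` on an open arc.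
-/

set_option autoImplicit false

namespace Pool.Agent.Helper13.MS

private theorem exists_transc75 : ∃ c : ℂ, Transcendental ℚ c ∧ ‖c‖ = 1 := by
  by_contra hcon
  push Not at hcon
  have h1 : (fun θ : ℝ => Complex.exp (θ * Complex.I)) '' Set.Ioo 0 1 ⊆ {x : ℂ | IsAlgebraic ℚ x} := by
    rintro _ ⟨θ, _, rfl⟩
    by_contra h
    exact hcon _ h (Complex.norm_exp_ofReal_mul_I θ)
  have h2 := (Algebraic.countable ℚ ℂ).mono h1
  have h3 : Set.InjOn (fun θ : ℝ => Complex.exp (θ * Complex.I)) (Set.Ioo 0 1) := by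
    intro x hx y hy hxy
    have hpi := Real.pi_gt_three
    have h4 := Complex.exp_inj_of_neg_pi_lt_of_le_pi (x := x * Complex.I) (y := y * Complex.I)
      (by simp; linarith [hx.1]) (by simp; linarith [hx.2]) (by simp; linarith [hy.1])
      (by simp; linarith [hy.2]) hxy
    have h5 := congrArg Complex.im h4
    simpa using h5
  have h5 := Set.countable_of_injective_of_countable_image h3 h2
  rw [Cardinal.Real.Ioo_countable_iff] at h5
  linarith

private theorem orth75 {n : ℕ} {ω : ℂ} (hω : IsPrimitiveRoot ω n) (k l : Fin n) :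
    ∑ j ∈ Finset.range n, (ω ^ (k : ℕ) * (ω⁻¹) ^ (l : ℕ)) ^ j = if k = l then (n : ℂ) else 0 := by
  have hn : n ≠ 0 := by
    rintro rfl
    exact k.elim0
  have hω0 : ω ≠ 0 := hω.ne_zero hn
  split_ifs with h
  · rw [h, ← mul_pow, mul_inv_cancel₀ hω0]
    simp
  · have h1 : ω ^ (k : ℕ) * (ω⁻¹) ^ (l : ℕ) ≠ 1 := by
      intro h2
      have h3 : ω ^ (k : ℕ) = ω ^ (l : ℕ) := by
        have h4 : ω ^ (k : ℕ) * (ω⁻¹) ^ (l : ℕ) * ω ^ (l : ℕ) = ω ^ (l : ℕ) := by rw [h2, one_mul]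
        rwa [mul_assoc, ← mul_pow, inv_mul_cancel₀ hω0, one_pow, mul_one] at h4
      exact h (Fin.ext (hω.pow_inj k.2 l.2 h3))
    rw [geom_sum_eq h1]
    have h2 : (ω ^ (k : ℕ) * (ω⁻¹) ^ (l : ℕ)) ^ n = 1 := by
      rw [mul_pow, ← pow_mul, ← pow_mul, mul_comm (k : ℕ), mul_comm (l : ℕ), pow_mul, pow_mul, inv_pow, hω.pow_eq_one]
      simp
    rw [h2, sub_self, zero_div]

private theorem parseval75 {n : ℕ} {ω : ℂ} (hω : IsPrimitiveRoot ω n) (hω1 : ‖ω‖ = 1) (a : Fin n → ℂ) :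
    ∑ j ∈ Finset.range n, ‖∑ k, a k * (ω ^ (k : ℕ)) ^ j‖ ^ 2 = n * ∑ k, ‖a k‖ ^ 2 := by
  have hconj : (starRingEnd ℂ) ω = ω⁻¹ := (Complex.inv_eq_conj hω1).symm
  have key : ((∑ j ∈ Finset.range n, ‖∑ k, a k * (ω ^ (k : ℕ)) ^ j‖ ^ 2 : ℝ) : ℂ) =
      ((n * ∑ k, ‖a k‖ ^ 2 : ℝ) : ℂ) := by
    push_cast
    simp only [← Complex.mul_conj', map_sum, map_mul, map_pow, hconj]
    calc ∑ j ∈ Finset.range n, (∑ k, a k * (ω ^ (k : ℕ)) ^ j) *
          (∑ l, (starRingEnd ℂ) (a l) * ((ω⁻¹) ^ (l : ℕ)) ^ j)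
        = ∑ j ∈ Finset.range n, ∑ k, ∑ l, a k * (starRingEnd ℂ) (a l) *
            (ω ^ (k : ℕ) * (ω⁻¹) ^ (l : ℕ)) ^ j := by
          refine Finset.sum_congr rfl fun j _ => ?_
          rw [Finset.sum_mul_sum]
          refine Finset.sum_congr rfl fun k _ => Finset.sum_congr rfl fun l _ => ?_
          rw [mul_pow]
          ring
      _ = ∑ k, ∑ l, a k * (starRingEnd ℂ) (a l) *
            ∑ j ∈ Finset.range n, (ω ^ (k : ℕ) * (ω⁻¹) ^ (l : ℕ)) ^ j := by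
          rw [Finset.sum_comm]
          refine Finset.sum_congr rfl fun k _ => ?_
          rw [Finset.sum_comm]
          refine Finset.sum_congr rfl fun l _ => ?_
          rw [Finset.mul_sum]
      _ = ∑ k, a k * (starRingEnd ℂ) (a k) * n := by
          refine Finset.sum_congr rfl fun k _ => ?_
          rw [Finset.sum_eq_single k]
          · rw [orth75 hω, if_pos rfl]
          · intro l _ hl
            rw [orth75 hω, if_neg hl.symm, mul_zero]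
          · intro h
            exact absurd (Finset.mem_univ k) h
      _ = n * ∑ k, a k * (starRingEnd ℂ) (a k) := by
          rw [Finset.mul_sum]
          exact Finset.sum_congr rfl fun k _ => mul_comm _ _
  exact_mod_cast key

theorem exists_eta (N : ℕ) (F : Fin N → ℤ) (hne : ∃ k, F k ≠ 0) :
    ∃ η : ℂ, Transcendental ℚ η ∧ ‖η‖ = 1 ∧ 1 ≤ ‖∑ k, (F k : ℂ) * η ^ (k : ℕ)‖ := by
  obtain ⟨k0, hk0⟩ := hne
  have hN : N ≠ 0 := by
    rintro rfl
    exact k0.elim0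
  obtain ⟨c, hc, hc1⟩ := exists_transc75
  obtain ⟨ω, hω⟩ : ∃ ω : ℂ, IsPrimitiveRoot ω N := ⟨_, Complex.isPrimitiveRoot_exp N hN⟩
  have hω1 : ‖ω‖ = 1 := IsPrimitiveRoot.norm'_eq_one hω hN
  have hω0 : ω ≠ 0 := hω.ne_zero hN
  by_contra hcon
  push Not at hcon
  have hlt : ∀ j ∈ Finset.range N, ‖∑ k : Fin N, ((F k : ℂ) * c ^ (k : ℕ)) * (ω ^ (k : ℕ)) ^ j‖ ^ 2 < 1 := by
    intro j _
    have h1 : ∑ k : Fin N, ((F k : ℂ) * c ^ (k : ℕ)) * (ω ^ (k : ℕ)) ^ j =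
        ∑ k : Fin N, (F k : ℂ) * (c * ω ^ j) ^ (k : ℕ) := by
      refine Finset.sum_congr rfl fun k _ => ?_
      rw [mul_pow, mul_assoc, ← pow_mul, ← pow_mul, mul_comm (k : ℕ)]
    rw [h1]
    have h2 : Transcendental ℚ (c * ω ^ j) := by
      intro halg
      apply hc
      have h3 : IsAlgebraic ℚ (ω ^ j) := by
        apply IsIntegral.isAlgebraic
        apply IsIntegral.of_pow (Nat.pos_of_ne_zero hN)
        rw [← pow_mul, mul_comm, pow_mul, hω.pow_eq_one, one_pow]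
        exact isIntegral_one
      have h4 := halg.mul h3.inv
      rwa [mul_assoc, mul_inv_cancel₀ (pow_ne_zero _ hω0), mul_one] at h4
    have h5 : ‖c * ω ^ j‖ = 1 := by
      rw [norm_mul, norm_pow, hc1, hω1, one_pow, one_mul]
    have h6 := hcon _ h2 h5
    have h7 := norm_nonneg (∑ k : Fin N, (F k : ℂ) * (c * ω ^ j) ^ (k : ℕ))
    nlinarith
  have h1 := parseval75 hω hω1 (fun k => (F k : ℂ) * c ^ (k : ℕ))
  have h2 : ∑ j ∈ Finset.range N, ‖∑ k : Fin N, ((F k : ℂ) * c ^ (k : ℕ)) * (ω ^ (k : ℕ)) ^ j‖ ^ 2 <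
      ∑ _j ∈ Finset.range N, (1 : ℝ) :=
    Finset.sum_lt_sum_of_nonempty (Finset.nonempty_range_iff.2 hN) hlt
  rw [h1, Finset.sum_const, Finset.card_range, nsmul_eq_mul, mul_one] at h2
  have h3 : (1 : ℝ) ≤ ∑ k : Fin N, ‖(F k : ℂ) * c ^ (k : ℕ)‖ ^ 2 := by
    have h4 : ‖(F k0 : ℂ) * c ^ (k0 : ℕ)‖ ^ 2 ≤ ∑ k : Fin N, ‖(F k : ℂ) * c ^ (k : ℕ)‖ ^ 2 :=
      Finset.single_le_sum (f := fun k : Fin N => ‖(F k : ℂ) * c ^ (k : ℕ)‖ ^ 2) (fun k _ => by positivity)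
        (Finset.mem_univ k0)
    refine le_trans ?_ h4
    rw [norm_mul, norm_pow, hc1, one_pow, mul_one]
    have h5 : (1 : ℝ) ≤ ‖(F k0 : ℂ)‖ := by
      rw [Complex.norm_intCast]
      exact_mod_cast Int.one_le_abs hk0
    nlinarith
  have h4 : (0 : ℝ) < N := by exact_mod_cast Nat.pos_of_ne_zero hN
  nlinarith

end Pool.Agent.Helper13.MS
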