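import Mathlib

/-!
# MS-FPE5b: many roots near 1

`η = e^{iθ}`, the `L`-th roots of `η` are `e^{i(θ + 2πj)/L}`; those with `|argument| < δ` are at least `δ L / (2π) - 1` many (`θ ∈ (-π, π]`, `0 ≤ j`, `(θ + 2πj)/L < δ` and `δ < π`) and
`‖e^{iφ} - 1‖ ≤ |φ| < δ`.
-/

set_option autoImplicit false

namespace Pool.Agent.Helper13.MS

theorem exists_roots (δ : ℝ) (hδ : 0 < δ) :
    ∃ (c : ℝ) (L₁ : ℕ), 0 < c ∧ ∀ L : ℕ, L₁ ≤ L → ∀ η : ℂ, ‖η‖ = 1 →
      ∃ U : Finset ℂ, (∀ u ∈ U, u ^ L = η ∧ ‖u - 1‖ < δ) ∧ c * L ≤ U.card := by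
  set δ' : ℝ := min δ 1 with hδ'def
  have hδ'0 : 0 < δ' := lt_min hδ one_pos
  have hδ'1 : δ' ≤ 1 := min_le_right _ _
  have hδ'δ : δ' ≤ δ := min_le_left _ _
  have hpi : 0 < Real.pi := Real.pi_pos
  have hpi3 : 3 < Real.pi := Real.pi_gt_three
  refine ⟨δ' / (4 * Real.pi), ⌈2 * Real.pi / δ'⌉₊ + 1, by positivity, ?_⟩
  intro L hL η hη
  have hLr : 2 * Real.pi / δ' < L := by
    have h1 := Nat.le_ceil (2 * Real.pi / δ')
    have h2 : ((⌈2 * Real.pi / δ'⌉₊ + 1 : ℕ) : ℝ) ≤ L := by exact_mod_cast hL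
    push_cast at h2
    linarith
  have hL0 : (0 : ℝ) < L := lt_of_le_of_lt (by positivity) hLr
  have hLδ : 2 * Real.pi < L * δ' := by
    rwa [div_lt_iff₀ hδ'0] at hLr
  have hLne : (L : ℂ) ≠ 0 := by
    have : (L : ℝ) ≠ 0 := hL0.ne'
    exact_mod_cast this
  set θ : ℝ := Complex.arg η with hθ
  have hθ1 : -Real.pi < θ := Complex.neg_pi_lt_arg η
  have hθ2 : θ ≤ Real.pi := Complex.arg_le_pi η
  have hηe : Complex.exp (θ * Complex.I) = η := by
    have := Complex.norm_mul_exp_arg_mul_I η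
    rw [hη] at this
    simpa using this
  let ph : ℕ → ℝ := fun j => (θ + 2 * Real.pi * j) / L
  set N : ℕ := ⌈δ' / (4 * Real.pi) * L⌉₊ with hN
  have hNub : (N : ℝ) < δ' / (4 * Real.pi) * L + 1 := Nat.ceil_lt_add_one (by positivity)
  have hphb : ∀ j ∈ Finset.range N, |ph j| < δ' := by
    intro j hj
    have hj' : (j : ℝ) + 1 ≤ N := by
      have := Finset.mem_range.1 hj
      exact_mod_cast this
    have hj0 : (0 : ℝ) ≤ j := Nat.cast_nonneg j
    rw [abs_lt]
    constructor
    · rw [lt_div_iff₀ hL0]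
      nlinarith [mul_nonneg hpi.le hj0]
    · rw [div_lt_iff₀ hL0]
      have h1 : 4 * Real.pi * (δ' / (4 * Real.pi) * L) = δ' * L := by
        field_simp
      have h2 : (j : ℝ) < δ' / (4 * Real.pi) * L := by linarith
      have h3 : 4 * Real.pi * (j : ℝ) < δ' * L := by
        rw [← h1]
        exact mul_lt_mul_of_pos_left h2 (by positivity)
      linarith
  have hinj : Set.InjOn (fun j => Complex.exp (Complex.I * ph j)) (Finset.range N : Set ℕ) := by
    intro i hi j hj hij
    have hi' := abs_lt.1 (hphb i hi)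
    have hj' := abs_lt.1 (hphb j hj)
    have him : ∀ x : ℝ, (Complex.I * (x : ℂ)).im = x := fun x => by simp
    have h := Complex.exp_inj_of_neg_pi_lt_of_le_pi (x := Complex.I * ph i)
      (y := Complex.I * ph j) (by rw [him]; linarith) (by rw [him]; linarith)
      (by rw [him]; linarith) (by rw [him]; linarith) hij
    have h2 : ph i = ph j := by
      have := congrArg Complex.im h
      rwa [him, him] at this
    have h3 : θ + 2 * Real.pi * i = θ + 2 * Real.pi * j := by
      have h4 : (θ + 2 * Real.pi * i) / L = (θ + 2 * Real.pi * j) / L := h2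
      field_simp at h4
      linarith
    have h5 : (i : ℝ) = j := by
      have h6 : 2 * Real.pi * (i : ℝ) = 2 * Real.pi * j := by linarith
      exact mul_left_cancel₀ (by positivity) h6
    exact_mod_cast h5
  refine ⟨(Finset.range N).image fun j => Complex.exp (Complex.I * ph j), ?_, ?_⟩
  · intro u hu
    obtain ⟨j, hj, rfl⟩ := Finset.mem_image.1 hu
    constructor
    · rw [← Complex.exp_nat_mul]
      have h1 : (L : ℂ) * (Complex.I * (ph j : ℂ)) = θ * Complex.I + j * (2 * Real.pi * Complex.I) := by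
        simp only [ph]
        push_cast
        field_simp
      rw [h1, Complex.exp_add, hηe, Complex.exp_nat_mul_two_pi_mul_I, mul_one]
    · refine lt_of_le_of_lt Real.norm_exp_I_mul_ofReal_sub_one_le ?_
      rw [Real.norm_eq_abs]
      exact lt_of_lt_of_le (hphb j hj) hδ'δ
  · rw [Finset.card_image_of_injOn hinj, Finset.card_range]
    exact Nat.le_ceil _

end Pool.Agent.Helper13.MS
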