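import Mathlib

/-!
# MS-FPE5c: Mahler measure

`Polynomial.mahlerMeasure_eq_leadingCoeff_mul_prod_roots` and `mahlerMeasure_le_sum_norm_coeff` (the elements of `Z` are roots, each with multiplicity at least one; all factors are `≥ 1`).
-/

set_option autoImplicit false

namespace Pool.Agent.Helper13.MS

theorem mahler_bound (G : Polynomial ℂ) (R B : ℝ) (hR : 1 ≤ R) (hlead : 1 ≤ ‖G.leadingCoeff‖) (Z : Finset ℂ)
    (hZ : ∀ z ∈ Z, G.eval z = 0 ∧ R ≤ ‖z‖) (hB : ∑ i ∈ G.support, ‖G.coeff i‖ ≤ B) : R ^ Z.card ≤ B := by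
  have hG : G ≠ 0 := by
    rintro rfl
    rw [Polynomial.leadingCoeff_zero, norm_zero] at hlead
    linarith
  have hle : Z.val ≤ G.roots := by
    rw [Finset.val_le_iff_val_subset]
    intro z hz
    rw [Polynomial.mem_roots hG]
    exact (hZ z hz).1
  obtain ⟨t, ht⟩ := Multiset.le_iff_exists_add.1 hle
  have h1 : R ^ Z.card ≤ ∏ z ∈ Z, max 1 ‖z‖ := by
    rw [← Finset.prod_const]
    apply Finset.prod_le_prod
    · intro z _
      linarith
    · intro z hz
      exact (hZ z hz).2.trans (le_max_right _ _)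
  have h2 : (1 : ℝ) ≤ (t.map (fun a => max 1 ‖a‖)).prod := by
    exact Multiset.one_le_prod_map fun a _ => le_max_left _ _
  have h3 : ∏ z ∈ Z, max 1 ‖z‖ ≤ (G.roots.map (fun a => max 1 ‖a‖)).prod := by
    rw [ht, Multiset.map_add, Multiset.prod_add]
    have h4 : ∏ z ∈ Z, max 1 ‖z‖ = (Z.val.map (fun a => max 1 ‖a‖)).prod := rfl
    rw [h4]
    refine le_mul_of_one_le_right ?_ h2
    rw [← h4]
    exact Finset.prod_nonneg fun z _ => zero_le_one.trans (le_max_left _ _)
  have h5 : (G.roots.map (fun a => max 1 ‖a‖)).prod ≤ G.mahlerMeasure := by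
    rw [Polynomial.mahlerMeasure_eq_leadingCoeff_mul_prod_roots]
    refine le_mul_of_one_le_left ?_ hlead
    exact (Finset.prod_nonneg fun z _ => zero_le_one.trans (le_max_left _ _)).trans h3
  exact h1.trans (h3.trans (h5.trans ((Polynomial.mahlerMeasure_le_sum_norm_coeff G).trans hB)))

end Pool.Agent.Helper13.MS
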