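import Pool.Agent.Helper13.MS.FPE4
import Pool.Agent.Helper13.MS.FPE1a
import Pool.Agent.Helper13.MS.FPE1c
import Pool.Agent.Helper13.MS.FPE5a
import Pool.Agent.Helper13.MS.FPE5b
import Pool.Agent.Helper13.MS.FPE5c

/-!
# MS-FPE6: the case of residue one

`p` from `exists_minRel`, `lead_eval_one`, `δ` from `exists_large_root` with `R = 2`, `c, L₁` from `exists_roots δ`, `e = p.leadingCoeff.natDegree`.
Let `F ≠ 0` be a relation `∑ F j k x^(L j) y^(L k) = 0`, `L^2 ≥ C log N`, `J` the largest `j` with `F j ≠ 0`, `η` from `exists_eta` for `F J`; `U` the set of `L`-th roots of `η` near 1; every `u ∈ U` is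
transcendental (`u^L = η`), so `lead(u) ≠ 0`; choose a root `z u` of `p(u, ·)`, `‖z u‖ ≥ 2`.
`spec` with `Q = ∑_j X^(L j) * C (∑_k F j k Y^(L k))`: `∑_j F_j(η) (z u ^ L)^j = 0`, where `F_j(η) = ∑_k F j k η^k`: `z u ^ L` is a root of `G = ∑_j F_j(η) X^j`, `G` has degree `J` and
leading coefficient `F_J(η)` of modulus `≥ 1`.
If `z u ^ L = z u' ^ L` then `u' = ζ u`, `z u' = ζ' z u` with `ζ^L = ζ'^L = 1` and `lead_root` gives `lead(ζ) = 0`, `ζ = u'/u`: at most `e` possibilities for `u'` given `u`, so the fibres of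
`u ↦ z u ^ L` have at most `e` elements: the image `Z` has at least `U.card / e` elements (`Finset.card_le_mul_card_image`; `e ≥ 1` because `lead(1) = 0`, `lead ≠ 0`).
`mahler_bound` with `R = 2^L`, `B = N^2`: `2^(L * c L / e) ≤ N^2`, so `(c log 2 / e) L^2 ≤ 2 log N`: contradiction if `C > 2 e / (c log 2)`.  Take also `C ≥ (L₁ + 1)^2 / log 2` (so `L ≥ L₁`, as `N ≥ 2`).
-/

set_option autoImplicit false

namespace Pool.Agent.Helper13.MS

private theorem trans_of_pow {u η : ℂ} {L : ℕ} (hη : Transcendental ℚ η) (h : u ^ L = η) : Transcendental ℚ u := by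
  intro hu
  exact hη (h ▸ hu.pow L)

private theorem lead_ne {q : Polynomial ℤ} (hq : q ≠ 0) {u : ℂ} (hu : Transcendental ℚ u) : Polynomial.aeval u q ≠ 0 := by
  intro h
  apply hu
  refine ⟨q.map (Int.castRingHom ℚ), ?_, ?_⟩
  · rw [Ne, Polynomial.map_eq_zero_iff (by exact Int.cast_injective)]
    exact hq
  · rw [Polynomial.aeval_def, Polynomial.eval₂_map,
      show (algebraMap ℚ ℂ).comp (Int.castRingHom ℚ) = algebraMap ℤ ℂ from RingHom.ext_int _ _]
    exact h

/-- the relation polynomial -/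
private noncomputable def relQ (N L : ℕ) (F : Fin N → Fin N → ℤ) : Polynomial (Polynomial ℤ) :=
  ∑ j : Fin N, Polynomial.X ^ (L * (j : ℕ)) *
    Polynomial.C (∑ k : Fin N, (F j k : Polynomial ℤ) * Polynomial.X ^ (L * (k : ℕ)))

private theorem ev2_relQ {R : Type} [CommRing R] (N L : ℕ) (F : Fin N → Fin N → ℤ) (u z : R) :
    ev2 (relQ N L F) u z = ∑ j : Fin N, z ^ (L * (j : ℕ)) * ∑ k : Fin N, (F j k : R) * u ^ (L * (k : ℕ)) := by
  rw [relQ, ev2, Polynomial.eval₂_finsetSum]
  refine Finset.sum_congr rfl fun j _ => ?_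
  rw [Polynomial.eval₂_mul, Polynomial.eval₂_X_pow, Polynomial.eval₂_C]
  congr 1
  simp [map_sum, map_mul, map_pow]

/-- the polynomial `G` -/
private noncomputable def polG (N : ℕ) (f : Fin N → ℂ) : Polynomial ℂ :=
  ∑ j : Fin N, Polynomial.C (f j) * Polynomial.X ^ (j : ℕ)

private theorem polG_coeff (N : ℕ) (f : Fin N → ℂ) (i : ℕ) :
    (polG N f).coeff i = if h : i < N then f ⟨i, h⟩ else 0 := by
  rw [polG, Polynomial.finsetSum_coeff]
  split_ifs with h
  · rw [Finset.sum_eq_single ⟨i, h⟩]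
    · simp
    · intro b _ hb
      rw [Polynomial.coeff_C_mul_X_pow, if_neg]
      intro hi
      exact hb (Fin.ext hi.symm)
    · intro hh
      exact absurd (Finset.mem_univ _) hh
  · refine Finset.sum_eq_zero fun b _ => ?_
    rw [Polynomial.coeff_C_mul_X_pow, if_neg]
    intro hi
    exact h (hi ▸ b.2)

private theorem polG_eval (N : ℕ) (f : Fin N → ℂ) (w : ℂ) :
    (polG N f).eval w = ∑ j : Fin N, f j * w ^ (j : ℕ) := by
  rw [polG, Polynomial.eval_finsetSum]
  simp

private theorem polG_lead (N : ℕ) (f : Fin N → ℂ) (J : Fin N) (hJ : f J ≠ 0) (hmax : ∀ j, J < j → f j = 0) :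
    (polG N f).leadingCoeff = f J := by
  have h1 : (polG N f).natDegree = J := by
    apply le_antisymm
    · rw [Polynomial.natDegree_le_iff_coeff_eq_zero]
      intro i hi
      rw [polG_coeff]
      split_ifs with h
      · exact hmax _ (by rw [Fin.lt_def]; exact hi)
      · rfl
    · apply Polynomial.le_natDegree_of_ne_zero
      rw [polG_coeff, dif_pos J.2]
      exact hJ
  rw [Polynomial.leadingCoeff, h1, polG_coeff, dif_pos J.2]

private theorem polG_sum (N : ℕ) (f : Fin N → ℂ) (B : ℝ) (hB : ∀ j, ‖f j‖ ≤ B) :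
    ∑ i ∈ (polG N f).support, ‖(polG N f).coeff i‖ ≤ N * B := by
  have hsub : (polG N f).support ⊆ Finset.range N := by
    intro i hi
    rw [Polynomial.mem_support_iff, polG_coeff] at hi
    rw [Finset.mem_range]
    by_contra h
    rw [dif_neg h] at hi
    exact hi rfl
  calc ∑ i ∈ (polG N f).support, ‖(polG N f).coeff i‖
      ≤ ∑ i ∈ Finset.range N, ‖(polG N f).coeff i‖ :=
        Finset.sum_le_sum_of_subset_of_nonneg hsub fun _ _ _ => norm_nonneg _
    _ ≤ ∑ _i ∈ Finset.range N, B := by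
        refine Finset.sum_le_sum fun i hi => ?_
        rw [polG_coeff, dif_pos (Finset.mem_range.1 hi)]
        exact hB _
    _ = N * B := by simp

/-- the number of points of a fibre -/
private theorem fibre_card {q : Polynomial ℤ} (hq : q ≠ 0) (u : ℂ) (hu : u ≠ 0) (S : Finset ℂ)
    (hS : ∀ v ∈ S, Polynomial.aeval (v / u) q = 0) : S.card ≤ q.natDegree := by
  classical
  have hinj : Function.Injective fun v : ℂ => v / u := fun a b h => by
    simpa [div_left_inj' hu] using h
  rw [← Finset.card_image_of_injective S hinj]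
  have hq' : q.map (Int.castRingHom ℂ) ≠ 0 := by
    rw [Ne, Polynomial.map_eq_zero_iff (by exact Int.cast_injective)]
    exact hq
  have hsub : S.image (fun v => v / u) ⊆ (q.map (Int.castRingHom ℂ)).roots.toFinset := by
    intro w hw
    obtain ⟨v, hv, rfl⟩ := Finset.mem_image.1 hw
    rw [Multiset.mem_toFinset, Polynomial.mem_roots hq', Polynomial.IsRoot, Polynomial.eval_map]
    have := hS v hv
    rw [Polynomial.aeval_def] at this
    rw [show Int.castRingHom ℂ = algebraMap ℤ ℂ from RingHom.ext_int _ _]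
    exact this
  calc (S.image fun v => v / u).card ≤ (q.map (Int.castRingHom ℂ)).roots.toFinset.card := Finset.card_le_card hsub
    _ ≤ (q.map (Int.castRingHom ℂ)).roots.card := Multiset.toFinset_card_le _
    _ ≤ (q.map (Int.castRingHom ℂ)).natDegree := Polynomial.card_roots' _
    _ ≤ q.natDegree := Polynomial.natDegree_map_le

private theorem final_ineq (c : ℝ) (hc : 0 < c) (e : ℕ) (L N Uc Zc : ℕ) (C : ℝ) (hN : 2 ≤ N)
    (he : 1 ≤ e) (hC : 2 * e / (c * Real.log 2) < C) (hCL : C * Real.log N ≤ (L : ℝ) ^ 2)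
    (h1 : c * L ≤ Uc) (h2 : Uc ≤ e * Zc) (h3 : ((2 : ℝ) ^ L) ^ Zc ≤ (N : ℝ) * N) : False := by
  have hl2 : 0 < Real.log 2 := Real.log_pos (by norm_num)
  have hN' : (2 : ℝ) ≤ N := by exact_mod_cast hN
  have hlN : 0 < Real.log N := Real.log_pos (by linarith)
  have h4 : (L : ℝ) * Zc * Real.log 2 ≤ 2 * Real.log N := by
    have := Real.log_le_log (by positivity) h3
    rw [← pow_mul, Real.log_pow, Real.log_mul (by positivity) (by positivity)] at this
    push_cast at this
    linarith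
  have h5 : c * L ≤ (e : ℝ) * Zc := h1.trans (by exact_mod_cast h2)
  have h6 : c * (L : ℝ) ^ 2 * Real.log 2 ≤ e * (2 * Real.log N) := by
    have h7 : (L : ℝ) * (c * L) * Real.log 2 ≤ L * (e * Zc) * Real.log 2 := by gcongr
    have h8 : (e : ℝ) * (L * Zc * Real.log 2) ≤ e * (2 * Real.log N) := by gcongr
    nlinarith
  have h9 : 2 * e < C * (c * Real.log 2) := by
    rwa [div_lt_iff₀ (by positivity)] at hC
  have h10 : c * (C * Real.log N) * Real.log 2 ≤ c * (L : ℝ) ^ 2 * Real.log 2 := by gcongr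
  nlinarith

theorem freePlane_of_place_one {K k : Type} [Field K] [CharZero K] [Field k] [CharZero k] (x y : K) (hx : x ≠ 0)
    (hy : Transcendental ℚ y) (hdep : ¬ AlgebraicIndependent ℚ ![x, y]) (P : Place x y k) (h1 : P.res ⟨y, P.hy⟩ = 1) :
    FreePlane x y := by
  classical
  obtain ⟨p, hp⟩ := exists_minRel x y hy hdep
  have h0 := lead_eval_one hx P h1 hp
  obtain ⟨δ, hδ, hroot⟩ := exists_large_root p h0 hp.prim 2
  obtain ⟨c, L₁, hc, hU⟩ := exists_roots δ hδ
  have hp0 : p ≠ 0 := by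
    rintro rfl
    have := hp.pos
    simp at this
  have hlead : p.leadingCoeff ≠ 0 := Polynomial.leadingCoeff_ne_zero.2 hp0
  have he : 1 ≤ p.leadingCoeff.natDegree := by
    by_contra hcon
    have h2 : p.leadingCoeff.natDegree = 0 := by omega
    obtain ⟨a, ha⟩ := Polynomial.natDegree_eq_zero.1 h2
    rw [← ha, Polynomial.eval_C] at h0
    rw [h0, Polynomial.C_0] at ha
    exact hlead ha.symm
  have hl2 : 0 < Real.log 2 := Real.log_pos (by norm_num)
  refine ⟨2 * p.leadingCoeff.natDegree / (c * Real.log 2) + 1 + ((L₁ : ℝ) + 1) ^ 2 / Real.log 2, by positivity, ?_⟩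
  intro N L hN hL hCL F hF hrel
  by_contra hcon
  push Not at hcon
  obtain ⟨j₀, k₀, hjk⟩ := hcon
  have hN' : (2 : ℝ) ≤ N := by exact_mod_cast hN
  have hlN : Real.log 2 ≤ Real.log N := Real.log_le_log (by norm_num) hN'
  have hLL : L₁ ≤ L := by
    have h2 : ((L₁ : ℝ) + 1) ^ 2 ≤ (L : ℝ) ^ 2 := by
      refine le_trans ?_ hCL
      have h3 : ((L₁ : ℝ) + 1) ^ 2 = ((L₁ : ℝ) + 1) ^ 2 / Real.log 2 * Real.log 2 := by
        field_simp
      calc ((L₁ : ℝ) + 1) ^ 2 = ((L₁ : ℝ) + 1) ^ 2 / Real.log 2 * Real.log 2 := h3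
        _ ≤ ((L₁ : ℝ) + 1) ^ 2 / Real.log 2 * Real.log N := by gcongr
        _ ≤ _ := by
          refine mul_le_mul_of_nonneg_right ?_ (by linarith)
          have : 0 ≤ 2 * (p.leadingCoeff.natDegree : ℝ) / (c * Real.log 2) := by positivity
          linarith
    have h4 : (L₁ : ℝ) + 1 ≤ L := by
      exact (pow_le_pow_iff_left₀ (by positivity) (by positivity) (by norm_num : (2 : ℕ) ≠ 0)).1 h2
    have : L₁ + 1 ≤ L := by exact_mod_cast h4
    omega
  -- the largest nonzero row
  obtain ⟨J, hJmem, hJmax⟩ := Finset.exists_max_image (Finset.univ.filter fun j : Fin N => ∃ k, F j k ≠ 0)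
    (fun j => (j : ℕ)) ⟨j₀, by simpa using ⟨k₀, hjk⟩⟩
  have hJ : ∃ k, F J k ≠ 0 := (Finset.mem_filter.1 hJmem).2
  obtain ⟨η, hη, hη1, hηF⟩ := exists_eta N (F J) hJ
  obtain ⟨U, hUp, hUc⟩ := hU L hLL η hη1
  have hz : ∀ u : ℂ, ∃ z : ℂ, u ∈ U → ev2 p u z = 0 ∧ 2 ≤ ‖z‖ := by
    intro u
    by_cases hu : u ∈ U
    · obtain ⟨z, hz1, hz2⟩ := hroot u (hUp u hu).2 (lead_ne hlead (trans_of_pow hη (hUp u hu).1))
      exact ⟨z, fun _ => ⟨hz1, hz2⟩⟩
    · exact ⟨0, fun h => absurd h hu⟩
  choose z hz using hz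
  set f : Fin N → ℂ := fun j => ∑ k : Fin N, (F j k : ℂ) * η ^ (k : ℕ) with hf
  have hrelQ : ev2 (relQ N L F) y x = 0 := by
    rw [ev2_relQ, ← hrel]
    refine Finset.sum_congr rfl fun j _ => ?_
    rw [Finset.mul_sum]
    exact Finset.sum_congr rfl fun k _ => by ring
  have hGroot : ∀ u ∈ U, (polG N f).eval (z u ^ L) = 0 := by
    intro u hu
    have h2 := spec hp u (z u) (trans_of_pow hη (hUp u hu).1) (hz u hu).1 (relQ N L F) hrelQ
    rw [ev2_relQ] at h2
    rw [polG_eval, ← h2]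
    refine Finset.sum_congr rfl fun j _ => ?_
    rw [mul_comm, ← pow_mul]
    congr 1
    rw [hf]
    refine Finset.sum_congr rfl fun k _ => ?_
    rw [pow_mul, (hUp u hu).1]
  have hfJ : 1 ≤ ‖f J‖ := hηF
  have hGlead : (polG N f).leadingCoeff = f J := by
    refine polG_lead N f J (fun h => by rw [h, norm_zero] at hfJ; linarith) ?_
    intro j hj
    rw [hf]
    refine Finset.sum_eq_zero fun k _ => ?_
    have : F j k = 0 := by
      by_contra hne
      have h3 := hJmax j (Finset.mem_filter.2 ⟨Finset.mem_univ _, k, hne⟩)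
      have h4 : (J : ℕ) < j := hj
      exact absurd h3 (not_le.2 h4)
    rw [this]
    simp
  have hfB : ∀ j, ‖f j‖ ≤ N := by
    intro j
    calc ‖f j‖ ≤ ∑ k : Fin N, ‖(F j k : ℂ) * η ^ (k : ℕ)‖ := norm_sum_le _ _
      _ ≤ ∑ _k : Fin N, (1 : ℝ) := by
          refine Finset.sum_le_sum fun k _ => ?_
          rw [norm_mul, norm_pow, hη1, one_pow, mul_one, Complex.norm_intCast]
          exact_mod_cast hF j k
      _ = N := by simp
  have hM := mahler_bound (polG N f) ((2 : ℝ) ^ L) (N * N) (one_le_pow₀ (by norm_num))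
    (by rw [hGlead]; exact hfJ) (U.image fun u => z u ^ L)
    (by
      intro w hw
      obtain ⟨u, hu, rfl⟩ := Finset.mem_image.1 hw
      refine ⟨hGroot u hu, ?_⟩
      rw [norm_pow]
      exact pow_le_pow_left₀ (by norm_num) (hz u hu).2 L)
    (polG_sum N f N hfB)
  have hfib : U.card ≤ p.leadingCoeff.natDegree * (U.image fun u => z u ^ L).card := by
    refine Finset.card_le_mul_card_image _ _ ?_
    intro w hw
    obtain ⟨u, hu, rfl⟩ := Finset.mem_image.1 hw
    have hu0 : u ≠ 0 := by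
      rintro rfl
      have h5 := (hUp 0 hu).1
      rw [zero_pow (by omega)] at h5
      rw [← h5] at hη1
      simp at hη1
    have hzu0 : z u ≠ 0 := by
      intro h6
      have := (hz u hu).2
      rw [h6, norm_zero] at this
      linarith
    refine fibre_card hlead u hu0 _ ?_
    intro v hv
    obtain ⟨hvU, hvz⟩ := Finset.mem_filter.1 hv
    refine lead_root x y hy hp h0 u (z u) (v / u) (z v / z u) (trans_of_pow hη (hUp u hu).1) (hz u hu).1 L hL ?_ ?_ ?_
    · rw [div_pow, (hUp v hvU).1, (hUp u hu).1, div_self]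
      rw [← (hUp u hu).1]
      exact pow_ne_zero _ hu0
    · rw [div_pow, hvz, div_self (pow_ne_zero _ hzu0)]
    · rw [div_mul_cancel₀ _ hu0, div_mul_cancel₀ _ hzu0]
      exact (hz v hvU).1
  refine final_ineq c hc p.leadingCoeff.natDegree L N U.card (U.image fun u => z u ^ L).card _ hN he ?_ hCL hUc hfib hM
  have : 0 ≤ ((L₁ : ℝ) + 1) ^ 2 / Real.log 2 := by positivity
  linarith

end Pool.Agent.Helper13.MS
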