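import Pool.Agent.Helper13.MS.FPB
import Pool.Agent.Helper13.MS.FPC
import Pool.Agent.Helper13.MS.FPE6

/-!
# MS-FPF: the free plane theorem

If `x, y` are algebraically independent: `freePlane_of_indep`.  Otherwise `exists_place` gives `y' = x^l y^m`, `m ≠ 0`, with residue `c`.  If `c` is not a root of unity: `freePlane_of_place` for `x, y'`.
If `c^n = 1`, `n ≥ 1`, replace `y'` by `y'' = y'^n` (`Place x y'' k` with the same `O` and `res`, residue `1`): `y''` is transcendental (`htr` with exponents `l n, m n`) and `x, y''` are algebraically dependent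
(otherwise `x, y` would be independent: `trdeg`, or: `y` is algebraic over `ℚ(x)` so `y''` is): `freePlane_of_place_one`.
-/

set_option autoImplicit false

namespace Pool.Agent.Helper13.MS

private theorem indep_iff34 {K : Type} [Field K] [CharZero K] (x y : K) :
    AlgebraicIndependent ℚ ![x, y] ↔
      Transcendental ℚ x ∧ Transcendental (Algebra.adjoin ℚ (Set.range fun _ : Fin 1 => x)) y := by
  have h := AlgebraicIndependent.option_iff (R := ℚ) (x := fun _ : Fin 1 => x) (a := y)
  have h0 : AlgebraicIndependent ℚ (fun _ : Fin 1 => x) ↔ Transcendental ℚ x :=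
    algebraicIndependent_unique_type_iff
  rw [h0] at h
  rw [← h, ← algebraicIndependent_equiv (finSuccEquivLast (n := 1))]
  have h1 : ((fun o : Option (Fin 1) => o.elim y fun _ => x) ∘ (finSuccEquivLast (n := 1))) = ![x, y] := by
    funext i
    fin_cases i
    · simp [finSuccEquivLast]
      rfl
    · simp [finSuccEquivLast]
  rw [h1]

private theorem zpow_alg34 {R K : Type} [CommRing R] [IsDomain R] [Field K] [Algebra R K] {x : K}
    (hx : IsAlgebraic R x) (a : ℤ) : IsAlgebraic R (x ^ a) := by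
  obtain ⟨n, rfl | rfl⟩ := a.eq_nat_or_neg
  · rw [zpow_natCast]
    exact hx.pow n
  · rw [zpow_neg, zpow_natCast]
    exact (hx.pow n).inv

theorem exists_freePlane {K : Type} [Field K] [CharZero K] (x y : Kˣ)
    (htr : ∀ a b : ℤ, (a ≠ 0 ∨ b ≠ 0) → Transcendental ℚ ((x : K) ^ a * (y : K) ^ b)) :
    ∃ x' ∈ Subgroup.closure {x, y}, ∃ y' ∈ Subgroup.closure {x, y}, FreePlane (x' : K) (y' : K) := by
  have hx0 : (x : K) ≠ 0 := x.ne_zero
  have hxm : x ∈ Subgroup.closure {x, y} := Subgroup.subset_closure (Set.mem_insert _ _)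
  have hym : y ∈ Subgroup.closure {x, y} :=
    Subgroup.subset_closure (Set.mem_insert_of_mem _ (Set.mem_singleton _))
  by_cases hind : AlgebraicIndependent ℚ ![(x : K), (y : K)]
  · exact ⟨x, hxm, y, hym, freePlane_of_indep _ _ hind⟩
  obtain ⟨l, m, k, _, _, P, hm, hc0, halg⟩ := exists_place (x : K) (y : K) hind htr
  have hcoe : ((x ^ l * y ^ m : Kˣ) : K) = (x : K) ^ l * (y : K) ^ m := by
    rw [Units.val_mul, Units.val_zpow_eq_zpow_val, Units.val_zpow_eq_zpow_val]
  have hmem : x ^ l * y ^ m ∈ Subgroup.closure {x, y} :=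
    mul_mem (zpow_mem hxm l) (zpow_mem hym m)
  by_cases hroot : ∀ n : ℕ, 1 ≤ n → P.res ⟨_, P.hy⟩ ^ n ≠ 1
  · refine ⟨x, hxm, x ^ l * y ^ m, hmem, ?_⟩
    rw [hcoe]
    exact freePlane_of_place _ _ hx0 P hc0 halg hroot
  · push Not at hroot
    obtain ⟨n, hn, hn1⟩ := hroot
    have e1 : ((x : K) ^ l * (y : K) ^ m) ^ n = (x : K) ^ (l * n) * (y : K) ^ (m * n) := by
      rw [mul_pow, zpow_mul, zpow_mul, zpow_natCast, zpow_natCast]
    have hmn : m * (n : ℤ) ≠ 0 := mul_ne_zero hm (by omega)
    have hxt : Transcendental ℚ (x : K) := by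
      have h1 := htr 1 0 (Or.inl one_ne_zero)
      rwa [zpow_one, zpow_zero, mul_one] at h1
    refine ⟨x, hxm, (x ^ l * y ^ m) ^ n, pow_mem hmem n, ?_⟩
    rw [Units.val_pow_eq_pow_val, hcoe]
    refine freePlane_of_place_one _ _ hx0 ?_ ?_
      (⟨P.O, P.res, P.hx, P.O.pow_mem P.hy n, P.hx0⟩ : Place (x : K) _ k) ?_
    · rw [e1]
      exact htr (l * n) (m * n) (Or.inr hmn)
    · rw [indep_iff34]
      rintro ⟨-, h2⟩
      apply h2
      rw [indep_iff34] at hind
      have hy : IsAlgebraic (Algebra.adjoin ℚ (Set.range fun _ : Fin 1 => (x : K))) (y : K) := by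
        by_contra hcon
        exact hind ⟨hxt, hcon⟩
      have hx : IsAlgebraic (Algebra.adjoin ℚ (Set.range fun _ : Fin 1 => (x : K))) (x : K) :=
        isAlgebraic_algebraMap (⟨(x : K), Algebra.subset_adjoin ⟨0, rfl⟩⟩ :
          Algebra.adjoin ℚ (Set.range fun _ : Fin 1 => (x : K)))
      exact ((zpow_alg34 hx l).mul (zpow_alg34 hy m)).pow n
    · rw [← hn1, ← map_pow]
      rfl

end Pool.Agent.Helper13.MS
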