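import Pool.Agent.Helper13.MS.HNA0

/-!
# MS-HNA: free subgroups of HNN extensions

`E = HNNExtension H A B θ`, `a ∉ A`, `b ∉ B`, `t` the stable letter (`t a t⁻¹ = θ a` for `a ∈ A`).  For `i = 1, 2` let `x i = t^-i b t^2i a t^-i`.  Claim: they are a free basis of a
free group; proof by `FreeGroup.injective_lift_of_ping_pong` (left multiplication action of `E` on itself).
`X i` = elements whose sign sequence begins with `(-)^i (+)`, `Y i` = elements whose sign sequence begins with `(+)^i (-)`, `i = 1, 2` (sign sequences are unique, `WW_unique`): pairwise disjoint.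
Lemma D (induction on `i` with `WW_step`), for a sign `u`: if `WW θ h l e` then either `∃ k ≥ 1, ∃ l', WW θ 1 (replicate k u ++ l') (t^(u i) * e)`, or
`∃ h' l', l = replicate i (-u) ++ l' ∧ WW θ h' l' (t^(u i) * e)`.  (Step: multiplying by `t^u` an element whose sequence begins with `u` adds a `u`, no cancellation.)
`x i • (Y i)ᶜ ⊆ X i`: `e' = t^-i e` (`u = -1` in D).  First case: `WW 1 (- :: ..) e'`, `a * 1 ∉ A`, so `WW_cons` with `g = a`, `u = +`: `WW 1 (+ :: - :: ..) (t a e')`.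
Second case: `l = (+)^i ++ l'` and `e ∉ Y i`, so `l'` is empty or begins with `+` and `WW_cons` applies: `WW 1 (+ :: l') (t a e')`.  In both cases multiply by `t^(2i-1)` (same signs, `WW_cons` with
`g = 1`), then by `t^-1 b` (`b * 1 ∉ B`, `WW_cons` with `g = b`, `u = -`), then by `t^-(i-1)`: the signs are `(-)^i (+)^2i ..`.
`(x i)⁻¹ • (X i)ᶜ ⊆ Y i`: the same with `(x i)⁻¹ = t^i a⁻¹ t^-2i b⁻¹ t^i` (`u = +` in D; `b⁻¹ ∉ B`, `a⁻¹ ∉ A`); a common lemma with a variable sign `u : ℤˣ`, `c ∉ toSubgroup A B (-u)`,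
`d ∉ toSubgroup A B u`: `t^(u i) d .. `, is possible.
-/

set_option autoImplicit false

namespace Pool.Agent.Helper13.MS

open HNNExtension

variable {H : Type} [Group H] {A B : Subgroup H} {θ : A ≃* B}

private theorem neg_pow2 (u : ℤˣ) :
    (t : HNNExtension H A B θ) ^ (((-u : ℤˣ) : ℤ)) = (t ^ (u : ℤ))⁻¹ := by
  rw [Units.val_neg, zpow_neg]

/-- add equal signs -/
private theorem addk2 {u : ℤˣ} {l : List ℤˣ} {e : HNNExtension H A B θ}
    (hw : WW θ 1 (u :: l) e) (k : ℕ) :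
    WW θ 1 (List.replicate k u ++ (u :: l)) ((t ^ (u : ℤ)) ^ k * e) := by
  induction k with
  | zero => simpa using hw
  | succ k ih =>
    have h1 : (List.replicate k u ++ (u :: l)).head? = some u := by
      cases k with
      | zero => rfl
      | succ k => rfl
    have h2 := WW_cons ih u 1 (Or.inr (Or.inl h1))
    have h3 : t ^ (u : ℤ) * of 1 * ((t ^ (u : ℤ)) ^ k * e) = (t ^ (u : ℤ)) ^ (k + 1) * e := by
      rw [map_one, mul_one, pow_succ', mul_assoc]
    rw [h3] at h2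
    exact h2

/-- cancel signs -/
private theorem stepk2 (u : ℤˣ) {h : H} {l : List ℤˣ} {e : HNNExtension H A B θ}
    (hw : WW θ h l e) (i : ℕ) :
    (∃ l', WW θ 1 (u :: l') ((t ^ (u : ℤ)) ^ i * e)) ∨
      ∃ h' l', l = List.replicate i (-u) ++ l' ∧ WW θ h' l' ((t ^ (u : ℤ)) ^ i * e) := by
  induction i with
  | zero => exact Or.inr ⟨h, l, rfl, by simpa using hw⟩
  | succ i ih =>
    have h0 : (t ^ (u : ℤ)) ^ (i + 1) * e = t ^ (u : ℤ) * ((t ^ (u : ℤ)) ^ i * e) := by
      rw [pow_succ', mul_assoc]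
    rw [h0]
    rcases ih with ⟨l', h1⟩ | ⟨h', l', hl, h1⟩
    · left
      have h2 := WW_cons h1 u 1 (Or.inr (Or.inl rfl))
      rw [map_one, mul_one] at h2
      exact ⟨_, h2⟩
    · rcases WW_step h1 u with h2 | ⟨h'', l'', hl', h2⟩
      · exact Or.inl ⟨_, h2⟩
      · refine Or.inr ⟨h'', l'', ?_, h2⟩
        rw [hl, hl', List.replicate_succ', List.append_assoc, List.singleton_append]

/-- the sequences `u^(i+1) (-u) ..` -/
private def Z2 (θ : A ≃* B) (u : ℤˣ) (i : ℕ) : Set (HNNExtension H A B θ) :=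
  {e | ∃ h l', WW θ h (List.replicate (i + 1) u ++ (-u :: l')) e}

/-- the main step -/
private theorem ping2 (u : ℤˣ) {c d : H} (hc : c ∉ toSubgroup A B (-u))
    (hd : d ∉ toSubgroup A B u) (i : ℕ) {e : HNNExtension H A B θ}
    (he : e ∉ Z2 θ (-u) i) :
    (t ^ (u : ℤ)) ^ (i + 1) * of d * ((t ^ (u : ℤ))⁻¹) ^ (2 * (i + 1)) * of c *
        (t ^ (u : ℤ)) ^ (i + 1) * e ∈ Z2 θ u i := by
  obtain ⟨h, l, hw⟩ := WW_exists e
  obtain ⟨T, hT⟩ : ∃ T : HNNExtension H A B θ, T = t ^ (u : ℤ) := ⟨_, rfl⟩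
  -- the first letter of the other sign
  have h1 : ∃ l', WW θ 1 ((-u) :: l') (T⁻¹ * of c * (T ^ (i + 1) * e)) := by
    rw [hT]
    rcases stepk2 u hw (i + 1) with ⟨l', h2⟩ | ⟨h', l', hl, h2⟩
    · have h3 := WW_cons h2 (-u) c (Or.inr (Or.inr (by rw [mul_one]; exact hc)))
      rw [neg_pow2] at h3
      exact ⟨_, h3⟩
    · have h3 : l'.head? = none ∨ l'.head? = some (-u) := by
        cases l' with
        | nil => exact Or.inl rfl
        | cons v l'' =>
          right
          have h4 : v ≠ u := by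
            rintro rfl
            apply he
            refine ⟨h, l'', ?_⟩
            rw [neg_neg, ← hl]
            exact hw
          have h5 : v = -u := by
            rcases Int.units_eq_one_or v with h6 | h6 <;> rcases Int.units_eq_one_or u with h7 | h7
            · exact absurd (h6.trans h7.symm) h4
            · rw [h6, h7, neg_neg]
            · rw [h6, h7]
            · exact absurd (h6.trans h7.symm) h4
          rw [h5]
          rfl
      have h4 := WW_cons h2 (-u) c (h3.imp_right Or.inl)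
      rw [neg_pow2] at h4
      exact ⟨_, h4⟩
  obtain ⟨l', h1⟩ := h1
  -- more letters of this sign
  have h2 := addk2 h1 (2 * i + 1)
  rw [neg_pow2, ← hT] at h2
  have e2 : T⁻¹ ^ (2 * i + 1) * (T⁻¹ * of c * (T ^ (i + 1) * e)) =
      T⁻¹ ^ (2 * (i + 1)) * of c * T ^ (i + 1) * e := by
    rw [show 2 * (i + 1) = 2 * i + 1 + 1 from rfl, pow_succ T⁻¹ (2 * i + 1)]
    simp only [mul_assoc]
  rw [e2] at h2
  -- one letter `u`
  have h3 := WW_cons h2 u d (Or.inr (Or.inr (by rw [mul_one]; exact hd)))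
  have h4 := addk2 h3 i
  rw [← hT] at h4
  have e4 : T ^ i * (T * of d * (T⁻¹ ^ (2 * (i + 1)) * of c * T ^ (i + 1) * e)) =
      T ^ (i + 1) * of d * T⁻¹ ^ (2 * (i + 1)) * of c * T ^ (i + 1) * e := by
    rw [pow_succ T i]
    simp only [mul_assoc]
  rw [e4] at h4
  rw [← hT]
  refine ⟨1, List.replicate (2 * i) (-u) ++ -u :: l', ?_⟩
  have e5 : List.replicate (i + 1) u ++ (-u :: (List.replicate (2 * i) (-u) ++ -u :: l')) =
      List.replicate i u ++ (u :: (List.replicate (2 * i + 1) (-u) ++ -u :: l')) := by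
    rw [List.replicate_succ' (n := i), List.append_assoc, List.replicate_succ]
    rfl
  rw [e5]
  exact h4

private theorem z_disj2 (u v : ℤˣ) (i j : ℕ) (huv : u ≠ v ∨ i ≠ j) :
    Disjoint (Z2 θ u i) (Z2 θ v j) := by
  rw [Set.disjoint_left]
  rintro e ⟨h, l, hw⟩ ⟨h', l', hw'⟩
  have h1 := WW_unique hw hw'
  have hneg : ∀ w : ℤˣ, w ≠ -w := by
    intro w h0
    rcases Int.units_eq_one_or w with h2 | h2 <;> rw [h2] at h0 <;> exact absurd h0 (by decide)
  have huv' : u = v := by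
    have h2 := congrArg List.head? h1
    rw [List.replicate_succ, List.replicate_succ] at h2
    exact Option.some_injective _ h2
  subst huv'
  have hij : i ≠ j := huv.resolve_left fun h0 => h0 rfl
  have key : ∀ {a b : ℕ} {x y : List ℤˣ}, a < b →
      List.replicate (a + 1) u ++ (-u :: x) ≠ List.replicate (b + 1) u ++ (-u :: y) := by
    intro a b x y hab h0
    have h2 : (List.replicate (a + 1) u ++ (-u :: x))[a + 1]? =
        (List.replicate (b + 1) u ++ (-u :: y))[a + 1]? := by rw [h0]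
    rw [List.getElem?_append_right (by rw [List.length_replicate]), List.length_replicate,
      Nat.sub_self, List.getElem?_append_left (by rw [List.length_replicate]; omega),
      List.getElem?_replicate, if_pos (by omega)] at h2
    exact hneg u (Option.some_injective _ h2).symm
  rcases lt_or_gt_of_ne hij with h2 | h2
  · exact key h2 h1
  · exact key h2 h1.symm

theorem free_of_not_mem {H : Type} [Group H] (A B : Subgroup H) (θ : A ≃* B) (a b : H) (ha : a ∉ A) (hb : b ∉ B) :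
    ∃ f : FreeGroup (Fin 2) →* HNNExtension H A B θ, Function.Injective f := by
  let x : Fin 2 → HNNExtension H A B θ := fun k =>
    (t ^ (((-1 : ℤˣ)) : ℤ)) ^ ((k : ℕ) + 1) * of b * ((t ^ (((-1 : ℤˣ)) : ℤ))⁻¹) ^ (2 * ((k : ℕ) + 1)) *
      of a * (t ^ (((-1 : ℤˣ)) : ℤ)) ^ ((k : ℕ) + 1)
  have hA : (toSubgroup A B (-(-1 : ℤˣ))) = A := by rw [neg_neg]; rfl
  have hB : (toSubgroup A B (-1 : ℤˣ)) = B := by rfl
  have hB' : (toSubgroup A B (-(1 : ℤˣ))) = B := by rfl
  have hA' : (toSubgroup A B (1 : ℤˣ)) = A := by rfl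
  have hx : ∀ k, (x k)⁻¹ = (t ^ (((1 : ℤˣ)) : ℤ)) ^ ((k : ℕ) + 1) * of a⁻¹ *
      ((t ^ (((1 : ℤˣ)) : ℤ))⁻¹) ^ (2 * ((k : ℕ) + 1)) * of b⁻¹ *
      (t ^ (((1 : ℤˣ)) : ℤ)) ^ ((k : ℕ) + 1) := by
    intro k
    simp only [x, mul_inv_rev, map_inv, Units.val_neg, Units.val_one, zpow_neg, zpow_one, inv_inv,
      ← inv_pow, mul_assoc]
  refine ⟨FreeGroup.lift x, ?_⟩
  have h0 : WW θ (1 : H) [] (1 : HNNExtension H A B θ) := by
    refine ⟨NormalWord.ReducedWord.empty H A B, ?_, rfl, rfl⟩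
    simp [NormalWord.ReducedWord.prod, NormalWord.ReducedWord.empty]
  have h00 : ∀ (u : ℤˣ) (i : ℕ), (1 : HNNExtension H A B θ) ∉ Z2 θ u i := by
    rintro u i ⟨h, l', hw⟩
    have h1 := WW_unique h0 hw
    rw [List.replicate_succ] at h1
    exact absurd h1 (List.cons_ne_nil _ _).symm
  have hne1 : ∀ i : ℕ, (Z2 θ (-1) i).Nonempty := fun i =>
    ⟨_, ping2 (θ := θ) (-1 : ℤˣ) (c := a) (d := b) (by rw [hA]; exact ha)
      (by rw [hB]; exact hb) i (e := 1) (h00 _ _)⟩
  refine FreeGroup.injective_lift_of_ping_pong x (fun k => Z2 θ (-1) (k : ℕ))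
    (fun k => Z2 θ 1 (k : ℕ)) (fun k => hne1 _) ?_ ?_ ?_ ?_ ?_
  · intro i j hij
    exact z_disj2 _ _ _ _ (Or.inr fun h0 => hij (Fin.ext h0))
  · intro i j hij
    exact z_disj2 _ _ _ _ (Or.inr fun h0 => hij (Fin.ext h0))
  · intro i j
    exact z_disj2 _ _ _ _ (Or.inl (by decide))
  · rintro i _ ⟨e, he, rfl⟩
    have h1 := ping2 (θ := θ) (-1 : ℤˣ) (c := a) (d := b) (by rw [hA]; exact ha)
      (by rw [hB]; exact hb) (i : ℕ) (e := e) (by rw [neg_neg]; exact he)
    exact h1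
  · rintro i _ ⟨e, he, rfl⟩
    have h1 := ping2 (θ := θ) (1 : ℤˣ) (c := b⁻¹) (d := a⁻¹)
      (by rw [hB']; exact fun h0 => hb (B.inv_mem_iff.1 h0))
      (by rw [hA']; exact fun h0 => ha (A.inv_mem_iff.1 h0)) (i : ℕ) (e := e) he
    show (x i)⁻¹ * e ∈ _
    rw [hx]
    exact h1

end Pool.Agent.Helper13.MS
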