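import Pool.Agent.Helper13.MS.Defs

/-!
# MS-HNA0: reduced words in HNN extensions

`WW θ h l e`: `e` is the product of a reduced word with head `h` and sign sequence `l`.
`WW_exists`: `HNNExtension.NormalWord` (every element is the product of a normal word: `NormalWord.prod` surjective / `equiv`), or induction.
`WW_unique`: `HNNExtension.ReducedWord.map_fst_eq_and_of_prod_eq`.
`WW_cons`: the word `1, (u, g * h), (rest)`: reduced by the hypothesis.
`WW_step`: if the first sign is `-u` and `h ∈ toSubgroup A B u` then `t^u h t^-u = toSubgroupEquiv θ u h` is absorbed: new head `(toSubgroupEquiv θ u h) * g₁`, signs `l'`; otherwise `WW_cons` with `g = 1`.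
-/

set_option autoImplicit false

namespace Pool.Agent.Helper13.MS

open HNNExtension

/-- `e` is the product of a reduced word with head `h` and sign sequence `l` -/
def WW {H : Type} [Group H] {A B : Subgroup H} (θ : A ≃* B) (h : H) (l : List ℤˣ) (e : HNNExtension H A B θ) : Prop :=
  ∃ w : HNNExtension.NormalWord.ReducedWord H A B, w.prod θ = e ∧ w.head = h ∧ w.toList.map Prod.fst = l

variable {H : Type} [Group H] {A B : Subgroup H} {θ : A ≃* B}

theorem WW_exists (e : HNNExtension H A B θ) : ∃ h l, WW θ h l e := by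
  rcases HNNExtension.NormalWord.TransversalPair.nonempty H A B with ⟨d⟩
  let w : HNNExtension.NormalWord d := e • HNNExtension.NormalWord.empty
  refine ⟨w.head, w.toList.map Prod.fst, w.toReducedWord, ?_, rfl, rfl⟩
  have h := HNNExtension.NormalWord.prod_smul (φ := θ) e (HNNExtension.NormalWord.empty (d := d))
  rw [HNNExtension.NormalWord.prod_empty, mul_one] at h
  exact h

theorem WW_unique {e : HNNExtension H A B θ} {h h' : H} {l l' : List ℤˣ} (hw : WW θ h l e) (hw' : WW θ h' l' e) : l = l' := by
  obtain ⟨w, hw1, _, rfl⟩ := hw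
  obtain ⟨w', hw1', _, rfl⟩ := hw'
  exact (HNNExtension.ReducedWord.map_fst_eq_and_of_prod_eq θ (hw1.trans hw1'.symm)).1

theorem WW_cons {e : HNNExtension H A B θ} {h : H} {l : List ℤˣ} (hw : WW θ h l e) (u : ℤˣ) (g : H)
    (hg : l.head? = none ∨ l.head? = some u ∨ g * h ∉ toSubgroup A B u) :
    WW θ 1 (u :: l) (t ^ (u : ℤ) * of g * e) := by
  obtain ⟨w, hw1, hw2, hw3⟩ := hw
  subst hw2
  refine ⟨⟨1, (u, g * w.head) :: w.toList, ?_⟩, ?_, rfl, ?_⟩
  · refine List.isChain_cons.2 ⟨?_, w.chain⟩
    intro y hy hmem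
    have hl : l.head? = some y.1 := by
      rw [← hw3, List.head?_map, Option.mem_def.1 hy]
      rfl
    rcases hg with h0 | h0 | h0
    · rw [hl] at h0
      simp at h0
    · rw [hl] at h0
      exact (Option.some.inj h0).symm
    · exact absurd hmem h0
  · rw [← hw1]
    simp only [HNNExtension.NormalWord.ReducedWord.prod, List.map_cons, List.prod_cons, map_one, map_mul, one_mul, mul_assoc]
  · simp only [List.map_cons, hw3]

theorem tconj (θ : A ≃* B) (u : ℤˣ) (a : toSubgroup A B u) :
    (t ^ (u : ℤ) * of (a : H) : HNNExtension H A B θ) = of ((toSubgroupEquiv θ u a : toSubgroup A B (-u)) : H) * t ^ (u : ℤ) := by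
  rcases Int.units_eq_one_or u with rfl | rfl
  · have h := HNNExtension.equiv_eq_conj (φ := θ) a
    have h1 : (t * of (a : H) : HNNExtension H A B θ) = of ((θ a : B) : H) * t := by
      rw [h]
      group
    have e1 : (t ^ ((1 : ℤˣ) : ℤ) : HNNExtension H A B θ) = t := by
      rw [Units.val_one, zpow_one]
    rw [e1]
    exact h1
  · have h := HNNExtension.equiv_symm_eq_conj (φ := θ) a
    have h1 : (t⁻¹ * of (a : H) : HNNExtension H A B θ) = of ((θ.symm a : A) : H) * t⁻¹ := by
      rw [h]
      group
    have e1 : (t ^ ((-1 : ℤˣ) : ℤ) : HNNExtension H A B θ) = t⁻¹ := by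
      rw [Units.val_neg, Units.val_one, zpow_neg, zpow_one]
    rw [e1]
    exact h1

theorem WW_step {e : HNNExtension H A B θ} {h : H} {l : List ℤˣ} (hw : WW θ h l e) (u : ℤˣ) :
    WW θ 1 (u :: l) (t ^ (u : ℤ) * e) ∨ ∃ h' l', l = (-u) :: l' ∧ WW θ h' l' (t ^ (u : ℤ) * e) := by
  by_cases hc : l.head? = none ∨ l.head? = some u ∨ (1 : H) * h ∉ toSubgroup A B u
  · left
    have h1 := WW_cons hw u 1 hc
    rwa [map_one, mul_one] at h1
  · right
    push Not at hc
    obtain ⟨hc1, hc2, hc3⟩ := hc
    rw [one_mul] at hc3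
    obtain ⟨w, hw1, hw2, hw3⟩ := hw
    subst hw2
    obtain ⟨hd, tl, hch⟩ := w
    cases tl with
    | nil =>
      exfalso
      apply hc1
      rw [← hw3]
      rfl
    | cons x tl =>
      obtain ⟨v, g₁⟩ := x
      have hv : v = -u := by
        have h0 : v ≠ u := by
          intro h0
          apply hc2
          rw [← hw3, ← h0]
          rfl
        rcases Int.units_eq_one_or u with rfl | rfl <;> rcases Int.units_eq_one_or v with rfl | rfl
        · exact absurd rfl h0
        · rfl
        · simp
        · exact absurd rfl h0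
      subst hv
      refine ⟨((toSubgroupEquiv θ u ⟨hd, hc3⟩ : toSubgroup A B (-u)) : H) * g₁, tl.map Prod.fst, ?_, ⟨_, tl, (List.isChain_cons.1 hch).2⟩, ?_, rfl, rfl⟩
      · rw [← hw3]
        rfl
      · rw [← hw1]
        simp only [HNNExtension.NormalWord.ReducedWord.prod, List.map_cons, List.prod_cons]
        have h1 := tconj θ u ⟨hd, hc3⟩
        simp only at h1
        rw [← mul_assoc (t ^ (u : ℤ)), h1, map_mul]
        have h2 : (t ^ (u : ℤ) * t ^ ((-u : ℤˣ) : ℤ) : HNNExtension H A B θ) = 1 := by
          rw [← zpow_add]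
          simp
        calc _ = of ((toSubgroupEquiv θ u ⟨hd, hc3⟩ : toSubgroup A B (-u)) : H) * 1 * of g₁ * (tl.map (fun x => t ^ (x.1 : ℤ) * of x.2)).prod := by
              rw [mul_one]
          _ = _ := by
              rw [← h2]
              simp only [mul_assoc]

end Pool.Agent.Helper13.MS
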