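import Pool.Agent.Helper13.MS.Defs

/-!
# MS-HNB: a finitely presented group with a map onto `Z` is an HNN extension over a finitely generated group

`G` finitely presented: `ψ : FreeGroup (Fin n) →* G` onto, `ker ψ` the normal closure of a finite set `R`; `x i = ψ (of i)`, `k i = τ (x i)` (an integer), `u i = x i * t ^ (- k i) ∈ ker τ`.
For a natural number `N` let `H` be generated by `t^c * u i * t^(-c)`, `|c| ≤ N`; `H ≤ ker τ`; `H` and `t` generate `G`.
`A = {h ∈ H | t h t⁻¹ ∈ H}`, `B = {h ∈ H | t⁻¹ h t ∈ H}`, `θ h = t h t⁻¹`; `E = HNNExtension H A B θ`, `π : E →* G` the identity on `H`, `t ↦ t` (`HNNExtension.lift`).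
In `E`: `t^c (of (u i)) t^(-c) = of (t^c u i t^(-c))` for `|c| ≤ N` (induction on `|c|`).
Let `e i = of (u i) * t ^ (k i) ∈ E` and `ζ = FreeGroup.lift e : FreeGroup (Fin n) →* E`.  For a word `w` (list of letters) all of whose prefixes have `|τ| ≤ N`
(for instance if `length w * max |k i| ≤ N`): `ζ w = of (ψ w * t ^ (- τ w)) * t ^ (τ w)` (the element in `of` lies in `H`) (induction on the word, appending a letter on the right).
Choose `N` so large that this applies to all `r ∈ R` and to one word `w_t` with `ψ w_t = t`.  Then `ζ r = 1` for `r ∈ R`, so `ζ` factors through `ψ`: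
`ζ = χ ∘ ψ`, `χ : G →* E` (`QuotientGroup.lift` or `MonoidHom.liftOfSurjective`), `χ t = ζ w_t = t`, `π (χ g) = g`, and `χ` is onto: its range contains `t`, hence `of (u i) = e i t^(-k i)` and its
conjugates, which generate `of H`.  So `π` is injective.
-/

set_option autoImplicit false

namespace Pool.Agent.Helper13.MS

section Conj

variable {G : Type} [Group G]

/-- elements of `H` whose conjugate by `t` is in `H` -/
private def conjSub (H : Subgroup G) (t : G) : Subgroup H :=
  H.comap ((MulAut.conj t).toMonoidHom.comp H.subtype)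

private theorem mem_conjSub (H : Subgroup G) (t : G) (h : H) :
    h ∈ conjSub H t ↔ t * h * t⁻¹ ∈ H := Iff.rfl

private theorem mem_conjSub_inv (H : Subgroup G) (t : G) (h : H) :
    h ∈ conjSub H t⁻¹ ↔ t⁻¹ * h * t ∈ H := by
  rw [mem_conjSub, inv_inv]

/-- conjugation by `t` -/
private def conjEq (H : Subgroup G) (t : G) : conjSub H t ≃* conjSub H t⁻¹ where
  toFun a := ⟨⟨t * a * t⁻¹, (mem_conjSub H t a).1 a.2⟩, (mem_conjSub_inv H t _).2 (by
    have h1 : t⁻¹ * (t * ((a : H) : G) * t⁻¹) * t = ((a : H) : G) := by group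
    rw [h1]
    exact (a : H).2)⟩
  invFun b := ⟨⟨t⁻¹ * b * t, (mem_conjSub_inv H t b).1 b.2⟩, (mem_conjSub H t _).2 (by
    have h1 : t * (t⁻¹ * ((b : H) : G) * t) * t⁻¹ = ((b : H) : G) := by group
    rw [h1]
    exact (b : H).2)⟩
  left_inv a := by
    apply Subtype.ext
    apply Subtype.ext
    change t⁻¹ * (t * ((a : H) : G) * t⁻¹) * t = ((a : H) : G)
    group
  right_inv b := by
    apply Subtype.ext
    apply Subtype.ext
    change t * (t⁻¹ * ((b : H) : G) * t) * t⁻¹ = ((b : H) : G)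
    group
  map_mul' a b := by
    apply Subtype.ext
    apply Subtype.ext
    change t * (((a : H) : G) * ((b : H) : G)) * t⁻¹ =
      (t * ((a : H) : G) * t⁻¹) * (t * ((b : H) : G) * t⁻¹)
    group

private theorem conjEq_coe (H : Subgroup G) (t : G) (a : conjSub H t) :
    ((conjEq H t a : H) : G) = t * ((a : H) : G) * t⁻¹ := rfl

/-- the HNN extension -/
private abbrev EE (H : Subgroup G) (t : G) : Type :=
  HNNExtension H (conjSub H t) (conjSub H t⁻¹) (conjEq H t)

/-- `e` is the image of the element `g` of `H` -/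
private def Rel (H : Subgroup G) (t : G) (e : EE H t) (g : G) : Prop :=
  ∃ h : H, (h : G) = g ∧ e = HNNExtension.of h

private theorem Rel.mul {H : Subgroup G} {t : G} {e e' : EE H t} {g g' : G} (h : Rel H t e g)
    (h' : Rel H t e' g') : Rel H t (e * e') (g * g') := by
  obtain ⟨a, ha, he⟩ := h
  obtain ⟨a', ha', he'⟩ := h'
  refine ⟨a * a', ?_, ?_⟩
  · rw [Subgroup.coe_mul, ha, ha']
  · rw [he, he', map_mul]

private theorem Rel.inv {H : Subgroup G} {t : G} {e : EE H t} {g : G} (h : Rel H t e g) :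
    Rel H t e⁻¹ g⁻¹ := by
  obtain ⟨a, ha, he⟩ := h
  refine ⟨a⁻¹, ?_, ?_⟩
  · rw [Subgroup.coe_inv, ha]
  · rw [he, map_inv]

private theorem Rel.one {H : Subgroup G} {t : G} : Rel H t 1 1 := ⟨1, rfl, (map_one _).symm⟩

private theorem Rel.eq_one {H : Subgroup G} {t : G} {e : EE H t} {g : G} (h : Rel H t e g)
    (hg : g = 1) : e = 1 := by
  obtain ⟨a, ha, he⟩ := h
  have h1 : a = 1 := by
    apply Subtype.ext
    rw [ha, hg, Subgroup.coe_one]
  rw [he, h1, map_one]

private theorem Rel.conj {H : Subgroup G} {t : G} {e : EE H t} {g : G} (h : Rel H t e g)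
    (hg : t * g * t⁻¹ ∈ H) : Rel H t (HNNExtension.t * e * HNNExtension.t⁻¹) (t * g * t⁻¹) := by
  obtain ⟨a, ha, he⟩ := h
  have ha' : a ∈ conjSub H t := (mem_conjSub H t a).2 (by rw [ha]; exact hg)
  refine ⟨(conjEq H t ⟨a, ha'⟩ : H), ?_, ?_⟩
  · rw [conjEq_coe]
    change t * (a : G) * t⁻¹ = _
    rw [ha]
  · rw [he, HNNExtension.equiv_eq_conj]

private theorem Rel.conj' {H : Subgroup G} {t : G} {e : EE H t} {g : G} (h : Rel H t e g)
    (hg : t⁻¹ * g * t ∈ H) : Rel H t (HNNExtension.t⁻¹ * e * HNNExtension.t) (t⁻¹ * g * t) := by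
  obtain ⟨a, ha, he⟩ := h
  have ha' : a ∈ conjSub H t⁻¹ := (mem_conjSub_inv H t a).2 (by rw [ha]; exact hg)
  refine ⟨((conjEq H t).symm ⟨a, ha'⟩ : H), ?_, ?_⟩
  · change t⁻¹ * (a : G) * t = _
    rw [ha]
  · rw [he, HNNExtension.equiv_symm_eq_conj]

private theorem Rel.conj_zpow {H : Subgroup G} {t : G} {e : EE H t} {g : G} (h : Rel H t e g)
    (N : ℕ) (hg : ∀ c : ℤ, |c| ≤ N → t ^ c * g * t ^ (-c) ∈ H) (c : ℤ) (hc : |c| ≤ N) :
    Rel H t ((HNNExtension.t : EE H t) ^ c * e * HNNExtension.t ^ (-c)) (t ^ c * g * t ^ (-c)) := by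
  have hpos : ∀ m : ℕ, m ≤ N → Rel H t ((HNNExtension.t : EE H t) ^ (m : ℤ) * e *
      HNNExtension.t ^ (-(m : ℤ))) (t ^ (m : ℤ) * g * t ^ (-(m : ℤ))) := by
    intro m
    induction m with
    | zero =>
      intro _
      simpa using h
    | succ m ih =>
      intro hm
      have h1 := ih (by omega)
      have h2 : t ^ ((m + 1 : ℕ) : ℤ) * g * t ^ (-((m + 1 : ℕ) : ℤ)) =
          t * (t ^ (m : ℤ) * g * t ^ (-(m : ℤ))) * t⁻¹ := by
        push_cast
        rw [neg_add, zpow_add, zpow_add, zpow_one, zpow_neg_one, (Commute.refl t).zpow_left m |>.eq]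
        group
      have h3 : (HNNExtension.t : EE H t) ^ ((m + 1 : ℕ) : ℤ) * e *
          HNNExtension.t ^ (-((m + 1 : ℕ) : ℤ)) =
          HNNExtension.t * ((HNNExtension.t : EE H t) ^ (m : ℤ) * e *
            HNNExtension.t ^ (-(m : ℤ))) * HNNExtension.t⁻¹ := by
        push_cast
        rw [neg_add, zpow_add, zpow_add, zpow_one, zpow_neg_one,
          (Commute.refl (HNNExtension.t : EE H t)).zpow_left m |>.eq]
        group
      rw [h2, h3]
      refine h1.conj ?_
      rw [← h2]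
      refine hg _ ?_
      rw [abs_of_nonneg (by positivity)]
      exact_mod_cast hm
  have hneg : ∀ m : ℕ, m ≤ N → Rel H t ((HNNExtension.t : EE H t) ^ (-(m : ℤ)) * e *
      HNNExtension.t ^ (m : ℤ)) (t ^ (-(m : ℤ)) * g * t ^ (m : ℤ)) := by
    intro m
    induction m with
    | zero =>
      intro _
      simpa using h
    | succ m ih =>
      intro hm
      have h1 := ih (by omega)
      have h2 : t ^ (-((m + 1 : ℕ) : ℤ)) * g * t ^ (((m + 1 : ℕ) : ℤ)) =
          t⁻¹ * (t ^ (-(m : ℤ)) * g * t ^ (m : ℤ)) * t := by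
        push_cast
        rw [neg_add_rev, zpow_add, zpow_add, zpow_one, zpow_neg_one]
        group
      have h3 : (HNNExtension.t : EE H t) ^ (-((m + 1 : ℕ) : ℤ)) * e *
          HNNExtension.t ^ (((m + 1 : ℕ) : ℤ)) =
          HNNExtension.t⁻¹ * ((HNNExtension.t : EE H t) ^ (-(m : ℤ)) * e *
            HNNExtension.t ^ (m : ℤ)) * HNNExtension.t := by
        push_cast
        rw [neg_add_rev, zpow_add, zpow_add, zpow_one, zpow_neg_one]
        group
      rw [h2, h3]
      refine h1.conj' ?_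
      rw [← h2]
      have h4 := hg (-((m + 1 : ℕ) : ℤ)) (by
        rw [abs_neg, abs_of_nonneg (by positivity)]
        exact_mod_cast hm)
      rwa [neg_neg] at h4
  rcases le_total 0 c with h0 | h0
  · obtain ⟨m, rfl⟩ := Int.eq_ofNat_of_zero_le h0
    refine hpos m ?_
    rw [abs_of_nonneg h0] at hc
    exact_mod_cast hc
  · obtain ⟨m, hm⟩ := Int.eq_ofNat_of_zero_le (neg_nonneg.2 h0)
    have hc' : c = -(m : ℤ) := by
      rw [← neg_neg c, hm]
    rw [hc'] at hc ⊢
    rw [neg_neg]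
    refine hneg m ?_
    rw [abs_neg, abs_of_nonneg (by positivity)] at hc
    exact_mod_cast hc

end Conj

theorem exists_hnn {G : Type} [Group G] [Group.IsFinitelyPresented G] (τ : G →* Multiplicative ℤ) (t : G)
    (ht : τ t = Multiplicative.ofAdd 1) :
    ∃ H : Subgroup G, H.FG ∧ H ≤ τ.ker ∧ Subgroup.closure (insert t (H : Set G)) = ⊤ ∧
      ∃ (A B : Subgroup H) (θ : A ≃* B), (∀ h : H, h ∈ A ↔ t * h * t⁻¹ ∈ H) ∧ (∀ h : H, h ∈ B ↔ t⁻¹ * h * t ∈ H) ∧
        ∃ π : HNNExtension H A B θ →* G, Function.Injective π := by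
  classical
  obtain ⟨n, ψ, hψ, R, hRfin, hR⟩ := Group.IsFinitelyPresented.out (G := G)
  obtain ⟨wt, hwt⟩ := hψ t
  obtain ⟨kk, hkk⟩ : ∃ kk : FreeGroup (Fin n) → ℤ, ∀ w, kk w = Multiplicative.toAdd (τ (ψ w)) :=
    ⟨_, fun _ => rfl⟩
  have hkkmul : ∀ w w', kk (w * w') = kk w + kk w' := by
    intro w w'
    rw [hkk, hkk, hkk, map_mul, map_mul, toAdd_mul]
  have hkkinv : ∀ w, kk w⁻¹ = - kk w := by
    intro w
    rw [hkk, hkk, map_inv, map_inv, toAdd_inv]
  have htau : ∀ w, τ (ψ w) = Multiplicative.ofAdd (kk w) := by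
    intro w
    rw [hkk, ofAdd_toAdd]
  have htz : ∀ c : ℤ, τ (t ^ c) = Multiplicative.ofAdd c := by
    intro c
    rw [map_zpow, ht, ← ofAdd_zsmul, smul_eq_mul, mul_one]
  obtain ⟨k, hk⟩ : ∃ k : Fin n → ℤ, ∀ i, k i = kk (FreeGroup.of i) := ⟨_, fun _ => rfl⟩
  obtain ⟨u, hu⟩ : ∃ u : Fin n → G, ∀ i, u i = ψ (FreeGroup.of i) * t ^ (-(k i)) :=
    ⟨_, fun _ => rfl⟩
  have hux : ∀ i, ψ (FreeGroup.of i) = u i * t ^ (k i) := by
    intro i
    rw [hu, mul_assoc, ← zpow_add, neg_add_cancel, zpow_zero, mul_one]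
  have hutau : ∀ i, τ (u i) = 1 := by
    intro i
    rw [hu, map_mul, htz, htau, ← hk, ← ofAdd_add, add_neg_cancel, ofAdd_zero]
  obtain ⟨K, hK⟩ : ∃ K : ℕ, ∀ i, |k i| ≤ K := by
    refine ⟨∑ i, (k i).natAbs, fun i => ?_⟩
    rw [Int.abs_eq_natAbs]
    exact_mod_cast Finset.single_le_sum (f := fun i => (k i).natAbs) (fun _ _ => Nat.zero_le _)
      (Finset.mem_univ i)
  -- the bound
  obtain ⟨N, hN⟩ : ∃ N : ℕ, ∀ r ∈ insert wt R, r.toWord.length * K ≤ N := by
    have hfin : (insert wt R).Finite := hRfin.insert wt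
    obtain ⟨N, hN⟩ := (hfin.image fun r => r.toWord.length * K).bddAbove
    exact ⟨N, fun r hr => hN ⟨r, hr, rfl⟩⟩
  obtain ⟨S, hS⟩ : ∃ S : Set G, S = {g | ∃ (c : ℤ) (i : Fin n), |c| ≤ N ∧ g = t ^ c * u i * t ^ (-c)} :=
    ⟨_, rfl⟩
  have hSfin : S.Finite := by
    have h1 : S ⊆ (fun p : ℤ × Fin n => t ^ p.1 * u p.2 * t ^ (-p.1)) ''
        ((Set.Icc (-(N : ℤ)) N) ×ˢ (Set.univ : Set (Fin n))) := by
      rw [hS]
      rintro g ⟨c, i, hc, rfl⟩
      exact ⟨(c, i), ⟨abs_le.1 hc, Set.mem_univ _⟩, rfl⟩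
    exact (((Set.finite_Icc _ _).prod Set.finite_univ).image _).subset h1
  obtain ⟨H, hH⟩ : ∃ H : Subgroup G, H = Subgroup.closure S := ⟨_, rfl⟩
  have huH : ∀ i, ∀ c : ℤ, |c| ≤ N → t ^ c * u i * t ^ (-c) ∈ H := by
    intro i c hc
    rw [hH]
    refine Subgroup.subset_closure ?_
    rw [hS]
    exact ⟨c, i, hc, rfl⟩
  have huH0 : ∀ i, u i ∈ H := by
    intro i
    have h1 := huH i 0 (by simp)
    simpa using h1
  refine ⟨H, ?_, ?_, ?_, conjSub H t, conjSub H t⁻¹, conjEq H t, fun h => mem_conjSub H t h,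
    fun h => mem_conjSub_inv H t h, ?_⟩
  · rw [Subgroup.fg_iff]
    exact ⟨S, hH.symm, hSfin⟩
  · rw [hH, Subgroup.closure_le, hS]
    rintro g ⟨c, i, _, rfl⟩
    rw [SetLike.mem_coe, MonoidHom.mem_ker, map_mul, map_mul, hutau, htz, htz, mul_one, ← ofAdd_add,
      add_neg_cancel, ofAdd_zero]
  · rw [eq_top_iff]
    have h1 : (⊤ : Subgroup (FreeGroup (Fin n))) ≤
        (Subgroup.closure (insert t (H : Set G))).comap ψ := by
      rw [← FreeGroup.closure_range_of, Subgroup.closure_le]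
      rintro _ ⟨i, rfl⟩
      rw [SetLike.mem_coe, Subgroup.mem_comap, hux]
      refine mul_mem (Subgroup.subset_closure (Set.mem_insert_of_mem _ (huH0 i))) ?_
      exact zpow_mem (Subgroup.subset_closure (Set.mem_insert _ _)) _
    intro g _
    obtain ⟨w, rfl⟩ := hψ g
    exact h1 (Subgroup.mem_top w)
  -- the map from the HNN extension
  obtain ⟨π, hπt, hπof⟩ : ∃ π : EE H t →* G, π HNNExtension.t = t ∧
      ∀ h : H, π (HNNExtension.of h) = (h : G) := by
    refine ⟨HNNExtension.lift H.subtype t ?_, ?_, ?_⟩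
    · intro a
      change t * ((a : H) : G) = ((conjEq H t a : H) : G) * t
      rw [conjEq_coe, inv_mul_cancel_right]
    · exact HNNExtension.lift_t _ _ _
    · intro h
      rw [HNNExtension.lift_of]
      rfl
  refine ⟨π, ?_⟩
  -- the map to the HNN extension
  obtain ⟨T, hT⟩ : ∃ T : EE H t, T = HNNExtension.t := ⟨_, rfl⟩
  obtain ⟨U, hU⟩ : ∃ U : Fin n → EE H t, ∀ i, U i = HNNExtension.of ⟨u i, huH0 i⟩ :=
    ⟨_, fun _ => rfl⟩
  have hUrel : ∀ i, Rel H t (U i) (u i) := fun i => ⟨⟨u i, huH0 i⟩, rfl, hU i⟩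
  have hUconj : ∀ i, ∀ c : ℤ, |c| ≤ N → Rel H t (T ^ c * U i * T ^ (-c)) (t ^ c * u i * t ^ (-c)) := by
    intro i c hc
    rw [hT]
    exact (hUrel i).conj_zpow N (huH i) c hc
  obtain ⟨ζ, hζ⟩ : ∃ ζ : FreeGroup (Fin n) →* EE H t, ∀ i, ζ (FreeGroup.of i) = U i * T ^ (k i) :=
    ⟨FreeGroup.lift fun i => U i * T ^ (k i), fun i => FreeGroup.lift_apply_of⟩
  have hmk1 : ∀ (L : List (Fin n × Bool)) (i : Fin n),
      FreeGroup.mk (L ++ [(i, true)]) = FreeGroup.mk L * FreeGroup.of i := by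
    intro L i
    rw [← FreeGroup.mul_mk]
    rfl
  have hmk2 : ∀ (L : List (Fin n × Bool)) (i : Fin n),
      FreeGroup.mk (L ++ [(i, false)]) = FreeGroup.mk L * (FreeGroup.of i)⁻¹ := by
    intro L i
    rw [← FreeGroup.mul_mk]
    rfl
  have hword : ∀ L : List (Fin n × Bool), |kk (FreeGroup.mk L)| ≤ (L.length : ℤ) * K ∧
      (L.length * K ≤ N → Rel H t (ζ (FreeGroup.mk L) * T ^ (-(kk (FreeGroup.mk L))))
        (ψ (FreeGroup.mk L) * t ^ (-(kk (FreeGroup.mk L))))) := by
    intro L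
    induction L using List.reverseRecOn with
    | nil =>
      have h1 : (FreeGroup.mk [] : FreeGroup (Fin n)) = 1 := rfl
      have h2 : kk 1 = 0 := by
        rw [hkk, map_one, map_one, toAdd_one]
      rw [h1, h2]
      refine ⟨by simp, fun _ => ?_⟩
      rw [map_one, map_one, neg_zero, zpow_zero, zpow_zero, mul_one, mul_one]
      exact Rel.one
    | append_singleton L p ih =>
      obtain ⟨i, b⟩ := p
      obtain ⟨ih1, ih2⟩ := ih
      have hlen : ((L ++ [(i, b)]).length : ℤ) * K = (L.length : ℤ) * K + K := by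
        rw [List.length_append, List.length_singleton]
        push_cast
        ring
      have hKi := hK i
      cases b with
      | true =>
        rw [hmk1, hkkmul, ← hk]
        have habs : |kk (FreeGroup.mk L) + k i| ≤ ((L ++ [(i, true)]).length : ℤ) * K := by
          rw [hlen]
          exact (abs_add_le _ _).trans (add_le_add ih1 hKi)
        refine ⟨habs, fun hL => ?_⟩
        have hL1 : (L.length : ℤ) * K + K ≤ N := by
          rw [← hlen]
          exact_mod_cast hL
        have hLN : L.length * K ≤ N := by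
          have h1 : (L.length : ℤ) * K ≤ N := by
            have : (0 : ℤ) ≤ K := by positivity
            linarith
          exact_mod_cast h1
        have h1 := ih2 hLN
        have h2 := hUconj i (kk (FreeGroup.mk L)) (by
          refine ih1.trans ?_
          exact_mod_cast hLN)
        have h3 := h1.mul h2
        have e1 : ζ (FreeGroup.mk L * FreeGroup.of i) * T ^ (-(kk (FreeGroup.mk L) + k i)) =
            ζ (FreeGroup.mk L) * T ^ (-(kk (FreeGroup.mk L))) *
              (T ^ (kk (FreeGroup.mk L)) * U i * T ^ (-(kk (FreeGroup.mk L)))) := by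
          rw [map_mul, hζ]
          group
        have e2 : ψ (FreeGroup.mk L * FreeGroup.of i) * t ^ (-(kk (FreeGroup.mk L) + k i)) =
            ψ (FreeGroup.mk L) * t ^ (-(kk (FreeGroup.mk L))) *
              (t ^ (kk (FreeGroup.mk L)) * u i * t ^ (-(kk (FreeGroup.mk L)))) := by
          rw [map_mul, hux]
          group
        rw [e1, e2]
        exact h3
      | false =>
        rw [hmk2, hkkmul, hkkinv, ← hk]
        have habs : |kk (FreeGroup.mk L) + -(k i)| ≤ ((L ++ [(i, false)]).length : ℤ) * K := by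
          rw [hlen]
          refine (abs_add_le _ _).trans (add_le_add ih1 ?_)
          rw [abs_neg]
          exact hKi
        refine ⟨habs, fun hL => ?_⟩
        have hL1 : (L.length : ℤ) * K + K ≤ N := by
          rw [← hlen]
          exact_mod_cast hL
        have hLN : L.length * K ≤ N := by
          have h1 : (L.length : ℤ) * K ≤ N := by
            have : (0 : ℤ) ≤ K := by positivity
            linarith
          exact_mod_cast h1
        have h1 := ih2 hLN
        have h2 := (hUconj i (kk (FreeGroup.mk L) + -(k i)) (by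
          refine habs.trans ?_
          exact_mod_cast hL)).inv
        have h3 := h1.mul h2
        have e1 : ζ (FreeGroup.mk L * (FreeGroup.of i)⁻¹) * T ^ (-(kk (FreeGroup.mk L) + -(k i))) =
            ζ (FreeGroup.mk L) * T ^ (-(kk (FreeGroup.mk L))) *
              (T ^ (kk (FreeGroup.mk L) + -(k i)) * U i *
                T ^ (-(kk (FreeGroup.mk L) + -(k i))))⁻¹ := by
          rw [map_mul, map_inv, hζ]
          group
        have e2 : ψ (FreeGroup.mk L * (FreeGroup.of i)⁻¹) * t ^ (-(kk (FreeGroup.mk L) + -(k i))) =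
            ψ (FreeGroup.mk L) * t ^ (-(kk (FreeGroup.mk L))) *
              (t ^ (kk (FreeGroup.mk L) + -(k i)) * u i *
                t ^ (-(kk (FreeGroup.mk L) + -(k i))))⁻¹ := by
          rw [map_mul, map_inv, hux]
          group
        rw [e1, e2]
        exact h3
  have hword' : ∀ r ∈ insert wt R, Rel H t (ζ r * T ^ (-(kk r))) (ψ r * t ^ (-(kk r))) := by
    intro r hr
    have h1 := (hword r.toWord).2 (hN r hr)
    rwa [FreeGroup.mk_toWord] at h1
  have hRker : ∀ r ∈ R, ζ r = 1 := by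
    intro r hr
    have hr1 : ψ r = 1 := by
      rw [← MonoidHom.mem_ker, ← hR]
      exact Subgroup.subset_normalClosure hr
    have hr2 : kk r = 0 := by
      rw [hkk, hr1, map_one, toAdd_one]
    have h1 := (hword' r (Set.mem_insert_of_mem _ hr)).eq_one (by
      rw [hr1, hr2, neg_zero, zpow_zero, mul_one])
    rwa [hr2, neg_zero, zpow_zero, mul_one] at h1
  have hζt : ζ wt = T := by
    have hk1 : kk wt = 1 := by
      rw [hkk, hwt, ht, toAdd_ofAdd]
    have h1 := (hword' wt (Set.mem_insert _ _)).eq_one (by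
      rw [hwt, hk1, zpow_neg_one, mul_inv_cancel])
    rw [hk1, zpow_neg_one] at h1
    exact mul_inv_eq_one.1 h1
  have hker : ψ.ker ≤ ζ.ker := by
    rw [← hR]
    exact Subgroup.normalClosure_le_normal fun r hr => (MonoidHom.mem_ker).2 (hRker r hr)
  have hπζ : ∀ w, π (ζ w) = ψ w := by
    intro w
    have h1 : π.comp ζ = ψ := by
      refine FreeGroup.ext_hom _ _ fun i => ?_
      rw [MonoidHom.comp_apply, hζ, map_mul, map_zpow, hU, hπof, hT, hπt, hux]
    rw [← h1]
    rfl
  have hζsurj : Function.Surjective ζ := by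
    rw [← MonoidHom.range_eq_top, eq_top_iff]
    have hTr : T ∈ ζ.range := ⟨wt, hζt⟩
    have hUr : ∀ i, U i ∈ ζ.range := by
      intro i
      have h1 : U i = ζ (FreeGroup.of i) * T ^ (-(k i)) := by
        rw [hζ]
        group
      rw [h1]
      exact mul_mem ⟨_, rfl⟩ (zpow_mem hTr _)
    have hof : ∀ g ∈ Subgroup.closure S, ∃ h : H, (h : G) = g ∧
        (HNNExtension.of h : EE H t) ∈ ζ.range := by
      intro g hg
      induction hg using Subgroup.closure_induction with
      | mem x hx =>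
        rw [hS] at hx
        obtain ⟨c, i, hc, rfl⟩ := hx
        obtain ⟨h, hh, he⟩ := hUconj i c hc
        refine ⟨h, hh, ?_⟩
        rw [← he]
        exact mul_mem (mul_mem (zpow_mem hTr _) (hUr i)) (zpow_mem hTr _)
      | one => exact ⟨1, rfl, by rw [map_one]; exact one_mem _⟩
      | mul x y _ _ hx hy =>
        obtain ⟨a, ha, ha'⟩ := hx
        obtain ⟨b, hb, hb'⟩ := hy
        exact ⟨a * b, by rw [Subgroup.coe_mul, ha, hb], by rw [map_mul]; exact mul_mem ha' hb'⟩
      | inv x _ hx =>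
        obtain ⟨a, ha, ha'⟩ := hx
        exact ⟨a⁻¹, by rw [Subgroup.coe_inv, ha], by rw [map_inv]; exact inv_mem ha'⟩
    intro e _
    induction e using HNNExtension.induction_on with
    | of g =>
      obtain ⟨h, hh, hr⟩ := hof g (by rw [← hH]; exact g.2)
      have : h = g := Subtype.ext hh
      rwa [← this]
    | t => rw [← hT]; exact hTr
    | mul x y hx hy => exact mul_mem (hx (Subgroup.mem_top x)) (hy (Subgroup.mem_top y))
    | inv x hx => exact inv_mem (hx (Subgroup.mem_top x))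
  intro e e' hee
  obtain ⟨w, rfl⟩ := hζsurj e
  obtain ⟨w', rfl⟩ := hζsurj e'
  rw [hπζ, hπζ] at hee
  have h1 : w'⁻¹ * w ∈ ψ.ker := by
    rw [MonoidHom.mem_ker, map_mul, map_inv, hee, inv_mul_cancel]
  have h2 := hker h1
  rw [MonoidHom.mem_ker, map_mul, map_inv, inv_mul_eq_one] at h2
  exact h2.symm

end Pool.Agent.Helper13.MS
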