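import Pool.Agent.Helper13.MS.HNA
import Pool.Agent.Helper13.MS.HNB

/-!
# MS-HNC: the Bieri-Strebel step

`exists_ascending`: if neither alternative holds there are `h ∈ H` with `t h t⁻¹ ∉ H` and `h' ∈ H` with `t⁻¹ h' t ∉ H`; `free_of_not_mem` and `π` give a free subgroup of `G`.
`exists_conj_mem`: let `z` be `t` or `t⁻¹`, `z h z⁻¹ ∈ H` for `h ∈ H`.  `U = ⋃_k z^-k H z^k` is an increasing union of subgroups, normalised by `z` and `z⁻¹`, so
`{u z^j : u ∈ U, j ∈ ℤ}` is a subgroup containing `H` and `z`, i.e. all of `G`; `g = u z^j` with `g ∈ ker τ` gives `j = 0` (`U ≤ ker τ`, `hz`).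
-/

set_option autoImplicit false

namespace Pool.Agent.Helper13.MS

theorem exists_ascending {G : Type} [Group G] [Group.IsFinitelyPresented G] (hG : NoFree G) (τ : G →* Multiplicative ℤ) (t : G)
    (ht : τ t = Multiplicative.ofAdd 1) :
    ∃ H : Subgroup G, H.FG ∧ H ≤ τ.ker ∧ Subgroup.closure (insert t (H : Set G)) = ⊤ ∧
      ((∀ h ∈ H, t * h * t⁻¹ ∈ H) ∨ (∀ h ∈ H, t⁻¹ * h * t ∈ H)) := by
  obtain ⟨H, h1, h2, h3, A, B, θ, hA, hB, π, hπ⟩ := exists_hnn τ t ht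
  refine ⟨H, h1, h2, h3, ?_⟩
  by_contra hcon
  push Not at hcon
  obtain ⟨⟨a, haH, ha⟩, ⟨b, hbH, hb⟩⟩ := hcon
  obtain ⟨f, hf⟩ := free_of_not_mem A B θ ⟨a, haH⟩ ⟨b, hbH⟩ (fun h => ha ((hA _).1 h))
    (fun h => hb ((hB _).1 h))
  exact hG ⟨π.comp f, hπ.comp hf⟩

/-- `⋃_k z^-k H z^k` -/
private def U63 {G : Type} [Group G] (H : Subgroup G) (z : G) (hH : ∀ h ∈ H, z * h * z⁻¹ ∈ H) :
    Subgroup G where
  carrier := {u | ∃ k : ℕ, z ^ k * u * (z ^ k)⁻¹ ∈ H}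
  one_mem' := ⟨0, by simp⟩
  mul_mem' := by
    have hmono : ∀ (u : G) (k m : ℕ), z ^ k * u * (z ^ k)⁻¹ ∈ H →
        z ^ (k + m) * u * (z ^ (k + m))⁻¹ ∈ H := by
      intro u k m hk
      induction m with
      | zero => exact hk
      | succ m ih =>
        have h1 := hH _ ih
        have h2 : z ^ (k + (m + 1)) * u * (z ^ (k + (m + 1)))⁻¹ =
            z * (z ^ (k + m) * u * (z ^ (k + m))⁻¹) * z⁻¹ := by
          rw [← add_assoc, pow_succ' z (k + m)]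
          group
        rw [h2]
        exact h1
    rintro u v ⟨k, hk⟩ ⟨m, hm⟩
    refine ⟨k + m, ?_⟩
    have h1 := hmono u k m hk
    have h2 := hmono v m k hm
    rw [add_comm m k] at h2
    have h3 : z ^ (k + m) * (u * v) * (z ^ (k + m))⁻¹ =
        (z ^ (k + m) * u * (z ^ (k + m))⁻¹) * (z ^ (k + m) * v * (z ^ (k + m))⁻¹) := by
      simp only [mul_assoc, inv_mul_cancel_left]
    rw [h3]
    exact H.mul_mem h1 h2
  inv_mem' := by
    rintro u ⟨k, hk⟩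
    refine ⟨k, ?_⟩
    have h1 := H.inv_mem hk
    have h2 : (z ^ k * u * (z ^ k)⁻¹)⁻¹ = z ^ k * u⁻¹ * (z ^ k)⁻¹ := by
      simp only [mul_inv_rev, inv_inv, mul_assoc]
    rwa [h2] at h1

private theorem conj63 {G : Type} [Group G] (H : Subgroup G) (z : G)
    (hH : ∀ h ∈ H, z * h * z⁻¹ ∈ H) {u : G} (hu : u ∈ U63 H z hH) :
    z * u * z⁻¹ ∈ U63 H z hH ∧ z⁻¹ * u * z ∈ U63 H z hH := by
  obtain ⟨k, hk⟩ := hu
  constructor
  · refine ⟨k, ?_⟩
    have h1 := hH _ hk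
    have h2 : z ^ k * (z * u * z⁻¹) * (z ^ k)⁻¹ = z * (z ^ k * u * (z ^ k)⁻¹) * z⁻¹ := by
      have h3 : z ^ k * z = z * z ^ k := by rw [← pow_succ, ← pow_succ']
      have h4 : z⁻¹ * (z ^ k)⁻¹ = (z ^ k)⁻¹ * z⁻¹ := by rw [← mul_inv_rev, ← mul_inv_rev, h3]
      calc z ^ k * (z * u * z⁻¹) * (z ^ k)⁻¹ = (z ^ k * z) * u * (z⁻¹ * (z ^ k)⁻¹) := by
            simp only [mul_assoc]
        _ = z * (z ^ k * u * (z ^ k)⁻¹) * z⁻¹ := by
            rw [h3, h4]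
            simp only [mul_assoc]
    rw [h2]
    exact h1
  · refine ⟨k + 1, ?_⟩
    have h2 : z ^ (k + 1) * (z⁻¹ * u * z) * (z ^ (k + 1))⁻¹ = z ^ k * u * (z ^ k)⁻¹ := by
      rw [pow_succ]
      simp only [mul_assoc, mul_inv_rev, mul_inv_cancel_left]
    rw [h2]
    exact hk

private theorem conjz63 {G : Type} [Group G] (H : Subgroup G) (z : G)
    (hH : ∀ h ∈ H, z * h * z⁻¹ ∈ H) (j : ℤ) {u : G} (hu : u ∈ U63 H z hH) :
    z ^ j * u * z ^ (-j) ∈ U63 H z hH := by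
  induction j with
  | zero => simpa using hu
  | succ n ih =>
    have h1 := (conj63 H z hH ih).1
    have h2 : z ^ ((n : ℤ) + 1) * u * z ^ (-((n : ℤ) + 1)) = z * (z ^ (n : ℤ) * u * z ^ (-(n : ℤ))) * z⁻¹ := by
      group
    rw [h2]
    exact h1
  | pred n ih =>
    have h1 := (conj63 H z hH ih).2
    have h2 : z ^ (-(n : ℤ) - 1) * u * z ^ (-(-(n : ℤ) - 1)) =
        z⁻¹ * (z ^ (-(n : ℤ)) * u * z ^ (-(-(n : ℤ)))) * z := by
      group
    rw [h2]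
    exact h1

/-- `{u z^j}` -/
private def W63 {G : Type} [Group G] (H : Subgroup G) (z : G) (hH : ∀ h ∈ H, z * h * z⁻¹ ∈ H) :
    Subgroup G where
  carrier := {g | ∃ j : ℤ, g * z ^ j ∈ U63 H z hH}
  one_mem' := ⟨0, by simpa using (U63 H z hH).one_mem⟩
  mul_mem' := by
    rintro g g' ⟨i, hi⟩ ⟨j, hj⟩
    refine ⟨j + i, ?_⟩
    have h1 := conjz63 H z hH (-i) hj
    have h2 := (U63 H z hH).mul_mem hi h1
    have h3 : g * z ^ i * (z ^ (-i) * (g' * z ^ j) * z ^ (- -i)) = g * g' * z ^ (j + i) := by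
      group
    rwa [h3] at h2
  inv_mem' := by
    rintro g ⟨i, hi⟩
    refine ⟨-i, ?_⟩
    have h1 := conjz63 H z hH i ((U63 H z hH).inv_mem hi)
    have h2 : z ^ i * (g * z ^ i)⁻¹ * z ^ (-i) = g⁻¹ * z ^ (-i) := by
      group
    rwa [h2] at h1

theorem exists_conj_mem {G : Type} [Group G] (N : Subgroup G) [N.Normal] (H : Subgroup G) (hHN : H ≤ N) (z : G)
    (hgen : Subgroup.closure (insert z (H : Set G)) = ⊤) (hz : ∀ j : ℤ, z ^ j ∈ N → j = 0) (hH : ∀ h ∈ H, z * h * z⁻¹ ∈ H)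
    (g : G) (hg : g ∈ N) : ∃ k : ℕ, z ^ k * g * (z ^ k)⁻¹ ∈ H := by
  have hle : Subgroup.closure (insert z (H : Set G)) ≤ W63 H z hH := by
    rw [Subgroup.closure_le]
    rintro x (rfl | hx)
    · refine ⟨-1, ?_⟩
      have h1 := (U63 H x hH).one_mem
      simpa using h1
    · refine ⟨0, 0, ?_⟩
      simpa using hx
  have hgW : g ∈ W63 H z hH := by
    apply hle
    rw [hgen]
    trivial
  obtain ⟨j, k, hk⟩ := hgW
  have h1 : g * z ^ j ∈ N := by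
    have h2 := (inferInstance : N.Normal).conj_mem _ (hHN hk) (z ^ k)⁻¹
    have h3 : (z ^ k)⁻¹ * (z ^ k * (g * z ^ j) * (z ^ k)⁻¹) * (z ^ k)⁻¹⁻¹ = g * z ^ j := by
      group
    rwa [h3] at h2
  have h2 : z ^ j ∈ N := by
    have h3 := N.mul_mem (N.inv_mem hg) h1
    rwa [inv_mul_cancel_left] at h3
  have h3 := hz j h2
  subst h3
  refine ⟨k, ?_⟩
  simpa using hk

end Pool.Agent.Helper13.MS
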