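import Pool.Agent.Helper13.MS.Defs

/-!
# MS-HND: the image of `H ∩ G'` under `φ` spans a finite dimensional space

`H` is generated by `h_1, ..., h_r`; `k` a subfield of `K` with `χ(H) ⊆ k`.  The derived group `H'` is the normal closure in `H` of the commutators `⁅h_i, h_j⁆` (in the quotient by this normal
closure the generators commute), `H / H'` is finitely generated abelian, so its subgroup `(H ∩ G') / H'` is finitely generated, by classes of `v_1, ..., v_q ∈ H ∩ G'`.
`W` = span over `k` of the `φ ⁅h_i, h_j⁆` and the `φ (v_l)`: `{g ∈ H ∩ G' | φ g ∈ W}` is a subgroup, it is stable under conjugation by `H` (`φ_conj`, `χ(H) ⊆ k`), so it contains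
`H'` and the `v_l`, hence everything.  (`φ 1 = 0`, `φ g⁻¹ = - φ g` from `φ_mul`.)
-/

set_option autoImplicit false

namespace Pool.Agent.Helper13.MS

open scoped commutatorElement

private theorem fg56 {A : Type} [CommGroup A] [Group.FG A] (N : Subgroup A) : N.FG := by
  have h1 : AddGroup.FG (Additive A) := AddGroup.fg_iff_mul_fg.2 inferInstance
  have h2 : Module.Finite ℤ (Additive A) := Module.Finite.iff_addGroup_fg.2 h1
  have h4 : (AddSubgroup.toIntSubmodule (Subgroup.toAddSubgroup N)).FG :=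
    IsNoetherian.noetherian _
  have h5 : (Subgroup.toAddSubgroup N).FG := by
    have h6 := (Submodule.fg_iff_addSubgroup_fg _).1 h4
    exact h6
  exact (Subgroup.fg_iff_add_fg N).2 h5

private theorem phi_one56 {G K : Type} [Group G] [Field K] (Tw : Twisted G K) : Tw.φ 1 = 0 := by
  have h1 := Tw.φ_mul 1 (one_mem _) 1 (one_mem _)
  rw [mul_one] at h1
  have h2 : Tw.φ 1 + 0 = Tw.φ 1 + Tw.φ 1 := by rw [add_zero]; exact h1
  exact (add_left_cancel h2).symm

private theorem phi_inv56 {G K : Type} [Group G] [Field K] (Tw : Twisted G K) {a : G}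
    (ha : a ∈ commutator G) : Tw.φ a⁻¹ = - Tw.φ a := by
  have h1 := Tw.φ_mul a ha a⁻¹ (inv_mem ha)
  rw [mul_inv_cancel, phi_one56] at h1
  exact (neg_eq_of_add_eq_zero_right h1.symm).symm

/-- the elements of the derived group with value in `W` -/
private def sub56 {G K : Type} [Group G] [Field K] (Tw : Twisted G K) (k : Subfield K)
    (W : Submodule k K) : Subgroup G where
  carrier := {g | g ∈ commutator G ∧ Tw.φ g ∈ W}
  one_mem' := ⟨one_mem _, by rw [phi_one56]; exact W.zero_mem⟩
  mul_mem' := by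
    rintro a b ⟨ha, ha'⟩ ⟨hb, hb'⟩
    exact ⟨mul_mem ha hb, by rw [Tw.φ_mul a ha b hb]; exact W.add_mem ha' hb'⟩
  inv_mem' := by
    rintro a ⟨ha, ha'⟩
    exact ⟨inv_mem ha, by rw [phi_inv56 Tw ha]; exact W.neg_mem ha'⟩

private theorem conj56 {G K : Type} [Group G] [Field K] (Tw : Twisted G K) (k : Subfield K)
    (W : Submodule k K) {h a : G} (hh : (Tw.χ h : K) ∈ k) (ha : a ∈ sub56 Tw k W) :
    h * a * h⁻¹ ∈ sub56 Tw k W := by
  obtain ⟨h1, h2⟩ := ha
  refine ⟨(commutator G).normal_of_characteristic.conj_mem a h1 h, ?_⟩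
  rw [Tw.φ_conj h a h1]
  exact W.smul_mem (⟨(Tw.χ h : K), hh⟩ : k) h2

/-- commutators of elements of the group generated by `S` -/
private theorem comm56 {G : Type} [Group G] (S : Set G) (P : Subgroup G)
    (hP : ∀ h ∈ Subgroup.closure S, ∀ a ∈ P, h * a * h⁻¹ ∈ P) (hS : ∀ s ∈ S, ∀ s' ∈ S, ⁅s, s'⁆ ∈ P)
    {x y : G} (hx : x ∈ Subgroup.closure S) (hy : y ∈ Subgroup.closure S) : ⁅x, y⁆ ∈ P := by
  induction hx, hy using Subgroup.closure_induction₂ with
  | mem x y hx hy => exact hS x hx y hy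
  | one_left x hx => rw [commutatorElement_one_left]; exact one_mem _
  | one_right x hx => rw [commutatorElement_one_right]; exact one_mem _
  | mul_left x y z hx hy hz h1 h2 =>
    have h3 : ⁅x * y, z⁆ = (x * ⁅y, z⁆ * x⁻¹) * ⁅x, z⁆ := by
      simp only [commutatorElement_def]
      group
    rw [h3]
    exact mul_mem (hP x hx _ h2) h1
  | mul_right y z x hy hz hx h1 h2 =>
    have h3 : ⁅x, y * z⁆ = ⁅x, y⁆ * (y * ⁅x, z⁆ * y⁻¹) := by
      simp only [commutatorElement_def]
      group
    rw [h3]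
    exact mul_mem h1 (hP y hy _ h2)
  | inv_left x y hx hy h1 =>
    have h3 : ⁅x⁻¹, y⁆ = x⁻¹ * ⁅x, y⁆⁻¹ * (x⁻¹)⁻¹ := by
      simp only [commutatorElement_def]
      group
    rw [h3]
    exact hP _ (inv_mem hx) _ (inv_mem h1)
  | inv_right x y hx hy h1 =>
    have h3 : ⁅x, y⁻¹⁆ = y⁻¹ * ⁅x, y⁆⁻¹ * (y⁻¹)⁻¹ := by
      simp only [commutatorElement_def]
      group
    rw [h3]
    exact hP _ (inv_mem hy) _ (inv_mem h1)

theorem exists_finite_span {G K : Type} [Group G] [Field K] (Tw : Twisted G K) (k : Subfield K) (H : Subgroup G) (hH : H.FG)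
    (hχ : ∀ h ∈ H, (Tw.χ h : K) ∈ k) :
    ∃ W : Submodule k K, Module.Finite k W ∧ ∀ g ∈ H, g ∈ commutator G → Tw.φ g ∈ W := by
  classical
  obtain ⟨S, hS⟩ := hH
  have hfgH : Group.FG H := (Group.fg_iff_subgroup_fg H).2 ⟨S, hS⟩
  let ab : H →* Abelianization H := Abelianization.of
  have hab : Group.FG (Abelianization H) :=
    Group.fg_of_surjective (f := ab) (QuotientGroup.mk_surjective)
  let D : Subgroup H := (commutator G).subgroupOf H
  obtain ⟨F, hF⟩ := fg56 (D.map ab)
  have hFsub : (F : Set (Abelianization H)) ⊆ ab '' (D : Set H) := by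
    intro f hf
    have h1 : f ∈ D.map ab := by
      rw [← hF]
      exact Subgroup.subset_closure hf
    exact h1
  obtain ⟨V, hV, hVF⟩ := Finset.subset_set_image_iff.1 hFsub
  let T : Set K := (fun p : G × G => Tw.φ ⁅p.1, p.2⁆) '' ((S ×ˢ S : Finset (G × G)) : Set (G × G)) ∪
    (fun v : H => Tw.φ (v : G)) '' (V : Set H)
  have hT : T.Finite := (Set.Finite.image _ (Finset.finite_toSet _)).union
    (Set.Finite.image _ (Finset.finite_toSet _))
  let W : Submodule k K := Submodule.span k T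
  let P : Subgroup G := sub56 Tw k W
  have hconj : ∀ h ∈ Subgroup.closure (S : Set G), ∀ a ∈ P, h * a * h⁻¹ ∈ P := by
    intro h hh a ha
    rw [hS] at hh
    exact conj56 Tw k W (hχ h hh) ha
  have hSS : ∀ s ∈ (S : Set G), ∀ s' ∈ (S : Set G), ⁅s, s'⁆ ∈ P := by
    intro s hs s' hs'
    refine ⟨Subgroup.commutator_mem_commutator (Subgroup.mem_top _) (Subgroup.mem_top _), ?_⟩
    apply Submodule.subset_span
    left
    exact ⟨(s, s'), Finset.mem_coe.2 (Finset.mem_product.2 ⟨hs, hs'⟩), rfl⟩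
  have hker : ab.ker ≤ P.subgroupOf H := by
    have h1 : ab.ker = commutator H := Abelianization.ker_of H
    rw [h1]
    apply Subgroup.commutator_le.2
    intro x _ y _
    rw [Subgroup.mem_subgroupOf]
    have hx : (x : G) ∈ Subgroup.closure (S : Set G) := by rw [hS]; exact x.2
    have hy : (y : G) ∈ Subgroup.closure (S : Set G) := by rw [hS]; exact y.2
    exact comm56 (S : Set G) P hconj hSS hx hy
  have hVP : Subgroup.closure (V : Set H) ≤ P.subgroupOf H := by
    rw [Subgroup.closure_le]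
    intro v hv
    show (v : G) ∈ P
    refine ⟨hV hv, ?_⟩
    apply Submodule.subset_span
    right
    exact ⟨v, hv, rfl⟩
  have hD : D ≤ P.subgroupOf H := by
    have h1 : D.map ab = (Subgroup.closure (V : Set H)).map ab := by
      rw [MonoidHom.map_closure, ← hF, ← hVF, Finset.coe_image]
    have h2 : D ≤ (D.map ab).comap ab := Subgroup.le_comap_map _ _
    rw [h1, Subgroup.comap_map_eq] at h2
    exact h2.trans (sup_le hVP hker)
  refine ⟨W, Module.Finite.span_of_finite k hT, ?_⟩
  intro g hg hg'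
  have h1 : (⟨g, hg⟩ : H) ∈ D := hg'
  have h2 : g ∈ P := hD h1
  exact h2.2

end Pool.Agent.Helper13.MS
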