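import Pool.Agent.Helper13.MS.HNC
import Pool.Agent.Helper13.MS.HND

/-!
# MS-HNE: rank one is impossible

`k` = the subfield of elements of `K` algebraic over `Q` (`algebraicClosure ℚ K`), `N = τ.ker = {g | χ g ∈ k}`.  `exists_ascending` gives `H` and `z = t` or `t⁻¹` with `z H z⁻¹ ≤ H`;
`exists_finite_span`: `φ (H ∩ G') ⊆ W`, `W` finite dimensional over `k`.  Take `g ∈ G'` with `φ g ≠ 0`; `g ∈ N` since `χ g = 1`; `exists_conj_mem` gives `h = z^n g z^-n ∈ H`,
`φ h = χ(z)^n φ g ≠ 0`, and `z^j h z^-j ∈ H ∩ G'` for all `j ≥ 0`, so `χ(z)^j φ h ∈ W` for all `j`.  `χ z` is transcendental over `Q`, hence over `k`, so these elements are linearly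
independent over `k`: contradiction.
-/

set_option autoImplicit false

namespace Pool.Agent.Helper13.MS

private theorem no_rank_one_aux40 {G K : Type} [Group G] [Field K] [CharZero K]
    (Tw : Twisted G K) (hφ : ∃ g ∈ commutator G, Tw.φ g ≠ 0) (τ : G →* Multiplicative ℤ)
    (hτ : ∀ g, g ∈ τ.ker ↔ IsAlgebraic ℚ (Tw.χ g : K)) (H : Subgroup G) (hFG : H.FG) (hHN : H ≤ τ.ker)
    (z : G) (hgen : Subgroup.closure (insert z (H : Set G)) = ⊤) (hz : ∀ j : ℤ, z ^ j ∈ τ.ker → j = 0)
    (hH : ∀ h ∈ H, z * h * z⁻¹ ∈ H) : False := by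
  classical
  let k : Subfield K := (algebraicClosure ℚ K).toSubfield
  have hk : ∀ x : K, x ∈ k ↔ IsAlgebraic ℚ x := fun x => mem_algebraicClosure_iff
  obtain ⟨W, hWfin, hW⟩ := exists_finite_span Tw k H hFG (fun h hh => (hk _).2 ((hτ h).1 (hHN hh)))
  obtain ⟨g, hg, hg0⟩ := hφ
  have hgN : g ∈ τ.ker := by
    rw [hτ]
    have h1 : g ∈ Tw.χ.ker := Abelianization.commutator_subset_ker Tw.χ hg
    rw [MonoidHom.mem_ker] at h1
    rw [h1, Units.val_one]
    exact isAlgebraic_one
  obtain ⟨n, hn⟩ := exists_conj_mem τ.ker H hHN z hgen hz hH g hgN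
  have hcomm : ∀ (m : ℕ), z ^ m * g * (z ^ m)⁻¹ ∈ commutator G := fun m =>
    (inferInstance : (commutator G).Normal).conj_mem g hg (z ^ m)
  have hval : ∀ m : ℕ, Tw.φ (z ^ m * g * (z ^ m)⁻¹) = (Tw.χ z : K) ^ m * Tw.φ g := by
    intro m
    rw [Tw.φ_conj _ _ hg, map_pow, Units.val_pow_eq_pow_val]
  have hmem : ∀ m : ℕ, z ^ (n + m) * g * (z ^ (n + m))⁻¹ ∈ H := by
    intro m
    induction m with
    | zero => simpa using hn
    | succ m ih =>
      have h2 := hH _ ih
      have h3 : z ^ (n + (m + 1)) * g * (z ^ (n + (m + 1)))⁻¹ =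
          z * (z ^ (n + m) * g * (z ^ (n + m))⁻¹) * z⁻¹ := by
        rw [← add_assoc, pow_succ' z (n + m), mul_inv_rev]
        group
      rw [h3]
      exact h2
  set c : K := (Tw.χ z : K) with hc
  have hc0 : c ≠ 0 := (Tw.χ z).ne_zero
  set w : K := c ^ n * Tw.φ g with hw
  have hw0 : w ≠ 0 := mul_ne_zero (pow_ne_zero _ hc0) hg0
  have hcW : ∀ m : ℕ, c ^ m * w ∈ W := by
    intro m
    have h4 := hW _ (hmem m) (hcomm (n + m))
    rw [hval] at h4
    have h5 : c ^ (n + m) * Tw.φ g = c ^ m * w := by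
      rw [hw, pow_add]; ring
    rwa [h5] at h4
  -- the powers of `c` lie in a finite dimensional space
  let V : Submodule k K := W.map (LinearMap.mulRight k w⁻¹)
  have hV : V.FG := (Module.Finite.iff_fg.1 hWfin).map _
  have hcV : ∀ m : ℕ, c ^ m ∈ V := by
    intro m
    refine ⟨c ^ m * w, hcW m, ?_⟩
    rw [LinearMap.mulRight_apply, mul_assoc, mul_inv_cancel₀ hw0, mul_one]
  have hadj : Subalgebra.toSubmodule (Algebra.adjoin k {c}) ≤ V := by
    rw [Algebra.adjoin_eq_span, Submodule.span_le]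
    intro x hx
    rw [SetLike.mem_coe, Submonoid.mem_closure_singleton] at hx
    obtain ⟨m, rfl⟩ := hx
    exact hcV m
  have hadjfg : (Subalgebra.toSubmodule (Algebra.adjoin k {c})).FG := by
    haveI : IsNoetherian k V := isNoetherian_of_fg_of_noetherian V hV
    exact isNoetherian_submodule.1 this _ hadj
  have hint : IsIntegral k c := IsIntegral.of_mem_of_fg _ hadjfg c (Algebra.self_mem_adjoin_singleton k c)
  have halgk : IsAlgebraic k c := hint.isAlgebraic
  haveI : Algebra.IsAlgebraic ℚ k := by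
    constructor
    intro x
    have h6 : IsAlgebraic ℚ (x : K) := (hk x).1 x.2
    exact (isAlgebraic_algHom_iff (k.subtype.toRatAlgHom : k →ₐ[ℚ] K) Subtype.val_injective).1 h6
  haveI : IsScalarTower ℚ k K := inferInstance
  have halg : IsAlgebraic ℚ c := halgk.restrictScalars ℚ
  have hzker : z ∈ τ.ker := (hτ z).2 halg
  have := hz 1 (by simpa using hzker)
  exact one_ne_zero this

theorem no_rank_one {G K : Type} [Group G] [Group.IsFinitelyPresented G] [Field K] [CharZero K] (hG : NoFree G)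
    (Tw : Twisted G K) (hφ : ∃ g ∈ commutator G, Tw.φ g ≠ 0) (τ : G →* Multiplicative ℤ)
    (hτ : ∀ g, g ∈ τ.ker ↔ IsAlgebraic ℚ (Tw.χ g : K)) (t : G) (ht : τ t = Multiplicative.ofAdd 1) : False := by
  obtain ⟨H, hFG, hHN, hgen, hH⟩ := exists_ascending hG τ t ht
  have hz : ∀ j : ℤ, t ^ j ∈ τ.ker → j = 0 := by
    intro j hj
    rw [MonoidHom.mem_ker, map_zpow, ht, ← ofAdd_zsmul, ← ofAdd_zero] at hj
    have := Multiplicative.ofAdd.injective hj
    simpa using this
  rcases hH with hH | hH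
  · exact no_rank_one_aux40 Tw hφ τ hτ H hFG hHN t hgen hz hH
  · refine no_rank_one_aux40 Tw hφ τ hτ H hFG hHN t⁻¹ ?_ ?_ ?_
    · rw [eq_top_iff, ← hgen, Subgroup.closure_le]
      intro x hx
      rcases hx with rfl | hx
      · have h1 : x⁻¹ ∈ Subgroup.closure (insert x⁻¹ (H : Set G)) := Subgroup.subset_closure (Set.mem_insert _ _)
        simpa using inv_mem h1
      · exact Subgroup.subset_closure (Set.mem_insert_of_mem _ hx)
    · intro j hj
      rw [inv_zpow'] at hj
      have := hz _ hj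
      simpa using this
    · intro h hh
      simpa using hH h hh

end Pool.Agent.Helper13.MS
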