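import Pool.Agent.Helper13.MS.Defs

/-!
# MS-HNF1: rank dichotomy

`N` is normal (contains `G'`).  `G / N` is a finitely generated torsion free abelian group, `≠ 1`; `Additive (G ⧸ N)` is a finite torsion free `ℤ`-module, so free of finite rank `r ≥ 1`
(`Module.free_of_finite_type_torsion_free'`); `r ≥ 2`: two basis elements; `r = 1`: an isomorphism with `ℤ`.
-/

set_option autoImplicit false

namespace Pool.Agent.Helper13.MS

theorem rank_dichotomy {G : Type} [Group G] [Group.FG G] (N : Subgroup G) (hN : commutator G ≤ N)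
    (htf : ∀ (g : G) (n : ℕ), 1 ≤ n → g ^ n ∈ N → g ∈ N) (hne : ∃ g, g ∉ N) :
    (∃ g₁ g₂ : G, ∀ a b : ℤ, g₁ ^ a * g₂ ^ b ∈ N → a = 0 ∧ b = 0) ∨
      ∃ (τ : G →* Multiplicative ℤ) (t : G), τ.ker = N ∧ τ t = Multiplicative.ofAdd 1 := by
  classical
  haveI hnorm : N.Normal := by
    constructor
    intro n hn g
    have h1 : g * n * g⁻¹ * n⁻¹ ∈ commutator G := by
      have := Subgroup.commutator_mem_commutator (H₁ := (⊤ : Subgroup G)) (H₂ := ⊤)
        (Subgroup.mem_top g) (Subgroup.mem_top n)
      rwa [commutatorElement_def] at this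
    have h2 := N.mul_mem (hN h1) hn
    rwa [inv_mul_cancel_right] at h2
  have hcomm : ∀ a b : G ⧸ N, a * b = b * a := by
    intro a b
    induction a using QuotientGroup.induction_on with
    | H a =>
      induction b using QuotientGroup.induction_on with
      | H b =>
        rw [← QuotientGroup.mk_mul, ← QuotientGroup.mk_mul]
        apply QuotientGroup.eq.2
        apply hN
        have h := Subgroup.commutator_mem_commutator (H₁ := (⊤ : Subgroup G)) (H₂ := ⊤)
          (Subgroup.mem_top b⁻¹) (Subgroup.mem_top a⁻¹)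
        rw [commutatorElement_def] at h
        have e : (a * b)⁻¹ * (b * a) = b⁻¹ * a⁻¹ * b⁻¹⁻¹ * a⁻¹⁻¹ := by group
        rw [e]
        exact h
  letI cg : CommGroup (G ⧸ N) := { (inferInstance : Group (G ⧸ N)) with mul_comm := hcomm }
  have hfg : Group.FG (G ⧸ N) := QuotientGroup.fg N
  haveI hfin : Module.Finite ℤ (Additive (G ⧸ N)) := by
    rw [Module.Finite.iff_addGroup_fg]
    infer_instance
  have hz : ∀ (r : ℤ) (z : Additive (G ⧸ N)), r ≠ 0 → r • z = 0 → z = 0 := by
    intro r z hr hrz
    have h1 : r.natAbs • z = 0 := by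
      rcases Int.natAbs_eq r with h | h
      · rw [h] at hrz
        rw [← natCast_zsmul]
        exact hrz
      · rw [h, neg_smul, neg_eq_zero] at hrz
        rw [← natCast_zsmul]
        exact hrz
    obtain ⟨g, hg⟩ := QuotientGroup.mk_surjective (s := N) z.toMul
    have h2 : (z.toMul) ^ r.natAbs = 1 := by
      have := congrArg Additive.toMul h1
      rwa [toMul_nsmul, toMul_zero] at this
    rw [← hg, ← QuotientGroup.mk_pow, QuotientGroup.eq_one_iff] at h2
    have h3 := htf g _ (Nat.one_le_iff_ne_zero.2 (Int.natAbs_ne_zero.2 hr)) h2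
    rw [← QuotientGroup.eq_one_iff, hg] at h3
    exact Additive.toMul.injective h3
  haveI htfm : Module.IsTorsionFree ℤ (Additive (G ⧸ N)) := by
    constructor
    intro r hr x y hxy
    have hr0 : r ≠ 0 := hr.ne_zero
    have h1 : r • (x - y) = 0 := by
      rw [smul_sub]
      exact sub_eq_zero.2 hxy
    exact sub_eq_zero.1 (hz r _ hr0 h1)
  haveI hfree : Module.Free ℤ (Additive (G ⧸ N)) := Module.free_of_finite_type_torsion_free'
  let b := Module.Free.chooseBasis ℤ (Additive (G ⧸ N))
  have lift : ∀ z : Additive (G ⧸ N), ∃ g : G, Additive.ofMul (g : G ⧸ N) = z := by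
    intro z
    obtain ⟨g, hg⟩ := QuotientGroup.mk_surjective (s := N) z.toMul
    exact ⟨g, by rw [hg]; rfl⟩
  by_cases hs : Subsingleton (Module.Free.ChooseBasisIndex ℤ (Additive (G ⧸ N)))
  · right
    have hne' : Nonempty (Module.Free.ChooseBasisIndex ℤ (Additive (G ⧸ N))) := by
      by_contra hemp
      rw [not_nonempty_iff] at hemp
      obtain ⟨g, hg⟩ := hne
      apply hg
      rw [← QuotientGroup.eq_one_iff]
      have h1 : b.repr (Additive.ofMul (g : G ⧸ N)) = b.repr 0 := Subsingleton.elim _ _
      have h2 := b.repr.injective h1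
      exact Additive.ofMul.injective h2
    obtain ⟨i⟩ := hne'
    let f : Additive (G ⧸ N) →+ ℤ := (b.coord i).toAddMonoidHom
    let τ : G →* Multiplicative ℤ := (AddMonoidHom.toMultiplicativeRight f).comp (QuotientGroup.mk' N)
    obtain ⟨t, ht⟩ := lift (b i)
    have hτ : ∀ g : G, τ g = Multiplicative.ofAdd (b.repr (Additive.ofMul (g : G ⧸ N)) i) := fun g => rfl
    refine ⟨τ, t, ?_, ?_⟩
    · ext g
      rw [MonoidHom.mem_ker, hτ]
      constructor
      · intro h
        have h1 : b.repr (Additive.ofMul (g : G ⧸ N)) i = 0 := h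
        have h2 : b.repr (Additive.ofMul (g : G ⧸ N)) = b.repr 0 := by
          ext k
          rw [Subsingleton.elim k i, h1, map_zero]
          rfl
        have h3 := b.repr.injective h2
        rw [← QuotientGroup.eq_one_iff]
        exact Additive.ofMul.injective h3
      · intro h
        rw [← QuotientGroup.eq_one_iff] at h
        rw [h]
        have : Additive.ofMul (1 : G ⧸ N) = 0 := rfl
        rw [this, map_zero]
        rfl
    · rw [hτ, ht, Module.Basis.repr_self, Finsupp.single_eq_same]
  · left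
    rw [not_subsingleton_iff_nontrivial] at hs
    obtain ⟨i, j, hij⟩ := exists_pair_ne (Module.Free.ChooseBasisIndex ℤ (Additive (G ⧸ N)))
    obtain ⟨g₁, h₁⟩ := lift (b i)
    obtain ⟨g₂, h₂⟩ := lift (b j)
    refine ⟨g₁, g₂, ?_⟩
    intro x y hxy
    rw [← QuotientGroup.eq_one_iff, QuotientGroup.mk_mul, QuotientGroup.mk_zpow,
      QuotientGroup.mk_zpow] at hxy
    have h3 : x • b i + y • b j = 0 := by
      rw [← h₁, ← h₂, ← ofMul_zpow, ← ofMul_zpow, ← ofMul_mul, hxy]
      rfl
    have h4 := congrArg b.repr h3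
    rw [map_add, map_smul, map_smul, Module.Basis.repr_self, Module.Basis.repr_self, map_zero] at h4
    have h5 := DFunLike.congr_fun h4 i
    have h6 := DFunLike.congr_fun h4 j
    simp [hij, hij.symm] at h5 h6
    exact ⟨h5, h6⟩

end Pool.Agent.Helper13.MS
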