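import Pool.Agent.Helper13.MS.HNE
import Pool.Agent.Helper13.MS.HNF1

/-!
# MS-HNF: two independent directions

Apply `rank_dichotomy` to `N = {g | χ g algebraic over Q}` (a subgroup containing `G'`: `χ g = 1` for `g ∈ G'`; `χ(g)^n` algebraic, `n ≥ 1`, implies `χ(g)` algebraic; `t ∉ N`); the second alternative is
excluded by `no_rank_one`.  (`G` is finitely generated: a finitely presented group is.)
-/

set_option autoImplicit false

namespace Pool.Agent.Helper13.MS

/-- the elements at which the character is algebraic -/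
private def algSub_helper30 {G K : Type} [Group G] [Field K] [CharZero K] (χ : G →* Kˣ) : Subgroup G where
  carrier := {g | IsAlgebraic ℚ (χ g : K)}
  mul_mem' := by
    intro a b ha hb
    simp only [Set.mem_ofPred_eq, map_mul, Units.val_mul] at *
    exact ha.mul hb
  one_mem' := by
    simp only [Set.mem_ofPred_eq, map_one, Units.val_one]
    exact isAlgebraic_one
  inv_mem' := by
    intro a ha
    simp only [Set.mem_ofPred_eq, map_inv, Units.val_inv_eq_inv_val] at *
    exact ha.inv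

theorem two_directions {G K : Type} [Group G] [Group.IsFinitelyPresented G] [Field K] [CharZero K] (hG : NoFree G)
    (Tw : Twisted G K) (hφ : ∃ g ∈ commutator G, Tw.φ g ≠ 0) (t : G) (ht : Transcendental ℚ (Tw.χ t : K)) :
    ∃ g₁ g₂ : G, ∀ a b : ℤ, (a ≠ 0 ∨ b ≠ 0) → Transcendental ℚ ((Tw.χ g₁ : K) ^ a * (Tw.χ g₂ : K) ^ b) := by
  have hmem : ∀ g, g ∈ algSub_helper30 Tw.χ ↔ IsAlgebraic ℚ (Tw.χ g : K) := fun g => Iff.rfl
  have hFG : Group.FG G := by
    obtain ⟨n, φ, hφs, -⟩ := Group.IsFinitelyPresented.out (G := G)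
    exact Group.fg_of_surjective hφs
  have h1 : commutator G ≤ algSub_helper30 Tw.χ := by
    intro g hg
    have h1 : Tw.χ g = 1 := Abelianization.commutator_subset_ker Tw.χ hg
    rw [hmem, h1]
    simpa using (isAlgebraic_one : IsAlgebraic ℚ (1 : K))
  have h2 : ∀ (g : G) (n : ℕ), 1 ≤ n → g ^ n ∈ algSub_helper30 Tw.χ → g ∈ algSub_helper30 Tw.χ := by
    intro g n hn hg
    rw [hmem] at *
    rw [map_pow, Units.val_pow_eq_pow_val] at hg
    exact hg.of_pow hn
  have h3 : ∃ g, g ∉ algSub_helper30 Tw.χ := ⟨t, fun h => ht h⟩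
  rcases rank_dichotomy (algSub_helper30 Tw.χ) h1 h2 h3 with ⟨g₁, g₂, h⟩ | ⟨τ, z, hτ, hz⟩
  · refine ⟨g₁, g₂, fun a b hab halg => ?_⟩
    have hin : g₁ ^ a * g₂ ^ b ∈ algSub_helper30 Tw.χ := by
      rw [hmem]
      simpa using halg
    obtain ⟨ha, hb⟩ := h a b hin
    rcases hab with h0 | h0
    · exact h0 ha
    · exact h0 hb
  · exact (no_rank_one hG Tw hφ τ (fun g => by rw [hτ]; exact hmem g) z hz).elim

end Pool.Agent.Helper13.MS
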