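import Pool.Agent.Helper13.MS.Defs

/-!
# MS-MOA2: a functional on a torsion free module

`P = Module.annihilator R M` is prime (if `r s M = 0` and `r` is injective then `s M = 0`; `1 ∉ P`), `M` is a torsion free module over the domain `D = R ⧸ P`, `K = FractionRing D`.
`M → LocalizedModule (nonZeroDivisors D) M` is injective, the target is a `K`-vector space (module over `Localization (nonZeroDivisors D)`); choose `m ≠ 0` and a `K`-linear functional with value `≠ 0` at the
image of `m`.  `φ` = the composition, `ψ : R → D → K`.
-/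

set_option autoImplicit false

namespace Pool.Agent.Helper13.MS

theorem functional_of_torsionfree (R M : Type) [CommRing R] [AddCommGroup M] [Module R M] (hM : ∃ m : M, m ≠ 0)
    (h : ∀ r : R, (∀ m : M, r • m = 0) ∨ (∀ m : M, r • m = 0 → m = 0)) :
    ∃ (K : Type) (_ : Field K) (ψ : R →+* K) (φ : M →+ K),
      (∀ r m, φ (r • m) = ψ r * φ m) ∧ (∃ m, φ m ≠ 0) ∧ ∀ r, ψ r = 0 ↔ ∀ m : M, r • m = 0 := by
  classical
  obtain ⟨m₀, hm₀⟩ := hM
  have hmem : ∀ r : R, r ∈ Module.annihilator R M ↔ ∀ m : M, r • m = 0 := fun r => Module.mem_annihilator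
  have hprime : (Module.annihilator R M).IsPrime := by
    constructor
    · intro htop
      have h1 : (1 : R) ∈ Module.annihilator R M := by rw [htop]; trivial
      exact hm₀ (by have := (hmem 1).1 h1 m₀; rwa [one_smul] at this)
    · intro r s hrs
      rcases h r with h1 | h1
      · exact Or.inl ((hmem r).2 h1)
      · right
        rw [hmem]
        intro m
        apply h1
        rw [← mul_smul]
        exact (hmem _).1 hrs m
  let D := R ⧸ Module.annihilator R M
  letI hD : Module D M := Module.quotientAnnihilator
  have hsm : ∀ (r : R) (m : M), (Ideal.Quotient.mk (Module.annihilator R M) r : D) • m = r • m :=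
    fun r m => rfl
  have hdom : IsDomain D := (Ideal.Quotient.isDomain_iff_prime _).2 hprime
  let S := nonZeroDivisors D
  let K := FractionRing D
  letI fK : Field K := inferInstance
  let V := LocalizedModule S M
  letI hV : Module K V := (inferInstance : Module (Localization S) (LocalizedModule S M))
  let L : M →ₗ[D] V := LocalizedModule.mkLinearMap S M
  have hinj : L m₀ ≠ 0 := by
    intro h0
    have h1 : L m₀ = L 0 := by rw [h0, map_zero]
    obtain ⟨c, hc⟩ := (IsLocalizedModule.eq_iff_exists S L).1 h1
    rw [smul_zero] at hc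
    obtain ⟨r, hr⟩ := Ideal.Quotient.mk_surjective (c : D)
    have hc' : r • m₀ = 0 := by
      rw [← hsm, hr]
      exact hc
    rcases h r with h2 | h2
    · have h3 : (c : D) = 0 := by
        rw [← hr]
        exact Ideal.Quotient.eq_zero_iff_mem.2 ((hmem r).2 h2)
      exact nonZeroDivisors.coe_ne_zero c h3
    · exact hm₀ (h2 m₀ hc')
  obtain ⟨f, hf⟩ : ∃ f : Module.Dual K V, f (L m₀) ≠ 0 := by
    by_contra hcon
    push Not at hcon
    exact hinj ((Module.forall_dual_apply_eq_zero_iff K (L m₀)).1 hcon)
  have hLs : ∀ (d : D) (m : M), L (d • m) = (algebraMap D K d) • L m := by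
    intro d m
    rw [map_smul]
    exact (algebraMap_smul K d (L m)).symm
  refine ⟨K, fK, (algebraMap D K).comp (Ideal.Quotient.mk (Module.annihilator R M)),
    f.toAddMonoidHom.comp L.toAddMonoidHom, ?_, ⟨m₀, hf⟩, ?_⟩
  · intro r m
    show f (L (r • m)) = algebraMap D K (Ideal.Quotient.mk (Module.annihilator R M) r) * f (L m)
    rw [← hsm, hLs, map_smul, smul_eq_mul]
  · intro r
    rw [← hmem]
    show algebraMap D K (Ideal.Quotient.mk (Module.annihilator R M) r) = 0 ↔ _
    rw [← Ideal.Quotient.eq_zero_iff_mem]
    constructor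
    · intro h0
      exact (IsFractionRing.injective D K) (by rw [h0, map_zero])
    · intro h0
      rw [h0, map_zero]

end Pool.Agent.Helper13.MS
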