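import Pool.Agent.Helper13.MS.MOA1
import Pool.Agent.Helper13.MS.MOA2

/-!
# MS-MOA: a functional on an infinite dimensional module

`R` is noetherian (`Algebra.FiniteType.isNoetherianRing ℚ R`), so `M` is.  `exists_quotient`, `functional_of_torsionfree` for `M / N` (nonzero because infinite dimensional); compose `φ` with `M → M / N`.
`K` has characteristic zero since `ℚ → R → K` is a ring homomorphism.
Transcendence: suppose all `ψ r`, `r ∈ T`, are algebraic over `Q`.  `T` generates `R`, so all `ψ r` are algebraic, `ψ(R) ⊆ K` is an integral `Q`-algebra of finite type, so finite dimensional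
(`Algebra.IsIntegral.finite` / `FiniteType` + integral).  `M / N` is a finitely generated module over `R ⧸ ker ψ ≅ ψ(R)` (`ker ψ` annihilates it), so finite dimensional over `Q`: contradiction.
-/

set_option autoImplicit false

namespace Pool.Agent.Helper13.MS

theorem exists_functional (R M : Type) [CommRing R] [Algebra ℚ R] [Algebra.FiniteType ℚ R] [AddCommGroup M] [Module R M]
    [Module ℚ M] [IsScalarTower ℚ R M] [Module.Finite R M] (hM : ¬ FiniteDimensional ℚ M) (T : Set R)
    (hT : Algebra.adjoin ℚ T = ⊤) :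
    ∃ (K : Type) (_ : Field K) (_ : CharZero K) (ψ : R →+* K) (φ : M →+ K),
      (∀ r m, φ (r • m) = ψ r * φ m) ∧ (∃ m, φ m ≠ 0) ∧ ∃ r ∈ T, Transcendental ℚ (ψ r) := by
  haveI : IsNoetherianRing R := Algebra.FiniteType.isNoetherianRing ℚ R
  haveI : IsNoetherian R M := isNoetherian_of_isNoetherianRing_of_finite R M
  obtain ⟨N, hN, hN2⟩ := exists_quotient R M hM
  have hne : ∃ m : M ⧸ N, m ≠ 0 := by
    by_contra hcon
    push Not at hcon
    haveI : Subsingleton (M ⧸ N) := ⟨fun a b => by rw [hcon a, hcon b]⟩
    exact hN inferInstance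
  obtain ⟨K, instK, ψ, φ, h1, h2, h3⟩ := functional_of_torsionfree R (M ⧸ N) hne hN2
  haveI : CharZero K := charZero_of_injective_ringHom (ψ.comp (algebraMap ℚ R)).injective
  refine ⟨K, instK, inferInstance, ψ, φ.comp N.mkQ.toAddMonoidHom, ?_, ?_, ?_⟩
  · intro r m
    have := h1 r (N.mkQ m)
    simpa using this
  · obtain ⟨m, hm⟩ := h2
    obtain ⟨m', rfl⟩ := N.mkQ_surjective m
    exact ⟨m', by simpa using hm⟩
  · by_contra hcon
    push Not at hcon
    apply hN
    have halgT : ∀ r ∈ T, IsAlgebraic ℚ (ψ r) := by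
      intro r hr
      have := hcon r hr
      rwa [Transcendental, not_not] at this
    let ψA : R →ₐ[ℚ] K := ψ.toRatAlgHom
    have hψA : ∀ r, ψA r = ψ r := fun r => rfl
    have hint : ∀ r : R, IsIntegral ℚ (ψA r) := by
      intro r
      have hr : r ∈ Algebra.adjoin ℚ T := by rw [hT]; exact Algebra.mem_top
      induction hr using Algebra.adjoin_induction with
      | mem x hx => exact (halgT x hx).isIntegral
      | algebraMap q => rw [AlgHom.commutes]; exact isIntegral_algebraMap
      | add x y _ _ hx hy => rw [map_add]; exact hx.add hy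
      | mul x y _ _ hx hy => rw [map_mul]; exact hx.mul hy
    have hfin : Module.Finite ℚ (LinearMap.range ψA.toLinearMap) := by
      obtain ⟨S, hS⟩ := (inferInstance : Algebra.FiniteType ℚ R).out
      have h4 : (Subalgebra.toSubmodule (Algebra.adjoin ℚ (ψA '' (S : Set R)))).FG := by
        apply fg_adjoin_of_finite (S.finite_toSet.image _)
        rintro x ⟨r, _, rfl⟩
        exact hint r
      have h5 : Subalgebra.toSubmodule (Algebra.adjoin ℚ (ψA '' (S : Set R))) = LinearMap.range ψA.toLinearMap := by
        rw [← AlgHom.map_adjoin, hS, Algebra.map_top]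
        rfl
      rw [h5] at h4
      exact Module.Finite.iff_fg.mpr h4
    let L : (M ⧸ N) → (R →ₗ[ℚ] (M ⧸ N)) := fun m => (LinearMap.toSpanSingleton R (M ⧸ N) m).restrictScalars ℚ
    have hL : ∀ m r, L m r = r • m := fun m r => rfl
    have hker : ∀ m, LinearMap.ker ψA.toLinearMap ≤ LinearMap.ker (L m) := by
      intro m r hr
      rw [LinearMap.mem_ker] at hr ⊢
      rw [hL]
      exact (h3 r).1 hr m
    have hquot : Module.Finite ℚ (R ⧸ LinearMap.ker ψA.toLinearMap) :=
      Module.Finite.equiv ψA.toLinearMap.quotKerEquivRange.symm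
    have hrange : ∀ m, (LinearMap.range (L m)).FG := by
      intro m
      have h6 : LinearMap.range ((LinearMap.ker ψA.toLinearMap).liftQ (L m) (hker m)) = LinearMap.range (L m) :=
        Submodule.range_liftQ _ _ _
      rw [← h6]
      exact Module.Finite.iff_fg.mp inferInstance
    obtain ⟨S, hS⟩ := (inferInstance : Module.Finite R (M ⧸ N)).fg_top
    have htop : (⊤ : Submodule ℚ (M ⧸ N)) = ⨆ s ∈ S, LinearMap.range (L s) := by
      symm
      rw [eq_top_iff]
      intro x _
      have hx : x ∈ Submodule.span R (S : Set (M ⧸ N)) := by rw [hS]; trivial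
      obtain ⟨f, _, hf⟩ := Submodule.mem_span_finset.mp hx
      rw [← hf]
      refine Submodule.sum_mem _ fun s hs => ?_
      exact Submodule.mem_iSup_of_mem s (Submodule.mem_iSup_of_mem hs ⟨f s, rfl⟩)
    refine ⟨?_⟩
    rw [htop]
    exact Submodule.fg_biSup S _ fun s _ => hrange s

end Pool.Agent.Helper13.MS
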