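import Pool.Agent.Helper13.MS.Defs

/-!
# MS-MOA1: just infinite dimensional quotients

The set of submodules `N` with `M / N` infinite dimensional over `Q` contains `⊥`; let `N` be a maximal one (`M` noetherian); so every submodule `N' > N` has `M / N'` finite dimensional.
Let `r ∈ R`, `M' = M / N`.  If `r M' ≠ 0` then `M' / r M'` is finite dimensional; if also `ker r ≠ 0` then `M' / ker r ≅ r M'` is finite dimensional, so `M'` is finite dimensional: contradiction.
-/

set_option autoImplicit false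

namespace Pool.Agent.Helper13.MS

theorem exists_quotient (R M : Type) [CommRing R] [Algebra ℚ R] [AddCommGroup M] [Module R M] [IsNoetherian R M]
    [Module ℚ M] [IsScalarTower ℚ R M] (hM : ¬ FiniteDimensional ℚ M) :
    ∃ N : Submodule R M, ¬ FiniteDimensional ℚ (M ⧸ N) ∧
      ∀ r : R, (∀ m : M ⧸ N, r • m = 0) ∨ (∀ m : M ⧸ N, r • m = 0 → m = 0) := by
  classical
  have hbot : ¬ FiniteDimensional ℚ (M ⧸ (⊥ : Submodule R M)) := by
    intro h
    exact hM (Module.Finite.equiv ((Submodule.quotEquivOfEqBot (⊥ : Submodule R M) rfl).restrictScalars ℚ))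
  obtain ⟨N, hN, hmax⟩ := WellFounded.has_min (wellFounded_gt (α := Submodule R M))
    {N : Submodule R M | ¬ FiniteDimensional ℚ (M ⧸ N)} ⟨⊥, hbot⟩
  have hmax2 : ∀ N' : Submodule R M, N < N' → FiniteDimensional ℚ (M ⧸ N') := by
    intro N' hlt
    by_contra hcon
    exact hmax N' hcon hlt
  refine ⟨N, hN, fun r => ?_⟩
  by_contra hcon
  push Not at hcon
  obtain ⟨⟨a, ha⟩, b, hb, hb0⟩ := hcon
  obtain ⟨a', rfl⟩ := N.mkQ_surjective a
  obtain ⟨b', rfl⟩ := N.mkQ_surjective b
  obtain ⟨f, hf⟩ : ∃ f : (M ⧸ N) →ₗ[R] (M ⧸ N), ∀ m, f m = r • m := ⟨LinearMap.lsmul R (M ⧸ N) r, fun m => rfl⟩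
  obtain ⟨g, hg⟩ : ∃ g : M →ₗ[R] (M ⧸ N), g = f ∘ₗ N.mkQ := ⟨_, rfl⟩
  obtain ⟨h, hh⟩ : ∃ h : M →ₗ[R] ((M ⧸ N) ⧸ LinearMap.range f), h = (LinearMap.range f).mkQ ∘ₗ N.mkQ := ⟨_, rfl⟩
  have hrange : LinearMap.range g = LinearMap.range f := by
    rw [hg, LinearMap.range_comp, Submodule.range_mkQ, Submodule.map_top]
  have hsurj : Function.Surjective h := by
    rw [hh]
    exact (Submodule.mkQ_surjective _).comp N.mkQ_surjective
  have hK1 : N < LinearMap.ker g := by
    refine lt_of_le_of_ne ?_ ?_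
    · intro x hx
      rw [LinearMap.mem_ker, hg, LinearMap.comp_apply, Submodule.mkQ_apply, (Submodule.Quotient.mk_eq_zero N).mpr hx,
        map_zero]
    · intro heq
      apply hb0
      have h1 : b' ∈ LinearMap.ker g := by
        rw [LinearMap.mem_ker, hg, LinearMap.comp_apply, hf]
        exact hb
      rw [← heq] at h1
      exact (Submodule.Quotient.mk_eq_zero N).mpr h1
  have hK2 : N < LinearMap.ker h := by
    refine lt_of_le_of_ne ?_ ?_
    · intro x hx
      have h1 : N.mkQ x = 0 := (Submodule.Quotient.mk_eq_zero N).mpr hx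
      rw [LinearMap.mem_ker, hh, LinearMap.comp_apply, h1, map_zero]
    · intro heq
      apply ha
      have h1 : r • a' ∈ LinearMap.ker h := by
        rw [LinearMap.mem_ker, hh, LinearMap.comp_apply, Submodule.mkQ_apply (LinearMap.range f),
          Submodule.Quotient.mk_eq_zero, map_smul]
        exact ⟨N.mkQ a', hf _⟩
      rw [← heq] at h1
      rw [← map_smul]
      exact (Submodule.Quotient.mk_eq_zero N).mpr h1
  have F1 := hmax2 _ hK1
  have F2 := hmax2 _ hK2
  have F3 : Module.Finite ℚ (LinearMap.range g) :=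
    Module.Finite.equiv ((LinearMap.quotKerEquivRange g).restrictScalars ℚ)
  have F4 : Module.Finite ℚ ((M ⧸ N) ⧸ LinearMap.range f) :=
    Module.Finite.equiv ((LinearMap.quotKerEquivOfSurjective h hsurj).restrictScalars ℚ)
  rw [hrange] at F3
  have F5 : Module.Finite ℚ ((LinearMap.range f).restrictScalars ℚ) := F3
  have F6 : Module.Finite ℚ ((M ⧸ N) ⧸ (LinearMap.range f).restrictScalars ℚ) :=
    Module.Finite.equiv (Submodule.Quotient.restrictScalarsEquiv ℚ (LinearMap.range f)).symm
  exact hN (Module.Finite.of_submodule_quotient ((LinearMap.range f).restrictScalars ℚ))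

end Pool.Agent.Helper13.MS
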