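import Pool.Agent.Helper13.MS.MOA

/-!
# MS-MOB2: the twisted homomorphism from the representation

The `ρ g` commute with each other (`ρ ⁅g, h⁆ = 1`), so the subalgebra `R = Algebra.adjoin ℚ (Set.range ρ)` of `Module.End ℚ M` is commutative (`Algebra.adjoinCommRingOfComm`); it is of finite type: generated by
the `ρ s`, `ρ s⁻¹` for finitely many generators `s` of `G`.  `M` is an `R`-module (Module.End acts on `M`), and finitely generated over `R` by the `cl ⁅s, s'⁆`: `G'` is the normal closure of the `⁅s, s'⁆`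
(`s, s'` in the finite generating set), so the subgroup of the `a ∈ G'` with `cl a` in the `R`-submodule `W` spanned by them is all of `G'` (it is normal by `h2`), and `span ℚ (cl '' G') = ⊤`.
(Alternatively `R = MonoidAlgebra ℚ (Abelianization G)`.)
`exists_functional` with `T = {ρ g}`: `K, ψ, φ₀`; put `χ g = ψ (ρ g)` (a unit with inverse `ψ (ρ g⁻¹)`) and `φ g = φ₀ (cl g)`.  `φ ≠ 0` on `G'`: otherwise `φ₀` (additive, hence `ℚ`-linear) vanishes on the span of
`cl '' G'`, i.e. on `M`.
-/

set_option autoImplicit false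

namespace Pool.Agent.Helper13.MS

open scoped commutatorElement

/-- the submodule spanned by the classes of the commutators of generators contains all classes -/
private theorem cl_mem_helper30 (G : Type) [Group G] (R M : Type) [CommRing R] [AddCommGroup M] [Module R M]
    (r : G → R) (cl : G → M)
    (h1 : ∀ a ∈ commutator G, ∀ b ∈ commutator G, cl (a * b) = cl a + cl b)
    (h2 : ∀ g, ∀ a ∈ commutator G, cl (g * a * g⁻¹) = r g • cl a)
    (S : Set G) (hS : Subgroup.closure S = ⊤) (W : Submodule R M)
    (hW : ∀ s ∈ S, ∀ s' ∈ S, cl ⁅s, s'⁆ ∈ W) : ∀ a ∈ commutator G, cl a ∈ W := by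
  have hone : cl 1 = 0 := by
    have h := h1 1 (one_mem _) 1 (one_mem _)
    rw [mul_one] at h
    exact left_eq_add.mp h
  let P : Subgroup G :=
    { carrier := {a | a ∈ commutator G ∧ cl a ∈ W}
      mul_mem' := by
        rintro a b ⟨ha, ha'⟩ ⟨hb, hb'⟩
        exact ⟨mul_mem ha hb, by rw [h1 a ha b hb]; exact W.add_mem ha' hb'⟩
      one_mem' := ⟨one_mem _, by rw [hone]; exact W.zero_mem⟩
      inv_mem' := by
        rintro a ⟨ha, ha'⟩
        refine ⟨inv_mem ha, ?_⟩
        have h := h1 a ha a⁻¹ (inv_mem ha)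
        rw [mul_inv_cancel, hone] at h
        rw [eq_neg_of_add_eq_zero_right h.symm]
        exact W.neg_mem ha' }
  have hPn : P.Normal := by
    constructor
    rintro a ⟨ha, ha'⟩ g
    refine ⟨?_, ?_⟩
    · exact (inferInstance : (commutator G).Normal).conj_mem a ha g
    · rw [h2 g a ha]
      exact W.smul_mem _ ha'
  have hcomm : ∀ s ∈ S, ∀ s' ∈ S, Commute (QuotientGroup.mk' P s) (QuotientGroup.mk' P s') := by
    intro s hs s' hs'
    rw [← commutatorElement_eq_one_iff_commute, ← map_commutatorElement, QuotientGroup.mk'_apply,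
      QuotientGroup.eq_one_iff]
    refine ⟨?_, hW s hs s' hs'⟩
    exact Subgroup.commutator_mem_commutator (Subgroup.mem_top _) (Subgroup.mem_top _)
  have hstep : ∀ s ∈ S, ∀ g : G, Commute (QuotientGroup.mk' P s) (QuotientGroup.mk' P g) := by
    intro s hs g
    have hg : g ∈ Subgroup.closure S := by rw [hS]; exact Subgroup.mem_top _
    induction hg using Subgroup.closure_induction with
    | mem x hx => exact hcomm s hs x hx
    | one => rw [map_one]; exact Commute.one_right _
    | mul x y _ _ hx hy => rw [map_mul]; exact hx.mul_right hy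
    | inv x _ hx => rw [map_inv]; exact hx.inv_right
  have hall : ∀ g g' : G, Commute (QuotientGroup.mk' P g) (QuotientGroup.mk' P g') := by
    intro g g'
    have hg : g ∈ Subgroup.closure S := by rw [hS]; exact Subgroup.mem_top _
    induction hg using Subgroup.closure_induction with
    | mem x hx => exact hstep x hx g'
    | one => rw [map_one]; exact Commute.one_left _
    | mul x y _ _ hx hy => rw [map_mul]; exact hx.mul_left hy
    | inv x _ hx => rw [map_inv]; exact hx.inv_left
  have hle : commutator G ≤ P := by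
    rw [commutator_def, Subgroup.commutator_le]
    intro g _ g' _
    have h := hall g g'
    rw [← commutatorElement_eq_one_iff_commute, ← map_commutatorElement, QuotientGroup.mk'_apply,
      QuotientGroup.eq_one_iff] at h
    exact h
  intro a ha
  exact (hle ha).2

theorem twisted_of_rep (G : Type) [Group G] [Group.FG G] (M : Type) [AddCommGroup M] [Module ℚ M] (hM : ¬ FiniteDimensional ℚ M)
    (ρ : G →* Module.End ℚ M) (cl : G → M)
    (h1 : ∀ a ∈ commutator G, ∀ b ∈ commutator G, cl (a * b) = cl a + cl b)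
    (h2 : ∀ g, ∀ a ∈ commutator G, cl (g * a * g⁻¹) = ρ g (cl a))
    (h3 : ∀ g ∈ commutator G, ρ g = 1) (h4 : Submodule.span ℚ (cl '' (commutator G : Set G)) = ⊤) :
    ∃ (K : Type) (_ : Field K) (_ : CharZero K) (Tw : Twisted G K), (∃ g ∈ commutator G, Tw.φ g ≠ 0) ∧
      ∃ t : G, Transcendental ℚ (Tw.χ t : K) := by
  classical
  let A : Type := Abelianization G
  let ρ' : A →* Module.End ℚ M := QuotientGroup.lift (commutator G) ρ (fun g hg => h3 g hg)
  have hρ' : ∀ g : G, ρ' (Abelianization.of g) = ρ g := fun g => rfl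
  let L : MonoidAlgebra ℚ A →ₐ[ℚ] Module.End ℚ M := MonoidAlgebra.lift ℚ (Module.End ℚ M) A ρ'
  let : Module (MonoidAlgebra ℚ A) M := Module.compHom M (L : MonoidAlgebra ℚ A →+* Module.End ℚ M)
  have hsm : ∀ (r : MonoidAlgebra ℚ A) (m : M), r • m = L r m := fun r m => rfl
  have : IsScalarTower ℚ (MonoidAlgebra ℚ A) M := by
    constructor
    intro q r m
    rw [hsm, hsm, map_smul]
    rfl
  let of' : G →* MonoidAlgebra ℚ A := (MonoidAlgebra.of ℚ A).comp Abelianization.of
  have hof : ∀ (g : G) (m : M), of' g • m = ρ g m := by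
    intro g m
    rw [hsm]
    have : L (of' g) = ρ g := by
      show L (MonoidAlgebra.of ℚ A (Abelianization.of g)) = ρ g
      rw [MonoidAlgebra.lift_of]
      exact hρ' g
    rw [this]
  have : Group.FG A := Group.fg_of_surjective (f := (Abelianization.of : G →* Abelianization G))
    QuotientGroup.mk_surjective
  have : Monoid.FG A := Group.fg_iff_monoid_fg.mp inferInstance
  have : Algebra.FiniteType ℚ (MonoidAlgebra ℚ A) := inferInstance
  obtain ⟨S, hS⟩ := Group.FG.out (G := G)
  let T : Set M := Set.image2 (fun s s' => cl ⁅s, s'⁆) (S : Set G) (S : Set G)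
  have hTfin : T.Finite := Set.Finite.image2 _ S.finite_toSet S.finite_toSet
  let W : Submodule (MonoidAlgebra ℚ A) M := Submodule.span (MonoidAlgebra ℚ A) T
  have hWmem : ∀ a ∈ commutator G, cl a ∈ W :=
    cl_mem_helper30 G (MonoidAlgebra ℚ A) M of' cl h1 (fun g a ha => by rw [hof, h2 g a ha]) S hS W
      (fun s hs s' hs' => Submodule.subset_span ⟨s, hs, s', hs', rfl⟩)
  have hWtop : W = ⊤ := by
    have hle : Submodule.span ℚ (cl '' (commutator G : Set G)) ≤ W.restrictScalars ℚ := by
      rw [Submodule.span_le]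
      rintro _ ⟨a, ha, rfl⟩
      exact hWmem a ha
    rw [h4] at hle
    rw [eq_top_iff]
    intro m _
    exact hle (Submodule.mem_top (x := m))
  have : Module.Finite (MonoidAlgebra ℚ A) M := by
    rw [Module.finite_def, ← hWtop]
    exact Submodule.fg_span hTfin
  have hgen : Algebra.adjoin ℚ (Set.range of') = ⊤ := by
    rw [eq_top_iff]
    intro x _
    induction x using MonoidAlgebra.induction_on with
    | of a =>
      obtain ⟨g, rfl⟩ := QuotientGroup.mk_surjective a
      exact Algebra.subset_adjoin ⟨g, rfl⟩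
    | add a b ha hb => exact add_mem (ha trivial) (hb trivial)
    | smul r a ha => exact Subalgebra.smul_mem _ (ha trivial) r
  obtain ⟨K, hK, hK0, ψ, φ₀, hφ₀, hne, r, ⟨t, rfl⟩, htr⟩ :=
    exists_functional (MonoidAlgebra ℚ A) M hM (Set.range of') hgen
  let := hK
  have := hK0
  let χ : G →* Kˣ := (((ψ : MonoidAlgebra ℚ A →* K)).comp of').toHomUnits
  have hχ : ∀ g, (χ g : K) = ψ (of' g) := fun g => rfl
  refine ⟨K, hK, hK0, ⟨χ, fun g => φ₀ (cl g), ?_, ?_⟩, ?_, t, ?_⟩
  · intro a ha b hb
    show φ₀ (cl (a * b)) = φ₀ (cl a) + φ₀ (cl b)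
    rw [h1 a ha b hb, map_add]
  · intro g a ha
    show φ₀ (cl (g * a * g⁻¹)) = (χ g : K) * φ₀ (cl a)
    rw [h2 g a ha, ← hof, hφ₀, hχ]
  · by_contra hno
    push Not at hno
    obtain ⟨m, hm⟩ := hne
    apply hm
    clear hm
    have hmem : m ∈ Submodule.span ℚ (cl '' (commutator G : Set G)) := by
      rw [h4]; exact Submodule.mem_top
    induction hmem using Submodule.span_induction with
    | mem x hx =>
      obtain ⟨a, ha, rfl⟩ := hx
      exact hno a ha
    | zero => exact map_zero _
    | add x y _ _ hx hy => rw [map_add, hx, hy, add_zero]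
    | smul q x _ hx =>
      have : q • x = (algebraMap ℚ (MonoidAlgebra ℚ A) q) • x := by
        rw [algebraMap_smul]
      rw [this, hφ₀, hx, mul_zero]
  · exact htr

end Pool.Agent.Helper13.MS
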