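import Pool.Agent.Helper13.MS.MOB1
import Pool.Agent.Helper13.MS.MOB2

/-!
# MS-MOB: the twisted homomorphism of a finitely generated group with infinite dimensional `H_1(G'; Q)`
-/

set_option autoImplicit false

namespace Pool.Agent.Helper13.MS

theorem exists_twisted (G : Type) [Group G] [Group.FG G]
    (h : ¬ FiniteDimensional ℚ (TensorProduct ℤ ℚ (Additive (Abelianization (commutator G))))) :
    ∃ (K : Type) (_ : Field K) (_ : CharZero K) (Tw : Twisted G K), (∃ g ∈ commutator G, Tw.φ g ≠ 0) ∧
      ∃ t : G, Transcendental ℚ (Tw.χ t : K) := by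
  obtain ⟨ρ, cl, h1, h2, h3, h4⟩ := exists_rep G
  exact twisted_of_rep G _ h ρ cl h1 h2 h3 h4

end Pool.Agent.Helper13.MS
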