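import Pool.Agent.Helper13.MS.Defs

/-!
# MS-MOB1: the conjugation representation on `Q ⊗ (G' / G'')`

`cl a = 1 ⊗ [a]` for `a ∈ G'` (`0` outside).  Conjugation by `g` is an automorphism of `G'` (`MulAut.conjNormal`), induces an automorphism of `Abelianization (commutator G)` (`Abelianization.map`, functorial),
hence a `ℚ`-linear endomorphism of the tensor product (`LinearMap.lTensor` / `LinearMap.baseChange ℚ`).  For `g ∈ G'` conjugation is inner, so it acts trivially on the abelianization.
Span: the tensor product is spanned over `ℚ` by the `1 ⊗ z` (`TensorProduct.induction_on`, `q ⊗ z = q • (1 ⊗ z)`).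
-/

set_option autoImplicit false

namespace Pool.Agent.Helper13.MS

theorem exists_rep (G : Type) [Group G] :
    ∃ (ρ : G →* Module.End ℚ (TensorProduct ℤ ℚ (Additive (Abelianization (commutator G)))))
      (cl : G → TensorProduct ℤ ℚ (Additive (Abelianization (commutator G)))),
      (∀ a ∈ commutator G, ∀ b ∈ commutator G, cl (a * b) = cl a + cl b) ∧
      (∀ g, ∀ a ∈ commutator G, cl (g * a * g⁻¹) = ρ g (cl a)) ∧
      (∀ g ∈ commutator G, ρ g = 1) ∧
      Submodule.span ℚ (cl '' (commutator G : Set G)) = ⊤ := by
  classical
  let ab : G → Abelianization (commutator G) →* Abelianization (commutator G) := fun g =>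
    Abelianization.map (MulAut.conjNormal g : MulAut (commutator G)).toMonoidHom
  have ab_of : ∀ (g : G) (x : commutator G), ab g (Abelianization.of x) =
      Abelianization.of (MulAut.conjNormal g x) := fun g x => Abelianization.map_of _ x
  have ab_one : ab 1 = MonoidHom.id _ := by
    ext x
    show ab 1 (Abelianization.of x) = Abelianization.of x
    rw [ab_of, map_one]
    rfl
  have ab_mul : ∀ g h, ab (g * h) = (ab g).comp (ab h) := by
    intro g h
    ext x
    show ab (g * h) (Abelianization.of x) = ab g (ab h (Abelianization.of x))
    rw [ab_of, ab_of, ab_of, map_mul]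
    rfl
  let L : G → Additive (Abelianization (commutator G)) →ₗ[ℤ] Additive (Abelianization (commutator G)) := fun g =>
    (MonoidHom.toAdditive (ab g)).toIntLinearMap
  have L_one : L 1 = LinearMap.id := by
    ext x
    show Additive.ofMul (ab 1 (Additive.toMul x)) = x
    rw [ab_one]
    rfl
  have L_mul : ∀ g h, L (g * h) = (L g).comp (L h) := by
    intro g h
    ext x
    show Additive.ofMul (ab (g * h) (Additive.toMul x)) = Additive.ofMul (ab g (ab h (Additive.toMul x)))
    rw [ab_mul]
    rfl
  let ρ : G →* Module.End ℚ (TensorProduct ℤ ℚ (Additive (Abelianization (commutator G)))) :=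
    { toFun := fun g => (L g).baseChange ℚ
      map_one' := by
        rw [L_one, LinearMap.baseChange_id]
        rfl
      map_mul' := fun g h => by
        rw [L_mul, LinearMap.baseChange_comp]
        rfl }
  let cl : G → TensorProduct ℤ ℚ (Additive (Abelianization (commutator G))) := fun a =>
    if h : a ∈ commutator G then TensorProduct.tmul ℤ (1 : ℚ) (Additive.ofMul (Abelianization.of (⟨a, h⟩ : commutator G))) else 0
  have hcl : ∀ a (h : a ∈ commutator G), cl a =
      TensorProduct.tmul ℤ (1 : ℚ) (Additive.ofMul (Abelianization.of (⟨a, h⟩ : commutator G))) := fun a h => dif_pos h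
  have hρ : ∀ g (q : ℚ) (z : Additive (Abelianization (commutator G))), ρ g (TensorProduct.tmul ℤ q z) =
      TensorProduct.tmul ℤ q (L g z) := fun g q z => LinearMap.baseChange_tmul _ _ _
  refine ⟨ρ, cl, ?_, ?_, ?_, ?_⟩
  · intro a ha b hb
    rw [hcl _ (mul_mem ha hb), hcl _ ha, hcl _ hb, ← TensorProduct.tmul_add, ← ofMul_mul, ← map_mul]
    all_goals rfl
  · intro g a ha
    rw [hcl _ (Subgroup.Normal.conj_mem inferInstance a ha g), hcl _ ha, hρ]
    refine congrArg (fun z => TensorProduct.tmul ℤ (1 : ℚ) z) ?_
    show Additive.ofMul _ = Additive.ofMul (ab g (Abelianization.of _))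
    rw [ab_of]
    rfl
  · intro g hg
    have h1 : L g = LinearMap.id := by
      ext x
      induction x using Additive.rec with
      | ofMul x =>
      induction x using QuotientGroup.induction_on with
      | H x =>
      show Additive.ofMul (ab g (Abelianization.of x)) = Additive.ofMul (Abelianization.of x)
      rw [ab_of]
      congr 1
      have h2 : (MulAut.conjNormal g x : commutator G) = ⟨g, hg⟩ * x * ⟨g, hg⟩⁻¹ := Subtype.ext (by
        rw [MulAut.conjNormal_apply]
        rfl)
      rw [h2, map_mul, map_mul, map_inv, mul_comm, ← mul_assoc, inv_mul_cancel, one_mul]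
    show (L g).baseChange ℚ = 1
    rw [h1, LinearMap.baseChange_id]
    rfl
  · rw [eq_top_iff]
    intro x _
    induction x using TensorProduct.induction_on with
    | zero => exact zero_mem _
    | add x y hx hy => exact add_mem (hx trivial) (hy trivial)
    | tmul q z =>
      induction z using Additive.rec with
      | ofMul z =>
      induction z using QuotientGroup.induction_on with
      | H z =>
      have h1 : TensorProduct.tmul ℤ q (Additive.ofMul (Abelianization.of z)) = q • cl (z : G) := by
        rw [hcl _ z.2, TensorProduct.smul_tmul', smul_eq_mul, mul_one]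
      refine h1.symm ▸ ?_
      exact Submodule.smul_mem _ _ (Submodule.subset_span ⟨z, z.2, rfl⟩)

end Pool.Agent.Helper13.MS
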