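import Pool.Agent.Helper13.MS.QB

/-!
# MS-MUA: first consequences of the axioms `HFun`; grids

`gain S T = h (S + T) - h S`.
-/

set_option autoImplicit false

namespace Pool.Agent.Helper13.MS

variable {V : Type} [CommGroup V]

/-- the increase of `h` when `T` is added to `S` -/
noncomputable def gain (H : HFun V) (S T : Multiset V) : ℝ := H.h (S + T) - H.h S

/-- the set `U` seen from the position `v` -/
def dil (v : V) (U : Multiset V) : Multiset V := U.map fun w => v * w

theorem gain_nonneg (H : HFun V) (S T : Multiset V) : 0 ≤ gain H S T :=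
  sub_nonneg.2 (H.mono S T)

/-- induction on `T` with `HFun.one` -/
theorem gain_le (H : HFun V) (S T : Multiset V) : gain H S T ≤ Multiset.card T * Real.log 2 := by
  induction T using Multiset.induction_on with
  | empty => simp [gain]
  | cons v T ih =>
    have h1 := H.one v (S + T)
    rw [← Multiset.add_cons] at h1
    simp only [gain, Multiset.card_cons, Nat.cast_add, Nat.cast_one] at ih ⊢
    linarith

/-- from `HFun.sub` -/
theorem gain_add_le (H : HFun V) (S T U : Multiset V) : gain H S (T + U) ≤ gain H S T + gain H S U := by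
  have h1 := H.sub S T U
  simp only [gain, ← add_assoc]
  linarith

theorem gain_sum_le (H : HFun V) (S : Multiset V) {ι : Type} (t : Finset ι) (T : ι → Multiset V) :
    gain H S (∑ i ∈ t, T i) ≤ ∑ i ∈ t, gain H S (T i) := by
  classical
  induction t using Finset.induction_on with
  | empty => simp [gain]
  | insert i t hi ih =>
    rw [Finset.sum_insert hi, Finset.sum_insert hi]
    exact (gain_add_le H S _ _).trans (by linarith)

theorem gain_cons_ge (H : HFun V) (v : V) (S T : Multiset V) : gain H S T - Real.log 2 ≤ gain H (v ::ₘ S) T := by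
  have h1 := H.one v S
  have h2 := H.mono (S + T) {v}
  have h3 : S + T + {v} = v ::ₘ S + T := by
    rw [Multiset.cons_add, add_comm, Multiset.singleton_add]
  rw [h3] at h2
  simp only [gain]
  linarith

theorem gain_zero_dil (H : HFun V) (v : V) (U : Multiset V) : gain H 0 (dil v U) = H.h U := by
  rw [gain, zero_add, H.zero, sub_zero, dil, H.inv]

theorem dil_dil (u v : V) (U : Multiset V) : dil u (dil v U) = dil (u * v) U := by
  simp only [dil, Multiset.map_map, Function.comp_def, mul_assoc]

theorem dil_one (U : Multiset V) : dil 1 U = U := by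
  simp [dil]

theorem card_dil (v : V) (U : Multiset V) : Multiset.card (dil v U) = Multiset.card U :=
  Multiset.card_map _ _

theorem card_grid (x y : V) (L N : ℕ) : Multiset.card (grid x y L N) = N * N := by
  simp [grid]

theorem map_eq_sum {α β : Type*} (f : α → β) (s : Finset α) : s.val.map f = ∑ i ∈ s, {f i} := by
  classical
  induction s using Finset.induction_on with
  | empty => simp
  | insert a s ha ih =>
    rw [Finset.sum_insert ha, Finset.insert_val_of_notMem ha, Multiset.map_cons, ih, Multiset.singleton_add]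

theorem grid_one (x y : V) (L : ℕ) : grid x y L 1 = {1} := by
  rw [grid, map_eq_sum, Fintype.sum_prod_type]
  simp

theorem dil_grid_eq (v x y : V) (L N : ℕ) :
    dil v (grid x y L N) = ∑ i : Fin N, ∑ j : Fin N, {v * (x ^ (L * (i : ℕ)) * y ^ (L * (j : ℕ)))} := by
  rw [dil, grid, Multiset.map_map, map_eq_sum, Fintype.sum_prod_type]
  rfl

/-- a grid of size `N * M` is tiled by `M * M` translates of a grid of size `N` (`finProdFinEquiv`: `i = N a + i'`) -/
theorem dil_grid_mul (v x y : V) (L N M : ℕ) (hN : 1 ≤ N) :
    dil v (grid x y L (N * M)) =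
      ∑ p : Fin M × Fin M, dil (v * (x ^ (L * (N * (p.1 : ℕ))) * y ^ (L * (N * (p.2 : ℕ))))) (grid x y L N) := by
  rw [Nat.mul_comm N M, dil_grid_eq, Fintype.sum_prod_type]
  simp only [dil_grid_eq]
  rw [← (finProdFinEquiv (m := M) (n := N)).sum_comp, Fintype.sum_prod_type]
  refine Finset.sum_congr rfl fun p _ => ?_
  rw [Finset.sum_comm]
  conv_rhs => rw [Finset.sum_comm]
  rw [Finset.sum_comm]
  conv_rhs => rw [Finset.sum_comm]
  have h1 : ∀ q : Fin N, ∑ j : Fin (M * N), ({v * (x ^ (L * ((finProdFinEquiv (p, q) : Fin (M * N)) : ℕ)) * y ^ (L * (j : ℕ)))} : Multiset V) =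
      ∑ p' : Fin M, ∑ q' : Fin N, {v * (x ^ (L * (N * (p : ℕ))) * y ^ (L * (N * (p' : ℕ)))) *
        (x ^ (L * (q : ℕ)) * y ^ (L * (q' : ℕ)))} := by
    intro q
    rw [← (finProdFinEquiv (m := M) (n := N)).sum_comp, Fintype.sum_prod_type]
    refine Finset.sum_congr rfl fun p' _ => Finset.sum_congr rfl fun q' _ => ?_
    congr 1
    simp only [finProdFinEquiv_apply_val]
    rw [mul_add, mul_add, pow_add, pow_add]
    have e : ∀ a b c d : V, v * (a * b * (c * d)) = v * (b * d) * (a * c) := fun a b c d => by
      rw [mul_assoc v]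
      congr 1
      rw [mul_mul_mul_comm, mul_comm]
    exact e _ _ _ _
  simp only [h1]
  rw [Finset.sum_comm]

end Pool.Agent.Helper13.MS
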