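import Pool.Agent.Helper13.MS.MUA

/-!
# MS-MUB: the operators `Bop`, `Aop`: monotone, linear, constants; telescoping

`Aop_telescope`: `Aop h S v = h S + |Ω|^-2 (h (v :: S) - h S)` for `h` depending on `S` only (the inner `Qop` iterates preserve constants); then iterate.
-/

set_option autoImplicit false

namespace Pool.Agent.Helper13.MS

variable {V Ω : Type} [CommGroup V] [Fintype Ω] [Nonempty Ω]

private theorem card_pos93 : (0 : ℝ) < (Fintype.card Ω : ℝ) := by
  exact_mod_cast Fintype.card_pos

private theorem Qop_mono93 (s : Ω → V) {f f' : V → ℝ} (h : ∀ v, f v ≤ f' v) (v : V) :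
    Qop s f v ≤ Qop s f' v := by
  unfold Qop
  exact div_le_div_of_nonneg_right (Finset.sum_le_sum fun ω _ => h _) card_pos93.le

private theorem Qop_iterate_mono93 (s : Ω → V) (n : ℕ) : ∀ {f f' : V → ℝ}, (∀ v, f v ≤ f' v) →
    ∀ v : V, (Qop s)^[n] f v ≤ (Qop s)^[n] f' v := by
  induction n with
  | zero => intro f f' h v; exact h v
  | succ n ih =>
    intro f f' h v
    rw [Function.iterate_succ_apply, Function.iterate_succ_apply]
    exact ih (fun w => Qop_mono93 s h w) v

private theorem Aop_mono93 (s : Ω → V) (α β : Ω) (m : ℕ) {F F' : Multiset V → V → ℝ}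
    (h : ∀ S v, F S v ≤ F' S v) (S : Multiset V) (v : V) :
    Aop s α β m F S v ≤ Aop s α β m F' S v := by
  unfold Aop Bop
  refine div_le_div_of_nonneg_right ?_ (by positivity)
  refine Finset.sum_le_sum fun a _ => Finset.sum_le_sum fun b _ => ?_
  exact Qop_iterate_mono93 s _ (fun w => h _ w) _

/-- linearity -/
private theorem Qop_lin93 (s : Ω → V) (c : ℝ) (f g : V → ℝ) :
    Qop s (fun v => f v + c * g v) = fun v => Qop s f v + c * Qop s g v := by
  funext v
  unfold Qop
  rw [Finset.sum_add_distrib, ← Finset.mul_sum]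
  ring

private theorem Qop_iterate_lin93 (s : Ω → V) (n : ℕ) : ∀ (c : ℝ) (f g : V → ℝ),
    (Qop s)^[n] (fun v => f v + c * g v) = fun v => (Qop s)^[n] f v + c * (Qop s)^[n] g v := by
  induction n with
  | zero => intro c f g; rfl
  | succ n ih =>
    intro c f g
    rw [Function.iterate_succ_apply, Function.iterate_succ_apply, Function.iterate_succ_apply,
      Qop_lin93, ih]

private theorem Qop_const93 (s : Ω → V) (b : ℝ) : Qop s (fun _ => b) = fun _ => b := by
  funext v
  unfold Qop
  rw [Finset.sum_const, Finset.card_univ, nsmul_eq_mul]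
  field_simp [(card_pos93 (Ω := Ω)).ne']

private theorem Qop_iterate_const93 (s : Ω → V) (n : ℕ) (b : ℝ) :
    (Qop s)^[n] (fun _ => b) = fun _ => b := by
  induction n with
  | zero => rfl
  | succ n ih => rw [Function.iterate_succ_apply, Qop_const93, ih]

private theorem Aop_lin93 (s : Ω → V) (α β : Ω) (m : ℕ) (c : ℝ) (F G : Multiset V → V → ℝ) :
    Aop s α β m (fun S v => F S v + c * G S v) =
      fun S v => Aop s α β m F S v + c * Aop s α β m G S v := by
  funext S v
  unfold Aop Bop
  simp only [Qop_iterate_lin93, Finset.sum_add_distrib, ← Finset.mul_sum]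
  ring

private theorem Aop_iterate_lin93 (s : Ω → V) (α β : Ω) (m j : ℕ) : ∀ (c : ℝ) (F G : Multiset V → V → ℝ),
    (Aop s α β m)^[j] (fun S v => F S v + c * G S v) =
      fun S v => (Aop s α β m)^[j] F S v + c * (Aop s α β m)^[j] G S v := by
  induction j with
  | zero => intro c F G; rfl
  | succ j ih =>
    intro c F G
    rw [Function.iterate_succ_apply, Function.iterate_succ_apply, Function.iterate_succ_apply,
      Aop_lin93, ih]

private theorem Aop_const93 (s : Ω → V) (α β : Ω) (m : ℕ) (b : ℝ) :
    Aop s α β m (fun _ _ => b) = fun _ _ => b := by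
  funext S v
  unfold Aop Bop
  simp only [Qop_iterate_const93, Finset.sum_const, Finset.card_univ, nsmul_eq_mul]
  field_simp [(card_pos93 (Ω := Ω)).ne']

private theorem Aop_iterate_const93 (s : Ω → V) (α β : Ω) (m j : ℕ) (b : ℝ) :
    (Aop s α β m)^[j] (fun _ _ => b) = fun _ _ => b := by
  induction j with
  | zero => rfl
  | succ j ih => rw [Function.iterate_succ_apply, Aop_const93, ih]

private theorem Aop_h93 (H : HFun V) (s : Ω → V) (α β : Ω) (m : ℕ) :
    Aop s α β m (fun S _ => H.h S) =
      fun S v => H.h S + (1 / (Fintype.card Ω : ℝ) ^ 2) * gain H S {v} := by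
  classical
  funext S v
  unfold Aop Bop
  simp only [Qop_iterate_const93]
  have key : ∀ a b : Ω, H.h (if a = α ∧ b = β then v ::ₘ S else S) =
      H.h S + if a = α then (if b = β then gain H S {v} else 0) else 0 := by
    intro a b
    by_cases h1 : a = α <;> by_cases h2 : b = β
    · simp only [h1, h2, and_self, if_true]
      unfold gain
      rw [add_comm S, Multiset.singleton_add]
      ring
    · simp [h1, h2]
    · simp [h1]
    · simp [h1]
  have hsum : (∑ a : Ω, ∑ b : Ω, H.h (if a = α ∧ b = β then v ::ₘ S else S)) =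
      (Fintype.card Ω : ℝ) ^ 2 * H.h S + gain H S {v} := by
    simp only [key, Finset.sum_add_distrib, Finset.sum_const, Finset.card_univ, nsmul_eq_mul]
    congr 1
    · ring
    · simp
  have hc := (card_pos93 (Ω := Ω)).ne'
  have : (∑ a : Ω, ∑ b : Ω, H.h (if a = α ∧ b = β then v ::ₘ S else S)) / (Fintype.card Ω : ℝ) ^ 2 =
      H.h S + (1 / (Fintype.card Ω : ℝ) ^ 2) * gain H S {v} := by
    rw [hsum]
    field_simp
  convert this using 1

theorem Aop_iterate_mono (s : Ω → V) (α β : Ω) (m : ℕ) {F F' : Multiset V → V → ℝ} (h : ∀ S v, F S v ≤ F' S v) (j : ℕ)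
    (S : Multiset V) (v : V) : (Aop s α β m)^[j] F S v ≤ (Aop s α β m)^[j] F' S v := by
  induction j generalizing F F' with
  | zero => exact h S v
  | succ j ih =>
    rw [Function.iterate_succ_apply, Function.iterate_succ_apply]
    exact ih (fun T w => Aop_mono93 s α β m h T w)

theorem Aop_iterate_affine (s : Ω → V) (α β : Ω) (m : ℕ) (F : Multiset V → V → ℝ) (a b : ℝ) (j : ℕ)
    (S : Multiset V) (v : V) : (Aop s α β m)^[j] (fun S v => a * F S v + b) S v = a * (Aop s α β m)^[j] F S v + b := by
  have h1 : (fun (S : Multiset V) (v : V) => a * F S v + b) = fun S v => (fun _ _ => b) S v + a * F S v := by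
    funext S v
    exact add_comm _ _
  rw [h1, Aop_iterate_lin93, Aop_iterate_const93]
  exact add_comm _ _

theorem Aop_telescope (H : HFun V) (s : Ω → V) (α β : Ω) (m J : ℕ) :
    (Aop s α β m)^[J] (fun S _ => H.h S) 0 1 =
      (∑ j ∈ Finset.range J, (Aop s α β m)^[j] (fun S v => gain H S {v}) 0 1) / (Fintype.card Ω : ℝ) ^ 2 := by
  induction J with
  | zero => simp [H.zero]
  | succ J ih =>
    rw [Function.iterate_succ_apply, Aop_h93,
      Aop_iterate_lin93 s α β m J (1 / (Fintype.card Ω : ℝ) ^ 2) (fun S _ => H.h S) (fun S v => gain H S {v}),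
      Finset.sum_range_succ]
    simp only []
    rw [ih]
    ring

end Pool.Agent.Helper13.MS
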