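import Pool.Agent.Helper13.MS.MUB

/-!
# MS-MUC: dropping the points recorded in the last macro steps

`qf t U S v` = average over `2 m t` free letters of `gain S (v U)`.
`qf_step`: `Aop (qf t U) S v` is the average over `a, b` of `(Qop s)^[2m-2] ((Qop s)^[2mt] (g_{S'})) (v * s a * s b)` with `S' = S` or `v ::ₘ S`,
`g_{S'} ≥ g_S - log 2` (`gain_cons_ge`), and the average over `a, b` of `(Qop s)^[n] g (v * s a * s b)` is `(Qop s)^[n+2] g v`.
`drop`: induction (apply `Aop_iterate_mono`, `Aop_iterate_affine`).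
-/

set_option autoImplicit false

namespace Pool.Agent.Helper13.MS

variable {V Ω : Type} [CommGroup V] [Fintype Ω] [Nonempty Ω]

noncomputable def qf (H : HFun V) (s : Ω → V) (m t : ℕ) (U : Multiset V) : Multiset V → V → ℝ :=
  fun S => (Qop s)^[2 * m * t] fun v => gain H S (dil v U)

theorem qf_step (H : HFun V) (s : Ω → V) (α β : Ω) (m t : ℕ) (hm : 1 ≤ m) (U : Multiset V) (S : Multiset V) (v : V) :
    qf H s m (t + 1) U S v - Real.log 2 ≤ Aop s α β m (qf H s m t U) S v := by
  classical
  set g : Multiset V → V → ℝ := fun S v => gain H S (dil v U) with hg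
  have hc : (0 : ℝ) < (Fintype.card Ω : ℝ) := by exact_mod_cast Fintype.card_pos
  have hn : 2 * m * (t + 1) = (2 * m - 2 + 2 * m * t) + 1 + 1 := by
    have : 2 * m * (t + 1) = 2 * m * t + 2 * m := by ring
    omega
  have h1 : qf H s m (t + 1) U S v =
      (∑ a, ∑ b, (Qop s)^[2 * m - 2 + 2 * m * t] (g S) (v * s a * s b)) /
        (Fintype.card Ω : ℝ) ^ 2 := by
    unfold qf
    rw [hn, Function.iterate_succ_apply', Function.iterate_succ_apply']
    simp only [Qop]
    rw [← Finset.sum_div, div_div, sq]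
  have h2 : Aop s α β m (qf H s m t U) S v =
      (∑ a, ∑ b, (Qop s)^[2 * m - 2 + 2 * m * t]
        (g (if a = α ∧ b = β then v ::ₘ S else S)) (v * s a * s b)) /
        (Fintype.card Ω : ℝ) ^ 2 := by
    have h0 : ∀ (S' : Multiset V) (w : V), (Qop s)^[2 * m - 2] (qf H s m t U S') w =
        (Qop s)^[2 * m - 2 + 2 * m * t] (g S') w := by
      intro S' w
      rw [Function.iterate_add_apply]
      rfl
    unfold Aop Bop
    simp only [h0]
  have h3 : ∀ a b, (Qop s)^[2 * m - 2 + 2 * m * t] (g S) (v * s a * s b) - Real.log 2 ≤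
      (Qop s)^[2 * m - 2 + 2 * m * t]
        (g (if a = α ∧ b = β then v ::ₘ S else S)) (v * s a * s b) := by
    intro a b
    have h4 := Qop_iterate_affine s 1 (-Real.log 2) (g S) (2 * m - 2 + 2 * m * t) (v * s a * s b)
    rw [one_mul, ← sub_eq_add_neg] at h4
    rw [← h4]
    refine Qop_iterate_mono s (fun w => ?_) _ _
    have hlog : 0 ≤ Real.log 2 := Real.log_nonneg (by norm_num)
    split_ifs
    · have := gain_cons_ge H v S (dil w U)
      simp only [hg]
      linarith
    · linarith
  rw [h1, h2]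
  have h5 : (∑ a : Ω, ∑ b : Ω, (Qop s)^[2 * m - 2 + 2 * m * t] (g S) (v * s a * s b)) -
      (Fintype.card Ω : ℝ) ^ 2 * Real.log 2 ≤
      ∑ a, ∑ b, (Qop s)^[2 * m - 2 + 2 * m * t]
        (g (if a = α ∧ b = β then v ::ₘ S else S)) (v * s a * s b) := by
    have h6 : (Fintype.card Ω : ℝ) ^ 2 * Real.log 2 = ∑ _a : Ω, ∑ _b : Ω, Real.log 2 := by
      simp only [Finset.sum_const, Finset.card_univ, nsmul_eq_mul]
      ring
    rw [h6, ← Finset.sum_sub_distrib]
    refine Finset.sum_le_sum fun a _ => ?_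
    rw [← Finset.sum_sub_distrib]
    exact Finset.sum_le_sum fun b _ => h3 a b
  rw [le_div_iff₀ (by positivity), sub_mul, div_mul_cancel₀ _ (by positivity)]
  linarith

theorem drop (H : HFun V) (s : Ω → V) (α β : Ω) (m t T j : ℕ) (hm : 1 ≤ m) (htT : t ≤ T) (hTj : T ≤ j) (U : Multiset V) :
    (Aop s α β m)^[j - T] (qf H s m T U) 0 1 - ((T : ℝ) - t) * Real.log 2 ≤ (Aop s α β m)^[j - t] (qf H s m t U) 0 1 := by
  induction T, htT using Nat.le_induction with
  | base => simp
  | succ T hT ih =>
    have h1 := ih (by omega)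
    have h2 : (Aop s α β m)^[j - (T + 1)] (qf H s m (T + 1) U) 0 1 - Real.log 2 ≤
        (Aop s α β m)^[j - T] (qf H s m T U) 0 1 := by
      have h3 : j - T = (j - (T + 1)) + 1 := by omega
      rw [h3, Function.iterate_succ_apply]
      have h4 := Aop_iterate_affine s α β m (qf H s m (T + 1) U) 1 (-Real.log 2) (j - (T + 1)) 0 1
      rw [one_mul, ← sub_eq_add_neg] at h4
      rw [← h4]
      refine Aop_iterate_mono s α β m (fun S v => ?_) _ _ _
      have := qf_step H s α β m T hm U S v
      linarith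
    push_cast
    linarith

/-- when all macro steps are dropped -/
theorem qf_zero_one (H : HFun V) (s : Ω → V) (m t : ℕ) (U : Multiset V) : qf H s m t U 0 1 = H.h U := by
  unfold qf
  simp only [gain_zero_dil]
  exact Qop_iterate_const s _ _ _

end Pool.Agent.Helper13.MS
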