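import Pool.Agent.Helper13.MS.MUB

/-!
# MS-MUD: the tile lemma

`ShiftBound s x y C` is the conclusion of `shift_gen`.
Tile: let `g v = gain S (v · grid N)`, `0 ≤ g ≤ N^2 log 2`.  For each tile translation `t = x^(L N a) y^(L N b)`, `a, b < M`,
`(Qop s)^[n] g v ≥ (Qop s)^[n] g (v t) - C N^2 log 2 (L (2 N M)) / √n`, `(Qop s)^[n] g (v t) = (Qop s)^[n] (w ↦ gain S (w t · grid N)) v` (commutative group), and
the sum over the `M^2` tiles of `gain S (w t · grid N)` is at least `gain S (w · grid (N M))` (`dil_grid_mul`, `gain_sum_le`).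
-/

set_option autoImplicit false

namespace Pool.Agent.Helper13.MS

variable {V Ω : Type} [CommGroup V] [Fintype Ω] [Nonempty Ω]

def ShiftBound (s : Ω → V) (x y : V) (C : ℝ) : Prop :=
  0 < C ∧ ∀ (F : ℝ) (f : V → ℝ), (∀ v, 0 ≤ f v ∧ f v ≤ F) → ∀ n : ℕ, 1 ≤ n → ∀ (L i j : ℕ), Even L → ∀ v : V,
    |(Qop s)^[n] f v - (Qop s)^[n] f (v * (x ^ (L * i) * y ^ (L * j)))| ≤ C * F * ((L : ℝ) * (i + j)) / Real.sqrt n

theorem tile (H : HFun V) (s : Ω → V) (x y : V) (C : ℝ) (hC : ShiftBound s x y C) (n L N M : ℕ) (hn : 1 ≤ n) (hL : Even L)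
    (hN : 1 ≤ N) (hM : 1 ≤ M) (S : Multiset V) (v : V) :
    (Qop s)^[n] (fun w => gain H S (dil w (grid x y L (N * M)))) v / ((N : ℝ) * M) ^ 2
        - C * Real.log 2 * ((L : ℝ) * (2 * N * M)) / Real.sqrt n ≤
      (Qop s)^[n] (fun w => gain H S (dil w (grid x y L N))) v / (N : ℝ) ^ 2 := by
  classical
  obtain ⟨hC0, hC⟩ := hC
  have hN0 : (0 : ℝ) < N := by exact_mod_cast hN
  have hM0 : (0 : ℝ) < M := by exact_mod_cast hM
  have hlog : 0 < Real.log 2 := Real.log_pos (by norm_num)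
  have hn0 : 0 < Real.sqrt n := Real.sqrt_pos.2 (by exact_mod_cast hn)
  set g : V → ℝ := fun w => gain H S (dil w (grid x y L N)) with hg
  have hgb : ∀ w, 0 ≤ g w ∧ g w ≤ (N : ℝ) ^ 2 * Real.log 2 := by
    intro w
    refine ⟨gain_nonneg H S _, (gain_le H S _).trans (le_of_eq ?_)⟩
    rw [card_dil, card_grid]
    push_cast
    ring
  set t : Fin M × Fin M → V := fun p => x ^ (L * (N * (p.1 : ℕ))) * y ^ (L * (N * (p.2 : ℕ))) with ht
  set E : ℝ := C * ((N : ℝ) ^ 2 * Real.log 2) * ((L : ℝ) * (2 * N * M)) / Real.sqrt n with hE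
  have hshift : ∀ p : Fin M × Fin M, (Qop s)^[n] g (v * t p) ≤ (Qop s)^[n] g v + E := by
    intro p
    have h1 := hC _ g hgb n hn L (N * (p.1 : ℕ)) (N * (p.2 : ℕ)) hL v
    have h2 := (abs_le.1 h1).1
    have h3 : C * ((N : ℝ) ^ 2 * Real.log 2) *
        ((L : ℝ) * (((N * (p.1 : ℕ) : ℕ) : ℝ) + ((N * (p.2 : ℕ) : ℕ) : ℝ))) / Real.sqrt n ≤ E := by
      rw [hE]
      have hp1 : ((p.1 : ℕ) : ℝ) ≤ M := by exact_mod_cast p.1.2.le
      have hp2 : ((p.2 : ℕ) : ℝ) ≤ M := by exact_mod_cast p.2.2.le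
      have hL0 : (0 : ℝ) ≤ L := by positivity
      push_cast
      gcongr
      nlinarith
    linarith
  have hQ : ∀ p : Fin M × Fin M,
      (Qop s)^[n] (fun w => gain H S (dil (w * t p) (grid x y L N))) v = (Qop s)^[n] g (v * t p) := by
    intro p
    have e : (fun w => gain H S (dil (w * t p) (grid x y L N))) = fun w => g (t p * w) := by
      funext w
      simp only [hg]
      rw [mul_comm w (t p)]
    rw [e, Qop_iterate_left, mul_comm (t p) v]
  have hbig : (Qop s)^[n] (fun w => gain H S (dil w (grid x y L (N * M)))) v ≤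
      (M : ℝ) ^ 2 * ((Qop s)^[n] g v + E) := by
    calc (Qop s)^[n] (fun w => gain H S (dil w (grid x y L (N * M)))) v
        ≤ (Qop s)^[n] (fun w => ∑ p : Fin M × Fin M, gain H S (dil (w * t p) (grid x y L N))) v := by
          refine Qop_iterate_mono s (fun w => ?_) n v
          rw [dil_grid_mul w x y L N M hN]
          exact gain_sum_le H S Finset.univ _
      _ = ∑ p : Fin M × Fin M, (Qop s)^[n] (fun w => gain H S (dil (w * t p) (grid x y L N))) v :=
          Qop_iterate_sum s Finset.univ _ n v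
      _ ≤ ∑ _p : Fin M × Fin M, ((Qop s)^[n] g v + E) := by
          refine Finset.sum_le_sum fun p _ => ?_
          rw [hQ p]
          exact hshift p
      _ = (M : ℝ) ^ 2 * ((Qop s)^[n] g v + E) := by
          rw [Finset.sum_const, Finset.card_univ, Fintype.card_prod, Fintype.card_fin, nsmul_eq_mul]
          push_cast
          ring
  have hEN : E / (N : ℝ) ^ 2 = C * Real.log 2 * ((L : ℝ) * (2 * N * M)) / Real.sqrt n := by
    rw [hE]
    field_simp
  have h4 : (Qop s)^[n] (fun w => gain H S (dil w (grid x y L (N * M)))) v / ((N : ℝ) * M) ^ 2 ≤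
      (Qop s)^[n] g v / (N : ℝ) ^ 2 + E / (N : ℝ) ^ 2 := by
    rw [div_le_iff₀ (by positivity)]
    refine hbig.trans (le_of_eq ?_)
    field_simp
  rw [← hEN]
  linarith

end Pool.Agent.Helper13.MS
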