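import Pool.Agent.Helper13.MS.MUD

/-!
# MS-MUD2: the bottom lemma

`Aop (gain · {v}) S v` = average over `a, b` of `(Qop s)^[2m-2] (w ↦ gain S' {w}) (v * s a * s b)`, apply the tile lemma with `N = 1`, `n = 2m-2` to each term
(`grid_one`: `dil w (grid x y L 1) = {w}`); then `Aop_iterate_mono`, `Aop_iterate_affine` (`j ≥ 1`: write `j = i + 1`, `iterate_succ_apply`).
-/

set_option autoImplicit false

namespace Pool.Agent.Helper13.MS

variable {V Ω : Type} [CommGroup V] [Fintype Ω] [Nonempty Ω]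

theorem bottom (H : HFun V) (s : Ω → V) (α β : Ω) (x y : V) (C : ℝ) (hC : ShiftBound s x y C) (m L M : ℕ) (hm : 2 ≤ m)
    (hL : Even L) (hM : 1 ≤ M) (j : ℕ) (hj : 1 ≤ j) :
    (Aop s α β m)^[j] (fun S v => gain H S (dil v (grid x y L M))) 0 1 / (M : ℝ) ^ 2
        - C * Real.log 2 * ((L : ℝ) * (2 * M)) / Real.sqrt ((2 * m - 2 : ℕ) : ℝ) ≤
      (Aop s α β m)^[j] (fun S v => gain H S {v}) 0 1 := by
  classical
  set n : ℕ := 2 * m - 2 with hn
  have hn1 : 1 ≤ n := by omega
  set E : ℝ := C * Real.log 2 * ((L : ℝ) * (2 * M)) / Real.sqrt (n : ℝ) with hE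
  have hM0 : (0 : ℝ) < M := by exact_mod_cast hM
  have hcard : (0 : ℝ) < (Fintype.card Ω : ℝ) ^ 2 := by
    have : 0 < Fintype.card Ω := Fintype.card_pos
    positivity
  -- the tile lemma with `N = 1`
  have htile : ∀ (S : Multiset V) (v : V),
      (1 / (M : ℝ) ^ 2) * (Qop s)^[n] (fun w => gain H S (dil w (grid x y L M))) v + -E ≤
        (Qop s)^[n] (fun w => gain H S {w}) v := by
    intro S v
    have h := tile H s x y C hC n L 1 M hn1 hL le_rfl hM S v
    have e1 : (fun w : V => gain H S (dil w (grid x y L 1))) = fun w => gain H S {w} := by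
      funext w
      rw [grid_one]
      simp [dil]
    rw [e1] at h
    simp only [one_mul, Nat.cast_one, mul_one, one_pow, div_one] at h
    rw [hE]
    rw [div_mul_eq_mul_div, one_mul]
    linarith
  -- one macro step
  have hstep : ∀ (S : Multiset V) (v : V),
      (1 / (M : ℝ) ^ 2) * Aop s α β m (fun S v => gain H S (dil v (grid x y L M))) S v + -E ≤
        Aop s α β m (fun S v => gain H S {v}) S v := by
    intro S v
    unfold Aop Bop
    rw [← hn]
    rw [le_div_iff₀ hcard]
    have hexp : ((1 / (M : ℝ) ^ 2) *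
        ((∑ a, ∑ b, (Qop s)^[n] ((fun S v => gain H S (dil v (grid x y L M)))
          (if a = α ∧ b = β then v ::ₘ S else S)) (v * s a * s b)) /
            (Fintype.card Ω : ℝ) ^ 2) + -E) * (Fintype.card Ω : ℝ) ^ 2 =
        ∑ a : Ω, ∑ b : Ω, ((1 / (M : ℝ) ^ 2) *
          (Qop s)^[n] ((fun S v => gain H S (dil v (grid x y L M)))
            (if a = α ∧ b = β then v ::ₘ S else S)) (v * s a * s b) + -E) := by
      simp only [Finset.sum_add_distrib, ← Finset.mul_sum, Finset.sum_const, Finset.card_univ,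
        nsmul_eq_mul]
      field_simp
    rw [hexp]
    refine Finset.sum_le_sum fun a _ => Finset.sum_le_sum fun b _ => ?_
    exact htile _ _
  -- iterate
  obtain ⟨i, rfl⟩ : ∃ i, j = i + 1 := ⟨j - 1, by omega⟩
  rw [Function.iterate_succ_apply, Function.iterate_succ_apply]
  have h1 := Aop_iterate_mono s α β m hstep i 0 1
  have h2 := Aop_iterate_affine s α β m
    (Aop s α β m (fun S v => gain H S (dil v (grid x y L M)))) (1 / (M : ℝ) ^ 2) (-E) i 0 1
  rw [h2] at h1
  rw [div_eq_inv_mul, ← one_div]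
  linarith

end Pool.Agent.Helper13.MS
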