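import Pool.Agent.Helper13.MS.NAC2

/-!
# MS-NAD: linear growth

`exists_decay`: `P (X_(2 r n) = g) ≤ ρ^n`, `r ≥ 1`, `ρ < 1`.  The ball of radius `R` has at most `(R+1) |Ω|^R` elements (`card_sphere_le`); choose `ε > 0` with `|Ω|^ε ρ < 1`: then
`P (|X_(2rn)| ≤ ε n) ≤ (ε n + 1) |Ω|^(ε n) ρ^n → 0`, so `expectedLength s (2 r n) ≥ ε n / 2` for large `n` (`expectedLength_eq`, `Qop_iterate_eq_sum`), and for general `n` use
`expectedLength_le_add` (`2 r ⌊n/2r⌋ ≤ n < 2 r ⌊n/2r⌋ + 2r`).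
-/

set_option autoImplicit false

namespace Pool.Agent.Helper13.MS

private theorem lower86 {G : Type} (c : G →₀ ℝ) (hc : ∀ g, 0 ≤ c g) (hc1 : (c.sum fun _ a => a) = 1)
    (η : ℝ) (hη : ∀ g, c g ≤ η) (l : G → ℕ) (R : ℕ) (N : ℝ)
    (hN : ((c.support.filter fun g => l g ≤ R).card : ℝ) ≤ N) (hη0 : 0 ≤ η) :
    ((R : ℝ) + 1) * (1 - N * η) ≤ c.sum fun g a => a * (l g : ℝ) := by
  classical
  unfold Finsupp.sum at hc1 ⊢
  rw [← Finset.sum_filter_add_sum_filter_not c.support (fun g => l g ≤ R)] at hc1 ⊢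
  have h1 : ∑ g ∈ c.support.filter (fun g => l g ≤ R), c g ≤ N * η := by
    calc ∑ g ∈ c.support.filter (fun g => l g ≤ R), c g
        ≤ ∑ g ∈ c.support.filter (fun g => l g ≤ R), η := Finset.sum_le_sum fun g _ => hη g
      _ = ((c.support.filter fun g => l g ≤ R).card : ℝ) * η := by
          rw [Finset.sum_const, nsmul_eq_mul]
      _ ≤ N * η := mul_le_mul_of_nonneg_right hN hη0
  have h2 : 0 ≤ ∑ g ∈ c.support.filter (fun g => l g ≤ R), c g * (l g : ℝ) :=
    Finset.sum_nonneg fun g _ => mul_nonneg (hc g) (Nat.cast_nonneg _)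
  have h3 : ((R : ℝ) + 1) * ∑ g ∈ c.support.filter (fun g => ¬ l g ≤ R), c g ≤
      ∑ g ∈ c.support.filter (fun g => ¬ l g ≤ R), c g * (l g : ℝ) := by
    rw [Finset.mul_sum]
    refine Finset.sum_le_sum fun g hg => ?_
    rw [Finset.mem_filter, not_le] at hg
    rw [mul_comm]
    refine mul_le_mul_of_nonneg_left ?_ (hc g)
    have := hg.2
    exact_mod_cast this
  have h4 : 1 - N * η ≤ ∑ g ∈ c.support.filter (fun g => ¬ l g ≤ R), c g := by
    have := h1
    linarith
  have h5 : ((R : ℝ) + 1) * (1 - N * η) ≤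
      ((R : ℝ) + 1) * ∑ g ∈ c.support.filter (fun g => ¬ l g ≤ R), c g :=
    mul_le_mul_of_nonneg_left h4 (by positivity)
  linarith

private theorem pow_bound86 (R : ℕ) : ((R : ℝ) + 1) * (1 / 4 : ℝ) ^ R ≤ 1 / 2 + (if R = 0 then 1 else 0) := by
  rcases Nat.eq_zero_or_pos R with h | h
  · subst h
    norm_num
  · rw [if_neg (by omega), add_zero]
    induction R, h using Nat.le_induction with
    | base => norm_num
    | succ n hn ih =>
      rw [pow_succ]
      push_cast
      have h1 : (1 : ℝ) ≤ n := by exact_mod_cast hn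
      have h2 : (0 : ℝ) < (1 / 4) ^ n := by positivity
      nlinarith

theorem linear_of_free {G Ω : Type} [Group G] [Fintype Ω] [Nonempty Ω] (s : Ω → G) (σ : Ω ≃ Ω) (hσ : ∀ ω, s (σ ω) = (s ω)⁻¹)
    (hs : Subgroup.closure (Set.range s) = ⊤) (f : FreeGroup (Fin 2) →* G) (hf : Function.Injective f) :
    ∃ (δ : ℝ) (n0 : ℕ), 0 < δ ∧ ∀ n : ℕ, n0 ≤ n → δ * n ≤ expectedLength s n := by
  classical
  obtain ⟨r, ρ, hr, hρ0, hρ1, hdec⟩ := exists_decay s σ hσ hs f hf
  set D : ℝ := (Fintype.card Ω : ℝ) with hD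
  have hD1 : 1 ≤ D := by
    rw [hD]
    exact_mod_cast Fintype.card_pos
  obtain ⟨k0, hk0⟩ : ∃ k : ℕ, ρ ^ k < 1 / (4 * D) :=
    exists_pow_lt_of_lt_one (by positivity) hρ1
  obtain ⟨k, hk1, hk⟩ : ∃ k : ℕ, 1 ≤ k ∧ D * ρ ^ k ≤ 1 / 4 := by
    refine ⟨k0 + 1, by omega, ?_⟩
    have h1 : ρ ^ (k0 + 1) ≤ ρ ^ k0 := pow_le_pow_of_le_one hρ0 hρ1.le (by omega)
    have h2 : D * ρ ^ (k0 + 1) ≤ D * (1 / (4 * D)) :=
      mul_le_mul_of_nonneg_left (h1.trans hk0.le) (by linarith)
    have h3 : D * (1 / (4 * D)) = 1 / 4 := by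
      field_simp
    linarith
  have key : ∀ R : ℕ, 1 ≤ R → (R : ℝ) / 2 ≤ expectedLength s (2 * r * k * R) := by
    intro R hR
    have e1 : 2 * r * k * R = 2 * r * (k * R) := by ring
    rw [e1, expectedLength_eq, Qop_iterate_eq_sum]
    have hcard : (((stepLaw s ^ (2 * r * (k * R))).coeff.support.filter
        fun g => wordLength (Set.range s) g ≤ R).card : ℝ) ≤ ((R : ℝ) + 1) * D ^ R := by
      have h1 : ((stepLaw s ^ (2 * r * (k * R))).coeff.support.filter
          fun g => wordLength (Set.range s) g ≤ R).card ≤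
          ∑ j ∈ Finset.range (R + 1), Fintype.card Ω ^ j := by
        rw [Finset.card_eq_sum_card_fiberwise (f := wordLength (Set.range s))
          (t := Finset.range (R + 1))]
        · refine Finset.sum_le_sum fun j _ => ?_
          refine card_sphere_le s σ hσ hs j _ ?_
          intro g hg
          rw [Finset.mem_filter] at hg
          exact hg.2
        · intro g hg
          rw [Finset.mem_coe, Finset.mem_filter] at hg
          rw [Finset.mem_coe, Finset.mem_range]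
          omega
      calc (((stepLaw s ^ (2 * r * (k * R))).coeff.support.filter
          fun g => wordLength (Set.range s) g ≤ R).card : ℝ)
          ≤ ((∑ j ∈ Finset.range (R + 1), Fintype.card Ω ^ j : ℕ) : ℝ) := by exact_mod_cast h1
        _ = ∑ j ∈ Finset.range (R + 1), D ^ j := by push_cast; rfl
        _ ≤ ∑ j ∈ Finset.range (R + 1), D ^ R := by
            refine Finset.sum_le_sum fun j hj => ?_
            rw [Finset.mem_range] at hj
            exact pow_le_pow_right₀ hD1 (by omega)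
        _ = ((R : ℝ) + 1) * D ^ R := by
            rw [Finset.sum_const, Finset.card_range, nsmul_eq_mul]
            push_cast
            ring
    have h2 := lower86 (stepLaw s ^ (2 * r * (k * R))).coeff
      (fun g => stepLaw_nonneg s _ g) (stepLaw_mass s _) (ρ ^ (k * R))
      (fun g => hdec (k * R) g) (wordLength (Set.range s)) R _ hcard (by positivity)
    refine le_trans ?_ h2
    have h3 : ((R : ℝ) + 1) * D ^ R * ρ ^ (k * R) ≤ 1 / 2 := by
      have e2 : ((R : ℝ) + 1) * D ^ R * ρ ^ (k * R) = ((R : ℝ) + 1) * (D * ρ ^ k) ^ R := by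
        rw [mul_pow, pow_mul]
        ring
      rw [e2]
      have h4 : (D * ρ ^ k) ^ R ≤ (1 / 4 : ℝ) ^ R :=
        pow_le_pow_left₀ (by positivity) hk R
      have h5 := pow_bound86 R
      rw [if_neg (by omega), add_zero] at h5
      refine le_trans ?_ h5
      exact mul_le_mul_of_nonneg_left h4 (by positivity)
    nlinarith
  have hT : 1 ≤ 2 * r * k := by
    have := Nat.mul_le_mul hr hk1
    nlinarith
  set T : ℕ := 2 * r * k with hTdef
  refine ⟨1 / (4 * (T : ℝ)), 2 * T + 4 * T ^ 2 + T, by positivity, ?_⟩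
  intro n hn
  have hT' : (1 : ℝ) ≤ T := by exact_mod_cast hT
  have hR : 1 ≤ n / T := by
    rw [Nat.le_div_iff_mul_le (by omega)]
    nlinarith
  have h1 := key (n / T) hR
  have h2 := expectedLength_le_add s σ hσ hs (T * (n / T)) (n % T)
  rw [Nat.div_add_mod n T] at h2
  have h3 : (n % T : ℕ) < T := Nat.mod_lt _ (by omega)
  have h3' : ((n % T : ℕ) : ℝ) ≤ T := by exact_mod_cast h3.le
  have h4 : (n : ℝ) = T * ((n / T : ℕ) : ℝ) + ((n % T : ℕ) : ℝ) := by
    exact_mod_cast (Nat.div_add_mod n T).symm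
  have h5 : (n : ℝ) ≤ T * ((n / T : ℕ) : ℝ) + T := by linarith
  have h6 : (2 * T + 4 * T ^ 2 + T : ℝ) ≤ n := by exact_mod_cast hn
  have h7 : (n : ℝ) / T ≤ ((n / T : ℕ) : ℝ) + 1 := by
    rw [div_le_iff₀ (by positivity)]
    linarith
  have h8 : 1 / (4 * (T : ℝ)) * n = (n : ℝ) / T / 4 := by
    field_simp
  rw [h8]
  have h9 : 2 + 4 * (T : ℝ) ≤ (n : ℝ) / T := by
    rw [le_div_iff₀ (by positivity)]
    nlinarith
  linarith

end Pool.Agent.Helper13.MS
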