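import Pool.Agent.Helper13.MS.Defs

/-!
# MS-WL: word length basics

Everything is elementary: a symmetric generating family generates as a monoid, so the set in `wordLength` is nonempty.
-/

set_option autoImplicit false

namespace Pool.Agent.Helper13.MS

variable {G Ω : Type} [Group G] [Fintype Ω]

theorem wordLength_one (S : Set G) : wordLength S (1 : G) = 0 :=
  Nat.sInf_eq_zero.2 (Or.inl ⟨[], rfl, by simp, rfl⟩)

private theorem le56 (s : Ω → G) (w : List Ω) :
    wordLength (Set.range s) (w.map s).prod ≤ w.length :=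
  Nat.sInf_le ⟨w.map s, List.length_map _, by
    intro x hx
    obtain ⟨ω, -, rfl⟩ := List.mem_map.1 hx
    exact ⟨ω, rfl⟩, rfl⟩

private theorem inv_prod56 (s : Ω → G) (σ : Ω ≃ Ω) (hσ : ∀ ω, s (σ ω) = (s ω)⁻¹) (w : List Ω) :
    (((w.map σ).reverse).map s).prod = ((w.map s).prod)⁻¹ := by
  rw [List.prod_inv_reverse, List.map_reverse, List.map_map, List.map_map]
  congr 2
  apply List.map_congr_left
  intro ω _
  exact hσ ω

private theorem exists_list56 (s : Ω → G) (σ : Ω ≃ Ω) (hσ : ∀ ω, s (σ ω) = (s ω)⁻¹)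
    (hs : Subgroup.closure (Set.range s) = ⊤) (g : G) : ∃ w : List Ω, (w.map s).prod = g := by
  have hg : g ∈ Subgroup.closure (Set.range s) := by
    rw [hs]
    exact Subgroup.mem_top g
  induction hg using Subgroup.closure_induction with
  | mem x hx =>
    obtain ⟨ω, rfl⟩ := hx
    exact ⟨[ω], by simp⟩
  | one => exact ⟨[], rfl⟩
  | mul x y _ _ hx hy =>
    obtain ⟨w1, h1⟩ := hx
    obtain ⟨w2, h2⟩ := hy
    exact ⟨w1 ++ w2, by rw [List.map_append, List.prod_append, h1, h2]⟩
  | inv x _ hx =>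
    obtain ⟨w, hw⟩ := hx
    exact ⟨(w.map σ).reverse, by rw [inv_prod56 s σ hσ, hw]⟩

/-- no hypothesis needed -/
theorem wordLength_ofFn_le (s : Ω → G) (n : ℕ) (w : Fin n → Ω) :
    wordLength (Set.range s) (List.ofFn fun i => s (w i)).prod ≤ n := by
  have h1 := le56 s (List.ofFn w)
  rw [List.length_ofFn, List.map_ofFn] at h1
  exact h1

theorem exists_word (s : Ω → G) (σ : Ω ≃ Ω) (hσ : ∀ ω, s (σ ω) = (s ω)⁻¹) (hs : Subgroup.closure (Set.range s) = ⊤) (g : G) :
    ∃ w : List Ω, w.length = wordLength (Set.range s) g ∧ (w.map s).prod = g := by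
  have hne : {m | ∃ l : List G, l.length = m ∧ (∀ x ∈ l, x ∈ Set.range s) ∧ l.prod = g}.Nonempty := by
    obtain ⟨w, hw⟩ := exists_list56 s σ hσ hs g
    refine ⟨_, w.map s, rfl, ?_, hw⟩
    intro x hx
    obtain ⟨ω, -, rfl⟩ := List.mem_map.1 hx
    exact ⟨ω, rfl⟩
  obtain ⟨l, hl, hmem, hp⟩ := Nat.sInf_mem hne
  have h1 : l ∈ Set.range (List.map s) := by
    rw [Set.range_list_map]
    exact hmem
  obtain ⟨w, rfl⟩ := h1
  refine ⟨w, ?_, hp⟩
  rw [← List.length_map (f := s) (as := w)]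
  exact hl

theorem wordLength_mul_le (s : Ω → G) (σ : Ω ≃ Ω) (hσ : ∀ ω, s (σ ω) = (s ω)⁻¹) (hs : Subgroup.closure (Set.range s) = ⊤)
    (g h : G) : wordLength (Set.range s) (g * h) ≤ wordLength (Set.range s) g + wordLength (Set.range s) h := by
  obtain ⟨w1, l1, h1⟩ := exists_word s σ hσ hs g
  obtain ⟨w2, l2, h2⟩ := exists_word s σ hσ hs h
  have h3 := le56 s (w1 ++ w2)
  rw [List.map_append, List.prod_append, h1, h2, List.length_append, l1, l2] at h3
  exact h3

theorem wordLength_inv (s : Ω → G) (σ : Ω ≃ Ω) (hσ : ∀ ω, s (σ ω) = (s ω)⁻¹) (hs : Subgroup.closure (Set.range s) = ⊤)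
    (g : G) : wordLength (Set.range s) g⁻¹ = wordLength (Set.range s) g := by
  have key : ∀ g : G, wordLength (Set.range s) g⁻¹ ≤ wordLength (Set.range s) g := by
    intro g
    obtain ⟨w, l, h1⟩ := exists_word s σ hσ hs g
    have h3 := le56 s ((w.map σ).reverse)
    rw [inv_prod56 s σ hσ, h1, List.length_reverse, List.length_map, l] at h3
    exact h3
  apply le_antisymm (key g)
  have h1 := key g⁻¹
  rwa [inv_inv] at h1

/-- spheres have at most `|Ω| ^ r` elements -/
theorem card_sphere_le (s : Ω → G) (σ : Ω ≃ Ω) (hσ : ∀ ω, s (σ ω) = (s ω)⁻¹) (hs : Subgroup.closure (Set.range s) = ⊤)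
    (r : ℕ) (B : Finset G) (hB : ∀ g ∈ B, wordLength (Set.range s) g = r) : B.card ≤ Fintype.card Ω ^ r := by
  classical
  have key : ∀ (w : List Ω), ∃ u : Fin w.length → Ω, (List.ofFn fun i => s (u i)).prod = (w.map s).prod := by
    intro w
    refine ⟨w.get, ?_⟩
    have h1 : List.ofFn (fun i => s (w.get i)) = (List.ofFn w.get).map s := by
      rw [List.map_ofFn]
      rfl
    rw [h1, List.ofFn_get]
  have hsub : B ⊆ Finset.univ.image (fun u : Fin r → Ω => (List.ofFn fun i => s (u i)).prod) := by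
    intro g hg
    obtain ⟨w, l, h1⟩ := exists_word s σ hσ hs g
    rw [hB g hg] at l
    subst l
    obtain ⟨u, hu⟩ := key w
    exact Finset.mem_image.2 ⟨u, Finset.mem_univ _, by rw [hu, h1]⟩
  calc B.card ≤ (Finset.univ.image (fun u : Fin r → Ω => (List.ofFn fun i => s (u i)).prod)).card :=
        Finset.card_le_card hsub
    _ ≤ (Finset.univ : Finset (Fin r → Ω)).card := Finset.card_image_le
    _ = Fintype.card Ω ^ r := by rw [Finset.card_univ, Fintype.card_fun, Fintype.card_fin]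

end Pool.Agent.Helper13.MS
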