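import Pool.Agent.Helper13.MS.QB
import Pool.Agent.Helper13.MS.WL

/-!
# MS-QE: the expected length as a value of `Qop` iterated

`expectedLength_eq`: induction on `n` for a general function `f`: `(∑ w : Fin n → Ω, f (x * (List.ofFn fun i => s (w i)).prod)) / |Ω| ^ n = (Qop s)^[n] f x`
(`Fin.consEquiv`, `List.ofFn_succ`).  The other facts: `wordLength_mul_le`, `wordLength_inv`, `wordLength_ofFn_le`.
-/

set_option autoImplicit false

namespace Pool.Agent.Helper13.MS

variable {G Ω : Type} [Group G] [Fintype Ω]

private theorem sum_ofFn26 (s : Ω → G) (n : ℕ) (f : G → ℝ) (x : G) :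
    (∑ w : Fin n → Ω, f (x * (List.ofFn fun i => s (w i)).prod)) / (Fintype.card Ω : ℝ) ^ n =
      (Qop s)^[n] f x := by
  induction n generalizing x with
  | zero => simp
  | succ n ih =>
    rw [Function.iterate_succ_apply']
    unfold Qop
    unfold Qop at ih
    simp only [← ih]
    rw [← Finset.sum_div, div_div, ← pow_succ]
    congr 1
    rw [← (Fin.consEquiv (fun _ : Fin (n + 1) => Ω)).sum_comp, Fintype.sum_prod_type]
    refine Finset.sum_congr rfl fun ω _ => Finset.sum_congr rfl fun w _ => ?_
    congr 1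
    rw [List.ofFn_succ, List.prod_cons, mul_assoc]
    simp [Fin.consEquiv]

private theorem le_Qop26 (s : Ω → G) [Nonempty Ω] (σ : Ω ≃ Ω) (hσ : ∀ ω, s (σ ω) = (s ω)⁻¹)
    (hs : Subgroup.closure (Set.range s) = ⊤) (g : G) :
    (wordLength (Set.range s) g : ℝ) ≤
      Qop s (fun g => (wordLength (Set.range s) g : ℝ)) g + 1 := by
  have h1 : ∀ ω : Ω, wordLength (Set.range s) (s ω) ≤ 1 := by
    intro ω
    have h := wordLength_ofFn_le s 1 (fun _ => ω)
    simpa using h
  have h2 : ∀ ω : Ω, (wordLength (Set.range s) g : ℝ) ≤ wordLength (Set.range s) (g * s ω) + 1 := by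
    intro ω
    have h3 := wordLength_mul_le s σ hσ hs (g * s ω) (s ω)⁻¹
    rw [mul_inv_cancel_right, wordLength_inv s σ hσ hs] at h3
    have h4 := h1 ω
    have h5 : wordLength (Set.range s) g ≤ wordLength (Set.range s) (g * s ω) + 1 := by omega
    exact_mod_cast h5
  have hpos : (0 : ℝ) < Fintype.card Ω := by exact_mod_cast Fintype.card_pos
  unfold Qop
  rw [← sub_le_iff_le_add, le_div_iff₀ hpos]
  calc ((wordLength (Set.range s) g : ℝ) - 1) * Fintype.card Ω
      = ∑ _ω : Ω, ((wordLength (Set.range s) g : ℝ) - 1) := by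
        rw [Finset.sum_const, Finset.card_univ, nsmul_eq_mul, mul_comm]
    _ ≤ _ := Finset.sum_le_sum fun ω _ => by linarith [h2 ω]

theorem expectedLength_eq (s : Ω → G) [Nonempty Ω] (n : ℕ) :
    expectedLength s n = (Qop s)^[n] (fun g => (wordLength (Set.range s) g : ℝ)) 1 := by
  have h := sum_ofFn26 s n (fun g => (wordLength (Set.range s) g : ℝ)) 1
  simp only [one_mul] at h
  exact h

theorem expectedLength_nonneg (s : Ω → G) (n : ℕ) : 0 ≤ expectedLength s n := by
  unfold expectedLength
  positivity

theorem expectedLength_le (s : Ω → G) [Nonempty Ω] (n : ℕ) : expectedLength s n ≤ n := by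
  rw [expectedLength]
  have hpos : (0 : ℝ) < (Fintype.card Ω : ℝ) ^ n := by
    have : (0 : ℝ) < Fintype.card Ω := by exact_mod_cast Fintype.card_pos
    positivity
  rw [div_le_iff₀ hpos]
  calc (∑ w : Fin n → Ω, (wordLength (Set.range s) (List.ofFn fun i => s (w i)).prod : ℝ))
      ≤ ∑ _w : Fin n → Ω, (n : ℝ) :=
        Finset.sum_le_sum fun w _ => by exact_mod_cast wordLength_ofFn_le s n w
    _ = n * (Fintype.card Ω : ℝ) ^ n := by
        rw [Finset.sum_const, Finset.card_univ, Fintype.card_fun, Fintype.card_fin, nsmul_eq_mul]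
        push_cast
        ring

theorem expectedLength_le_add (s : Ω → G) [Nonempty Ω] (σ : Ω ≃ Ω) (hσ : ∀ ω, s (σ ω) = (s ω)⁻¹)
    (hs : Subgroup.closure (Set.range s) = ⊤) (m k : ℕ) : expectedLength s m ≤ expectedLength s (m + k) + k := by
  rcases isEmpty_or_nonempty Ω with hΩ | hΩ
  · have h0 : expectedLength s m = 0 := by
      unfold expectedLength
      cases m with
      | zero => simp [wordLength_one]
      | succ m => simp
    rw [h0]
    have := expectedLength_nonneg s (m + k)
    positivity
  induction k with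
  | zero => simp
  | succ k ih =>
    refine ih.trans ?_
    have h1 : expectedLength s (m + k) ≤ expectedLength s (m + (k + 1)) + 1 := by
      rw [expectedLength_eq, expectedLength_eq, ← add_assoc, Function.iterate_succ_apply]
      refine (Qop_iterate_mono s (le_Qop26 s σ hσ hs) (m + k) 1).trans ?_
      rw [Qop_iterate_add, Qop_iterate_const]
    push_cast
    linarith

end Pool.Agent.Helper13.MS
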