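import Pool.Agent.Helper13.MS.SWC
import Pool.Agent.Helper13.MS.QE

/-!
# MS-SWD: the swapping inequality

`dom_block` and `dom_letter` (`n = 2m-2`) give `Dom f F → Dom ((Qop s)^[2m] f) (Aop F)`; iterate `J` times from `dom_base` and apply it to the one point family
(`adm_one`); the right side is `(Qop s)^[2mJ] (ℓ * (log 2 + log |Ω|) + log 2) 1` (`Qop_iterate_affine`, `expectedLength_eq`).

`exists_pair`: the derived group is the normal closure of the commutators of generators; if `φ` vanishes on all `s b * s a * (s b)⁻¹ * (s a)⁻¹` then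
`{g ∈ G' : φ g = 0}` is a normal subgroup (`φ_conj`, `φ_mul`) containing them: in the quotient of `G` by it the generators commute, so it contains `G'`.
-/

set_option autoImplicit false

namespace Pool.Agent.Helper13.MS

open scoped commutatorElement

theorem swapping {G K Ω : Type} [Group G] [Field K] [Fintype Ω] [Nonempty Ω] (Tw : Twisted G K)
    (s : Ω → G) (σ : Ω ≃ Ω) (hσ : ∀ ω, s (σ ω) = (s ω)⁻¹) (hs : Subgroup.closure (Set.range s) = ⊤)
    (α β : Ω) (hαβ : Tw.φ (s β * s α * (s β)⁻¹ * (s α)⁻¹) ≠ 0) (m J : ℕ) (hm : 1 ≤ m) :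
    (Aop (fun ω => Tw.χ (s ω)) α β m)^[J] (fun S _ => (hfun K).h S) 0 1 ≤
      (Real.log 2 + Real.log (Fintype.card Ω)) * expectedLength s (2 * m * J) + Real.log 2 := by
  have hstep : ∀ (f : G → ℝ) (F : Multiset Kˣ → Kˣ → ℝ),
      Dom Tw (Tw.φ (s β * s α * (s β)⁻¹ * (s α)⁻¹)) f F →
      Dom Tw (Tw.φ (s β * s α * (s β)⁻¹ * (s α)⁻¹)) ((Qop s)^[2 * m] f)
        (Aop (fun ω => Tw.χ (s ω)) α β m F) := by
    intro f F h
    have h1 := dom_block Tw _ s α β rfl _ _ (dom_letter Tw _ s f F h (2 * m - 2))
    rw [← Function.iterate_add_apply, show 2 + (2 * m - 2) = 2 * m by omega] at h1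
    exact h1
  have hall : ∀ J : ℕ, Dom Tw (Tw.φ (s β * s α * (s β)⁻¹ * (s α)⁻¹))
      ((Qop s)^[2 * m * J] (fun g => ((wordLength (Set.range s) g : ℝ) + 1) * Real.log 2 +
        (wordLength (Set.range s) g : ℝ) * Real.log (Fintype.card Ω)))
      ((Aop (fun ω => Tw.χ (s ω)) α β m)^[J] (fun S _ => (hfun K).h S)) := by
    intro J
    induction J with
    | zero => simpa using dom_base Tw _ hαβ s σ hσ hs
    | succ J ih =>
      have h2 := hstep _ _ ih
      rw [← Function.iterate_add_apply, show 2 * m + 2 * m * J = 2 * m * (J + 1) by ring] at h2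
      rw [Function.iterate_succ_apply']
      exact h2
  have h3 := hall J Unit (fun _ => 1) 0 1 (adm_one Tw _)
  refine h3.trans (le_of_eq ?_)
  have h4 : (fun g => ((wordLength (Set.range s) g : ℝ) + 1) * Real.log 2 +
        (wordLength (Set.range s) g : ℝ) * Real.log (Fintype.card Ω)) =
      fun g => (Real.log 2 + Real.log (Fintype.card Ω)) * (wordLength (Set.range s) g : ℝ) +
        Real.log 2 := by
    funext g
    ring
  rw [h4, expectedLength_eq]
  simp only [Finset.univ_unique, Finset.sum_const, Finset.card_singleton, one_smul,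
    Fintype.card_unit, Nat.cast_one, div_one]
  rw [Qop_iterate_affine]

theorem exists_pair {G K Ω : Type} [Group G] [Field K] (Tw : Twisted G K) (hφ : ∃ g ∈ commutator G, Tw.φ g ≠ 0)
    (s : Ω → G) (hs : Subgroup.closure (Set.range s) = ⊤) :
    ∃ α β : Ω, Tw.φ (s β * s α * (s β)⁻¹ * (s α)⁻¹) ≠ 0 := by
  by_contra hcon
  push Not at hcon
  have h1 : Tw.φ 1 = 0 := by
    have := Tw.φ_mul 1 (one_mem _) 1 (one_mem _)
    rw [one_mul] at this
    exact left_eq_add.1 this
  let N : Subgroup G :=
    { carrier := {g | g ∈ commutator G ∧ Tw.φ g = 0}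
      mul_mem' := by
        rintro a b ⟨ha, ha0⟩ ⟨hb, hb0⟩
        exact ⟨mul_mem ha hb, by rw [Tw.φ_mul a ha b hb, ha0, hb0, add_zero]⟩
      one_mem' := ⟨one_mem _, h1⟩
      inv_mem' := by
        rintro a ⟨ha, ha0⟩
        refine ⟨inv_mem ha, ?_⟩
        have := Tw.φ_mul a ha a⁻¹ (inv_mem ha)
        rw [mul_inv_cancel, h1, ha0, zero_add] at this
        exact this.symm }
  have hN : N.Normal := by
    refine ⟨?_⟩
    rintro a ⟨ha, ha0⟩ g
    refine ⟨?_, ?_⟩
    · exact (inferInstance : (commutator G).Normal).conj_mem a ha g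
    · rw [Tw.φ_conj g a ha, ha0, mul_zero]
  have hgen : ∀ α β : Ω, Commute (QuotientGroup.mk' N (s α)) (QuotientGroup.mk' N (s β)) := by
    intro α β
    have hmem : s β * s α * (s β)⁻¹ * (s α)⁻¹ ∈ N := by
      refine ⟨?_, hcon α β⟩
      rw [commutator_def]
      exact Subgroup.commutator_mem_commutator (Subgroup.mem_top _) (Subgroup.mem_top _)
    have h2 : QuotientGroup.mk' N (s β * s α * (s β)⁻¹ * (s α)⁻¹) = 1 :=
      (QuotientGroup.eq_one_iff _).2 hmem
    rw [map_mul, map_mul, map_mul, map_inv, map_inv] at h2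
    rw [mul_inv_eq_one, mul_inv_eq_iff_eq_mul] at h2
    exact h2.symm
  have hgen2 : ∀ (g : G) (β : Ω), Commute (QuotientGroup.mk' N g) (QuotientGroup.mk' N (s β)) := by
    intro g β
    have hg : g ∈ Subgroup.closure (Set.range s) := by
      rw [hs]
      exact Subgroup.mem_top _
    induction hg using Subgroup.closure_induction with
    | mem x hx =>
      obtain ⟨α, rfl⟩ := hx
      exact hgen α β
    | one =>
      rw [map_one]
      exact Commute.one_left _
    | mul x y _ _ hx hy =>
      rw [map_mul]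
      exact hx.mul_left hy
    | inv x _ hx =>
      rw [map_inv]
      exact hx.inv_left
  have hgen3 : ∀ (g h : G), Commute (QuotientGroup.mk' N g) (QuotientGroup.mk' N h) := by
    intro g h
    have hh : h ∈ Subgroup.closure (Set.range s) := by
      rw [hs]
      exact Subgroup.mem_top _
    induction hh using Subgroup.closure_induction with
    | mem x hx =>
      obtain ⟨α, rfl⟩ := hx
      exact hgen2 g α
    | one =>
      rw [map_one]
      exact Commute.one_right _
    | mul x y _ _ hx hy =>
      rw [map_mul]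
      exact hx.mul_right hy
    | inv x _ hx =>
      rw [map_inv]
      exact hx.inv_right
  have hle : commutator G ≤ N := by
    rw [commutator_def, Subgroup.commutator_le]
    intro g _ h _
    refine (QuotientGroup.eq_one_iff _).1 ?_
    have h3 : QuotientGroup.mk' N ⁅g, h⁆ = 1 := by
      rw [map_commutatorElement]
      exact commutatorElement_eq_one_iff_commute.2 (hgen3 g h)
    exact h3
  obtain ⟨g, hg, hg0⟩ := hφ
  exact hg0 (hle hg).2

end Pool.Agent.Helper13.MS
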