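import Pool.Agent.Helper13.MS.MUF
import Pool.Agent.Helper13.MS.SWD
import Pool.Agent.Helper13.MS.FN
import Pool.Agent.Helper13.MS.NAD
import Pool.Agent.Helper13.MS.HNF
import Pool.Agent.Helper13.MS.MOB
import Pool.Agent.Helper13.MS.FPF

/-!
# MS: main theorem (assembly)
-/

set_option autoImplicit false

namespace Pool.Agent.Helper13.MS

theorem main (G : Type) [Group G] [Group.IsFinitelyPresented G]
    (hinf : ¬ FiniteDimensional ℚ (TensorProduct ℤ ℚ (Additive (Abelianization (commutator G)))))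
    (Ω : Type) [Fintype Ω] [Nonempty Ω] (s : Ω → G) (σ : Ω ≃ Ω) (hσ : ∀ ω, s (σ ω) = (s ω)⁻¹)
    (hs : Subgroup.closure (Set.range s) = ⊤) :
    Filter.Tendsto (fun n : ℕ => Real.log (expectedLength s n) / Real.log n) Filter.atTop (nhds 1) := by
  by_cases hfree : NoFree G
  swap
  · unfold NoFree at hfree
    push Not at hfree
    obtain ⟨f, hf⟩ := hfree
    obtain ⟨δ, n0, hδ, h⟩ := linear_of_free s σ hσ hs f hf
    exact tendsto_of_linear s δ hδ n0 h
  have : Group.FG G := by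
    rw [Group.fg_iff]
    exact ⟨Set.range s, hs, Set.finite_range s⟩
  obtain ⟨K, _, _, Tw, hφ, t, ht⟩ := exists_twisted G hinf
  obtain ⟨g₁, g₂, h12⟩ := two_directions hfree Tw hφ t ht
  obtain ⟨x, hx, y, hy, hxy⟩ := exists_freePlane (Tw.χ g₁) (Tw.χ g₂) h12
  obtain ⟨α, β, hαβ⟩ := exists_pair Tw hφ s hs
  set s' : Ω → Kˣ := fun ω => Tw.χ (s ω) with hs'
  have hσ' : ∀ ω, s' (σ ω) = (s' ω)⁻¹ := fun ω => by simp [hs', hσ]
  have hcl : ∀ g : G, Tw.χ g ∈ Subgroup.closure (Set.range s') := by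
    intro g
    have h1 : g ∈ Subgroup.closure (Set.range s) := hs ▸ Subgroup.mem_top g
    have h2 : Set.range s' = Tw.χ '' Set.range s := by
      rw [← Set.range_comp]; rfl
    rw [h2, ← MonoidHom.map_closure]
    exact ⟨g, h1, rfl⟩
  have hcl2 : Subgroup.closure {Tw.χ g₁, Tw.χ g₂} ≤ Subgroup.closure (Set.range s') := by
    rw [Subgroup.closure_le]
    rintro z (rfl | rfl)
    · exact hcl _
    · exact hcl _
  have hm := fun Kn : ℕ => multi (hfun K) s' σ hσ' α β x y (hcl2 hx) (hcl2 hy) (hK_grid x y hxy) Kn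
  set D : ℝ := Real.log 2 + Real.log (Fintype.card Ω) with hD
  have hl2 : 0 < Real.log 2 := Real.log_pos (by norm_num)
  have hcard : (1 : ℝ) ≤ Fintype.card Ω := by exact_mod_cast Fintype.card_pos
  have hD0 : 0 < D := by
    have := Real.log_nonneg hcard
    linarith
  refine tendsto_of_multi s σ hσ hs (Real.log 2 / (2 * (Fintype.card Ω : ℝ) ^ 2) / D) (Real.log 2 / D) (by positivity) ?_
  intro Kn
  obtain ⟨c0, hc0⟩ := hm Kn
  refine ⟨max c0 1, fun c hc J hJ => ?_⟩
  have h1 := hc0 c (le_trans (le_max_left _ _) hc) J hJ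
  have hc1 : 1 ≤ c := le_trans (le_max_right _ _) hc
  have h2 := swapping Tw s σ hσ hs α β hαβ (c ^ 8) J (Nat.one_le_pow _ _ hc1)
  have h3 := le_trans h1 h2
  rw [← hD] at h3
  rw [div_mul_eq_mul_div, ← sub_div, div_le_iff₀ hD0]
  linarith

end Pool.Agent.Helper13.MS
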