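import Pool.Agent.Helper13.MS.Defs

/-!
# MS-NAA: ping-pong sets from a free subgroup

Let `f : FreeGroup (Fin 2) →* G` be injective, `H = f.range`.  Choose a section of the left cosets `g H`: every `g` is uniquely `ρ (g H) * f w`, `w` in the free group.
`A (i, b)` = the `g` whose `w` has a reduced word (`FreeGroup.toWord`) ending with the letter `(i, b)`.  If `g ∉ A (i, !b)` then the reduced word of `w * (i, b)` is
`toWord w ++ [(i, b)]`.  (`FreeGroup.mk [(i, true)] = FreeGroup.of i`, `FreeGroup.mk [(i, false)] = (FreeGroup.of i)⁻¹`.)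
-/

set_option autoImplicit false

namespace Pool.Agent.Helper13.MS

theorem toWord_mul_letter38 (w : FreeGroup (Fin 2)) (i : Fin 2) (b : Bool)
    (h : w.toWord.getLast? ≠ some (i, !b)) :
    (w * FreeGroup.mk [(i, b)]).toWord = w.toWord ++ [(i, b)] := by
  have h1 : w * FreeGroup.mk [(i, b)] = FreeGroup.mk (w.toWord ++ [(i, b)]) := by
    conv_lhs => rw [← FreeGroup.mk_toWord (x := w)]
    rw [FreeGroup.mul_mk]
  have h2 : FreeGroup.IsReduced (w.toWord ++ [(i, b)]) := by
    unfold FreeGroup.IsReduced
    rw [List.isChain_append]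
    refine ⟨FreeGroup.isReduced_toWord, List.isChain_singleton _, ?_⟩
    intro x hx y hy hxy
    simp only [List.head?_cons, Option.mem_def, Option.some.injEq] at hy
    subst hy
    rw [Option.mem_def] at hx
    by_contra hne
    apply h
    rw [hx]
    obtain ⟨x1, x2⟩ := x
    simp only at hxy hne
    subst hxy
    cases x2 <;> cases b <;> simp_all
  rw [h1, FreeGroup.toWord_mk, h2.reduce_eq]

theorem pingpong_sets {G : Type} [Group G] (f : FreeGroup (Fin 2) →* G) (hf : Function.Injective f) :
    ∃ A : Fin 2 × Bool → Set G, (∀ p q, p ≠ q → Disjoint (A p) (A q)) ∧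
      ∀ (i : Fin 2) (b : Bool) (g : G), g ∉ A (i, !b) → g * f (FreeGroup.mk [(i, b)]) ∈ A (i, b) := by
  classical
  have hch : ∀ g : G, ∃ w : FreeGroup (Fin 2),
      (QuotientGroup.mk g : G ⧸ f.range).out * f w = g := by
    intro g
    have h1 : (QuotientGroup.mk ((QuotientGroup.mk g : G ⧸ f.range).out) : G ⧸ f.range) =
        QuotientGroup.mk g := Quotient.out_eq' _
    rw [QuotientGroup.eq] at h1
    obtain ⟨w, hw⟩ := h1
    exact ⟨w, by rw [hw]; group⟩
  choose w hw using hch
  have hmul : ∀ (g : G) (u : FreeGroup (Fin 2)), w (g * f u) = w g * u := by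
    intro g u
    have h1 : (QuotientGroup.mk (g * f u) : G ⧸ f.range) = QuotientGroup.mk g := by
      rw [QuotientGroup.eq]
      refine ⟨u⁻¹, ?_⟩
      rw [map_inv]
      group
    have h2 := hw (g * f u)
    rw [h1] at h2
    have h3 : (QuotientGroup.mk g : G ⧸ f.range).out * f (w (g * f u)) =
        (QuotientGroup.mk g : G ⧸ f.range).out * f (w g * u) := by
      rw [h2, map_mul, ← mul_assoc, hw g]
    exact hf (mul_left_cancel h3)
  refine ⟨fun p => {g | (w g).toWord.getLast? = some p}, ?_, ?_⟩
  · intro p q hpq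
    refine Set.disjoint_left.2 fun g hg1 hg2 => hpq ?_
    have h1 : (w g).toWord.getLast? = some p := hg1
    have h2 : (w g).toWord.getLast? = some q := hg2
    rw [h1] at h2
    exact Option.some.inj h2
  · intro i b g hg
    have hg' : (w g).toWord.getLast? ≠ some (i, !b) := hg
    change (w (g * f (FreeGroup.mk [(i, b)]))).toWord.getLast? = some (i, b)
    rw [hmul, toWord_mul_letter38 _ _ _ hg']
    simp

end Pool.Agent.Helper13.MS
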