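import Pool.Agent.Helper13.MS.Defs

/-!
# MS-NAB: contraction

`p ∈ ℝ[G]`, `κ` a nonnegative element of mass one with `κ (u p) ≥ δ > 0` for the four elements `u (i, b)`, `u (i, !b) = (u (i, b))⁻¹`, and ping-pong sets `A`.
Then `‖q κ‖₂ ≤ ρ ‖q‖₂` for nonnegative `q`, `ρ = 1 - 4 δ + 2 √3 δ < 1` (if `δ ≤ 1/4`, so `ρ > 0`; the four elements are distinct, see below).
(1) for finitely supported `q, h ≥ 0`: `∑_{p} ∑_g q g h (g u_p) ≤ √3 (‖q‖² + ‖h‖²)`: use `q g h (g u_p) ≤ (λ q(g)² + λ⁻¹ h (g u_p)²) / 2` with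
`λ = √3` if `g ∈ A (i, !b)` (`p = (i, b)`) and `λ = 1/√3` otherwise.  Coefficient of `q g ²`: `g` lies in at most one `A`, so `∑_p λ ≤ √3 + 3/√3 = 2√3` (or `4/√3`).
Coefficient of `h x ²`, `x = g u_p`: if `x ∉ A (i, b)` then `g ∈ A (i, !b)` and `λ⁻¹ = 1/√3`; otherwise `λ⁻¹ ≤ √3`; `x` lies in at most one `A`, so `∑_p λ⁻¹ ≤ 2√3`.
(2) `⟨q κ, h⟩ = ∑_x κ x ∑_g q g h (g x) ≤ (ρ/2) (‖q‖² + ‖h‖²)`: the four terms with weight `δ` by (1), the remaining mass `1 - 4δ` by AM-GM.
(3) `h = ρ⁻¹ q κ`.
The elements `u p` are distinct: `u (i,b) = u (j,c)` with `(i,b) ≠ (j,c)`: choose `g ∉ A (i, !b) ∪ A (j, !c)` (exists: if `(i, !b) ≠ (j, !c)` and every `g` lies in `A (i,!b)` or `A (j,!c)` ...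
take `g` in a third set `A p`, nonempty since `A p ∋ g' u_p` for `g' ∉ A p̄`; one of `A p`, `A q` (`q ≠ p`) misses any given point so such `g'` exists) and `g u ∈ A (i,b) ∩ A (j,c) = ∅`.
If this is inconvenient use the total mass of `κ` at the four elements with multiplicity replaced by `δ / 4` each.
-/

set_option autoImplicit false

namespace Pool.Agent.Helper13.MS

/-- the square of the `ℓ²` norm -/
noncomputable def nsq {G : Type} (p : MonoidAlgebra ℝ G) : ℝ := p.coeff.sum fun _ a => a ^ 2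

private theorem summable_fin36 {G : Type} (q : G → ℝ) (hq : (Function.support q).Finite) (F : G → ℝ)
    (e : G ≃ G) (h : ∀ x, q (e x) = 0 → F x = 0) : Summable F := by
  refine summable_of_hasFiniteSupport ?_
  refine (hq.preimage e.injective.injOn).subset fun x hx => ?_
  simp only [Set.mem_preimage, Function.mem_support, ne_eq] at hx ⊢
  exact fun h0 => hx (h x h0)

private theorem main36 {G ι : Type} [Group G] [Fintype ι] (v : ι → G) (c : ι → ℝ)
    (hc : ∀ i, 0 ≤ c i) (W : G → ι → ℝ) (hW : ∀ x i, 0 < W x i) (ρ : ℝ)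
    (h1 : ∀ x, ∑ i, c i * W x i ≤ ρ) (h2 : ∀ g, ∑ i, c i / W (g * v i) i ≤ ρ)
    (q : G → ℝ) (hq : (Function.support q).Finite) :
    ∑' x, (∑ i, c i * q (x * (v i)⁻¹)) ^ 2 ≤ ρ ^ 2 * ∑' x, (q x) ^ 2 := by
  have hρ : 0 ≤ ρ := le_trans
    (Finset.sum_nonneg fun i _ => mul_nonneg (hc i) (hW 1 i).le) (h1 1)
  let F : ι → G → ℝ := fun i x => c i * q (x * (v i)⁻¹) ^ 2 / W x i
  have hF : ∀ i, Summable (F i) := by
    intro i
    refine summable_fin36 q hq (F i) (Equiv.mulRight (v i)⁻¹) fun x hx => ?_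
    have hx' : q (x * (v i)⁻¹) = 0 := hx
    simp [F, hx']
  have hpt : ∀ x, (∑ i, c i * q (x * (v i)⁻¹)) ^ 2 ≤ ρ * ∑ i, F i x := by
    intro x
    have h3 : (∑ i, c i * q (x * (v i)⁻¹)) ^ 2 ≤ (∑ i, c i * W x i) * ∑ i, F i x := by
      refine Finset.sum_sq_le_sum_mul_sum_of_sq_le_mul Finset.univ
        (fun i _ => mul_nonneg (hc i) (hW x i).le) (fun i _ => ?_) (fun i _ => le_of_eq ?_)
      · exact div_nonneg (mul_nonneg (hc i) (sq_nonneg _)) (hW x i).le
      · have h4 := (hW x i).ne'
        simp only [F]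
        field_simp
    refine h3.trans (mul_le_mul_of_nonneg_right (h1 x) (Finset.sum_nonneg fun i _ => ?_))
    exact div_nonneg (mul_nonneg (hc i) (sq_nonneg _)) (hW x i).le
  have hs1 : Summable fun x => ρ * ∑ i, F i x := (summable_sum fun i _ => hF i).mul_left ρ
  have hs0 : Summable fun x => (∑ i, c i * q (x * (v i)⁻¹)) ^ 2 :=
    Summable.of_nonneg_of_le (fun x => sq_nonneg _) hpt hs1
  have hq2 : Summable fun g => (q g) ^ 2 := by
    refine summable_fin36 q hq _ (Equiv.refl G) fun x hx => ?_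
    have hx' : q x = 0 := hx
    simp [hx']
  have hre : ∀ i, ∑' x, F i x = ∑' g, c i / W (g * v i) i * (q g) ^ 2 := by
    intro i
    rw [← Equiv.tsum_eq (Equiv.mulRight (v i)) (F i)]
    refine tsum_congr fun g => ?_
    simp only [F, Equiv.coe_mulRight, mul_inv_cancel_right]
    ring
  have hsi : ∀ i, Summable fun g => c i / W (g * v i) i * (q g) ^ 2 := by
    intro i
    refine summable_fin36 q hq _ (Equiv.refl G) fun x hx => ?_
    have hx' : q x = 0 := hx
    simp [hx']
  calc ∑' x, (∑ i, c i * q (x * (v i)⁻¹)) ^ 2 ≤ ∑' x, ρ * ∑ i, F i x :=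
        Summable.tsum_le_tsum hpt hs0 hs1
    _ = ρ * ∑ i, ∑' x, F i x := by
        rw [tsum_mul_left, Summable.tsum_finsetSum fun i _ => hF i]
    _ = ρ * ∑' g, ∑ i, c i / W (g * v i) i * (q g) ^ 2 := by
        rw [Summable.tsum_finsetSum fun i _ => hsi i]
        simp only [hre]
    _ ≤ ρ * ∑' g, ρ * (q g) ^ 2 := by
        refine mul_le_mul_of_nonneg_left ?_ hρ
        refine Summable.tsum_le_tsum (fun g => ?_) (summable_sum fun i _ => hsi i)
          (hq2.mul_left ρ)
        rw [← Finset.sum_mul]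
        exact mul_le_mul_of_nonneg_right (h2 g) (sq_nonneg _)
    _ = ρ ^ 2 * ∑' x, (q x) ^ 2 := by rw [tsum_mul_left]; ring

open Classical in
private theorem sum_w36 (P : Fin 2 × Bool → Prop) (hP : ∀ p q, P p → P q → p = q) :
    ∑ p, (if P p then √3 else 1 / √3 : ℝ) ≤ 2 * √3 := by
  have h3 : (0 : ℝ) < √3 := Real.sqrt_pos.2 (by norm_num)
  have h33 : √3 * √3 = (3 : ℝ) := Real.mul_self_sqrt (by norm_num)
  have h1 : ∀ p, (if P p then √3 else 1 / √3 : ℝ) =
      1 / √3 + (if P p then √3 - 1 / √3 else 0) := by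
    intro p
    split_ifs <;> ring
  have hc : (Finset.univ.filter fun p => P p).card ≤ 1 := by
    rw [Finset.card_le_one]
    intro a ha b hb
    exact hP a b (Finset.mem_filter.1 ha).2 (Finset.mem_filter.1 hb).2
  have hc' : ((Finset.univ.filter fun p => P p).card : ℝ) ≤ 1 := by exact_mod_cast hc
  have h5 : (1 : ℝ) / √3 = √3 / 3 := by
    rw [div_eq_div_iff h3.ne' (by norm_num)]
    linarith
  simp only [h1]
  rw [Finset.sum_add_distrib, Finset.sum_const, ← Finset.sum_filter, Finset.sum_const, h5]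
  have h6 : (Finset.univ : Finset (Fin 2 × Bool)).card = 4 := by decide
  rw [h6]
  simp only [nsmul_eq_mul]
  push_cast
  have h7 : ((Finset.univ.filter fun p => P p).card : ℝ) * (√3 - √3 / 3) ≤
      1 * (√3 - √3 / 3) := mul_le_mul_of_nonneg_right hc' (by linarith)
  linarith

theorem contraction {G : Type} [Group G] (A : Fin 2 × Bool → Set G) (hA : ∀ p q, p ≠ q → Disjoint (A p) (A q))
    (u : Fin 2 × Bool → G) (hu : ∀ i b, u (i, !b) = (u (i, b))⁻¹)
    (hAu : ∀ (i : Fin 2) (b : Bool) (g : G), g ∉ A (i, !b) → g * u (i, b) ∈ A (i, b))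
    (κ : MonoidAlgebra ℝ G) (hκ : ∀ g, 0 ≤ κ.coeff g) (hκ1 : (κ.coeff.sum fun _ a => a) = 1) (hκu : ∀ p, 0 < κ.coeff (u p)) :
    ∃ ρ : ℝ, 0 ≤ ρ ∧ ρ < 1 ∧ ∀ q : MonoidAlgebra ℝ G, (∀ g, 0 ≤ q.coeff g) → nsq (q * κ) ≤ ρ ^ 2 * nsq q := by
  classical
  have h3 : (0 : ℝ) < √3 := Real.sqrt_pos.2 (by norm_num)
  have h33 : √3 * √3 = (3 : ℝ) := Real.mul_self_sqrt (by norm_num)
  have h32 : √3 < (2 : ℝ) := by nlinarith
  obtain ⟨p0, -, hp0⟩ := Finset.exists_min_image (Finset.univ : Finset (Fin 2 × Bool))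
    (fun p => κ.coeff (u p)) Finset.univ_nonempty
  set δ : ℝ := κ.coeff (u p0) / 4 with hδ
  have hδ0 : 0 < δ := by have := hκu p0; positivity
  have hδu : ∀ p, 4 * δ ≤ κ.coeff (u p) := by
    intro p
    have := hp0 p (Finset.mem_univ p)
    rw [hδ]
    linarith
  have hmem : ∀ p, u p ∈ κ.coeff.support := fun p => Finsupp.mem_support_iff.2 (hκu p).ne'
  have hδ1 : 4 * δ ≤ 1 := by
    refine (hδu p0).trans ?_
    rw [← hκ1]
    exact Finset.single_le_sum (f := fun g => κ.coeff g) (fun g _ => hκ g) (hmem p0)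
  let n : G → ℝ := fun y => ∑ p : Fin 2 × Bool, if u p = y then (1 : ℝ) else 0
  have hn4 : ∀ y, n y ≤ 4 := by
    intro y
    have h : n y ≤ ∑ _p : Fin 2 × Bool, (1 : ℝ) :=
      Finset.sum_le_sum fun p _ => by split_ifs <;> norm_num
    simpa using h
  have hκ' : ∀ y, 0 ≤ κ.coeff y - δ * n y := by
    intro y
    by_cases hy : ∃ p, u p = y
    · obtain ⟨p, rfl⟩ := hy
      have h4 := mul_le_mul_of_nonneg_left (hn4 (u p)) hδ0.le
      have h5 := hδu p
      linarith
    · have h6 : n y = 0 := Finset.sum_eq_zero fun p _ => if_neg fun h => hy ⟨p, h⟩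
      rw [h6]
      simpa using hκ y
  have hswap : ∀ f : G → ℝ, ∑ y : κ.coeff.support, n y.1 * f y.1 = ∑ p, f (u p) := by
    intro f
    have h7 : ∑ y : κ.coeff.support, n y.1 * f y.1 = ∑ y ∈ κ.coeff.support, n y * f y :=
      Finset.sum_coe_sort κ.coeff.support (fun y => n y * f y)
    rw [h7]
    simp only [n, Finset.sum_mul]
    rw [Finset.sum_comm]
    refine Finset.sum_congr rfl fun p _ => ?_
    rw [Finset.sum_eq_single (u p)]
    · simp
    · intro y _ hy
      rw [if_neg (Ne.symm hy), zero_mul]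
    · intro h
      exact absurd (hmem p) h
  let ρ : ℝ := 2 * √3 * δ + (1 - 4 * δ)
  have hsumκ : ∑ y : κ.coeff.support, (κ.coeff y.1 - δ * n y.1) = 1 - 4 * δ := by
    rw [Finset.sum_sub_distrib]
    have h8 : ∑ y : κ.coeff.support, κ.coeff y.1 = 1 := by
      rw [← hκ1]
      exact Finset.sum_coe_sort κ.coeff.support (fun y => κ.coeff y)
    have h9 : ∑ y : κ.coeff.support, δ * n y.1 = 4 * δ := by
      have h10 := hswap fun _ => δ
      simp only [Finset.sum_const] at h10
      have h11 : (Finset.univ : Finset (Fin 2 × Bool)).card = 4 := by decide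
      rw [h11] at h10
      simp only [nsmul_eq_mul] at h10
      push_cast at h10
      rw [← h10]
      exact Finset.sum_congr rfl fun y _ => mul_comm _ _
    rw [h8, h9]
  refine ⟨ρ, ?_, ?_, ?_⟩
  · have : 0 ≤ 2 * √3 * δ := by positivity
    simp only [ρ]
    linarith
  · simp only [ρ]
    nlinarith
  · intro q hq
    let v : (Fin 2 × Bool) ⊕ κ.coeff.support → G := Sum.elim u fun y => y.1
    let c : (Fin 2 × Bool) ⊕ κ.coeff.support → ℝ :=
      Sum.elim (fun _ => δ) fun y => κ.coeff y.1 - δ * n y.1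
    let W : G → (Fin 2 × Bool) ⊕ κ.coeff.support → ℝ := fun x =>
      Sum.elim (fun p => if x ∈ A p then √3 else 1 / √3) fun _ => 1
    have hmain := main36 v c (by rintro (p | y); exacts [hδ0.le, hκ' y.1]) W
      (by
        rintro x (p | y)
        · change 0 < (if x ∈ A p then √3 else 1 / √3 : ℝ)
          split_ifs <;> positivity
        · exact one_pos) ρ
      (by
        intro x
        rw [Fintype.sum_sum_type]
        have h12 : ∑ p : Fin 2 × Bool, c (Sum.inl p) * W x (Sum.inl p) ≤ 2 * √3 * δ := by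
          have h13 := sum_w36 (fun p => x ∈ A p) (fun p q hp hq => by
            by_contra hne
            exact (hA p q hne).le_bot ⟨hp, hq⟩)
          have h14 : ∑ p : Fin 2 × Bool, c (Sum.inl p) * W x (Sum.inl p) =
              δ * ∑ p, (if x ∈ A p then √3 else 1 / √3 : ℝ) := by
            rw [Finset.mul_sum]
            rfl
          rw [h14]
          nlinarith
        have h15 : ∑ y : κ.coeff.support, c (Sum.inr y) * W x (Sum.inr y) = 1 - 4 * δ := by
          rw [← hsumκ]
          refine Finset.sum_congr rfl fun y _ => ?_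
          change (κ.coeff y.1 - δ * n y.1) * 1 = _
          rw [mul_one]
        rw [h15]
        simp only [ρ]
        linarith)
      (by
        intro g
        rw [Fintype.sum_sum_type]
        have h12 : ∑ p : Fin 2 × Bool, c (Sum.inl p) / W (g * v (Sum.inl p)) (Sum.inl p) ≤
            2 * √3 * δ := by
          have h13 := sum_w36 (fun p => g * u p ∉ A p) (fun p q hp hq => by
            have h16 : g ∈ A (p.1, !p.2) := by
              by_contra h
              exact hp (hAu p.1 p.2 g h)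
            have h17 : g ∈ A (q.1, !q.2) := by
              by_contra h
              exact hq (hAu q.1 q.2 g h)
            by_contra hne
            have h18 : (p.1, !p.2) ≠ (q.1, !q.2) := by
              intro h
              apply hne
              have h19 := congrArg Prod.fst h
              have h20 := congrArg Prod.snd h
              simp only at h19 h20
              exact Prod.ext h19 (Bool.not_inj h20)
            exact (hA _ _ h18).le_bot ⟨h16, h17⟩)
          have h14 : ∑ p : Fin 2 × Bool, c (Sum.inl p) / W (g * v (Sum.inl p)) (Sum.inl p) =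
              δ * ∑ p, (if g * u p ∉ A p then √3 else 1 / √3 : ℝ) := by
            rw [Finset.mul_sum]
            refine Finset.sum_congr rfl fun p _ => ?_
            change δ / (if g * u p ∈ A p then √3 else 1 / √3 : ℝ) = _
            by_cases hg : g * u p ∈ A p
            · rw [if_pos hg, if_neg (not_not.2 hg)]
              ring
            · rw [if_neg hg, if_pos hg]
              field_simp
          rw [h14]
          refine le_trans (mul_le_mul_of_nonneg_left (le_trans (le_of_eq ?_) h13) hδ0.le)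
            (le_of_eq (by ring))
          refine Finset.sum_congr rfl fun p _ => ?_
          by_cases hg : g * u p ∈ A p
          · rw [if_neg (not_not.2 hg), if_neg (not_not.2 hg)]
          · rw [if_pos hg, if_pos hg]
        have h15 : ∑ y : κ.coeff.support, c (Sum.inr y) / W (g * v (Sum.inr y)) (Sum.inr y) =
            1 - 4 * δ := by
          rw [← hsumκ]
          refine Finset.sum_congr rfl fun y _ => ?_
          change (κ.coeff y.1 - δ * n y.1) / 1 = _
          rw [div_one]
        rw [h15]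
        simp only [ρ]
        linarith)
      (fun g => q.coeff g) (by
        refine q.coeff.support.finite_toSet.subset fun g hg => ?_
        exact Finsupp.mem_support_iff.2 hg)
    have hn1 : ∀ r : MonoidAlgebra ℝ G, nsq r = ∑' x, (r.coeff x) ^ 2 := by
      intro r
      rw [nsq, Finsupp.sum, tsum_eq_sum]
      intro x hx
      rw [Finsupp.notMem_support_iff.1 hx]
      norm_num
    have hn2 : ∀ x, (q * κ).coeff x = ∑ i, c i * q.coeff (x * (v i)⁻¹) := by
      intro x
      rw [MonoidAlgebra.coeff_mul_apply_right, Fintype.sum_sum_type, Finsupp.sum]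
      have h21 : ∑ p : Fin 2 × Bool, c (Sum.inl p) * q.coeff (x * (v (Sum.inl p))⁻¹) =
          ∑ y : κ.coeff.support, n y.1 * (δ * q.coeff (x * y.1⁻¹)) :=
        (hswap fun g => δ * q.coeff (x * g⁻¹)).symm
      have h22 : ∑ y : κ.coeff.support, c (Sum.inr y) * q.coeff (x * (v (Sum.inr y))⁻¹) =
          ∑ y : κ.coeff.support, (κ.coeff y.1 - δ * n y.1) * q.coeff (x * y.1⁻¹) := rfl
      rw [h21, h22, ← Finset.sum_add_distrib,
        ← Finset.sum_coe_sort κ.coeff.support (fun y => q.coeff (x * y⁻¹) * κ.coeff y)]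
      refine Finset.sum_congr rfl fun y _ => ?_
      ring
    rw [hn1, hn1]
    simp only [hn2]
    exact hmain

end Pool.Agent.Helper13.MS
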