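import Pool.Agent.Helper13.MS.QE

/-!
# MS-NAC: the law of the walk in the group algebra

`Qop_iterate_eq_sum`: induction on `n`, more generally `(Qop s)^[n] f x = ∑_g (μ^n) g * f (x g)`.
-/

set_option autoImplicit false

namespace Pool.Agent.Helper13.MS

/-- the law of one step -/
noncomputable def stepLaw {G Ω : Type} [Group G] [Fintype Ω] (s : Ω → G) : MonoidAlgebra ℝ G :=
  ∑ ω, MonoidAlgebra.single (s ω) (1 / (Fintype.card Ω : ℝ))

/-- the sum of `a * f g` over the terms of an element of the group algebra -/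
private noncomputable def ev_h5 {G : Type} (f : G → ℝ) : MonoidAlgebra ℝ G →+ ℝ :=
  (Finsupp.liftAddHom fun g => AddMonoidHom.mulRight (f g)).comp
    MonoidAlgebra.coeffAddEquiv.toAddMonoidHom

private theorem ev_apply_h5 {G : Type} (f : G → ℝ) (p : MonoidAlgebra ℝ G) :
    ev_h5 f p = p.coeff.sum fun g a => a * f g := rfl

private theorem ev_single_h5 {G : Type} (f : G → ℝ) (g : G) (a : ℝ) :
    ev_h5 f (MonoidAlgebra.single g a) = a * f g := by
  rw [ev_apply_h5, MonoidAlgebra.coeff_single, Finsupp.sum_single_index]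
  rw [zero_mul]

private theorem ev_single_mul_h5 {G : Type} [Group G] (f : G → ℝ) (g : G) (a : ℝ)
    (p : MonoidAlgebra ℝ G) :
    ev_h5 f (MonoidAlgebra.single g a * p) = a * ev_h5 (fun y => f (g * y)) p := by
  have h1 : (ev_h5 f).comp (AddMonoidHom.mulLeft (MonoidAlgebra.single g a)) =
      (AddMonoidHom.mulLeft a).comp (ev_h5 fun y => f (g * y)) := by
    apply MonoidAlgebra.addMonoidHom_ext
    intro m r
    show ev_h5 f (MonoidAlgebra.single g a * MonoidAlgebra.single m r) =
      a * ev_h5 (fun y => f (g * y)) (MonoidAlgebra.single m r)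
    rw [MonoidAlgebra.single_mul_single, ev_single_h5, ev_single_h5, mul_assoc]
  exact DFunLike.congr_fun h1 p

private theorem iterate_h5 {G Ω : Type} [Group G] [Fintype Ω] (s : Ω → G) (f : G → ℝ) (n : ℕ) :
    ∀ x : G, (Qop s)^[n] f x = ev_h5 (fun y => f (x * y)) (stepLaw s ^ n) := by
  induction n with
  | zero =>
    intro x
    rw [pow_zero, MonoidAlgebra.one_def, ev_single_h5, one_mul, mul_one]
    rfl
  | succ n ih =>
    intro x
    rw [Function.iterate_succ_apply', pow_succ']
    unfold stepLaw at ih ⊢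
    rw [Finset.sum_mul, map_sum]
    show (∑ ω, (Qop s)^[n] f (x * s ω)) / (Fintype.card Ω : ℝ) = _
    rw [Finset.sum_div]
    refine Finset.sum_congr rfl fun ω _ => ?_
    rw [ev_single_mul_h5, ih]
    simp only [mul_assoc]
    ring

theorem Qop_iterate_eq_sum {G Ω : Type} [Group G] [Fintype Ω] (s : Ω → G) (f : G → ℝ) (n : ℕ) :
    (Qop s)^[n] f 1 = (stepLaw s ^ n).coeff.sum fun g a => a * f g := by
  rw [iterate_h5]
  simp only [one_mul]
  rfl

theorem stepLaw_nonneg {G Ω : Type} [Group G] [Fintype Ω] [Nonempty Ω] (s : Ω → G) (n : ℕ) (g : G) :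
    0 ≤ (stepLaw s ^ n).coeff g := by
  induction n generalizing g with
  | zero =>
    rw [pow_zero, MonoidAlgebra.one_def, MonoidAlgebra.coeff_single]
    classical
    rw [Finsupp.single_apply]
    split_ifs
    · exact zero_le_one
    · exact le_rfl
  | succ n ih =>
    have h1 : (stepLaw s * stepLaw s ^ n).coeff g =
        ∑ ω, (1 / (Fintype.card Ω : ℝ)) * (stepLaw s ^ n).coeff ((s ω)⁻¹ * g) := by
      conv_lhs => rw [show stepLaw s * stepLaw s ^ n =
        ∑ ω, MonoidAlgebra.single (s ω) (1 / (Fintype.card Ω : ℝ)) * stepLaw s ^ n by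
          rw [← Finset.sum_mul]; rfl]
      rw [MonoidAlgebra.coeff_sum, Finsupp.finsetSum_apply]
      refine Finset.sum_congr rfl fun ω _ => ?_
      rw [MonoidAlgebra.coeff_single_mul_apply]
    rw [pow_succ', h1]
    exact Finset.sum_nonneg fun ω _ => mul_nonneg (by positivity) (ih _)

theorem stepLaw_mass {G Ω : Type} [Group G] [Fintype Ω] [Nonempty Ω] (s : Ω → G) (n : ℕ) :
    ((stepLaw s ^ n).coeff.sum fun _ a => a) = 1 := by
  have h1 := Qop_iterate_eq_sum s (fun _ => 1) n
  simp only [mul_one] at h1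
  rw [← h1]
  have hc : (Fintype.card Ω : ℝ) ≠ 0 := by
    exact_mod_cast Fintype.card_ne_zero
  have h2 : Qop s (fun _ => (1 : ℝ)) = fun _ => 1 := by
    funext x
    unfold Qop
    rw [Finset.sum_const, Finset.card_univ, nsmul_eq_mul, mul_one, div_self hc]
  have h3 : (Qop s)^[n] (fun _ => (1 : ℝ)) = fun _ => 1 := Function.iterate_fixed h2 n
  rw [h3]

end Pool.Agent.Helper13.MS
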