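import Pool.Agent.Helper13.MS.NAA
import Pool.Agent.Helper13.MS.NAB
import Pool.Agent.Helper13.MS.NAC
import Pool.Agent.Helper13.MS.QE

/-!
# MS-NAC2: exponential decay in groups with a free subgroup of rank two

With `A` from `pingpong_sets` take `u (i, b) = f (FreeGroup.mk [(i, b)]) ^ 2`: if `g ∉ A (i, !b)` then `g f(i,b) ∈ A (i, b)`, which is disjoint from `A (i, !b)`,
so `g u (i, b) ∈ A (i, b)`.  Each `f (FreeGroup.mk [(i, b)])` is a product of `k` letters (`exists_word`), its square of `2k` letters; padding with `s ω * s (σ ω) = 1` there is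
one `r ≥ 1` such that all `u p` are products of `2 r` letters, so `κ = μ^(2r)` has `κ (u p) > 0`.  By `contraction`, `nsq (μ^(2 r n)) ≤ ρ^(2n)` (`nsq 1 = 1`), so `μ^(2rn) g ≤ ρ^n` for all `g`.
-/

set_option autoImplicit false

namespace Pool.Agent.Helper13.MS

theorem coeff_step_mul38 {G Ω : Type} [Group G] [Fintype Ω] (s : Ω → G) (x : MonoidAlgebra ℝ G) (g : G) :
    (stepLaw s * x).coeff g = ∑ ω, (1 / (Fintype.card Ω : ℝ)) * x.coeff ((s ω)⁻¹ * g) := by
  unfold stepLaw
  rw [Finset.sum_mul, MonoidAlgebra.coeff_sum, Finsupp.finsetSum_apply]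
  refine Finset.sum_congr rfl fun ω _ => ?_
  rw [MonoidAlgebra.coeff_single_mul_apply]

theorem word_pos38 {G Ω : Type} [Group G] [Fintype Ω] [Nonempty Ω] (s : Ω → G) (l : List Ω) :
    0 < (stepLaw s ^ l.length).coeff (l.map s).prod := by
  induction l with
  | nil => simp [MonoidAlgebra.one_def]
  | cons ω l ih =>
    rw [List.length_cons, pow_succ', coeff_step_mul38]
    have hc : (0 : ℝ) < Fintype.card Ω := by exact_mod_cast Fintype.card_pos
    refine Finset.sum_pos' (fun ω' _ => ?_) ⟨ω, Finset.mem_univ _, ?_⟩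
    · exact mul_nonneg (by positivity) (stepLaw_nonneg s _ _)
    · rw [List.map_cons, List.prod_cons, inv_mul_cancel_left]
      exact mul_pos (by positivity) ih

theorem pad38 {G Ω : Type} [Group G] [Nonempty Ω] (s : Ω → G) (σ : Ω ≃ Ω)
    (hσ : ∀ ω, s (σ ω) = (s ω)⁻¹) (l : List Ω) (k : ℕ) :
    ∃ l' : List Ω, l'.length = l.length + 2 * k ∧ (l'.map s).prod = (l.map s).prod := by
  induction k with
  | zero => exact ⟨l, by simp, rfl⟩
  | succ k ih =>
    obtain ⟨l', h1, h2⟩ := ih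
    obtain ⟨ω⟩ := ‹Nonempty Ω›
    refine ⟨ω :: σ ω :: l', by simp [h1]; ring, ?_⟩
    simp [hσ, h2]

theorem coeff_sq_le_nsq38 {G : Type} (p : MonoidAlgebra ℝ G) (g : G) : p.coeff g ^ 2 ≤ nsq p := by
  unfold nsq Finsupp.sum
  by_cases hg : g ∈ p.coeff.support
  · exact Finset.single_le_sum (f := fun a => p.coeff a ^ 2) (fun _ _ => sq_nonneg _) hg
  · rw [Finsupp.notMem_support_iff.1 hg]
    simpa using Finset.sum_nonneg fun a (_ : a ∈ p.coeff.support) => sq_nonneg (p.coeff a)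

/-- there are `r` and `ρ < 1` with `P (X_(2 r n) = g) ≤ ρ ^ n` -/
theorem exists_decay {G Ω : Type} [Group G] [Fintype Ω] [Nonempty Ω] (s : Ω → G) (σ : Ω ≃ Ω) (hσ : ∀ ω, s (σ ω) = (s ω)⁻¹)
    (hs : Subgroup.closure (Set.range s) = ⊤) (f : FreeGroup (Fin 2) →* G) (hf : Function.Injective f) :
    ∃ (r : ℕ) (ρ : ℝ), 1 ≤ r ∧ 0 ≤ ρ ∧ ρ < 1 ∧ ∀ (n : ℕ) (g : G), (stepLaw s ^ (2 * r * n)).coeff g ≤ ρ ^ n := by
  classical
  obtain ⟨A, hA, hAf⟩ := pingpong_sets f hf
  let x : Fin 2 × Bool → G := fun p => f (FreeGroup.mk [p])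
  have hword : ∀ p, ∃ w : List Ω, (w.map s).prod = x p := fun p => by
    obtain ⟨w, -, hw⟩ := exists_word s σ hσ hs (x p)
    exact ⟨w, hw⟩
  choose w hw using hword
  let r : ℕ := (∑ p, (w p).length) + 1
  have hwr : ∀ p, (w p).length ≤ r := fun p => by
    have : (w p).length ≤ ∑ p, (w p).length :=
      Finset.single_le_sum (f := fun p => (w p).length) (fun _ _ => Nat.zero_le _) (Finset.mem_univ p)
    omega
  let u : Fin 2 × Bool → G := fun p => x p * x p
  have hpos : ∀ p, 0 < (stepLaw s ^ (2 * r)).coeff (u p) := by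
    intro p
    obtain ⟨l, h1, h2⟩ := pad38 s σ hσ (w p ++ w p) (r - (w p).length)
    have h3 : l.length = 2 * r := by
      rw [h1, List.length_append]
      have := hwr p
      omega
    have h4 : (l.map s).prod = u p := by
      rw [h2, List.map_append, List.prod_append, hw]
    have h5 := word_pos38 s l
    rwa [h3, h4] at h5
  have hinv : ∀ i b, x (i, !b) = (x (i, b))⁻¹ := by
    intro i b
    change f _ = (f _)⁻¹
    rw [← map_inv, FreeGroup.inv_mk]
    rfl
  obtain ⟨ρ, hρ0, hρ1, hρ⟩ := contraction A hA u (by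
      intro i b
      change x (i, !b) * x (i, !b) = (x (i, b) * x (i, b))⁻¹
      rw [hinv, mul_inv_rev]) (by
      intro i b g hg
      have h1 : g * x (i, b) ∈ A (i, b) := hAf i b g hg
      have h2 : g * x (i, b) ∉ A (i, !b) := fun h =>
        Set.disjoint_left.1 (hA (i, b) (i, !b) (by cases b <;> simp)) h1 h
      have h3 : g * x (i, b) * x (i, b) ∈ A (i, b) := hAf i b _ h2
      rwa [mul_assoc] at h3)
    (stepLaw s ^ (2 * r)) (stepLaw_nonneg s _) (stepLaw_mass s _) hpos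
  have hn : ∀ n : ℕ, nsq (stepLaw s ^ (2 * r * n)) ≤ (ρ ^ n) ^ 2 := by
    intro n
    induction n with
    | zero => simp [nsq, MonoidAlgebra.one_def]
    | succ n ih =>
      rw [Nat.mul_succ, pow_add]
      refine (hρ _ (stepLaw_nonneg s _)).trans ?_
      calc ρ ^ 2 * nsq (stepLaw s ^ (2 * r * n)) ≤ ρ ^ 2 * (ρ ^ n) ^ 2 :=
            mul_le_mul_of_nonneg_left ih (sq_nonneg _)
        _ = (ρ ^ (n + 1)) ^ 2 := by ring
  refine ⟨r, ρ, by omega, hρ0, hρ1, fun n g => ?_⟩
  have h1 := (coeff_sq_le_nsq38 _ g).trans (hn n)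
  exact le_of_sq_le_sq h1 (pow_nonneg hρ0 n)

end Pool.Agent.Helper13.MS
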