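import Pool.Agent.Helper13.MS.Defs

/-!
# MS-QB: elementary facts on the operator `Qop` and its iterates
-/

set_option autoImplicit false

namespace Pool.Agent.Helper13.MS

variable {G Ω : Type} [Group G] [Fintype Ω]

theorem Qop_iterate_mono (s : Ω → G) {f g : G → ℝ} (h : ∀ x, f x ≤ g x) (n : ℕ) (x : G) :
    (Qop s)^[n] f x ≤ (Qop s)^[n] g x := by
  induction n generalizing f g x with
  | zero => simpa using h x
  | succ n ih =>
    rw [Function.iterate_succ_apply, Function.iterate_succ_apply]
    refine ih (fun y => ?_) x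
    unfold Qop
    gcongr
    exact h _

theorem Qop_iterate_const (s : Ω → G) [Nonempty Ω] (c : ℝ) (n : ℕ) (x : G) :
    (Qop s)^[n] (fun _ => c) x = c := by
  induction n generalizing x with
  | zero => simp
  | succ n ih =>
    rw [Function.iterate_succ_apply]
    have : Qop s (fun _ => c) = fun _ : G => c := by
      funext y
      have : (Fintype.card Ω : ℝ) ≠ 0 := by exact_mod_cast Fintype.card_ne_zero
      simp [Qop]
    rw [this]
    exact ih x

theorem Qop_iterate_sum (s : Ω → G) {ι : Type} (t : Finset ι) (f : ι → G → ℝ) (n : ℕ) (x : G) :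
    (Qop s)^[n] (fun g => ∑ i ∈ t, f i g) x = ∑ i ∈ t, (Qop s)^[n] (f i) x := by
  induction n generalizing f x with
  | zero => simp
  | succ n ih =>
    simp only [Function.iterate_succ_apply]
    rw [← ih]
    refine congrArg (fun F : G → ℝ => (Qop s)^[n] F x) ?_
    funext y
    simp only [Qop]
    rw [Finset.sum_comm, Finset.sum_div]

theorem Qop_iterate_add (s : Ω → G) (f g : G → ℝ) (n : ℕ) (x : G) :
    (Qop s)^[n] (fun y => f y + g y) x = (Qop s)^[n] f x + (Qop s)^[n] g x := by
  induction n generalizing f g x with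
  | zero => simp
  | succ n ih =>
    simp only [Function.iterate_succ_apply]
    rw [← ih]
    refine congrArg (fun F : G → ℝ => (Qop s)^[n] F x) ?_
    funext y
    simp only [Qop]
    rw [Finset.sum_add_distrib, add_div]

theorem Qop_iterate_smul (s : Ω → G) (a : ℝ) (f : G → ℝ) (n : ℕ) (x : G) :
    (Qop s)^[n] (fun y => a * f y) x = a * (Qop s)^[n] f x := by
  induction n generalizing f x with
  | zero => simp
  | succ n ih =>
    simp only [Function.iterate_succ_apply]
    rw [← ih]
    refine congrArg (fun F : G → ℝ => (Qop s)^[n] F x) ?_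
    funext y
    simp only [Qop]
    rw [← Finset.mul_sum, mul_div_assoc]

theorem Qop_iterate_affine (s : Ω → G) [Nonempty Ω] (a b : ℝ) (f : G → ℝ) (n : ℕ) (x : G) :
    (Qop s)^[n] (fun y => a * f y + b) x = a * (Qop s)^[n] f x + b := by
  rw [Qop_iterate_add, Qop_iterate_smul, Qop_iterate_const]

theorem Qop_iterate_left (s : Ω → G) (u : G) (f : G → ℝ) (n : ℕ) (x : G) :
    (Qop s)^[n] (fun y => f (u * y)) x = (Qop s)^[n] f (u * x) := by
  induction n generalizing f x with
  | zero => simp
  | succ n ih =>
    simp only [Function.iterate_succ_apply]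
    rw [← ih]
    refine congrArg (fun F : G → ℝ => (Qop s)^[n] F x) ?_
    funext y
    simp only [Qop, mul_assoc]

theorem Qop_iterate_bounds (s : Ω → G) [Nonempty Ω] {f : G → ℝ} {F : ℝ} (h : ∀ x, 0 ≤ f x ∧ f x ≤ F) (n : ℕ) (x : G) :
    0 ≤ (Qop s)^[n] f x ∧ (Qop s)^[n] f x ≤ F := by
  constructor
  · have := Qop_iterate_mono s (f := fun _ => 0) (g := f) (fun y => (h y).1) n x
    rwa [Qop_iterate_const] at this
  · have := Qop_iterate_mono s (f := f) (g := fun _ => F) (fun y => (h y).2) n x
    rwa [Qop_iterate_const] at this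

end Pool.Agent.Helper13.MS
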