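import Pool.Agent.Helper13.MS.QB

/-!
# MS-SHA1: consecutive binomial coefficients

`∑_b C(k,b) (g b - g (b+1)) = ∑_{b ≤ k+1} (C(k,b) - C(k,b-1)) g b`; the differences `C(k,b) - C(k,b-1)` are `≥ 0` for `b ≤ k/2` and `≤ 0` after, and they sum to `C(k, k/2)` resp. `- C(k, k/2)`, so the
left side is at most `F C(k, k/2)` in absolute value, and `C(k, k/2) ≤ 2 ^ k / √(k+1)`: for `k = 2 n` by induction `(2n+1) * centralBinom n ^ 2 ≤ 16 ^ n`; `C(2n+1,n) = C(2n+2,n+1)/2`.
(The constant 4 leaves room: e.g. Mathlib bounds on `Nat.centralBinom` may be enough.)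
-/

set_option autoImplicit false

namespace Pool.Agent.Helper13.MS

private theorem choose_up_h54 {k n : ℕ} (h : n + 1 ≤ k / 2) : (k.choose n : ℝ) ≤ k.choose (n + 1) := by
  have h1 := Nat.choose_succ_right_eq k n
  have h2 : n + 1 ≤ k - n := by omega
  have h3 : k.choose n * (n + 1) ≤ k.choose (n + 1) * (n + 1) := by
    rw [h1]
    exact Nat.mul_le_mul_left _ h2
  exact_mod_cast Nat.le_of_mul_le_mul_right h3 (Nat.succ_pos n)

private theorem choose_down_h54 {k n : ℕ} (h : k / 2 ≤ n) : (k.choose (n + 1) : ℝ) ≤ k.choose n := by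
  have h1 := Nat.choose_succ_right_eq k n
  have h2 : k - n ≤ n + 1 := by omega
  have h3 : k.choose (n + 1) * (n + 1) ≤ k.choose n * (n + 1) := by
    rw [h1]
    exact Nat.mul_le_mul_left _ h2
  exact_mod_cast Nat.le_of_mul_le_mul_right h3 (Nat.succ_pos n)

/-- a unimodal weight -/
private theorem unimodal_h54 {F : ℝ} {g c : ℕ → ℝ} (hg : ∀ b, 0 ≤ g b ∧ g b ≤ F) (hc : ∀ b, 0 ≤ c b)
    {m : ℕ} (hup : ∀ n, n + 1 ≤ m → c n ≤ c (n + 1)) (hdn : ∀ n, m ≤ n → c (n + 1) ≤ c n) {k : ℕ}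
    (hk : m ≤ k) : |∑ b ∈ Finset.range (k + 1), c b * (g b - g (b + 1))| ≤ F * c m := by
  have h1 : ∀ n, n ≤ m → ∑ b ∈ Finset.range (n + 1), c b * (g b - g (b + 1)) ≤ c n * (F - g (n + 1)) ∧
      -(c n * g (n + 1)) ≤ ∑ b ∈ Finset.range (n + 1), c b * (g b - g (b + 1)) := by
    intro n
    induction n with
    | zero =>
      intro _
      rw [zero_add, Finset.sum_range_one]
      have e1 := mul_nonneg (hc 0) (sub_nonneg.2 (hg 0).2)
      have e2 := mul_nonneg (hc 0) (hg 0).1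
      constructor <;> nlinarith
    | succ n ih =>
      intro hn
      obtain ⟨i1, i2⟩ := ih (by omega)
      rw [Finset.sum_range_succ]
      have e0 := hup n hn
      have e1 := mul_nonneg (sub_nonneg.2 e0) (sub_nonneg.2 (hg (n + 1)).2)
      have e2 := mul_nonneg (sub_nonneg.2 e0) (hg (n + 1)).1
      constructor <;> nlinarith
  have h2 : ∀ n, m ≤ n →
      ∑ b ∈ Finset.range (n + 1), c b * (g b - g (b + 1)) ≤ F * c m - c n * g (n + 1) ∧
      -(F * c m) + c n * (F - g (n + 1)) ≤ ∑ b ∈ Finset.range (n + 1), c b * (g b - g (b + 1)) := by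
    intro n hn
    induction n, hn using Nat.le_induction with
    | base =>
      obtain ⟨i1, i2⟩ := h1 m le_rfl
      constructor <;> nlinarith
    | succ n hn ih =>
      obtain ⟨i1, i2⟩ := ih
      rw [Finset.sum_range_succ]
      have e0 := hdn n hn
      have e1 := mul_nonneg (sub_nonneg.2 e0) (sub_nonneg.2 (hg (n + 1)).2)
      have e2 := mul_nonneg (sub_nonneg.2 e0) (hg (n + 1)).1
      constructor <;> nlinarith
  obtain ⟨i1, i2⟩ := h2 k hk
  rw [abs_le]
  have e1 := mul_nonneg (hc k) (sub_nonneg.2 (hg (k + 1)).2)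
  have e2 := mul_nonneg (hc k) (hg (k + 1)).1
  constructor <;> linarith

private theorem central_h54 (n : ℕ) : (2 * n + 1) * n.centralBinom ^ 2 ≤ 16 ^ n := by
  induction n with
  | zero => simp
  | succ n ih =>
    have h1 := Nat.succ_mul_centralBinom_succ n
    have h2 : (n + 1) ^ 2 * ((2 * (n + 1) + 1) * (n + 1).centralBinom ^ 2) ≤ (n + 1) ^ 2 * 16 ^ (n + 1) := by
      calc (n + 1) ^ 2 * ((2 * (n + 1) + 1) * (n + 1).centralBinom ^ 2)
          = (2 * n + 3) * ((n + 1) * (n + 1).centralBinom) ^ 2 := by ring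
        _ = (4 * (2 * n + 3) * (2 * n + 1)) * ((2 * n + 1) * n.centralBinom ^ 2) := by
            rw [h1]
            ring
        _ ≤ (4 * (2 * n + 3) * (2 * n + 1)) * 16 ^ n := Nat.mul_le_mul_left _ ih
        _ ≤ (16 * (n + 1) ^ 2) * 16 ^ n := by
            apply Nat.mul_le_mul_right
            nlinarith
        _ = (n + 1) ^ 2 * 16 ^ (n + 1) := by ring
    exact Nat.le_of_mul_le_mul_left h2 (by positivity)

private theorem middle_h54 (k : ℕ) : (k + 1) * (k.choose (k / 2)) ^ 2 ≤ 16 * 4 ^ k := by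
  obtain ⟨n, hn | hn⟩ := Nat.even_or_odd' k
  · subst hn
    have h1 : 2 * n / 2 = n := by omega
    have h2 := central_h54 n
    rw [Nat.centralBinom] at h2
    rw [h1, pow_mul]
    norm_num
    have h3 : 0 < 16 ^ n := by positivity
    omega
  · subst hn
    have h1 : (2 * n + 1) / 2 = n := by omega
    rw [h1]
    have h2 := central_h54 n
    rw [Nat.centralBinom] at h2
    have h3 : (2 * n + 1).choose n ≤ 2 * (2 * n).choose n := by
      rcases n with _ | n
      · simp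
      · have e1 : (2 * (n + 1) + 1).choose (n + 1) = (2 * (n + 1)).choose n + (2 * (n + 1)).choose (n + 1) :=
          Nat.choose_succ_succ _ _
        have e2 := Nat.choose_le_middle n (2 * (n + 1))
        have e3 : 2 * (n + 1) / 2 = n + 1 := by omega
        rw [e3] at e2
        omega
    have h4 : (2 * n + 1).choose n ^ 2 ≤ (2 * (2 * n).choose n) ^ 2 := Nat.pow_le_pow_left h3 2
    calc (2 * n + 1 + 1) * (2 * n + 1).choose n ^ 2
        ≤ (2 * (2 * n + 1)) * (2 * (2 * n).choose n) ^ 2 := Nat.mul_le_mul (by omega) h4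
      _ = 8 * ((2 * n + 1) * (2 * n).choose n ^ 2) := by ring
      _ ≤ 8 * 16 ^ n := Nat.mul_le_mul_left _ h2
      _ ≤ 64 * 16 ^ n := Nat.mul_le_mul_right _ (by norm_num)
      _ = 16 * 4 ^ (2 * n + 1) := by
          rw [pow_succ, pow_mul]
          norm_num
          ring

theorem binomial_shift (F : ℝ) (g : ℕ → ℝ) (hg : ∀ b, 0 ≤ g b ∧ g b ≤ F) (k : ℕ) :
    |∑ b ∈ Finset.range (k + 1), (k.choose b : ℝ) * (g b - g (b + 1))| ≤ 2 ^ k * (4 * F / Real.sqrt (k + 1)) := by
  have h1 := unimodal_h54 (c := fun b => (k.choose b : ℝ)) hg (fun b => Nat.cast_nonneg _) (m := k / 2)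
    (fun n hn => choose_up_h54 hn) (fun n hn => choose_down_h54 hn) (k := k) (by omega)
  have hF : 0 ≤ F := le_trans (hg 0).1 (hg 0).2
  refine h1.trans ?_
  have hs : 0 < Real.sqrt ((k : ℝ) + 1) := Real.sqrt_pos.2 (by positivity)
  have h2 : (k.choose (k / 2) : ℝ) * Real.sqrt (k + 1) ≤ 4 * 2 ^ k := by
    apply abs_le_of_sq_le_sq' _ (by positivity) |>.2
    have h3 : (((k + 1) * (k.choose (k / 2)) ^ 2 : ℕ) : ℝ) ≤ ((16 * 4 ^ k : ℕ) : ℝ) :=
      Nat.cast_le.2 (middle_h54 k)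
    push_cast at h3
    have h4 : ((k.choose (k / 2) : ℝ) * Real.sqrt (k + 1)) ^ 2 = (k + 1) * (k.choose (k / 2) : ℝ) ^ 2 := by
      rw [mul_pow, Real.sq_sqrt (by positivity)]
      ring
    have h5 : ((4 : ℝ) * 2 ^ k) ^ 2 = 16 * 4 ^ k := by
      rw [mul_pow, ← pow_mul, mul_comm k 2, pow_mul]
      norm_num
    rw [h4, h5]
    exact h3
  have h6 : F * (k.choose (k / 2) : ℝ) * Real.sqrt (k + 1) ≤ 2 ^ k * (4 * F) := by
    have := mul_le_mul_of_nonneg_left h2 hF
    linarith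
  rw [← mul_div_assoc, le_div_iff₀ hs]
  exact h6

end Pool.Agent.Helper13.MS
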