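import Pool.Agent.Helper13.MS.QB

/-!
# MS-SHA2: average of `1 / √(k+1)` for a binomial variable `k`

`∑_k w_k / √(k+1) ≤ (∑_k w_k / (k+1)) ^ (1/2)` (Cauchy-Schwarz, `∑ w_k = 1`, `w_k = C(n,k) (1-p)^(n-k) p^k`) and `C(n,k)/(k+1) = C(n+1,k+1)/(n+1)`, so
`∑_k w_k / (k+1) = (1 - (1-p)^(n+1)) / ((n+1) p) ≤ 1 / ((n+1) p)`.
-/

set_option autoImplicit false

namespace Pool.Agent.Helper13.MS

theorem binomial_average {p : ℝ} (hp0 : 0 < p) (hp1 : p ≤ 1) (n : ℕ) :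
    ∑ k ∈ Finset.range (n + 1), (n.choose k : ℝ) * (1 - p) ^ (n - k) * p ^ k / Real.sqrt (k + 1) ≤
      1 / Real.sqrt ((n + 1) * p) := by
  have hp2 : 0 ≤ 1 - p := by linarith
  have hn : (0 : ℝ) < n + 1 := by positivity
  obtain ⟨w, hw⟩ : ∃ w : ℕ → ℝ, w = fun k => (n.choose k : ℝ) * (1 - p) ^ (n - k) * p ^ k := ⟨_, rfl⟩
  have hw0 : ∀ k, 0 ≤ w k := by
    intro k
    rw [hw]
    exact mul_nonneg (mul_nonneg (Nat.cast_nonneg _) (pow_nonneg hp2 _)) (pow_nonneg hp0.le _)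
  have hsum : ∑ k ∈ Finset.range (n + 1), w k = 1 := by
    have h1 := add_pow p (1 - p) n
    rw [add_sub_cancel, one_pow] at h1
    rw [h1, hw]
    exact Finset.sum_congr rfl fun k _ => by ring
  have hav : ∑ k ∈ Finset.range (n + 1), w k / (k + 1) ≤ 1 / ((n + 1) * p) := by
    have h1 : ∀ k ∈ Finset.range (n + 1), w k / (k + 1) = 1 / ((n + 1) * p) *
        (p ^ (k + 1) * (1 - p) ^ (n + 1 - (k + 1)) * ((n + 1).choose (k + 1) : ℝ)) := by
      intro k _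
      have h2 : ((n : ℝ) + 1) * (n.choose k : ℝ) = ((n + 1).choose (k + 1) : ℝ) * ((k : ℝ) + 1) := by
        exact_mod_cast Nat.add_one_mul_choose_eq n k
      have h3 : (0 : ℝ) < k + 1 := by positivity
      rw [hw]
      show (n.choose k : ℝ) * (1 - p) ^ (n - k) * p ^ k / (k + 1) = _
      rw [Nat.add_sub_add_right, pow_succ]
      field_simp
      linear_combination (1 - p) ^ (n - k) * h2
    rw [Finset.sum_congr rfl h1, ← Finset.mul_sum]
    have h4 := add_pow p (1 - p) (n + 1)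
    rw [add_sub_cancel, one_pow, Finset.sum_range_succ'] at h4
    have h5 : 0 ≤ p ^ 0 * (1 - p) ^ (n + 1 - 0) * ((n + 1).choose 0 : ℝ) :=
      mul_nonneg (mul_nonneg (pow_nonneg hp0.le _) (pow_nonneg hp2 _)) (Nat.cast_nonneg _)
    have h6 : ∑ k ∈ Finset.range (n + 1),
        p ^ (k + 1) * (1 - p) ^ (n + 1 - (k + 1)) * ((n + 1).choose (k + 1) : ℝ) ≤ 1 := by linarith
    have h7 : 0 ≤ 1 / ((n + 1) * p) := by positivity
    calc _ ≤ 1 / ((n + 1) * p) * 1 := mul_le_mul_of_nonneg_left h6 h7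
      _ = _ := mul_one _
  have hcs := Finset.sum_mul_sq_le_sq_mul_sq (Finset.range (n + 1)) (fun k => Real.sqrt (w k))
    (fun k => Real.sqrt (w k) / Real.sqrt (k + 1))
  have e1 : ∑ k ∈ Finset.range (n + 1), Real.sqrt (w k) ^ 2 = 1 := by
    rw [← hsum]
    exact Finset.sum_congr rfl fun k _ => Real.sq_sqrt (hw0 k)
  have e2 : ∑ k ∈ Finset.range (n + 1), (Real.sqrt (w k) / Real.sqrt ((k : ℝ) + 1)) ^ 2 =
      ∑ k ∈ Finset.range (n + 1), w k / (k + 1) := by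
    refine Finset.sum_congr rfl fun k _ => ?_
    rw [div_pow, Real.sq_sqrt (hw0 k), Real.sq_sqrt (by positivity)]
  have e3 : ∑ k ∈ Finset.range (n + 1), Real.sqrt (w k) * (Real.sqrt (w k) / Real.sqrt ((k : ℝ) + 1)) =
      ∑ k ∈ Finset.range (n + 1), (n.choose k : ℝ) * (1 - p) ^ (n - k) * p ^ k / Real.sqrt (k + 1) := by
    refine Finset.sum_congr rfl fun k _ => ?_
    rw [← mul_div_assoc, Real.mul_self_sqrt (hw0 k), hw]
  rw [e1, e2, e3, one_mul] at hcs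
  have h8 : 1 / Real.sqrt ((n + 1) * p) = Real.sqrt (1 / ((n + 1) * p)) := by
    rw [Real.sqrt_div zero_le_one, Real.sqrt_one]
  rw [h8]
  exact Real.le_sqrt_of_sq_le (hcs.trans hav)

end Pool.Agent.Helper13.MS
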