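import Pool.Agent.Helper13.MS.SHA1
import Pool.Agent.Helper13.MS.SHA2

/-!
# MS-SHB: one letter shift

`V` commutative, `u = s ω₀`.  If `σ ω₀ = ω₀` then `u = u⁻¹`, `u ^ 2 = 1` and there is nothing to prove.  Otherwise let `p = 2 / |Ω|`,
`T f v = (f (v u) + f (v u⁻¹)) / 2` and `R f` = average of `f (v s ω)` over the other letters (if there are none, `p = 1` and take `R = id`); then
`Qop s f = (1 - p) R f + p T f`, `R` and `T` are linear and commute (`V` commutative), so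
`(Qop s)^[n] f = ∑_k C(n,k) (1-p)^(n-k) p^k R^(n-k) T^k f` (`Commute.add_pow` in the algebra of linear maps `(V → ℝ) →ₗ[ℝ] (V → ℝ)`) and
`T^k f v = 2^-k ∑_b C(k,b) f (v u^(2b-k))` (same theorem).  With `g b = f (v u^(2b-k))` the difference `T^k f v - T^k f (v u^2) = 2^-k ∑_b C(k,b) (g b - g (b+1))`
is at most `4 F / √(k+1)` (`binomial_shift`), the same holds after `R^(n-k)` (averages), and `binomial_average` gives `4 F / √((n+1) p) ≤ C F / √n`.
-/

set_option autoImplicit false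

namespace Pool.Agent.Helper13.MS

private def Sh50 {V : Type} [CommGroup V] : V →* Module.End ℝ (V → ℝ) where
  toFun a :=
    { toFun := fun f v => f (v * a)
      map_add' := fun _ _ => rfl
      map_smul' := fun _ _ => rfl }
  map_one' := by
    refine LinearMap.ext fun f => funext fun v => ?_
    show f (v * 1) = f v
    rw [mul_one]
  map_mul' a b := by
    refine LinearMap.ext fun f => funext fun v => ?_
    show f (v * (a * b)) = f (v * a * b)
    rw [mul_assoc]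

private theorem Sh_apply50 {V : Type} [CommGroup V] (a : V) (f : V → ℝ) (v : V) :
    Sh50 a f v = f (v * a) := rfl

private theorem comm50 {V : Type} [CommGroup V] (a b : V) : Commute (Sh50 a) (Sh50 b) :=
  (Commute.all a b).map Sh50

private theorem Qop_iter50 {V Ω : Type} [CommGroup V] [Fintype Ω] (s : Ω → V) (n : ℕ) (f : V → ℝ) :
    (Qop s)^[n] f = (((Fintype.card Ω : ℝ)⁻¹ • ∑ ω, Sh50 (s ω)) ^ n) f := by
  have h1 : Qop s = ⇑((Fintype.card Ω : ℝ)⁻¹ • ∑ ω, Sh50 (s ω)) := by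
    funext g v
    rw [LinearMap.smul_apply, LinearMap.sum_apply, Pi.smul_apply, Finset.sum_apply]
    show (∑ ω, g (v * s ω)) / (Fintype.card Ω : ℝ) = (Fintype.card Ω : ℝ)⁻¹ * ∑ ω, g (v * s ω)
    rw [div_eq_inv_mul]
  rw [h1, Module.End.pow_apply]

/-- the powers of the two letter operator -/
private theorem X_pow50 {V : Type} [CommGroup V] (u : V) (c : ℝ) (k : ℕ) (f : V → ℝ) (w : V) :
    ((c • (Sh50 u + Sh50 u⁻¹)) ^ k) f w =
      c ^ k * ∑ b ∈ Finset.range (k + 1), (k.choose b : ℝ) * f (w * u ^ (2 * (b : ℤ) - k)) := by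
  rw [smul_pow, (comm50 u u⁻¹).add_pow, LinearMap.smul_apply, LinearMap.sum_apply, Pi.smul_apply,
    Finset.sum_apply, smul_eq_mul]
  congr 1
  refine Finset.sum_congr rfl fun b hb => ?_
  rw [Finset.mem_range] at hb
  rw [← nsmul_eq_mul', LinearMap.smul_apply, Pi.smul_apply, nsmul_eq_mul, ← map_pow, ← map_pow,
    ← map_mul, Sh_apply50]
  congr 3
  rw [inv_pow, ← zpow_natCast, ← zpow_natCast, ← zpow_neg, ← zpow_add]
  congr 1
  push_cast [Nat.cast_sub (by omega : b ≤ k)]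
  ring

private theorem pow_bound50 {V : Type} (Y : Module.End ℝ (V → ℝ)) {c : ℝ} (hc : 0 ≤ c)
    (hY : ∀ (g : V → ℝ) (M : ℝ), (∀ v, |g v| ≤ M) → ∀ v, |Y g v| ≤ c * M) (m : ℕ) :
    ∀ (g : V → ℝ) (M : ℝ), (∀ v, |g v| ≤ M) → ∀ v, |(Y ^ m) g v| ≤ c ^ m * M := by
  induction m with
  | zero =>
    intro g M hg v
    simpa using hg v
  | succ m ih =>
    intro g M hg v
    rw [pow_succ', Module.End.mul_apply]
    refine (hY _ _ (ih g M hg) v).trans (le_of_eq ?_)
    ring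

private theorem one_letter50 {V Ω : Type} [CommGroup V] [Fintype Ω] [Nonempty Ω] (s : Ω → V)
    (σ : Ω ≃ Ω) (hσ : ∀ ω, s (σ ω) = (s ω)⁻¹) (ω : Ω) (hω : σ ω ≠ ω) {F : ℝ} {f : V → ℝ}
    (hf : ∀ v, 0 ≤ f v ∧ f v ≤ F) (n : ℕ) (v : V) :
    |(Qop s)^[n] f v - (Qop s)^[n] f (v * s ω ^ 2)| ≤
      4 * F * (1 / Real.sqrt ((n + 1) * (2 / Fintype.card Ω))) := by
  classical
  have hF : 0 ≤ F := (hf 1).1.trans (hf 1).2
  set N : ℝ := (Fintype.card Ω : ℝ) with hN
  have hNpos : 0 < N := by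
    rw [hN]
    exact_mod_cast Fintype.card_pos
  set u := s ω with hu
  set W : Finset Ω := (Finset.univ.erase ω).erase (σ ω) with hW
  have hWcard : (W.card : ℝ) = N - 2 := by
    have h1 : σ ω ∈ Finset.univ.erase ω := Finset.mem_erase.2 ⟨hω, Finset.mem_univ _⟩
    have h2 := Finset.card_erase_add_one h1
    have h3 := Finset.card_erase_add_one (Finset.mem_univ ω)
    have h4 : W.card + 2 = Fintype.card Ω := by
      rw [← Finset.card_univ, ← h3, ← h2]
    rw [hN, ← h4]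
    push_cast
    ring
  have hN2 : 2 ≤ N := by
    have : (0 : ℝ) ≤ W.card := Nat.cast_nonneg _
    linarith
  set X : Module.End ℝ (V → ℝ) := N⁻¹ • (Sh50 u + Sh50 u⁻¹) with hX
  set Y : Module.End ℝ (V → ℝ) := N⁻¹ • ∑ a ∈ W, Sh50 (s a) with hY
  have hQ : (N⁻¹ • ∑ a, Sh50 (s a) : Module.End ℝ (V → ℝ)) = X + Y := by
    rw [hX, hY, ← smul_add]
    congr 1
    have h1 : σ ω ∈ Finset.univ.erase ω := Finset.mem_erase.2 ⟨hω, Finset.mem_univ _⟩
    rw [← Finset.add_sum_erase _ _ (Finset.mem_univ ω), ← Finset.add_sum_erase _ _ h1, hσ, add_assoc]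
  have hXall : ∀ a : V, Commute X (Sh50 a) := fun a =>
    ((comm50 u a).add_left (comm50 u⁻¹ a)).smul_left _
  have hYall : ∀ a : V, Commute Y (Sh50 a) := fun a =>
    (Commute.sum_left _ _ _ fun i _ => comm50 (s i) a).smul_left _
  have hXY : Commute X Y := by
    rw [hY]
    exact (Commute.sum_right _ _ _ fun i _ => hXall (s i)).smul_right _
  set D : Module.End ℝ (V → ℝ) := 1 - Sh50 (u ^ 2) with hD
  have hDX : Commute D X := (Commute.one_left _).sub_left (hXall _).symm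
  have hDY : Commute D Y := (Commute.one_left _).sub_left (hYall _).symm
  have hexp : D * (X + Y) ^ n = ∑ k ∈ Finset.range (n + 1),
      (n.choose k : ℕ) • (Y ^ (n - k) * (D * X ^ k)) := by
    rw [hXY.add_pow, Finset.mul_sum]
    refine Finset.sum_congr rfl fun k _ => ?_
    rw [← nsmul_eq_mul', mul_smul_comm, ← mul_assoc]
    congr 1
    exact ((hDY.mul_left (hXY.pow_left k)).pow_right (n - k)).eq
  have hdiff : (Qop s)^[n] f v - (Qop s)^[n] f (v * u ^ 2) = ∑ k ∈ Finset.range (n + 1),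
      (n.choose k : ℝ) * (Y ^ (n - k)) (D ((X ^ k) f)) v := by
    have h1 : (Qop s)^[n] f v - (Qop s)^[n] f (v * u ^ 2) = (D * (X + Y) ^ n) f v := by
      rw [Qop_iter50, hQ]
      rfl
    rw [h1, hexp, LinearMap.sum_apply, Finset.sum_apply]
    refine Finset.sum_congr rfl fun k _ => ?_
    rw [LinearMap.smul_apply, Pi.smul_apply, nsmul_eq_mul]
    rfl
  have hDk : ∀ k : ℕ, ∀ w, |D ((X ^ k) f) w| ≤ (2 / N) ^ k * (4 * F / Real.sqrt (k + 1)) := by
    intro k w
    have h1 : D ((X ^ k) f) w = (X ^ k) f w - (X ^ k) f (w * u ^ 2) := rfl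
    have h2 : ∀ b : ℕ, w * u ^ 2 * u ^ (2 * (b : ℤ) - k) = w * u ^ (2 * ((b + 1 : ℕ) : ℤ) - k) := by
      intro b
      rw [mul_assoc, ← zpow_natCast u 2, ← zpow_add]
      congr 2
      push_cast
      ring
    rw [h1, hX, X_pow50, X_pow50, ← mul_sub, ← Finset.sum_sub_distrib]
    have h3 : ∑ b ∈ Finset.range (k + 1), ((k.choose b : ℝ) * f (w * u ^ (2 * (b : ℤ) - k)) -
        (k.choose b : ℝ) * f (w * u ^ 2 * u ^ (2 * (b : ℤ) - k))) =
        ∑ b ∈ Finset.range (k + 1), (k.choose b : ℝ) * (f (w * u ^ (2 * (b : ℤ) - k)) -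
          f (w * u ^ (2 * ((b + 1 : ℕ) : ℤ) - k))) := by
      refine Finset.sum_congr rfl fun b _ => ?_
      rw [h2, mul_sub]
    rw [h3, abs_mul, abs_of_nonneg (by positivity : (0 : ℝ) ≤ N⁻¹ ^ k)]
    have h4 := binomial_shift F (fun b => f (w * u ^ (2 * (b : ℤ) - k))) (fun b => hf _) k
    calc N⁻¹ ^ k * _ ≤ N⁻¹ ^ k * (2 ^ k * (4 * F / Real.sqrt (k + 1))) :=
          mul_le_mul_of_nonneg_left h4 (by positivity)
      _ = (2 / N) ^ k * (4 * F / Real.sqrt (k + 1)) := by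
          rw [div_pow, inv_pow]
          ring
  have hc0 : (0 : ℝ) ≤ 1 - 2 / N := by
    rw [sub_nonneg, div_le_one hNpos]
    exact hN2
  have hYb : ∀ (g : V → ℝ) (M : ℝ), (∀ v, |g v| ≤ M) → ∀ v, |Y g v| ≤ (1 - 2 / N) * M := by
    intro g M hg w
    have h1 : Y g w = N⁻¹ * ∑ a ∈ W, g (w * s a) := by
      rw [hY, LinearMap.smul_apply, LinearMap.sum_apply, Pi.smul_apply, Finset.sum_apply, smul_eq_mul]
      rfl
    rw [h1, abs_mul, abs_of_nonneg (by positivity : (0 : ℝ) ≤ N⁻¹)]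
    have h2 : |∑ a ∈ W, g (w * s a)| ≤ W.card • M := by
      refine (Finset.abs_sum_le_sum_abs _ _).trans ?_
      exact Finset.sum_le_card_nsmul _ _ _ fun a _ => hg _
    rw [nsmul_eq_mul, hWcard] at h2
    calc N⁻¹ * |∑ a ∈ W, g (w * s a)| ≤ N⁻¹ * ((N - 2) * M) :=
          mul_le_mul_of_nonneg_left h2 (by positivity)
      _ = (1 - 2 / N) * M := by
          field_simp
  rw [hdiff]
  have hp0 : 0 < 2 / N := by positivity
  have hp1 : 2 / N ≤ 1 := by linarith
  have havg := binomial_average hp0 hp1 n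
  calc |∑ k ∈ Finset.range (n + 1), (n.choose k : ℝ) * (Y ^ (n - k)) (D ((X ^ k) f)) v|
      ≤ ∑ k ∈ Finset.range (n + 1), |(n.choose k : ℝ) * (Y ^ (n - k)) (D ((X ^ k) f)) v| :=
        Finset.abs_sum_le_sum_abs _ _
    _ ≤ ∑ k ∈ Finset.range (n + 1), 4 * F *
        ((n.choose k : ℝ) * (1 - 2 / N) ^ (n - k) * (2 / N) ^ k / Real.sqrt (k + 1)) := by
        refine Finset.sum_le_sum fun k _ => ?_
        rw [abs_mul, abs_of_nonneg (by positivity : (0 : ℝ) ≤ (n.choose k : ℝ))]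
        have h1 := pow_bound50 Y hc0 hYb (n - k) (D ((X ^ k) f)) _ (hDk k) v
        calc (n.choose k : ℝ) * |(Y ^ (n - k)) (D ((X ^ k) f)) v|
            ≤ (n.choose k : ℝ) * ((1 - 2 / N) ^ (n - k) *
              ((2 / N) ^ k * (4 * F / Real.sqrt (k + 1)))) :=
              mul_le_mul_of_nonneg_left h1 (by positivity)
          _ = _ := by ring
    _ = 4 * F * ∑ k ∈ Finset.range (n + 1),
        (n.choose k : ℝ) * (1 - 2 / N) ^ (n - k) * (2 / N) ^ k / Real.sqrt (k + 1) := by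
        rw [Finset.mul_sum]
    _ ≤ 4 * F * (1 / Real.sqrt ((n + 1) * (2 / N))) :=
        mul_le_mul_of_nonneg_left havg (by positivity)

theorem shift_one {V Ω : Type} [CommGroup V] [Fintype Ω] [Nonempty Ω] (s : Ω → V) (σ : Ω ≃ Ω) (hσ : ∀ ω, s (σ ω) = (s ω)⁻¹) :
    ∃ C : ℝ, 0 < C ∧ ∀ (F : ℝ) (f : V → ℝ), (∀ v, 0 ≤ f v ∧ f v ≤ F) → ∀ n : ℕ, 1 ≤ n → ∀ (ω : Ω) (v : V),
      |(Qop s)^[n] f v - (Qop s)^[n] f (v * s ω ^ 2)| ≤ C * F / Real.sqrt n := by
  have hNpos : (0 : ℝ) < Fintype.card Ω := by exact_mod_cast Fintype.card_pos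
  refine ⟨4 * Real.sqrt (Fintype.card Ω), by positivity, fun F f hf n hn ω v => ?_⟩
  have hF : 0 ≤ F := (hf 1).1.trans (hf 1).2
  have hn0 : (0 : ℝ) < n := by exact_mod_cast hn
  by_cases hω : σ ω = ω
  · have h1 : s ω ^ 2 = 1 := by
      have h2 := hσ ω
      rw [hω] at h2
      rw [pow_two]
      nth_rewrite 1 [h2]
      exact inv_mul_cancel _
    rw [h1, mul_one, sub_self, abs_zero]
    positivity
  · refine (one_letter50 s σ hσ ω hω hf n v).trans ?_
    have h1 : (n : ℝ) / Fintype.card Ω ≤ (n + 1) * (2 / Fintype.card Ω) := by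
      rw [mul_div_assoc', div_le_div_iff_of_pos_right hNpos]
      linarith
    have h2 : Real.sqrt n / Real.sqrt (Fintype.card Ω) ≤ Real.sqrt ((n + 1) * (2 / Fintype.card Ω)) := by
      rw [← Real.sqrt_div' _ hNpos.le]
      exact Real.sqrt_le_sqrt h1
    have h3 : 0 < Real.sqrt n / Real.sqrt (Fintype.card Ω) := by positivity
    calc 4 * F * (1 / Real.sqrt ((n + 1) * (2 / Fintype.card Ω)))
        ≤ 4 * F * (1 / (Real.sqrt n / Real.sqrt (Fintype.card Ω))) :=
          mul_le_mul_of_nonneg_left (one_div_le_one_div_of_le h3 h2) (by positivity)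
      _ = 4 * Real.sqrt (Fintype.card Ω) * F / Real.sqrt n := by
          rw [one_div_div]
          ring

end Pool.Agent.Helper13.MS
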