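import Pool.Agent.Helper13.MS.QB
import Pool.Agent.Helper13.MS.EE
import Pool.Agent.Helper13.MS.EF
import Pool.Agent.Helper13.MS.WL

/-!
# MS-SWA: admissible families and the base of the swapping induction

`Adm Tw a0 X S v`: the elements `X i` have the same character value `v`, differ by elements of the derived group, and the law of `φ (X i (X i0)⁻¹)` (`i` uniform)
is the law of the random subset sum of `a0 S`, convolved with some law `R`.
`Dom f F`: `F S v` is at most the average of `f` over every admissible family with data `S, v`.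

`dom_base`: `hK S = entropy (law (a0 S)) ≤ entropy (unif ..)` (`entropy_law_scale`, `entropy_le_mul`, commutativity) and `gibbs` with `ℓ` = word length, `D = |Ω|`
(`card_sphere_le`); `X i = X j` implies equal values of `φ (X i (X i0)⁻¹)`.
`adm_one`: the one point family `X = 1` is admissible with `S = 0`, `v = 1` (`φ 1 = 0` from `φ_mul`).
-/

set_option autoImplicit false

namespace Pool.Agent.Helper13.MS

structure Adm {G K : Type} [Group G] [Field K] (Tw : Twisted G K) (a0 : K) {I : Type} [Fintype I] (X : I → G)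
    (S : Multiset Kˣ) (v : Kˣ) : Prop where
  chi : ∀ i, Tw.χ (X i) = v
  comm : ∀ i j, X i * (X j)⁻¹ ∈ commutator G
  law_eq : ∃ (i0 : I) (R : AddMonoidAlgebra ℝ K), IsLaw R ∧
    unif (fun i => Tw.φ (X i * (X i0)⁻¹)) = law (S.map fun u : Kˣ => a0 * (u : K)) * R

def Dom {G K : Type} [Group G] [Field K] (Tw : Twisted G K) (a0 : K) (f : G → ℝ) (F : Multiset Kˣ → Kˣ → ℝ) : Prop :=
  ∀ (I : Type) [Fintype I] [Nonempty I] (X : I → G) (S : Multiset Kˣ) (v : Kˣ), Adm Tw a0 X S v →
    F S v ≤ (∑ i, f (X i)) / (Fintype.card I : ℝ)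

theorem dom_base {G K Ω : Type} [Group G] [Field K] [Fintype Ω] [Nonempty Ω] (Tw : Twisted G K) (a0 : K) (ha0 : a0 ≠ 0)
    (s : Ω → G) (σ : Ω ≃ Ω) (hσ : ∀ ω, s (σ ω) = (s ω)⁻¹) (hs : Subgroup.closure (Set.range s) = ⊤) :
    Dom Tw a0 (fun g => ((wordLength (Set.range s) g : ℝ) + 1) * Real.log 2 +
      (wordLength (Set.range s) g : ℝ) * Real.log (Fintype.card Ω)) (fun S _ => (hfun K).h S) := by
  intro I _ _ X S v hadm
  obtain ⟨i0, R, hR, hlaw⟩ := hadm.law_eq
  have h1 : (hfun K).h S = entropy (law (S.map fun u : Kˣ => a0 * (u : K))) := by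
    have h2 := entropy_law_scale a0 ha0 (S.map fun v : Kˣ => (v : K))
    rw [Multiset.map_map] at h2
    exact h2.symm
  have h3 : entropy (law (S.map fun u : Kˣ => a0 * (u : K))) ≤
      entropy (unif (fun i => Tw.φ (X i * (X i0)⁻¹))) := by
    rw [hlaw, mul_comm]
    exact entropy_le_mul hR (isLaw_law _)
  have h4 := gibbs X (fun i => Tw.φ (X i * (X i0)⁻¹)) (fun i j hij => by simp only [hij])
    (fun g => wordLength (Set.range s) g) (Fintype.card Ω) Fintype.card_pos
    (fun r B hB => card_sphere_le s σ hσ hs r B hB)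
  change (hfun K).h S ≤ _
  rw [h1]
  exact h3.trans h4

theorem adm_one {G K : Type} [Group G] [Field K] (Tw : Twisted G K) (a0 : K) :
    Adm Tw a0 (fun _ : Unit => (1 : G)) 0 1 := by
  have h0 : Tw.φ 1 = 0 := by
    have h := Tw.φ_mul 1 (one_mem _) 1 (one_mem _)
    rw [mul_one] at h
    simpa using h
  refine ⟨fun _ => by simp, fun _ _ => by simp, ⟨(), 1, isLaw_one, ?_⟩⟩
  simp [unif, law, h0, AddMonoidAlgebra.one_def]

end Pool.Agent.Helper13.MS
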