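import Pool.Agent.Helper13.MS.SWA

/-!
# MS-SWB: a free letter

If `X` is admissible with data `S, v` then `i ↦ X i * g` is admissible with data `S, v * χ g` (`X i g (X j g)⁻¹ = X i (X j)⁻¹`).
Hence `Dom f F → Dom (Qop s f) (Qop (χ ∘ s) (F S))`: exchange the sums over `ω` and `i`.
-/

set_option autoImplicit false

namespace Pool.Agent.Helper13.MS

theorem adm_mul {G K : Type} [Group G] [Field K] (Tw : Twisted G K) (a0 : K) {I : Type} [Fintype I] {X : I → G}
    {S : Multiset Kˣ} {v : Kˣ} (h : Adm Tw a0 X S v) (g : G) : Adm Tw a0 (fun i => X i * g) S (v * Tw.χ g) := by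
  have key : ∀ i j, X i * g * (X j * g)⁻¹ = X i * (X j)⁻¹ := fun i j => by group
  refine ⟨fun i => ?_, fun i j => ?_, ?_⟩
  · show Tw.χ (X i * g) = _
    rw [map_mul, h.chi i]
  · show X i * g * (X j * g)⁻¹ ∈ _
    rw [key]
    exact h.comm i j
  · obtain ⟨i0, R, hR, hl⟩ := h.law_eq
    refine ⟨i0, R, hR, ?_⟩
    show unif (fun i => Tw.φ (X i * g * (X i0 * g)⁻¹)) = _
    simp only [key]
    exact hl

private theorem dom_one94 {G K Ω : Type} [Group G] [Field K] [Fintype Ω] [Nonempty Ω] (Tw : Twisted G K) (a0 : K)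
    (s : Ω → G) (f : G → ℝ) (F : Multiset Kˣ → Kˣ → ℝ) (h : Dom Tw a0 f F) :
    Dom Tw a0 (Qop s f) (fun S => Qop (fun ω => Tw.χ (s ω)) (F S)) := by
  intro I _ _ X S v hX
  show (∑ ω, F S (v * Tw.χ (s ω))) / (Fintype.card Ω : ℝ) ≤
    (∑ i, (∑ ω, f (X i * s ω)) / (Fintype.card Ω : ℝ)) / (Fintype.card I : ℝ)
  have hst : ∀ ω, F S (v * Tw.χ (s ω)) ≤ (∑ i, f (X i * s ω)) / (Fintype.card I : ℝ) :=
    fun ω => h I (fun i => X i * s ω) S _ (adm_mul Tw a0 hX (s ω))
  have h1 : (∑ i, (∑ ω, f (X i * s ω)) / (Fintype.card Ω : ℝ)) / (Fintype.card I : ℝ) =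
      (∑ ω, (∑ i, f (X i * s ω)) / (Fintype.card I : ℝ)) / (Fintype.card Ω : ℝ) := by
    rw [← Finset.sum_div, ← Finset.sum_div, Finset.sum_comm, div_right_comm]
  rw [h1]
  exact div_le_div_of_nonneg_right (Finset.sum_le_sum fun ω _ => hst ω) (Nat.cast_nonneg _)

theorem dom_letter {G K Ω : Type} [Group G] [Field K] [Fintype Ω] [Nonempty Ω] (Tw : Twisted G K) (a0 : K) (s : Ω → G)
    (f : G → ℝ) (F : Multiset Kˣ → Kˣ → ℝ) (h : Dom Tw a0 f F) (n : ℕ) :
    Dom Tw a0 ((Qop s)^[n] f) (fun S => (Qop fun ω => Tw.χ (s ω))^[n] (F S)) := by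
  induction n with
  | zero => exact h
  | succ n ih =>
    have := dom_one94 Tw a0 s _ _ ih
    simp only [← Function.iterate_succ_apply' (Qop s)] at this
    simpa only [Function.iterate_succ_apply'] using this

end Pool.Agent.Helper13.MS
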