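import Pool.Agent.Helper13.MS.SWB

/-!
# MS-SWC: the recording block

Let `X : I → G` be admissible with data `S, v` and let `a, b` be letters.  The family `X' : I × Bool → G`, `X' (i, false) = X i * s a * s b`,
`X' (i, true) = X i * s b * s a` is admissible with data `S', v * χ (s a) * χ (s b)`, where `S' = S` always works, and `S' = v ::ₘ S` works if
`φ (s b * s a * (s b)⁻¹ * (s a)⁻¹) = a0` (`= φ ⁅s b, s a⁆`).  Indeed, with base point `(i0, false)`:
`X' (i, true) (X' (i0, false))⁻¹ = X i (s b s a (s b)⁻¹ (s a)⁻¹) (X i)⁻¹ * (X i (X i0)⁻¹)`, so the value of `φ` is `v φ ⁅s b, s a⁆ + φ (X i (X i0)⁻¹)` (`φ_mul`, `φ_conj`)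
and `unif` of the new family is `coin (v φ ⁅s b, s a⁆) * unif` of the old one (`unif_bool`), absorbed in `R` or, if `φ ⁅s b, s a⁆ = a0`, in `law (a0 (v ::ₘ S))`.
Then `∑_{a,b} ∑_i f (X i s a s b) / |I| = ∑_{a,b} ∑_{(i,ε)} f (X' (i, ε)) / (2 |I|)` by exchanging the names of `a` and `b` in half of the sum, and `Dom f F` applies.
-/

set_option autoImplicit false

namespace Pool.Agent.Helper13.MS

private theorem c_mem27 {G : Type} [Group G] (x y : G) : y * x * y⁻¹ * x⁻¹ ∈ commutator G := by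
  rw [commutator_def]
  exact Subgroup.commutator_mem_commutator (Subgroup.mem_top y) (Subgroup.mem_top x)

private theorem adm_pair27 {G K : Type} [Group G] [Field K] (Tw : Twisted G K) (a0 : K) {I : Type} [Fintype I]
    [Nonempty I] {X : I → G} {S : Multiset Kˣ} {v : Kˣ} (h : Adm Tw a0 X S v) (x y : G) (S' : Multiset Kˣ)
    (hS' : S' = S ∨ (S' = v ::ₘ S ∧ Tw.φ (y * x * y⁻¹ * x⁻¹) = a0)) :
    Adm Tw a0 (fun p : I × Bool => X p.1 * (if p.2 then y * x * y⁻¹ * x⁻¹ else 1) * (x * y)) S'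
      (v * Tw.χ x * Tw.χ y) := by
  obtain ⟨i0, R, hR, hl⟩ := h.law_eq
  have hφ1 : Tw.φ 1 = 0 := by
    have h := Tw.φ_mul 1 (one_mem _) 1 (one_mem _)
    rw [mul_one] at h
    simpa using h
  have hc := c_mem27 x y
  have hcb : ∀ ε : Bool, (if ε then y * x * y⁻¹ * x⁻¹ else 1) ∈ commutator G := by
    intro ε
    cases ε
    · simp
    · simpa using hc
  refine ⟨fun p => ?_, fun p q => ?_, ?_⟩
  · show Tw.χ (X p.1 * (if p.2 then y * x * y⁻¹ * x⁻¹ else 1) * (x * y)) = _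
    have h1 : Tw.χ (if p.2 then y * x * y⁻¹ * x⁻¹ else 1) = 1 := by
      split_ifs
      · simp only [map_mul, map_inv]
        rw [mul_comm (Tw.χ y) (Tw.χ x), mul_assoc (Tw.χ x), mul_inv_cancel, mul_one, mul_inv_cancel]
      · simp
    rw [map_mul, map_mul, h1, mul_one, h.chi, map_mul, mul_assoc]
  · show X p.1 * (if p.2 then y * x * y⁻¹ * x⁻¹ else 1) * (x * y) *
      (X q.1 * (if q.2 then y * x * y⁻¹ * x⁻¹ else 1) * (x * y))⁻¹ ∈ commutator G
    have h1 : X p.1 * (if p.2 then y * x * y⁻¹ * x⁻¹ else 1) * (x * y) *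
        (X q.1 * (if q.2 then y * x * y⁻¹ * x⁻¹ else 1) * (x * y))⁻¹ =
        X p.1 * ((if p.2 then y * x * y⁻¹ * x⁻¹ else 1) * (if q.2 then y * x * y⁻¹ * x⁻¹ else 1)⁻¹) * (X p.1)⁻¹ *
          (X p.1 * (X q.1)⁻¹) := by group
    rw [h1]
    have hn : (commutator G).Normal := inferInstance
    exact mul_mem (hn.conj_mem _ (mul_mem (hcb _) (inv_mem (hcb _))) _) (h.comm _ _)
  · have hval : ∀ p : I × Bool, Tw.φ (X p.1 * (if p.2 then y * x * y⁻¹ * x⁻¹ else 1) * (x * y) *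
        (X i0 * (if false then y * x * y⁻¹ * x⁻¹ else 1) * (x * y))⁻¹) =
        Tw.φ (X p.1 * (X i0)⁻¹) + (if p.2 then (v : K) * Tw.φ (y * x * y⁻¹ * x⁻¹) else 0) := by
      intro p
      have h1 : X p.1 * (if p.2 then y * x * y⁻¹ * x⁻¹ else 1) * (x * y) *
          (X i0 * (if false then y * x * y⁻¹ * x⁻¹ else 1) * (x * y))⁻¹ =
          X p.1 * (if p.2 then y * x * y⁻¹ * x⁻¹ else 1) * (X p.1)⁻¹ * (X p.1 * (X i0)⁻¹) := by
        simp only [Bool.false_eq_true, if_false]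
        group
      have hn : (commutator G).Normal := inferInstance
      rw [h1, Tw.φ_mul _ (hn.conj_mem _ (hcb _) _) _ (h.comm _ _), Tw.φ_conj _ _ (hcb _), h.chi, add_comm]
      congr 1
      split_ifs
      · rfl
      · rw [hφ1, mul_zero]
    have hu : unif (fun p : I × Bool => Tw.φ (X p.1 * (if p.2 then y * x * y⁻¹ * x⁻¹ else 1) * (x * y) *
        (X i0 * (if false then y * x * y⁻¹ * x⁻¹ else 1) * (x * y))⁻¹)) =
        coin ((v : K) * Tw.φ (y * x * y⁻¹ * x⁻¹)) * (law (S.map fun u : Kˣ => a0 * (u : K)) * R) := by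
      rw [← hl, ← unif_bool]
      congr 1
      funext p
      exact hval p
    rcases hS' with hS' | ⟨hS', ha⟩
    · refine ⟨(i0, false), coin ((v : K) * Tw.φ (y * x * y⁻¹ * x⁻¹)) * R, isLaw_mul (isLaw_coin _) hR, ?_⟩
      show unif (fun p : I × Bool => Tw.φ (X p.1 * (if p.2 then y * x * y⁻¹ * x⁻¹ else 1) * (x * y) *
        (X i0 * (if false then y * x * y⁻¹ * x⁻¹ else 1) * (x * y))⁻¹)) = _
      rw [hu, hS']
      ring
    · refine ⟨(i0, false), R, hR, ?_⟩
      show unif (fun p : I × Bool => Tw.φ (X p.1 * (if p.2 then y * x * y⁻¹ * x⁻¹ else 1) * (x * y) *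
        (X i0 * (if false then y * x * y⁻¹ * x⁻¹ else 1) * (x * y))⁻¹)) = _
      rw [hu, hS', Multiset.map_cons, law_cons, ha, mul_comm a0 (v : K)]
      ring

theorem dom_block {G K Ω : Type} [Group G] [Field K] [Fintype Ω] [Nonempty Ω] (Tw : Twisted G K) (a0 : K) (s : Ω → G)
    (α β : Ω) (hαβ : Tw.φ (s β * s α * (s β)⁻¹ * (s α)⁻¹) = a0)
    (f : G → ℝ) (F : Multiset Kˣ → Kˣ → ℝ) (h : Dom Tw a0 f F) :
    Dom Tw a0 ((Qop s)^[2] f) (Bop (fun ω => Tw.χ (s ω)) α β F) := by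
  classical
  intro I _ _ X S v hX
  have hcI : (0 : ℝ) < Fintype.card I := Nat.cast_pos.2 Fintype.card_pos
  have hcO : (0 : ℝ) < Fintype.card Ω := Nat.cast_pos.2 Fintype.card_pos
  have key : ∀ a b : Ω, F (if a = α ∧ b = β then v ::ₘ S else S) (v * Tw.χ (s a) * Tw.χ (s b)) ≤
      (∑ i, (f (X i * s a * s b) + f (X i * s b * s a))) / (2 * Fintype.card I) := by
    intro a b
    have h1 := h (I × Bool) _ (if a = α ∧ b = β then v ::ₘ S else S) _
      (adm_pair27 Tw a0 hX (s a) (s b) (if a = α ∧ b = β then v ::ₘ S else S) (by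
        split_ifs with hab
        · right
          refine ⟨rfl, ?_⟩
          rw [hab.1, hab.2]
          exact hαβ
        · left
          rfl))
    refine h1.trans (le_of_eq ?_)
    rw [Fintype.card_prod, Fintype.card_bool, Fintype.sum_prod_type]
    have h2 : ∀ i, (∑ ε : Bool, f (X (i, ε).1 * (if (i, ε).2 = true then s b * s a * (s b)⁻¹ * (s a)⁻¹ else 1) *
        (s a * s b))) = f (X i * s a * s b) + f (X i * s b * s a) := by
      intro i
      rw [Fintype.sum_bool]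
      have e1 : X i * (s b * s a * (s b)⁻¹ * (s a)⁻¹) * (s a * s b) = X i * s b * s a := by group
      have e2 : X i * 1 * (s a * s b) = X i * s a * s b := by group
      simp only [if_true, Bool.false_eq_true, if_false]
      rw [e1, e2, add_comm]
    rw [Finset.sum_congr rfl fun i _ => h2 i]
    push_cast
    rw [mul_comm (Fintype.card I : ℝ) 2]
  have hsum : ∑ a, ∑ b, F (if a = α ∧ b = β then v ::ₘ S else S) (v * Tw.χ (s a) * Tw.χ (s b)) ≤
      (∑ a, ∑ b, ∑ i, f (X i * s a * s b)) / Fintype.card I := by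
    have h1 : ∑ a, ∑ b, F (if a = α ∧ b = β then v ::ₘ S else S) (v * Tw.χ (s a) * Tw.χ (s b)) ≤
        ∑ a, ∑ b, (∑ i, (f (X i * s a * s b) + f (X i * s b * s a))) / (2 * Fintype.card I) :=
      Finset.sum_le_sum fun a _ => Finset.sum_le_sum fun b _ => key a b
    refine h1.trans (le_of_eq ?_)
    have h2 : ∑ a, ∑ b, (∑ i, (f (X i * s a * s b) + f (X i * s b * s a))) / (2 * Fintype.card I) =
        ((∑ a, ∑ b, ∑ i, f (X i * s a * s b)) + (∑ a, ∑ b, ∑ i, f (X i * s b * s a))) / (2 * Fintype.card I) := by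
      simp only [Finset.sum_add_distrib, ← Finset.sum_div]
    have h3 : (∑ a, ∑ b, ∑ i, f (X i * s b * s a)) = ∑ a, ∑ b, ∑ i, f (X i * s a * s b) := Finset.sum_comm
    rw [h2, h3]
    field_simp
    ring
  show (∑ a, ∑ b, F (if a = α ∧ b = β then v ::ₘ S else S) (v * Tw.χ (s a) * Tw.χ (s b))) /
    (Fintype.card Ω : ℝ) ^ 2 ≤ (∑ i, (∑ a, (∑ b, f (X i * s a * s b)) / (Fintype.card Ω : ℝ)) / (Fintype.card Ω : ℝ)) /
      (Fintype.card I : ℝ)
  refine (div_le_div_of_nonneg_right hsum (by positivity)).trans (le_of_eq ?_)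
  have h4 : (∑ i, (∑ a, (∑ b, f (X i * s a * s b)) / (Fintype.card Ω : ℝ)) / (Fintype.card Ω : ℝ)) =
      (∑ a, ∑ b, ∑ i, f (X i * s a * s b)) / (Fintype.card Ω : ℝ) ^ 2 := by
    have h5 : (∑ a, ∑ b, ∑ i, f (X i * s a * s b)) = ∑ i, ∑ a, ∑ b, f (X i * s a * s b) := by
      rw [Finset.sum_comm' (s := Finset.univ) (t := fun _ => Finset.univ) (t' := Finset.univ)
        (s' := fun _ => Finset.univ) (by simp)]
      rw [Finset.sum_congr rfl fun b _ => Finset.sum_comm]
      rw [Finset.sum_comm]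
      refine Finset.sum_congr rfl fun i _ => ?_
      rw [Finset.sum_comm]
    rw [h5]
    simp only [← Finset.sum_div]
    rw [div_div, sq]
  rw [h4, div_div, div_div, mul_comm]

end Pool.Agent.Helper13.MS
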